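import Mathlib

/-! A connected open set stays connected when a hypersurface is removed. -/

namespace Pool.Agent.Lib.MP_5591bc_ag.F

open Set Filter Topology

variable {σ : Type*} [Fintype σ] {D : MvPolynomial σ ℂ}

/-- `MvPolynomial.funext_set` or the identity theorem -/
theorem off_freq (D0 : D ≠ 0) (t : σ → ℂ) : ∃ᶠ z in 𝓝 t, MvPolynomial.eval z D ≠ 0 := by
  intro hne
  apply D0
  have h1 : ∀ᶠ z in 𝓝 t, MvPolynomial.eval z D = 0 := by
    filter_upwards [hne] with z hz
    exact not_not.mp hz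
  obtain ⟨r, hr, hb⟩ := Metric.eventually_nhds_iff_ball.mp h1
  refine MvPolynomial.funext_set (fun i => Metric.ball (t i) r) (fun i => ?_) (fun x hx => ?_)
  · exact infinite_of_mem_nhds (t i) (Metric.ball_mem_nhds _ hr)
  · rw [map_zero]
    apply hb
    rw [ball_pi _ hr]
    exact hx

omit [Fintype σ] in
/-- the zeros of `D` on a complex line through a point off the hypersurface are finitely many -/
theorem off_fin (s v : σ → ℂ) (s0 : MvPolynomial.eval s D ≠ 0) :
    {ζ : ℂ | MvPolynomial.eval (s + ζ • v) D = 0}.Finite := by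
  let q : Polynomial ℂ :=
    MvPolynomial.aeval (fun i => Polynomial.C (s i) + Polynomial.X * Polynomial.C (v i)) D
  have hq : ∀ ζ : ℂ, q.eval ζ = MvPolynomial.eval (s + ζ • v) D := by
    intro ζ
    have e : ∀ P : MvPolynomial σ ℂ, Polynomial.eval ζ (MvPolynomial.aeval
        (fun i => Polynomial.C (s i) + Polynomial.X * Polynomial.C (v i)) P)
        = MvPolynomial.eval (s + ζ • v) P := by
      intro P
      induction P using MvPolynomial.induction_on with
      | C a => simp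
      | add p q hp hq => rw [map_add, map_add, Polynomial.eval_add, hp, hq]
      | mul_X p i hp =>
        rw [map_mul, map_mul, Polynomial.eval_mul, hp]
        simp [mul_comm ζ (v i)]
    exact e D
  have q0 : q ≠ 0 := by
    intro h
    apply s0
    have := hq 0
    rw [h] at this
    simpa using this.symm
  refine (q.roots.toFinset.finite_toSet).subset (fun ζ hζ => ?_)
  simp only [Finset.mem_coe, Multiset.mem_toFinset, Polynomial.mem_roots q0, Polynomial.IsRoot.def]
  rw [hq]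
  exact hζ

/-- On `φ ζ = s + ζ • (t - s)` the zeros of `D` are finitely many; the arcs
`ζ = u + I ε u (1 - u)`, `u ∈ [0, 1]`, stay in `U` for small `ε` and avoid the zeros for all but
finitely many `ε`; `isPreconnected_Icc.induction₂'`. -/
theorem off_cvx {U : Set (σ → ℂ)} (ho : IsOpen U) (hc : Convex ℝ U) {I : (σ → ℂ) → Prop}
    (hI : ∀ t ∈ U, MvPolynomial.eval t D ≠ 0 → ∀ᶠ z in 𝓝 t, I z ↔ I t) {s t : σ → ℂ}
    (hs : s ∈ U) (ht : t ∈ U) (s0 : MvPolynomial.eval s D ≠ 0) (t0 : MvPolynomial.eval t D ≠ 0)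
    (h : I s) : I t := by
  have hfin := off_fin (D := D) s (t - s) s0
  let γ : ℝ → ℝ → ℂ := fun ε u => (u : ℂ) + Complex.I * ((ε * (u * (1 - u)) : ℝ) : ℂ)
  let φ : ℂ → (σ → ℂ) := fun ζ => s + ζ • (t - s)
  have hφ : Continuous φ := by fun_prop
  have hγ : Continuous (fun p : ℝ × ℝ => γ p.1 p.2) := by fun_prop
  have h1 : ∀ᶠ ε in 𝓝 (0 : ℝ), ∀ u ∈ Icc (0 : ℝ) 1, φ (γ ε u) ∈ U := by
    apply isCompact_Icc.eventually_forall_of_forall_eventually
    intro u hu
    have hm : φ (γ 0 u) ∈ U := by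
      have := hc.add_smul_sub_mem hs ht hu
      convert this using 1
      ext i
      simp [φ, γ]
    exact (hφ.comp hγ).continuousAt.eventually (ho.mem_nhds (x := φ (γ 0 u)) hm)
  have hB := hfin.image (fun z : ℂ => z.im / (z.re * (1 - z.re)))
  obtain ⟨ε, hε, hεB⟩ := ((infinite_of_mem_nhds (0 : ℝ) h1).sdiff hB).nonempty
  have g0 : φ (γ ε 0) = s := by simp [φ, γ]
  have g1 : φ (γ ε 1) = t := by simp [φ, γ]
  have hz : ∀ u ∈ Icc (0 : ℝ) 1, MvPolynomial.eval (φ (γ ε u)) D ≠ 0 := by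
    intro u _ h0
    by_cases u0 : u = 0
    · rw [u0, g0] at h0
      exact s0 h0
    by_cases u1 : u = 1
    · rw [u1, g1] at h0
      exact t0 h0
    apply hεB
    refine ⟨γ ε u, h0, ?_⟩
    have e1 : (γ ε u).re = u := by simp [γ]
    have e2 : (γ ε u).im = ε * (u * (1 - u)) := by simp [γ]
    have e3 : u * (1 - u) ≠ 0 := mul_ne_zero u0 (sub_ne_zero.mpr (Ne.symm u1))
    simp only [e1, e2]
    exact mul_div_cancel_right₀ _ e3
  have hcu : Continuous (fun u : ℝ => φ (γ ε u)) :=
    hφ.comp (hγ.comp (continuous_const.prodMk continuous_id))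
  have key := (isPreconnected_Icc (a := (0 : ℝ)) (b := 1)).induction₂'
    (fun a b => I (φ (γ ε a)) → I (φ (γ ε b))) (fun u hu => by
      have := hcu.continuousAt.eventually (hI _ (hε u hu) (hz u hu))
      filter_upwards [nhdsWithin_le_nhds this] with y hy
      exact ⟨hy.mpr, hy.mp⟩) (fun a b c _ _ _ p q => q ∘ p)
    (x := 0) (y := 1) ⟨le_rfl, zero_le_one⟩ ⟨zero_le_one, le_rfl⟩
  rw [g0, g1] at key
  exact key h

/-- `hc.induction₂'` for `J x := ∀ᶠ z in 𝓝 x, eval z D ≠ 0 → I z`, `off_cvx` on balls -/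
theorem off_ind {U : Set (σ → ℂ)} (ho : IsOpen U) (hc : IsPreconnected U) {I : (σ → ℂ) → Prop}
    (hI : ∀ t ∈ U, MvPolynomial.eval t D ≠ 0 → ∀ᶠ z in 𝓝 t, I z ↔ I t) {s t : σ → ℂ}
    (hs : s ∈ U) (ht : t ∈ U) (s0 : MvPolynomial.eval s D ≠ 0) (t0 : MvPolynomial.eval t D ≠ 0)
    (h : I s) : I t := by
  have D0 : D ≠ 0 := by
    rintro rfl
    exact s0 (map_zero _)
  let J : (σ → ℂ) → Prop := fun x => ∀ᶠ z in 𝓝 x, MvPolynomial.eval z D ≠ 0 → I z
  have hJ : ∀ x ∈ U, ∀ᶠ y in 𝓝[U] x, (J x → J y) ∧ (J y → J x) := by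
    intro x hx
    obtain ⟨r, hr, hb⟩ := Metric.isOpen_iff.mp ho x hx
    have step : ∀ a ∈ Metric.ball x r, ∀ b ∈ Metric.ball x r, J a → J b := by
      intro a ha b hb' ja
      obtain ⟨w, w0, jw, hw⟩ := ((off_freq D0 a).and_eventually
        (ja.and (Metric.isOpen_ball.eventually_mem ha))).exists
      filter_upwards [Metric.isOpen_ball.eventually_mem hb'] with z hz z0
      exact off_cvx Metric.isOpen_ball (convex_ball x r) (fun t ht => hI t (hb ht)) hw hz w0 z0
        (jw w0)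
    filter_upwards [nhdsWithin_le_nhds (Metric.ball_mem_nhds x hr)] with y hy
    exact ⟨step x (Metric.mem_ball_self hr) y hy, step y hy x (Metric.mem_ball_self hr)⟩
  have key := hc.induction₂' (fun a b => J a → J b) hJ (fun a b c _ _ _ p q => q ∘ p) hs ht
  have js : J s := by
    filter_upwards [hI s hs s0] with z hz _
    exact hz.mpr h
  exact (key js).self_of_nhds t0

end Pool.Agent.Lib.MP_5591bc_ag.F
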