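import Pool.Agent.Lib.MP_5591bc_ag.F.Set

/-! Periods are analytic and satisfy the Picard-Fuchs system. -/

namespace Pool.Agent.Lib.MP_5591bc_ag.F

open Polynomial Finset Filter Topology M

noncomputable section

theorem per_root {E A : Type*} [NormedAddCommGroup E] [NormedSpace ℂ E] [NormedCommRing A]
    [NormedAlgebra ℂ A] [CompleteSpace A] {N : ℕ} (N0 : 0 < N) {Y G : E → A} {s : E}
    (hY : ContinuousAt Y s) (hu : IsUnit (Y s)) (hG : AnalyticAt ℂ G s)
    (h : ∀ᶠ t in 𝓝 s, Y t ^ N = G t) : AnalyticAt ℂ Y s := by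
  have hv : IsUnit (N • Y s ^ (N - 1)) := by
    rw [nsmul_eq_mul, ← map_natCast (algebraMap ℂ A)]
    exact ((Nat.cast_ne_zero.2 N0.ne').isUnit.map _).mul (hu.pow _)
  obtain ⟨v, hv⟩ := hv
  let i : A ≃L[ℂ] A := .equivOfInverse (ContinuousLinearMap.mul ℂ A v)
    (ContinuousLinearMap.mul ℂ A ↑v⁻¹) (fun z => by simp) fun z => by simp
  have ha : AnalyticAt ℂ (fun z : A => z ^ N) (Y s) := analyticAt_id.fun_pow N
  have hd : HasStrictFDerivAt (fun z : A => z ^ N) (i : A →L[ℂ] A) (Y s) := by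
    convert hasStrictFDerivAt_pow (𝕜 := ℂ) N (x := Y s) using 1
    ext z
    simp [i, hv]
  have h1 := (hd.toOpenPartialHomeomorph _).analyticAt_symm'
    hd.mem_toOpenPartialHomeomorph_source ha hd.hasFDerivAt.fderiv
  have h2 : AnalyticAt ℂ (fun t => (hd.toOpenPartialHomeomorph _).symm (G t)) s :=
    AnalyticAt.comp_of_eq h1 hG h.self_of_nhds.symm
  refine h2.congr ?_
  filter_upwards [h, hY.eventually hd.eventually_left_inverse] with t h3 h4
  rw [← h3]
  exact h4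

theorem per_droot {F : Type*} [NontriviallyNormedField F] [NormedAlgebra F ℂ] {y g : F → ℂ}
    {N : ℕ} (N0 : 0 < N) {a : F} {g' : ℂ} (hy : ContinuousAt y a) (h0 : y a ≠ 0)
    (h : ∀ᶠ x in 𝓝 a, y x ^ N = g x) (hg : HasDerivAt g g' a) :
    HasDerivAt y (g' * y a / (N * y a ^ N)) a := by
  have h1 : Tendsto (fun x => ∑ i ∈ range N, y x ^ i * y a ^ (N - 1 - i)) (𝓝[≠] a)
      (𝓝 (N * y a ^ (N - 1))) := by
    rw [← geom_sum₂_self]
    exact tendsto_finsetSum _ fun i _ =>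
      ((hy.tendsto.mono_left nhdsWithin_le_nhds).pow i).mul_const _
  have hN : (N : ℂ) ≠ 0 := Nat.cast_ne_zero.2 N0.ne'
  have h2 : N * y a ^ (N - 1) ≠ 0 := mul_ne_zero hN (pow_ne_zero _ h0)
  have e : g' * y a / (N * y a ^ N) = g' / (N * y a ^ (N - 1)) := by
    obtain ⟨N, rfl⟩ := Nat.exists_eq_succ_of_ne_zero N0.ne'
    rw [Nat.succ_sub_one, pow_succ]
    field_simp
  rw [e]
  refine hasDerivAt_iff_tendsto_slope.2 ((hg.tendsto_slope.div h1 h2).congr' ?_)
  filter_upwards [h1.eventually_ne h2, h.filter_mono nhdsWithin_le_nhds] with x h3 hx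
  rw [Pi.div_apply, div_eq_iff h3, slope, slope, smul_mul_assoc, ← hx, ← h.self_of_nhds,
    vsub_eq_sub, vsub_eq_sub, ← geom_sum₂_mul, mul_comm]

theorem per_ddiv {F : Type*} [NontriviallyNormedField F] [NormedAlgebra F ℂ] {y g c : F → ℂ}
    {N : ℕ} (N0 : 0 < N) (a : ℕ) {b : F} {g' c' : ℂ} (hy : ContinuousAt y b) (h0 : y b ≠ 0)
    (h : ∀ᶠ x in 𝓝 b, y x ^ N = g x) (hg : HasDerivAt g g' b) (hc : HasDerivAt c c' b) :
    HasDerivAt (fun x => c x / y x ^ a)
      ((N * c' * g b - a * c b * g') / (N * y b ^ (a + N))) b := by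
  have hN : (N : ℂ) ≠ 0 := Nat.cast_ne_zero.2 N0.ne'
  refine (hc.fun_div ((per_droot N0 hy h0 h hg).fun_pow a) (pow_ne_zero _ h0)).congr_deriv ?_
  rw [← h.self_of_nhds]
  rcases a with _ | a
  · simp
    field_simp
  · rw [Nat.add_sub_cancel]
    field_simp
    ring

/-- the integral over `[0, 1]` -/
def perL : C(Set.Icc (0 : ℝ) 1, ℂ) →L[ℂ] ℂ :=
  LinearMap.mkContinuous
    { toFun := fun F => ∫ u in (0 : ℝ)..1, F (Set.projIcc 0 1 zero_le_one u)
      map_add' := fun F G => intervalIntegral.integral_add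
        ((F.continuous.comp continuous_projIcc).intervalIntegrable _ _)
        ((G.continuous.comp continuous_projIcc).intervalIntegrable _ _)
      map_smul' := fun c F => intervalIntegral.integral_smul c _ } 1 fun F => by
    simpa using intervalIntegral.norm_integral_le_of_norm_le_const (a := 0) (b := 1) (C := ‖F‖)
      (f := fun u => F (Set.projIcc 0 1 zero_le_one u)) fun u _ => F.norm_coe_le_norm _

theorem perL_eq (F : C(Set.Icc (0 : ℝ) 1, ℂ)) {φ : ℝ → ℂ} (h : ∀ u, F u = φ u) :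
    perL F = ∫ u in (0 : ℝ)..1, φ u :=
  intervalIntegral.integral_congr fun u hu => by
    rw [Set.uIcc_of_le zero_le_one] at hu
    simp only [Set.projIcc_of_mem _ hu, h]

variable {σ K : Type*} [Fintype σ] [DecidableEq σ] [Field K] [Algebra K ℂ]
  {f : (MvPolynomial σ K)[X]} {n : ℕ}

omit [Fintype σ] [DecidableEq σ] [Algebra K ℂ] in
theorem per_ind {P : (MvPolynomial σ K)[X] → Prop} (hc : ∀ k, P (C (MvPolynomial.C k)))
    (hv : ∀ m, P (C (MvPolynomial.X m))) (hX : P X) (ha : ∀ p q, P p → P q → P (p + q))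
    (hm : ∀ p q, P p → P q → P (p * q)) (p) : P p := by
  refine p.induction_on (fun a => a.induction_on (motive := fun a => P (C a)) hc
    (fun p q hp hq => ?_) fun p m hp => ?_) ha fun n a h => ?_
  · rw [C_add]; exact ha _ _ hp hq
  · rw [C_mul]; exact hm _ _ hp (hv m)
  · rw [pow_succ, ← mul_assoc]; exact hm _ _ h hX

omit [DecidableEq σ] in
theorem per_lift (ξ : C(Set.Icc (0 : ℝ) 1, ℂ)) (s : σ → ℂ) (p : (MvPolynomial σ K)[X]) :
    ∃ G : (σ → ℂ) → C(Set.Icc (0 : ℝ) 1, ℂ), AnalyticAt ℂ G s ∧ ∀ t u, G t u = ev p t (ξ u) := by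
  induction p using per_ind with
  | hc k => exact ⟨fun _ => .const _ (algebraMap K ℂ k), analyticAt_const, by simp [ev]⟩
  | hv m => exact ⟨fun t => t m • 1, ((ContinuousLinearMap.proj (R := ℂ) (φ := fun _ : σ => ℂ)
      m).analyticAt s).fun_smul analyticAt_const, by simp [ev]⟩
  | hX => exact ⟨fun _ => ξ, analyticAt_const, by simp [ev]⟩
  | ha p q hp hq =>
    obtain ⟨G, h1, h2⟩ := hp
    obtain ⟨H, h3, h4⟩ := hq
    exact ⟨fun t => G t + H t, h1.fun_add h3, by simp [ev, h2, h4]⟩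
  | hm p q hp hq =>
    obtain ⟨G, h1, h2⟩ := hp
    obtain ⟨H, h3, h4⟩ := hq
    exact ⟨fun t => G t * H t, h1.fun_mul h3, by simp [ev, h2, h4]⟩

omit [Fintype σ] in
theorem per_line (s : σ → ℂ) (l : σ) (z : ℂ) (p : (MvPolynomial σ K)[X]) :
    HasDerivAt (fun τ : ℂ => ev p (s + τ • Pi.single l 1) z) (ev (cd l p) s z) 0 := by
  induction p using per_ind with
  | hc k => simpa [ev, cd_C] using hasDerivAt_const (0 : ℂ) (algebraMap K ℂ k)
  | hv m =>
    have := ((hasDerivAt_id (0 : ℂ)).mul_const ((Pi.single l 1 : σ → ℂ) m)).const_add (s m)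
    by_cases e : m = l
    · subst e; simpa [ev, cd_C] using this
    · simpa [ev, cd_C, e] using this
  | hX => simpa [ev, cd_X] using hasDerivAt_const (0 : ℂ) z
  | ha p q hp hq => simpa [ev] using hp.fun_add hq
  | hm p q hp hq =>
    have := hp.fun_mul hq
    simp only [ev, eval₂_mul, Derivation.leibniz, smul_eq_mul, eval₂_add, zero_smul, add_zero]
      at this ⊢
    exact this.congr_deriv (by ring)

omit [Fintype σ] [DecidableEq σ] in
theorem per_dx (s : σ → ℂ) (z : ℂ) (p : (MvPolynomial σ K)[X]) :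
    HasDerivAt (ev p s) (ev (derivative p) s z) z := by
  have := (p.map (MvPolynomial.aeval s : MvPolynomial σ K →ₐ[K] ℂ).toRingHom).hasDerivAt z
  simp only [eval_map, derivative_map] at this
  exact this

theorem per_core {N a : ℕ} (N0 : 0 < N) {V : Set (σ → ℂ)} {x : ℝ → ℂ} {y : (σ → ℂ) → ℝ → ℂ}
    (h : IsLoopM N (ev f) V x y) {s : σ → ℂ} (hV : V ∈ 𝓝 s) {c : ℝ → ℂ} (hc : Continuous c) :
    AnalyticAt ℂ (fun t => ∫ u in (0 : ℝ)..1, c u / y t u ^ a) s ∧
    ∀ l, fderiv ℂ (fun t => ∫ u in (0 : ℝ)..1, c u / y t u ^ a) s (Pi.single l 1) =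
      ∫ u in (0 : ℝ)..1, -(a * c u * ev (cd l f) s (x u)) / (N * y s u ^ (a + N)) := by
  obtain ⟨h1, -, h3, h4⟩ := h
  let Y : (σ → ℂ) → C(Set.Icc (0 : ℝ) 1, ℂ) := fun t =>
    .mkD ((Set.Icc (0 : ℝ) 1).domRestrict (y t)) 0
  have hY : ∀ t ∈ V, ∀ u, Y t u = y t u := fun t ht u =>
    ContinuousMap.mkD_apply_of_continuousOn
      (h3.comp (f := fun u => (t, u)) (by fun_prop) fun _ hu => ⟨ht, hu⟩)
  have hu : ∀ t ∈ V, IsUnit (Y t) := fun t ht =>
    (ContinuousMap.isUnit_iff_forall_ne_zero _).2 fun u => by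
      rw [hY t ht]; exact ((h4 t ht).2 u u.2).1
  have hs := mem_of_mem_nhds hV
  obtain ⟨G, g1, g2⟩ := per_lift ⟨fun u => x u, h1.continuous.comp continuous_subtype_val⟩ s f
  have hA : AnalyticAt ℂ Y s := per_root N0
    ((ContinuousMap.continuousOn_mkD_restrict_of_uncurry y 0 h3).continuousAt hV) (hu s hs) g1
    (mem_of_superset hV fun t ht => ContinuousMap.ext fun u => by
      rw [ContinuousMap.pow_apply, hY t ht, g2]; exact ((h4 t ht).2 u u.2).2)
  let F : (σ → ℂ) → C(Set.Icc (0 : ℝ) 1, ℂ) := fun t =>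
    (⟨fun u => c u, hc.comp continuous_subtype_val⟩ : C(Set.Icc (0 : ℝ) 1, ℂ)) *
      Ring.inverse (Y t) ^ a
  have hF : AnalyticAt ℂ F s := analyticAt_const.fun_mul
    ((AnalyticAt.comp_of_eq (analyticAt_inverse (𝕜 := ℂ) (hu s hs).unit) hA rfl).fun_pow a)
  have hFv : ∀ t ∈ V, ∀ u, F t u = c u / y t u ^ a := fun t ht u => by
    have e := congrArg (· u) (Ring.mul_inverse_cancel _ (hu t ht))
    simp only [ContinuousMap.mul_apply, ContinuousMap.one_apply, hY t ht] at e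
    simp only [F, ContinuousMap.mul_apply, ContinuousMap.pow_apply, ContinuousMap.coe_mk,
      eq_inv_of_mul_eq_one_right e, inv_pow, div_eq_mul_inv]
  have e : (fun t => perL (F t)) =ᶠ[𝓝 s] fun t => ∫ u in (0 : ℝ)..1, c u / y t u ^ a :=
    mem_of_superset hV fun t ht => perL_eq _ (hFv t ht)
  refine ⟨((perL.analyticAt _).comp hF).congr e, fun l => ?_⟩
  rw [← e.fderiv_eq, HasFDerivAt.fderiv (f := fun t => perL (F t))
    (perL.hasFDerivAt.comp s hF.differentiableAt.hasFDerivAt)]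
  refine perL_eq _ fun u => ?_
  have hl : HasDerivAt (fun τ : ℂ => s + τ • (Pi.single l 1 : σ → ℂ)) (Pi.single l 1) 0 := by
    simpa using ((hasDerivAt_id (0 : ℂ)).smul_const (Pi.single l 1 : σ → ℂ)).const_add s
  have h0 : s = s + (0 : ℂ) • (Pi.single l 1 : σ → ℂ) := by simp
  have hW : ∀ᶠ τ : ℂ in 𝓝 0, s + τ • (Pi.single l 1 : σ → ℂ) ∈ V :=
    hl.continuousAt.eventually_mem (h0 ▸ hV)
  have d1 := ((ContinuousMap.evalCLM ℂ u).hasFDerivAt.comp s
    hF.differentiableAt.hasFDerivAt).comp_hasDerivAt_of_eq 0 hl h0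
  have d2 := per_ddiv (y := fun τ : ℂ => y (s + τ • Pi.single l 1) u) N0 a
    ((h3.comp (f := fun τ : ℂ => (s + τ • Pi.single l 1, (u : ℝ))) (by fun_prop)
      fun _ ht => ⟨ht, u.2⟩).continuousAt hW) ((h4 _ hW.self_of_nhds).2 u u.2).1
    (hW.mono fun τ hτ => ((h4 _ hτ).2 u u.2).2) (per_line s l (x u) f) (hasDerivAt_const _ (c u))
  refine (d1.unique (d2.congr_of_eventuallyEq (hW.mono fun τ hτ => hFv _ hτ u))).trans ?_
  simp

omit [Fintype σ] [DecidableEq σ] in
theorem per_exact {N a : ℕ} (N0 : 0 < N) {V : Set (σ → ℂ)} {x : ℝ → ℂ} {y : (σ → ℂ) → ℝ → ℂ}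
    (h : IsLoopM N (ev f) V x y) {s : σ → ℂ} (hs : s ∈ V) (q : (MvPolynomial σ K)[X]) :
    ∫ u in (0 : ℝ)..1, deriv x u * ev (tw derivative f N a q) s (x u) /
      (N * y s u ^ (a + N)) = 0 := by
  obtain ⟨h1, h2, h3, h4⟩ := h
  have c1 := h1.continuous
  have c2 := h1.continuous_deriv le_rfl
  have c3 : ContinuousOn (y s) (Set.Icc 0 1) :=
    h3.comp (f := fun u => (s, u)) (by fun_prop) fun _ hu => ⟨hs, hu⟩
  have c4 : ∀ p : (MvPolynomial σ K)[X], Continuous fun u => ev p s (x u) := fun p =>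
    (continuous_iff_continuousAt.2 fun z => (per_dx s z p).continuousAt).comp c1
  have hN : (N : ℂ) ≠ 0 := Nat.cast_ne_zero.2 N0.ne'
  rw [intervalIntegral.integral_eq_sub_of_hasDerivAt_of_le zero_le_one
    (f := fun u => ev q s (x u) / y s u ^ a) (f' := fun u => deriv x u *
      ev (tw derivative f N a q) s (x u) / (N * y s u ^ (a + N)))
    ((c4 q).continuousOn.div (c3.pow a) fun u hu => pow_ne_zero _ ((h4 s hs).2 u hu).1)
    (fun u hu => ?_) (((c2.mul (c4 _)).continuousOn.div (continuousOn_const.mul (c3.pow _))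
      fun u hu => mul_ne_zero hN (pow_ne_zero _ ((h4 s hs).2 u hu).1)).intervalIntegrable_of_Icc
        zero_le_one), h2, (h4 s hs).1, sub_self]
  have hI := Icc_mem_nhds hu.1 hu.2
  have hx := (h1.differentiable one_ne_zero u).hasDerivAt
  refine (per_ddiv N0 a (c3.continuousAt hI) ((h4 s hs).2 u (Set.Ioo_subset_Icc_self hu)).1
    (mem_of_superset hI fun u hu => ((h4 s hs).2 u hu).2) ((per_dx s _ f).scomp u hx)
    ((per_dx s _ q).scomp u hx)).congr_deriv ?_
  simp only [tw, ev, eval₂_sub, eval₂_mul, eval₂_natCast, smul_eq_mul, Function.comp]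
  ring

theorem per_col {N a : ℕ} (N0 : 0 < N) {V : Set (σ → ℂ)} {x : ℝ → ℂ} {y : (σ → ℂ) → ℝ → ℂ}
    (h : IsLoopM N (ev f) V x y) {s : σ → ℂ} (hV : V ∈ 𝓝 s) (i : Fin n) :
    AnalyticAt ℂ (fun t => ∫ u in (0 : ℝ)..1, x u ^ (i : ℕ) * deriv x u / y t u ^ a) s ∧
    ∀ l T (W : Matrix (Fin n) (Fin n) (MvPolynomial σ K)), PF f N a l T W →
      MvPolynomial.aeval s T * fderiv ℂ
        (fun t => ∫ u in (0 : ℝ)..1, x u ^ (i : ℕ) * deriv x u / y t u ^ a) s (Pi.single l 1) =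
      ∑ j, MvPolynomial.aeval s (W i j) *
        ∫ u in (0 : ℝ)..1, x u ^ (j : ℕ) * deriv x u / y s u ^ a := by
  have c1 := h.1.continuous
  have c2 := h.1.continuous_deriv le_rfl
  have hs := mem_of_mem_nhds hV
  obtain ⟨a1, a2⟩ := per_core (a := a) (c := fun u => x u ^ (i : ℕ) * deriv x u) N0 h hV
    ((c1.pow (i : ℕ)).mul c2)
  refine ⟨a1, fun l T W hW => ?_⟩
  obtain ⟨q, hq⟩ := hW i
  have c3 : ContinuousOn (y s) (Set.Icc 0 1) :=
    h.2.2.1.comp (f := fun u => (s, u)) (by fun_prop) fun _ hu => ⟨hs, hu⟩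
  have c4 : ∀ p : (MvPolynomial σ K)[X], Continuous fun u => ev p s (x u) := fun p =>
    (continuous_iff_continuousAt.2 fun z => (per_dx s z p).continuousAt).comp c1
  have hN : (N : ℂ) ≠ 0 := Nat.cast_ne_zero.2 N0.ne'
  have h4 := (h.2.2.2 s hs).2
  have i1 : ∀ j : Fin n, IntervalIntegrable (fun u => MvPolynomial.aeval s (W i j) *
      (x u ^ (j : ℕ) * deriv x u / y s u ^ a)) MeasureTheory.volume 0 1 := fun j =>
    ((((c1.pow _).mul c2).continuousOn.div (c3.pow a) fun u hu =>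
      pow_ne_zero _ (h4 u hu).1).intervalIntegrable_of_Icc zero_le_one).const_mul _
  simp only [← intervalIntegral.integral_const_mul]
  rw [a2, ← intervalIntegral.integral_const_mul, ← intervalIntegral.integral_finsetSum
    fun j _ => i1 j, ← zero_add (intervalIntegral (fun u => ∑ j, _) _ _ _),
    ← per_exact (a := a) N0 h hs q, ← intervalIntegral.integral_add (f := fun u => deriv x u *
      ev (tw derivative f N a q) s (x u) / (N * y s u ^ (a + N)))
      (((c2.mul (c4 _)).continuousOn.div (continuousOn_const.mul (c3.pow _))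
      fun u hu => mul_ne_zero hN (pow_ne_zero _ (h4 u hu).1)).intervalIntegrable_of_Icc
        zero_le_one) (by
          simpa only [Finset.sum_fn] using IntervalIntegrable.sum univ fun j _ => i1 j)]
  refine intervalIntegral.integral_congr fun u hu => ?_
  rw [Set.uIcc_of_le zero_le_one] at hu
  obtain ⟨h5, h6⟩ := h4 u hu
  have e := congrArg (fun p => ev p s (x u)) hq
  have e0 : cd l (X ^ (i : ℕ) : (MvPolynomial σ K)[X]) = 0 := by simp [cd_X]
  rw [tw, e0] at e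
  simp only [ev, eval₂_sub, eval₂_add, eval₂_mul, eval₂_natCast, eval₂_C, eval₂_X_pow,
    eval₂_finsetSum, eval₂_zero, RingHom.coe_coe] at e h6 ⊢
  have e1 : ∑ j, MvPolynomial.aeval s (W i j) * (x u ^ (j : ℕ) * deriv x u / y s u ^ a) =
      (∑ j, MvPolynomial.aeval s (W i j) * x u ^ (j : ℕ)) * deriv x u / y s u ^ a := by
    rw [Finset.sum_mul, Finset.sum_div]
    exact Finset.sum_congr rfl fun j _ => by ring
  rw [e1, eq_sub_of_add_eq e.symm, ← h6]
  field_simp
  ring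

theorem per_ode {U : Set (σ → ℂ)} {P : (σ → ℂ) → Matrix (Fin n) (Fin n) ℂ}
    (hP : IsPerM (ev f) U P) {s : σ → ℂ} (hs : s ∈ U) (i j : Fin n) :
    AnalyticAt ℂ (fun t => P t i j) s ∧
    ∀ l T (W : Matrix (Fin n) (Fin n) (MvPolynomial σ K)), PF f 2 1 l T W →
      MvPolynomial.aeval s T * fderiv ℂ (fun t => P t i j) s (Pi.single l 1) =
      ∑ k, MvPolynomial.aeval s (W i k) * P s k j := by
  obtain ⟨V, hV, x, y, h, e⟩ := (hP s hs).2 j
  obtain ⟨a1, a2⟩ := per_col (a := 1) two_pos h hV i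
  simp only [pow_one] at a1 a2
  have e' : (fun t => P t i j) =ᶠ[𝓝 s]
      fun t => ∫ u in (0 : ℝ)..1, x u ^ (i : ℕ) * deriv x u / y t u :=
    mem_of_superset hV fun t ht => e t ht i
  refine ⟨a1.congr e'.symm, fun l T W hW => ?_⟩
  rw [e'.fderiv_eq, a2 l T W hW]
  exact Finset.sum_congr rfl fun k _ => by rw [e s (mem_of_mem_nhds hV) k]

theorem per_fund {U : Set (σ → ℂ)} {P : (σ → ℂ) → Matrix (Fin n) (Fin n) ℂ}
    (hP : IsPerM (ev f) U P) {T : MvPolynomial σ K}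
    {W : σ → Matrix (Fin n) (Fin n) (MvPolynomial σ K)} (h : ∀ l, PF f 2 1 l T (W l)) :
    FundM T W U P :=
  fun s hs => ⟨(hP s hs).1, fun i j => ⟨(per_ode hP hs i j).1,
    fun l => (per_ode hP hs i j).2 l T (W l) (h l)⟩⟩

end

end Pool.Agent.Lib.MP_5591bc_ag.F
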