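import Pool.Agent.Lib.MP_5591bc_ag.F.Lp
import Pool.Agent.Lib.MP_5591bc_ag.F.Per

/-! Loops persist under deformation of the curve. -/

namespace Pool.Agent.Lib.MP_5591bc_ag.F

open Set Polynomial Filter Topology

theorem IsPerM.lp {σ : Type*} {g : (σ → ℂ) → ℂ → ℂ} {n : ℕ} {U : Set (σ → ℂ)}
    {P : (σ → ℂ) → Matrix (Fin n) (Fin n) ℂ} (hP : IsPerM g U P) {t : σ → ℂ} (ht : t ∈ U)
    (j : Fin n) : Lp (g t) fun i => P t i j := by
  obtain ⟨V, hV, x, y, ⟨h1, h2, h3, h4⟩, e⟩ := (hP t ht).2 j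
  have htV := mem_of_mem_nhds hV
  exact ⟨x, y t, h1, h2, h3.comp (f := fun u => (t, u)) (by fun_prop) fun u hu => ⟨htV, hu⟩,
    (h4 t htV).1, (h4 t htV).2, e t htV⟩

/-- `y t u = y u * (g t (x u) / g s (x u)) ^ (1/2)`, the quotient has positive real part for `t`
near `s` (`IsCompact.eventually_forall_of_forall_eventually`) -/
theorem lp_pers {σ : Type*} {g : (σ → ℂ) → ℂ → ℂ}
    (hg : Continuous fun q : (σ → ℂ) × ℂ => g q.1 q.2) {s : σ → ℂ} {n : ℕ} {v : Fin n → ℂ}
    (hv : Lp (g s) v) : ∃ V ∈ 𝓝 s, ∃ x y, IsLoopM 2 g V x y ∧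
      ∀ i : Fin n, v i = ∫ u in (0 : ℝ)..1, x u ^ (i : ℕ) * deriv x u / y s u := by
  obtain ⟨x, y, h1, h2, h3, h4, h5, h6⟩ := hv
  have hx := h1.continuous
  have h0 : ∀ u ∈ Icc (0 : ℝ) 1, g s (x u) ≠ 0 := fun u hu => by
    rw [← (h5 u hu).2]
    exact pow_ne_zero _ (h5 u hu).1
  have c1 : Continuous fun z : (σ → ℂ) × ℝ => g z.1 (x z.2) :=
    hg.comp (f := fun z : (σ → ℂ) × ℝ => (z.1, x z.2)) (by fun_prop)
  have c2 : Continuous fun z : (σ → ℂ) × ℝ => g s (x z.2) :=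
    hg.comp (f := fun z : (σ → ℂ) × ℝ => (s, x z.2)) (by fun_prop)
  have hV : ∀ᶠ t in 𝓝 s, ∀ u ∈ Icc (0 : ℝ) 1, 0 < (g t (x u) / g s (x u)).re := by
    refine isCompact_Icc.eventually_forall_of_forall_eventually fun u hu => ?_
    have c3 : ContinuousAt (fun z : (σ → ℂ) × ℝ => (g z.1 (x z.2) / g s (x z.2)).re) (s, u) :=
      Complex.continuous_re.continuousAt.comp (c1.continuousAt.div c2.continuousAt (h0 u hu))
    refine c3.eventually (lt_mem_nhds ?_)
    simp [div_self (h0 u hu)]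
  refine ⟨_, hV, x, fun t u => y u * (g t (x u) / g s (x u)) ^ (2⁻¹ : ℂ),
    ⟨h1, h2, ?_, fun t ht => ⟨by simp only [h2, h4], fun u hu => ⟨?_, ?_⟩⟩⟩, fun i => ?_⟩
  · exact (h3.comp continuousOn_snd fun z hz => hz.2).mul
      ((c1.continuousOn.div c2.continuousOn fun z hz => h0 _ hz.2).cpow_const
        fun z hz => Or.inl (hz.1 _ hz.2))
  · refine mul_ne_zero (h5 u hu).1 fun e => ?_
    have := ht u hu
    rw [((Complex.cpow_eq_zero_iff _ _).1 e).1] at this
    simp at this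
  · rw [mul_pow, (h5 u hu).2, Complex.cpow_ofNat_inv_pow, mul_div_cancel₀ _ (h0 u hu)]
  · rw [h6]
    refine intervalIntegral.integral_congr fun u hu => ?_
    rw [uIcc_of_le zero_le_one] at hu
    simp only [div_self (h0 u hu), Complex.one_cpow, mul_one]

/-- one family of loops per column, `per_col` for the continuity of the determinant, `per_ind`
for the continuity of `ev f` -/
theorem per_ex {σ K : Type*} [Fintype σ] [DecidableEq σ] [Field K] [Algebra K ℂ]
    {f : (MvPolynomial σ K)[X]} {n : ℕ} {s : σ → ℂ} {M : Matrix (Fin n) (Fin n) ℂ}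
    (hM : M.det ≠ 0) (h : ∀ j, Lp (ev f s) fun i => M i j) :
    ∃ (r : ℝ) (P : (σ → ℂ) → Matrix (Fin n) (Fin n) ℂ), 0 < r ∧
      IsPerM (ev f) (Metric.ball s r) P := by
  have hg : Continuous fun q : (σ → ℂ) × ℂ => ev f q.1 q.2 := by
    clear h
    induction f using per_ind with
    | hc k => simpa [ev] using continuous_const
    | hv m => simp only [ev, eval₂_C]; simp; fun_prop
    | hX => simpa [ev] using continuous_snd
    | ha p q hp hq => exact (hp.add hq).congr fun z => by simp [ev]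
    | hm p q hp hq => exact (hp.mul hq).congr fun z => by simp [ev]
  choose V hV x y hl e using fun j => lp_pers hg (h j)
  let P : (σ → ℂ) → Matrix (Fin n) (Fin n) ℂ := fun t => Matrix.of fun i j =>
    ∫ u in (0 : ℝ)..1, x j u ^ (i : ℕ) * deriv (x j) u / y j t u
  have hs : P s = M := Matrix.ext fun i j => (e j i).symm
  have hc : ContinuousAt P s := continuousAt_pi.2 fun i => continuousAt_pi.2 fun j => by
    have := (per_col (a := 1) two_pos (hl j) (hV j) i).1.continuousAt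
    simp only [pow_one] at this
    exact this
  have hd : ∀ᶠ t in 𝓝 s, (P t).det ≠ 0 :=
    ((continuous_id.matrix_det.continuousAt.comp hc).eventually_ne (by simpa [hs] using hM))
  obtain ⟨r, r0, hr⟩ := Metric.mem_nhds_iff.1 (hd.and (eventually_all.2 hV))
  exact ⟨r, P, r0, fun t ht => ⟨(hr ht).1, fun j => ⟨_, Metric.isOpen_ball.mem_nhds ht, x j, y j,
    ⟨(hl j).1, (hl j).2.1, (hl j).2.2.1.mono (prod_mono_left fun a ha => (hr ha).2 j),
      fun a ha => (hl j).2.2.2 a ((hr ha).2 j)⟩, fun _ _ _ => rfl⟩⟩⟩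

end Pool.Agent.Lib.MP_5591bc_ag.F
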