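import Pool.Agent.Lib.MP_5591bc_ag.F.Lat
import Pool.Agent.Lib.MP_5591bc_ag.F.Pers
import Pool.Agent.Lib.MP_5591bc_ag.F.Off
import Pool.Agent.Lib.MP_5591bc_ag.Z.Fund
import Pool.Agent.Lib.MP_5591bc_ag.Z.Defs
import Pool.Agent.Lib.MP_5591bc_ag.E.Cont

/-! The monodromy of the periods of `y ^ 2 = f(t, x)` is rational. -/

namespace Pool.Agent.Lib.MP_5591bc_ag.F

open Set Polynomial Filter Topology M E Z Metric

noncomputable section

variable {σ K : Type*} [Fintype σ] [DecidableEq σ] [Field K] [Algebra K ℂ] {n : ℕ}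
  {f : (MvPolynomial σ K)[X]} {T : MvPolynomial σ K} {D : MvPolynomial σ ℂ}
  {W : σ → Matrix (Fin n) (Fin n) (MvPolynomial σ K)} {U U' U₀ U₁ U₂ : Set (σ → ℂ)}
  {P P' P₀ P₁ P₂ : (σ → ℂ) → Matrix (Fin n) (Fin n) ℂ}

/-- a Picard-Fuchs system, and a hypersurface off which the system and the curve are regular -/
structure Fm (f : (MvPolynomial σ K)[X]) (T : MvPolynomial σ K)
    (W : σ → Matrix (Fin n) (Fin n) (MvPolynomial σ K)) (D : MvPolynomial σ ℂ) : Prop where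
  T0 : T ≠ 0
  D0 : D ≠ 0
  pf : ∀ l, PF f 2 1 l T (W l)
  ok : ∀ z, MvPolynomial.eval z D ≠ 0 → MvPolynomial.aeval z T ≠ 0 ∧
    ∃ p : ℂ[X], p.Separable ∧ p.natDegree = n + 1 ∧ ev f z = p.eval

omit [Fintype σ] [DecidableEq σ] in
theorem fm_of {A B : (MvPolynomial σ K)[X]} {Δ : MvPolynomial σ K} (hf : f.natDegree = n + 1)
    (Δ0 : Δ ≠ 0) (hΔ : A * f + B * derivative f = C Δ) (T0 : T ≠ 0)
    (h : ∀ l, PF f 2 1 l T (W l)) : ∃ D, Fm f T W D := by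
  have f0 : f ≠ 0 := by rintro rfl; simp at hf
  refine ⟨MvPolynomial.map (algebraMap K ℂ) (T * (f.leadingCoeff * Δ)), T0,
    (map_ne_zero_iff _ (MvPolynomial.map_injective _ (algebraMap K ℂ).injective)).2
      (mul_ne_zero T0 (mul_ne_zero (leadingCoeff_ne_zero.2 f0) Δ0)), h, fun z hz => ?_⟩
  rw [MvPolynomial.eval_map, ← MvPolynomial.aeval_def, map_mul, map_mul, mul_ne_zero_iff,
    mul_ne_zero_iff] at hz
  obtain ⟨φ, hφ⟩ : ∃ φ : MvPolynomial σ K →+* ℂ,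
    φ = (MvPolynomial.aeval z : MvPolynomial σ K →ₐ[K] ℂ) := ⟨_, rfl⟩
  refine ⟨hz.1, f.map φ, ?_, ?_, funext fun x => by rw [eval_map, hφ]⟩
  · have e := congrArg (Polynomial.map φ) hΔ
    rw [Polynomial.map_add, Polynomial.map_mul, Polynomial.map_mul, map_C, ← derivative_map] at e
    refine ⟨C (φ Δ)⁻¹ * A.map φ, C (φ Δ)⁻¹ * B.map φ, ?_⟩
    rw [mul_assoc, mul_assoc, ← mul_add, e, ← C_mul, inv_mul_cancel₀ (hφ ▸ hz.2.2), C_1]
  · rw [natDegree_map_of_leadingCoeff_ne_zero _ (hφ ▸ hz.2.1), hf]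

/-- the columns of `M` are rational combinations of periods -/
def RInv (g : ℂ → ℂ) (M : Matrix (Fin n) (Fin n) ℂ) : Prop :=
  ∀ N : Matrix (Fin n) (Fin n) ℂ, N.det ≠ 0 → (∀ j, Lp g fun i => N i j) →
    ∃ γ : Matrix (Fin n) (Fin n) ℚ, M = N * γ.map (algebraMap ℚ ℂ)

theorem Fm.ex (h : Fm f T W D) {z : σ → ℂ} (hz : MvPolynomial.eval z D ≠ 0) :
    ∃ (r : ℝ) (Q : (σ → ℂ) → Matrix (Fin n) (Fin n) ℂ), 0 < r ∧ IsPerM (ev f) (ball z r) Q := by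
  obtain ⟨-, p, h1, h2, e⟩ := h.ok z hz
  obtain ⟨M, M0, hM, -⟩ := lat_ex h1 h2
  exact per_ex M0 (e ▸ hM)

omit [Fintype σ] [DecidableEq σ] in
theorem Fm.iff (h : Fm f T W D) (hP : IsPerM (ev f) U P) {z : σ → ℂ} (hz : z ∈ U)
    (z0 : MvPolynomial.eval z D ≠ 0) (γ : Matrix (Fin n) (Fin n) ℂ) :
    RInv (ev f z) (P z * γ) ↔ ∃ δ : Matrix (Fin n) (Fin n) ℚ, γ = δ.map (algebraMap ℚ ℂ) := by
  refine ⟨fun k => ?_, fun ⟨δ, e⟩ N N0 hN => ?_⟩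
  · obtain ⟨δ, e⟩ := k _ (hP z hz).1 (hP.lp hz)
    refine ⟨δ, ?_⟩
    simpa only [← Matrix.mul_assoc, Matrix.nonsing_inv_mul _ (hP z hz).1.isUnit, Matrix.one_mul]
      using congrArg ((P z)⁻¹ * ·) e
  · obtain ⟨-, p, h1, h2, e'⟩ := h.ok z z0
    obtain ⟨γ', e1⟩ := lat_rat h1 h2 N0 (e' ▸ hN) (e' ▸ hP.lp hz)
    exact ⟨γ' * δ, by rw [e1, e, Matrix.map_mul, Matrix.mul_assoc]⟩

omit [Fintype σ] [DecidableEq σ] in
theorem mon_ev (z : σ → ℂ) (z0 : MvPolynomial.eval z D ≠ 0) :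
    ∀ᶠ w in 𝓝 z, MvPolynomial.eval w D ≠ 0 :=
  (MvPolynomial.continuous_eval D).continuousAt.eventually_ne z0

theorem Fm.inv (h : Fm f T W D) (ho : IsOpen U) (hc : IsPreconnected U) (hP : IsPerM (ev f) U P)
    (k : ContM U P U' P') : ∀ t ∈ U', MvPolynomial.eval t D ≠ 0 → RInv (ev f t) (P' t) := by
  have hF := per_fund hP h.pf
  induction k with
  | base => exact fun t ht t0 => Matrix.mul_one (P t) ▸
      (h.iff hP ht t0 1).2 ⟨1, (Matrix.map_one _ (map_zero _) (map_one _)).symm⟩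
  | step U1 U2 P1 P2 s h1 o2 c2 d2 s1 s2 e ih =>
    have o1 := (cont_dom ho hc (fun i j t ht => ((hF t ht).2 i j).1) h1).1
    obtain ⟨z, z0, ⟨z1, z2⟩, z3⟩ := ((off_freq h.D0 s).and_eventually
      ((Eventually.and (o1.mem_nhds s1) (o2.mem_nhds s2)).and e)).exists
    refine fun t ht t0 => off_ind (I := fun t => RInv (ev f t) (P2 t)) o2 c2 (fun t ht t0 => ?_)
      z2 ht z0 t0 (z3 ▸ ih z z1 z0)
    obtain ⟨V, v1, -, v2, -, v3⟩ := cont_fund h.T0 ho hc hF (.step _ _ _ _ s h1 o2 c2 d2 s1 s2 e)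
      ht (h.ok t t0).1
    obtain ⟨r, Q, r0, hQ⟩ := h.ex t0
    have k := fund_uniq v1 isOpen_ball v3 (per_fund hQ h.pf) v2 (mem_ball_self r0) (h.ok t t0).1
    filter_upwards [k, ball_mem_nhds t r0, mon_ev t t0] with w w1 w2 w3
    rw [w1, h.iff hQ w2 w3, ← h.iff hQ (mem_ball_self r0) t0, ← k.self_of_nhds]

theorem Fm.two (h : Fm f T W D) (ho : IsOpen U) (hc : IsPreconnected U) (hP : IsPerM (ev f) U P)
    (ho' : IsOpen U') (hc' : IsPreconnected U') (hP' : IsPerM (ev f) U' P')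
    (k₁ : ContM U P U₁ P₁) (k₂ : ContM U' P' U₂ P₂) {t : σ → ℂ} (t1 : t ∈ U₁) (t2 : t ∈ U₂) :
    ∃ γ : Matrix (Fin n) (Fin n) ℚ, γ.det ≠ 0 ∧
      ∀ᶠ z in 𝓝 t, P₂ z = P₁ z * γ.map (algebraMap ℚ ℂ) := by
  have hF := per_fund hP h.pf
  have hF' := per_fund hP' h.pf
  obtain ⟨o1, -, d1⟩ := cont_dom ho hc (fun i j t ht => ((hF t ht).2 i j).1) k₁
  obtain ⟨o2, -, d2⟩ := cont_dom ho' hc' (fun i j t ht => ((hF' t ht).2 i j).1) k₂
  obtain ⟨r, r0, hr⟩ := Metric.mem_nhds_iff.1 ((o1.inter o2).mem_nhds ⟨t1, t2⟩)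
  obtain ⟨z, z0, z1⟩ := ((off_freq h.D0 t).and_eventually (ball_mem_nhds t r0)).exists
  obtain ⟨V, v1, -, v2, -, v3⟩ := cont_fund h.T0 ho hc hF k₁ (hr z1).1 (h.ok z z0).1
  obtain ⟨V', w1, -, w2, -, w3⟩ := cont_fund h.T0 ho' hc' hF' k₂ (hr z1).2 (h.ok z z0).1
  obtain ⟨ρ, Q, ρ0, hQ⟩ := h.ex z0
  have m := mem_ball_self (x := z) ρ0
  obtain ⟨γ, e1⟩ := h.inv ho hc hP k₁ z (hr z1).1 z0 _ (hQ z m).1 (hQ.lp m)
  obtain ⟨δ, e2⟩ := h.inv ho' hc' hP' k₂ z (hr z1).2 z0 _ (hQ z m).1 (hQ.lp m)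
  have k : ∀ {M : Matrix (Fin n) (Fin n) ℂ} {γ : Matrix (Fin n) (Fin n) ℚ}, M.det ≠ 0 →
      M = Q z * γ.map (algebraMap ℚ ℂ) → γ.det ≠ 0 := fun M0 e e' => M0 (by
    rw [e, Matrix.det_mul, ← RingHom.mapMatrix_apply, ← RingHom.map_det, e', map_zero, mul_zero])
  have γ0 := k (v3 z v2).1 e1
  have e3 : P₂ z = P₁ z * (γ⁻¹ * δ).map (algebraMap ℚ ℂ) := by
    rw [e1, e2, Matrix.mul_assoc, ← Matrix.map_mul, ← Matrix.mul_assoc,
      Matrix.mul_nonsing_inv _ γ0.isUnit, Matrix.one_mul]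
  have e4 := fund_uniq w1 v1 w3 v3 w2 v2 (h.ok z z0).1
  rw [e3, ← Matrix.mul_assoc, Matrix.nonsing_inv_mul _ (v3 z v2).1.isUnit, Matrix.one_mul] at e4
  refine ⟨γ⁻¹ * δ, ?_, mem_of_superset (ball_mem_nhds t r0) fun w hw => Matrix.ext fun i j => ?_⟩
  · rw [Matrix.det_mul, Matrix.det_nonsing_inv, Ring.inverse_eq_inv']
    exact mul_ne_zero (inv_ne_zero γ0) (k (w3 z w2).1 e2)
  · exact AnalyticOnNhd.eqOn_of_preconnected_of_eventuallyEq (𝕜 := ℂ) (f := fun w => P₂ w i j)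
      (g := fun w => (P₁ w * (γ⁻¹ * δ).map (algebraMap ℚ ℂ)) i j)
      (fun w hw => d2 i j w (hr hw).2) (fun w hw => by
        simp only [Matrix.mul_apply]
        exact Finset.analyticAt_fun_sum _ fun a _ =>
          (d1 i a w (hr hw).1).fun_mul analyticAt_const) (convex_ball t r).isPreconnected z1
      (e4.mono fun w hw => by simp only [hw]) hw

theorem mon_map {L : Type*} [Field L] [Algebra L ℂ] [Algebra ℚ L]
    (γ : Matrix (Fin n) (Fin n) ℚ) :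
    (γ.map (algebraMap ℚ L)).map (algebraMap L ℂ) = γ.map (algebraMap ℚ ℂ) := by
  rw [Matrix.map_map, ← RingHom.coe_comp,
    Subsingleton.elim ((algebraMap L ℂ).comp (algebraMap ℚ L)) (algebraMap ℚ ℂ)]

theorem Fm.ratMon (h : Fm f T W D) (ho : IsOpen U) (hc : IsPreconnected U)
    (hP : IsPerM (ev f) U P) : RatMon K U P := fun _ _ _ _ k₁ k₂ _ ht => by
  have : CharZero K := (algebraMap K ℂ).charZero
  obtain ⟨γ, -, e⟩ := h.two ho hc hP ho hc hP k₁ k₂ ht.1 ht.2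
  exact ⟨γ.map (algebraMap ℚ K), by rwa [mon_map]⟩

theorem Fm.finMon (h : Fm f T W D) (ho : IsOpen U) (hc : IsPreconnected U)
    (hP : IsPerM (ev f) U P) : FinMon K U P 0 1 1 := fun t V Q k => by
  have : CharZero K := (algebraMap K ℂ).charZero
  obtain ⟨γ, γ0, e⟩ := h.two ho hc hP ho hc hP (k 0).1 (k 1).1 (k 0).2 (k 1).2
  refine ⟨0, 1, zero_ne_one, γ.map (algebraMap ℚ K), ?_, e.mono fun z hz => ?_⟩
  · rwa [← RingHom.mapMatrix_apply, ← RingHom.map_det, _root_.map_ne_zero]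
  · rw [mon_map, Matrix.mul_zero, Matrix.mul_zero, Matrix.mul_one, Matrix.mul_one]
    exact ⟨rfl, hz⟩

/-- every branch of the period matrix is, up to a rational factor, a continuation of a given one -/
theorem Fm.reach (h : Fm f T W D) (ho : IsOpen U) (hc : IsPreconnected U) (hP : IsPerM (ev f) U P)
    {s : σ → ℂ} (hs : s ∈ U) (ho' : IsOpen U') (hc' : IsPreconnected U')
    (hP' : IsPerM (ev f) U' P') {t : σ → ℂ} (ht : t ∈ U') : ∃ γ : Matrix (Fin n) (Fin n) ℚ,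
      γ.det ≠ 0 ∧ ContM U P U' fun z => P' z * γ.map (algebraMap ℚ ℂ) := by
  have key : ∀ {V Q V' Q' z}, IsOpen V → IsPreconnected V → IsPerM (ev f) V Q → ContM U P V' Q' →
      z ∈ V → z ∈ V' → ∃ γ : Matrix (Fin n) (Fin n) ℚ,
      γ.det ≠ 0 ∧ ContM U P V fun z => Q z * γ.map (algebraMap ℚ ℂ) := fun o c q k z1 z2 => by
    obtain ⟨γ, γ0, e⟩ := h.two o c q ho hc hP .base k z1 z2
    exact ⟨γ, γ0, .step _ _ _ _ _ k o c (fun i j w hw => serG_ana (per_fund q h.pf) _ hw i j)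
      z2 z1 e⟩
  obtain ⟨a, a0, a1⟩ := ((off_freq h.D0 s).and_eventually (ho.mem_nhds hs)).exists
  obtain ⟨b, b0, b1⟩ := ((off_freq h.D0 t).and_eventually (ho'.mem_nhds ht)).exists
  obtain ⟨V, Q, k, hb⟩ := off_ind (I := fun t => ∃ V Q, ContM U P V Q ∧ t ∈ V) isOpen_univ
    isPreconnected_univ (fun z _ z0 => by
      obtain ⟨r, Q, r0, hQ⟩ := h.ex z0
      have k : ∀ {v w}, v ∈ ball z r → w ∈ ball z r → (∃ V Q, ContM U P V Q ∧ v ∈ V) →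
          ∃ V Q, ContM U P V Q ∧ w ∈ V := fun hv hw ⟨V, Q', k, m⟩ => by
        obtain ⟨γ, -, k'⟩ := key isOpen_ball (convex_ball z r).isPreconnected hQ k hv m
        exact ⟨_, _, k', hw⟩
      exact mem_of_superset (ball_mem_nhds z r0) fun w hw =>
        ⟨k hw (mem_ball_self r0), k (mem_ball_self r0) hw⟩)
    (mem_univ a) (mem_univ b) a0 b0 ⟨U, P, .base, a1⟩
  exact key ho' hc' hP' k b1 hb

end

end Pool.Agent.Lib.MP_5591bc_ag.F
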