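import Pool.Agent.Lib.MP_5591bc_ag.F.Set

/-! Integers with small denominators. -/

namespace Pool.Agent.Lib.MP_5591bc_ag.F

open Polynomial Finset Filter Topology M

noncomputable section

theorem num_c {a N : ℕ} (a0 : 0 < a) (aN : a ≤ N) (m j : ℕ) : ∀ r, ∃ z : ℤ, r + j ≤ m →
    z * ∏ i ∈ range (j + 1), ((a : ℤ) + N * (r + i)) =
      Nat.lcmUpto (N * (m + 1)) * j.factorial * N ^ (j + 1) := by
  induction j with
  | zero =>
    intro r
    by_cases h : r + 0 ≤ m
    · have h1 : a + N * r ∣ Nat.lcmUpto (N * (m + 1)) := by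
        refine Finset.dvd_lcm (f := id) (mem_Icc.2 ⟨by omega, ?_⟩)
        have := Nat.mul_le_mul_left N h
        rw [mul_add, mul_one]
        simp only [add_zero] at this
        omega
      obtain ⟨k, hk⟩ := h1
      refine ⟨k * N, fun _ => ?_⟩
      rw [hk]
      simp
      ring
    · exact ⟨0, fun h1 => absurd h1 h⟩
  | succ j ih =>
    intro r
    obtain ⟨z1, h1⟩ := ih r
    obtain ⟨z2, h2⟩ := ih (r + 1)
    refine ⟨z1 - z2, fun h => ?_⟩
    have e1 := prod_range_succ (fun i : ℕ => (a : ℤ) + N * (r + i)) (j + 1)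
    have e2 := prod_range_succ' (fun i : ℕ => (a : ℤ) + N * (r + i)) (j + 1)
    have e3 : ∏ i ∈ range (j + 1), ((a : ℤ) + N * (r + (i + 1 : ℕ))) =
        ∏ i ∈ range (j + 1), ((a : ℤ) + N * ((r + 1 : ℕ) + i)) :=
      prod_congr rfl fun i _ => by push_cast; ring
    rw [e3] at e2
    replace h1 := h1 (by omega)
    replace h2 := h2 (by omega)
    rw [Nat.factorial_succ]
    push_cast at e1 e2 h1 h2 ⊢
    linear_combination z1 * e1 - z2 * e2 + (a + N * (r + (j + 1))) * h1 - (a + N * r) * h2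

/-- `z j = d j ! N ^ (j + 1) / ∏ i ≤ j, (a + N (m - i))` is an integer -/
theorem num_z {a N : ℕ} (a0 : 0 < a) (aN : a ≤ N) (m : ℕ) : ∃ z : ℕ → ℤ,
    z 0 * (a + N * m : ℕ) = (Nat.lcmUpto (N * (m + 1)) * N : ℕ) ∧
      ∀ j < m, z (j + 1) * (a + N * (m - (j + 1)) : ℕ) = z j * N * (j + 1) := by
  choose z hz using num_c a0 aN m
  refine ⟨fun j => z j (m - j), ?_, fun j hj => ?_⟩
  · simpa using hz 0 m le_rfl
  · obtain ⟨r, rfl⟩ := Nat.exists_eq_add_of_lt hj
    have e1 : j + r + 1 - (j + 1) = r := by omega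
    have e2 : j + r + 1 - j = r + 1 := by omega
    have h1 := hz (j + 1) r (by omega)
    have h2 := hz j (r + 1) (by omega)
    have e3 : ∏ i ∈ range (j + 1), ((a : ℤ) + N * (r + (i + 1 : ℕ))) =
        ∏ i ∈ range (j + 1), ((a : ℤ) + N * ((r + 1 : ℕ) + i)) :=
      prod_congr rfl fun i _ => by push_cast; ring
    have p0 : ∏ i ∈ range (j + 1), ((a : ℤ) + N * ((r + 1 : ℕ) + i)) ≠ 0 :=
      prod_ne_zero_iff.2 fun i _ => by positivity
    rw [prod_range_succ', e3, Nat.factorial_succ] at h1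
    simp only [e1, e2]
    refine mul_right_cancel₀ p0 ?_
    generalize ∏ i ∈ range (j + 1), ((a : ℤ) + N * ((r + 1 : ℕ) + i)) = Q at h1 h2
    push_cast at h1 h2 ⊢
    linear_combination h1 - (N * (j + 1)) * h2

theorem num_dvd (a N j : ℕ) : j.factorial ∣ N ^ j * ∏ i ∈ range j, (a + N * i) := by
  refine (Nat.dvd_iff_prime_pow_dvd_dvd _ _).2 fun p k hp hk => ?_
  by_cases h : p ∣ N
  · have h1 : k ≤ j := ((hp.pow_dvd_iff_le_factorization j.factorial_ne_zero).1 hk).trans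
      ((Nat.factorization_factorial_le_div_pred hp j).trans (Nat.div_le_self _ _))
    exact ((pow_dvd_pow p h1).trans (pow_dvd_pow_of_dvd h j)).mul_right _
  · obtain ⟨t, -, ht⟩ := Nat.exists_mul_mod_eq_of_coprime a
      (((Nat.Prime.coprime_iff_not_dvd hp).2 h).pow_left k).symm (pow_ne_zero k hp.ne_zero)
    have h1 : ∏ i ∈ range j, (N * (t + i)) ≡ ∏ i ∈ range j, (a + N * i) [MOD p ^ k] :=
      Nat.ModEq.prod fun i _ => by
        rw [mul_add]
        exact Nat.ModEq.add_right _ ht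
    have h2 : p ^ k ∣ ∏ i ∈ range j, (N * (t + i)) := by
      rw [prod_mul_distrib, ← Nat.ascFactorial_eq_prod_range]
      exact (hk.trans (Nat.factorial_dvd_ascFactorial t j)).mul_left _
    exact ((h1.dvd_iff dvd_rfl).1 h2).mul_left _

/-- `b j = N ^ (2 j) * binomial (- a / N) j` is an integer -/
theorem num_b (a : ℕ) {N : ℕ} (N0 : 0 < N) : ∃ b : ℕ → ℤ, b 0 = 1 ∧
    ∀ j : ℕ, b (j + 1) * (j + 1) = -(N * (a + N * j) * b j) := by
  choose c hc using num_dvd a N
  refine ⟨fun j => (-1) ^ j * c j, ?_, fun j => ?_⟩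
  · have := hc 0
    simp at this
    simp [← this]
  · have h1 := congrArg (Nat.cast : ℕ → ℤ) (hc j)
    have h2 := congrArg (Nat.cast : ℕ → ℤ) (hc (j + 1))
    rw [prod_range_succ, Nat.factorial_succ] at h2
    have f0 : (j.factorial : ℤ) ≠ 0 := Nat.cast_ne_zero.2 j.factorial_ne_zero
    refine mul_right_cancel₀ f0 ?_
    generalize ∏ i ∈ range j, (a + N * i) = Q at h1 h2
    push_cast at h1 h2 ⊢
    linear_combination (-1) ^ j * h2 - (-1) ^ j * (N * (a + N * j)) * h1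

theorem num_lcm (N : ℕ) : ∃ C : ℝ, 1 ≤ C ∧ ∀ m : ℕ, (Nat.lcmUpto (N * m) : ℝ) ≤ C ^ m := by
  have l0 : 0 ≤ Real.log 4 := Real.log_nonneg (by norm_num)
  refine ⟨Real.exp (N * (Real.log 4 + 4)), Real.one_le_exp (by positivity), fun m => ?_⟩
  have h1 := Chebyshev.psi_le_const_mul_self (x := (N * m : ℕ)) (by positivity)
  rw [Chebyshev.psi_eq_log_lcmUpto, Real.log_le_iff_le_exp
    (by exact_mod_cast Nat.lcmUpto_pos _)] at h1
  rw [← Real.exp_nat_mul]
  refine h1.trans (le_of_eq ?_)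
  push_cast
  ring_nf

end

end Pool.Agent.Lib.MP_5591bc_ag.F
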