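import Pool.Agent.Lib.MP_5591bc_ag.F.Defs
import Pool.Agent.Lib.MP_5591bc_ag.M.Defs

/-! Twisted derivations on polynomials. -/

namespace Pool.Agent.Lib.MP_5591bc_ag.F

open Polynomial

noncomputable section

variable {σ O : Type*} [CommRing O]

/-- the derivation `∂ / ∂ t_l` on the coefficients -/
def cd (l : σ) : Derivation O (MvPolynomial σ O)[X] (MvPolynomial σ O)[X] :=
  (PolynomialModule.equivPolynomialSelf.restrictScalars (MvPolynomial σ O)[X]).toLinearMap.compDer
    (MvPolynomial.pderiv l).mapCoeffs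

theorem coeff_cd (l : σ) (p : (MvPolynomial σ O)[X]) (i : ℕ) :
    (cd l p).coeff i = MvPolynomial.pderiv l (p.coeff i) := rfl

theorem cd_C (l : σ) (a : MvPolynomial σ O) : cd l (C a) = C (MvPolynomial.pderiv l a) := by
  ext1 i
  rw [coeff_cd, coeff_C, coeff_C]
  split_ifs <;> simp

theorem cd_X (l : σ) : cd l (X : (MvPolynomial σ O)[X]) = 0 := by
  ext1 i
  rw [coeff_cd, coeff_X]
  split_ifs <;> simp

theorem cd_derivative (l : σ) (p : (MvPolynomial σ O)[X]) :
    cd l (derivative p) = derivative (cd l p) := by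
  ext1 i
  simp [coeff_cd, coeff_derivative, mul_comm]

theorem natDegree_cd (l : σ) (p : (MvPolynomial σ O)[X]) : (cd l p).natDegree ≤ p.natDegree :=
  natDegree_le_iff_coeff_eq_zero.2 fun i hi => by
    rw [coeff_cd, coeff_eq_zero_of_natDegree_lt hi, map_zero]

theorem map_cd {O' : Type*} [CommRing O'] (φ : O →+* O') (l : σ) (p : (MvPolynomial σ O)[X]) :
    (cd l p).map (MvPolynomial.map φ) = cd l (p.map (MvPolynomial.map φ)) := by
  ext1 i
  rw [coeff_map, coeff_cd, coeff_cd, coeff_map, MvPolynomial.pderiv_map]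

/-- `N f ^ (b / N + 1) δ (g f ^ (- b / N))` -/
def tw {S : Type*} [CommRing S] (δ : S → S) (f : S) (N b : ℕ) (g : S) : S :=
  N * δ g * f - b * g * δ f

/-- the value `p(t, z)` -/
abbrev ev {K : Type*} [CommRing K] [Algebra K ℂ] (p : (MvPolynomial σ K)[X]) (t : σ → ℂ) (z : ℂ) :
    ℂ :=
  p.eval₂ (MvPolynomial.aeval t : MvPolynomial σ K →ₐ[K] ℂ) z

/-- the system `T ∂_l Y = B Y` for the classes of `x ^ i dx / f ^ (a / N)` -/
def PF {n : ℕ} (f : (MvPolynomial σ O)[X]) (N a : ℕ) (l : σ) (T : MvPolynomial σ O)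
    (B : Matrix (Fin n) (Fin n) (MvPolynomial σ O)) : Prop :=
  ∀ i : Fin n, ∃ q, C T * tw (cd l) f N a (X ^ (i : ℕ)) =
    tw derivative f N a q + f * (N * ∑ j, C (B i j) * X ^ (j : ℕ))

end

end Pool.Agent.Lib.MP_5591bc_ag.F
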