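import Pool.Agent.Lib.MP_5591bc_ag.F.Line
import Pool.Agent.Lib.MP_5591bc_ag.F.Set

/-! Connected monodromy from unipotent local monodromy on the coordinate lines. -/

namespace Pool.Agent.Lib.MP_5591bc_ag.F

open Polynomial Finset Filter Topology M

noncomputable section

section
variable {σ : Type*} [Fintype σ] [DecidableEq σ]

theorem conn_dir (l : σ) (F : MvPowerSeries σ ℂ) :
    PowerSeries.derivative ℂ (dir (Pi.single l 1) F) =
      dir (Pi.single l 1) (MvPowerSeries.pderiv ℂ l F) := by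
  rw [dir_deriv, sum_eq_single l (fun k _ hk => by simp [hk]) (by simp)]
  simp

theorem conn_it0 (l : σ) (m : ℕ) (F : MvPowerSeries σ ℂ)
    (h : PowerSeries.coeff m (dir (Pi.single l 1) F) = 0) :
    MvPowerSeries.coeff 0 ((MvPowerSeries.pderiv ℂ l)^[m] F) = 0 := by
  induction m generalizing F with
  | zero => rwa [coeff_zero_dir] at h
  | succ m ih =>
    refine ih _ ?_
    rw [← conn_dir, PowerSeries.coeff_derivative, h, zero_mul]

omit [Fintype σ] [DecidableEq σ] in
theorem conn_it1 (l : σ) (m : ℕ) (F : MvPowerSeries σ ℂ) (κ : σ →₀ ℕ)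
    (h : MvPowerSeries.coeff κ ((MvPowerSeries.pderiv ℂ l)^[m] F) = 0) :
    MvPowerSeries.coeff (κ + Finsupp.single l m) F = 0 := by
  induction m generalizing κ with
  | zero => simpa using h
  | succ m ih =>
    rw [Function.iterate_succ_apply', MvPowerSeries.coeff_pderiv, mul_eq_zero,
      or_iff_left (Nat.cast_add_one_ne_zero _)] at h
    rw [add_comm m, Finsupp.single_add, ← add_assoc]
    exact ih _ h

/-- a function that is a polynomial of bounded degree on all coordinate lines -/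
theorem conn_pol {V : Set (σ → ℂ)} (ho : IsOpen V) {g : (σ → ℂ) → ℂ}
    (hg : ∀ t ∈ V, AnalyticAt ℂ g t) {D : ℕ}
    (h : ∀ t ∈ V, ∀ l, PowerSeries.coeff (D + 1) (dir (Pi.single l 1) (tayM g t)) = 0)
    {s : σ → ℂ} (hs : s ∈ V) : ∃ a, τm s a = tayM g s := by
  have key : ∀ l m, ∃ f, ∀ t ∈ V, AnalyticAt ℂ f t ∧
      tayM f t = (MvPowerSeries.pderiv ℂ l)^[m] (tayM g t) := fun l m => by
    induction m with
    | zero => exact ⟨g, fun t ht => ⟨hg t ht, rfl⟩⟩
    | succ m ih =>
      obtain ⟨f, hf⟩ := ih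
      exact ⟨_, fun t ht => ⟨pd_ana (hf t ht).1 l, by
        rw [Function.iterate_succ_apply', ← (hf t ht).2]; exact tayM_pd (hf t ht).1 l⟩⟩
  refine ⟨_, (line_shift s (MvPowerSeries.trunc' ℂ (Finsupp.equivFunOnFinite.symm fun _ => D)
    (tayM g s))).trans ?_⟩
  ext κ
  rw [MvPolynomial.coeff_coe, MvPowerSeries.coeff_trunc']
  split_ifs with c
  · rfl
  obtain ⟨l, hl⟩ : ∃ l, D + 1 ≤ κ l := by simpa [Finsupp.le_def] using c
  obtain ⟨f, hf⟩ := key l (D + 1)
  have a1 : tayM f s = 0 := (tayM_eq_zero_iff (hf s hs).1).2 (mem_of_superset (ho.mem_nhds hs)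
    fun t ht => by
      have := conn_it0 l _ _ (h t ht l)
      rwa [← (hf t ht).2, coeff_zero_tayM (hf t ht).1] at this)
  have a2 := conn_it1 l (D + 1) (tayM g s) (κ - Finsupp.single l (D + 1))
    (by rw [← (hf s hs).2, a1, map_zero])
  rw [tsub_add_cancel_of_le (Finsupp.single_le_iff.2 hl)] at a2
  exact a2.symm

end

theorem connM_axes {σ K ν : Type*} [Fintype σ] [DecidableEq σ] [Field K] [Algebra K ℂ] [Fintype ν]
    [DecidableEq ν] {U : Set (σ → ℂ)} (ho : IsOpen U) (hc : IsPreconnected U)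
    {P : (σ → ℂ) → Matrix ν ν ℂ} {T : σ → MvPolynomial σ K}
    {W : σ → Matrix ν ν (MvPolynomial σ K)} (T0 : ∀ l, T l ≠ 0)
    (hP : ∀ t ∈ U, ∀ i j, AnalyticAt ℂ (fun z => P z i j) t ∧ ∀ l,
      MvPolynomial.aeval t (T l) * fderiv ℂ (fun z => P z i j) t (Pi.single l 1) =
        ∑ k, MvPolynomial.aeval t (W l i k) * P t k j)
    (h : ∀ p : σ → ℂ, (∀ l, MvPolynomial.aeval p (T l) ≠ 0) → ∀ l z,
      MvPolynomial.aeval (Function.update p l z) (T l) = 0 →
      MvPolynomial.aeval (Function.update p l z) (MvPolynomial.pderiv l (T l)) ≠ 0 ∧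
        IsNilpotent ((W l).map (MvPolynomial.aeval (Function.update p l z)))) :
    ConnM U P := by
  rintro u v n p ⟨t, ht, hv⟩ hp e
  have : IsDomain (MvPowerSeries σ ℂ) := NoZeroDivisors.to_isDomain _
  have an : ∀ t ∈ U, ∀ i j, AnalyticAt ℂ (P · i j) t := fun t ht i j => (hP t ht i j).1
  have ev : ∀ (y : σ → ℂ) (q : MvPolynomial σ K), MvPolynomial.eval y (TM ℂ q) =
      MvPolynomial.aeval y q := fun y q => by rw [MvPolynomial.eval_map, MvPolynomial.aeval_def]
  obtain ⟨V0, V1, V2, V3⟩ := eventually_nhds_iff.1 ((ho.eventually_mem ht).and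
    ((irr_val (an t ht) v).1.continuousAt.eventually_ne hv))
  obtain ⟨s, s1, s2⟩ := line_open V2 V3 (T := TM ℂ (∏ l, T l)) fun c => prod_ne_zero_iff.2
    (fun l _ => T0 l) (MvPolynomial.map_injective _ (algebraMap K ℂ).injective
      (c.trans (map_zero _).symm))
  obtain ⟨O, W1, W2, W3⟩ := eventually_nhds_iff.1 ((V2.eventually_mem s1).and
    ((irr_an _ s).continuousAt.eventually_ne s2))
  have hV : ∀ t ∈ O, t ∈ U ∧ valM P v t ≠ 0 ∧ ∀ l, MvPolynomial.aeval t (T l) ≠ 0 := fun t ht => by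
    have := (W1 t ht).2
    rw [ev, map_prod, prod_ne_zero_iff] at this
    exact ⟨(V1 t (W1 t ht).1).1, (V1 t (W1 t ht).1).2, fun l => this l (mem_univ l)⟩
  have Z : ∀ s ∈ U, ∀ q, (∀ t ∈ U, valM P q t = 0) ↔ evGM s (tayX P s) q = 0 := fun s hs q => by
    rw [← (irr_val (an s hs) q).2]
    exact identM ho hc (fun t ht => (irr_val (an t ht) q).1) hs
  have cv : ∀ s ∈ O, MvPowerSeries.constantCoeff (evGM s (tayX P s) v) ≠ 0 := fun s hs => by
    rw [← (irr_val (an s (hV s hs).1) v).2, constantCoeff_tayM (irr_val (an s (hV s hs).1) v).1]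
    exact (hV s hs).2.1
  have hs := (hV s W3).1
  obtain ⟨d, a, b, d0, b0, k⟩ := V.uni_monic (frT_inj s) (u := evGM s (tayX P s) u)
    (v := evGM s (tayX P s) v) (fun c => cv s W3 (by rw [c, map_zero])) n hp (by
      have := Z s hs (∑ j ∈ range (n + 1), MvPolynomial.C (p j) * u ^ j * v ^ (n - j))
      simp only [map_sum, map_mul, map_pow] at this
      simpa [evGM] using this.1 (by simpa [valM, MvPolynomial.eval₂_sum] using e))
  obtain ⟨D, hD⟩ : ∃ D, ∀ i < d, (a i).totalDegree ≤ D :=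
    ⟨_, fun i hi => le_sup (f := fun i => (a i).totalDegree) (mem_range.2 hi)⟩
  have eC : ∀ (s : σ → ℂ) c, evGM s (tayX P s) (MvPolynomial.C c) = τm s c := fun s c => by
    simp [evGM]
  obtain ⟨u', hu⟩ : ∃ u', u' = MvPolynomial.C b * u := ⟨_, rfl⟩
  have k1 := (Z s hs (V.uniHom d (fun i => MvPolynomial.C (a i)) u' v)).2 (by
    simpa only [V.uni_map, hu, map_mul, eC] using k)
  have ag : ∀ t ∈ O, AnalyticAt ℂ (fun z => valM P u' z / valM P v z) t := fun t ht =>
    (irr_val (an t (hV t ht).1) u').1.fun_div (irr_val (an t (hV t ht).1) v).1 (hV t ht).2.1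
  have eg : ∀ t ∈ O, evGM t (tayX P t) u' =
      evGM t (tayX P t) v * tayM (fun z => valM P u' z / valM P v z) t := fun t ht => by
    rw [← (irr_val (an t (hV t ht).1) u').2, ← (irr_val (an t (hV t ht).1) v).2,
      ← tayM_mul (irr_val (an t (hV t ht).1) v).1 (ag t ht)]
    exact tayM_congr (mem_of_superset (W2.mem_nhds ht) fun z hz =>
      (mul_div_cancel₀ _ (hV z hz).2.1).symm)
  obtain ⟨a', ha⟩ := conn_pol W2 ag (D := D) (fun t ht l => by
    obtain ⟨t1, -, t3⟩ := hV t ht
    refine line_key (V.uni (T := lnP t (Pi.single l 1) (TM ℂ (T l)))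
      (B := (W l).map fun q => lnP t (Pi.single l 1) (TM ℂ q)) (fun z hz => ?_)
      (by simpa [lnP_eval, ev] using t3 l) ?_) (cv t ht) d0 hD
      (by simpa only [V.uni_map, eC] using (Z t t1 _).1 k1) (eg t ht) D.lt_succ_self
    · have up : t + z • Pi.single l 1 = Function.update t l (t l + z) := by
        ext i
        by_cases c : i = l <;> simp [c]
      rw [lnP_eval, ev, up] at hz
      obtain ⟨c1, c2⟩ := h t t3 l _ hz
      constructor
      · rw [lnP_der, sum_eq_single l (fun k _ hk => by simp [hk]) (by simp)]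
        simpa [lnP_eval, MvPolynomial.pderiv_map, ev, up] using c1
      · convert c2 using 1
        ext i j
        simp only [Matrix.map_apply, lnP_eval, ev, up]
    · ext1 i j
      have ha := an t t1
      simp only [Matrix.smul_apply, Matrix.map_apply, tayX, Matrix.of_apply, smul_eq_mul,
        Matrix.mul_apply, conn_dir, ← lnP_dir, ← map_mul, ← map_sum, ← tayM_aeval]
      have hb : AnalyticAt ℂ (fun z => fderiv ℂ (fun z => P z i j) z (Pi.single l 1)) t :=
        pd_ana (ha i j) l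
      rw [← tayM_pd (ha i j), ← tayM_mul (aeval_ana (T l)) hb,
        ← sum_congr rfl fun a _ => tayM_mul (aeval_ana (W l i a)) (ha a j),
        ← tayM_sum _ fun a _ => (aeval_ana _).fun_mul (ha a j)]
      exact congrArg _ (tayM_congr (mem_of_superset (ho.mem_nhds t1) fun t ht =>
        (hP t ht i j).2 l))) W3
  refine ⟨a', b, b0, ?_⟩
  have := (Z s hs (u' - MvPolynomial.C a' * v)).2 (by
    rw [map_sub, map_mul, eC, ha, eg s W3, mul_comm, sub_self])
  simpa [valM, hu, sub_eq_zero] using this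

end

end Pool.Agent.Lib.MP_5591bc_ag.F
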