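import Pool.Agent.Lib.MP_5591bc_ag.F.Fam

/-! Simple poles with nilpotent residues. -/

namespace Pool.Agent.Lib.MP_5591bc_ag.F

open Polynomial Finset Filter Topology M

noncomputable section

theorem nil_div {R : Type*} [CommRing R] [Nontrivial R] (p : R[X]) (a : R) :
    ∃ h : R[X], p = C (p.eval a) + (X - C a) * h ∧ h.natDegree = p.natDegree - 1 := by
  refine ⟨p /ₘ (X - C a), ?_, ?_⟩
  · rw [← modByMonic_X_sub_C_eq_C_eval, modByMonic_add_div]
  · rw [natDegree_divByMonic _ (monic_X_sub_C a), natDegree_X_sub_C]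

theorem nil_sum {R : Type*} [CommRing R] {p : R[X]} {n : ℕ} (h : p.natDegree < n) :
    ∑ j : Fin n, C (p.coeff j) * X ^ (j : ℕ) = p := by
  rw [Fin.sum_univ_eq_sum_range (fun j => C (p.coeff j) * X ^ j) n]
  exact (as_sum_range_C_mul_X_pow' p h).symm

theorem nil_sep {σ K : Type*} [Fintype σ] [DecidableEq σ] [Field K] [Algebra K ℂ] {f₀ : K[X]}
    (hs : f₀.Separable) (l : σ) {p : σ → ℂ}
    (hp : ∀ j, MvPolynomial.aeval p (2 * famT f₀ j) ≠ 0) :
    (f₀.map (algebraMap K ℂ) * ∏ j ∈ univ.erase l, (X - C (p j))).Separable := by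
  have h : ∀ j, aeval (p j) f₀ ≠ 0 ∧ ∀ k ∈ univ.erase j, p j - p k ≠ 0 := fun j => by
    have h1 := hp j
    rw [map_mul, famT, map_mul, map_prod, ← aeval_algHom_apply, MvPolynomial.aeval_X] at h1
    refine ⟨left_ne_zero_of_mul (right_ne_zero_of_mul h1), fun k hk => ?_⟩
    simpa using prod_ne_zero_iff.1 (right_ne_zero_of_mul (right_ne_zero_of_mul h1)) k hk
  refine hs.map.mul (separable_prod_X_sub_C_iff'.2 fun j _ k _ e => ?_)
    (IsCoprime.prod_right fun j _ => ?_)
  · by_contra hne
    exact (h j).2 k (mem_erase.2 ⟨Ne.symm hne, mem_univ _⟩) (sub_eq_zero.2 e)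
  · refine ((irreducible_X_sub_C (p j)).coprime_iff_not_dvd.2 fun hd => (h j).1 ?_).symm
    rwa [dvd_iff_isRoot, IsRoot.def, eval_map_algebraMap] at hd

theorem fam_pf {σ K : Type*} [Fintype σ] [DecidableEq σ] [Field K] [Algebra K ℂ] {f₀ : K[X]}
    (hs : f₀.Separable) {n : ℕ} (hn : f₀.natDegree + Fintype.card σ = n + 1) (l : σ) :
    ∃ W : Matrix (Fin n) (Fin n) (MvPolynomial σ K), PF (fam σ f₀) 2 1 l (2 * famT f₀ l) W ∧
      ∀ p : σ → ℂ, (∀ j, MvPolynomial.aeval p (2 * famT f₀ j) ≠ 0) → ∀ z,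
        MvPolynomial.aeval (Function.update p l z) (2 * famT f₀ l) = 0 →
        MvPolynomial.aeval (Function.update p l z) (MvPolynomial.pderiv l (2 * famT f₀ l)) ≠ 0 ∧
          IsNilpotent (W.map (MvPolynomial.aeval (Function.update p l z))) := by
  obtain ⟨g, hg⟩ : ∃ g : (MvPolynomial σ K)[X], g = f₀.map MvPolynomial.C *
    ∏ j ∈ univ.erase l, (X - C (MvPolynomial.X j)) := ⟨_, rfl⟩
  obtain ⟨t, ht⟩ : ∃ t : MvPolynomial σ K, t = MvPolynomial.X l := ⟨_, rfl⟩
  have hf : fam σ f₀ = (X - C t) * g := by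
    rw [fam, ← mul_prod_erase _ _ (mem_univ l), hg, ht]
    ring
  have hτ : g.eval t = famT f₀ l := by
    rw [hg, eval_mul, eval_prod, famT, ht, ← MvPolynomial.algebraMap_eq, eval_map_algebraMap]
    simp
  have hd := (fam_deg (σ := σ) hs.ne_zero).1
  have g0 : g ≠ 0 := by
    rintro rfl
    rw [hf, mul_zero, natDegree_zero] at hd
    omega
  have gd : g.natDegree = n := by
    rw [hf, natDegree_mul (X_sub_C_ne_zero t) g0, natDegree_X_sub_C] at hd
    omega
  have c1 : cd l (X - C t) = -1 := by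
    rw [map_sub, cd_X, cd_C, ht, MvPolynomial.pderiv_X_self, C_1, zero_sub]
  have cg : cd l g = 0 := by
    have h1 : cd l (f₀.map (MvPolynomial.C : K →+* MvPolynomial σ K)) = 0 := by
      ext1 i
      rw [coeff_cd, coeff_map, MvPolynomial.pderiv_C, coeff_zero]
    have h2 : cd l (∏ j ∈ univ.erase l, (X - C (MvPolynomial.X j)) : (MvPolynomial σ K)[X]) = 0 := by
      refine prod_induction _ (fun q => cd l q = 0) (fun a b ha hb => ?_) (Derivation.map_one_eq_zero _)
        fun j hj => ?_
      · rw [Derivation.leibniz, ha, hb, smul_zero, smul_zero, add_zero]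
      · rw [map_sub, cd_X, cd_C, MvPolynomial.pderiv_X_of_ne (ne_of_mem_erase hj), C_0, sub_zero]
    rw [hg, Derivation.leibniz, h1, h2, smul_zero, smul_zero, add_zero]
  have cf : cd l (fam σ f₀) = -g := by
    rw [hf, Derivation.leibniz, cg, c1, smul_zero, zero_add, smul_eq_mul]
    ring
  obtain ⟨h, e1, d1⟩ := nil_div g t
  choose k e2 d2 using fun i : ℕ => nil_div (X ^ i : (MvPolynomial σ K)[X]) t
  rw [hτ] at e1
  have e3 : derivative g = h + (X - C t) * derivative h := by
    conv_lhs => rw [e1]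
    simp
  have e4 : (derivative g).eval t = h.eval t := by simp [e3]
  have e5 : MvPolynomial.pderiv l (famT f₀ l) = (derivative g).eval t := by
    have h1 := congrArg (fun q => (cd l q).eval t) e1
    simp only [cg, map_add, Derivation.leibniz, c1, cd_C, smul_eq_mul, eval_add, eval_mul, eval_sub,
      eval_X, eval_C, sub_self, zero_mul, eval_zero, eval_neg, eval_one] at h1
    rw [e4]
    linear_combination -h1
  have dψ : 0 < n → (derivative g - h).natDegree < n := fun h0 => by
    have h1 := natDegree_derivative_le g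
    have h2 := natDegree_sub_le (derivative g) h
    omega
  refine ⟨Matrix.of fun i j =>
    (C (t ^ (i : ℕ)) * (derivative g - h) + C (famT f₀ l) * k i).coeff j,
    fun i => ⟨-(2 * C (t ^ (i : ℕ)) * g), ?_⟩, fun p hp z hz => ?_⟩
  · have h1 := dψ i.pos
    have h2 := natDegree_C_mul_le (t ^ (i : ℕ)) (derivative g - h)
    have h3 := natDegree_C_mul_le (famT f₀ l) (k i)
    have h4 := natDegree_add_le (C (t ^ (i : ℕ)) * (derivative g - h)) (C (famT f₀ l) * k i)
    have h5 := d2 i
    have h6 := i.2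
    have h7 := e2 i
    have h8 : cd l (X ^ (i : ℕ) : (MvPolynomial σ K)[X]) = 0 := by
      rw [Derivation.leibniz_pow, cd_X, smul_zero, smul_zero]
    rw [natDegree_X_pow] at h5
    rw [eval_pow, eval_X] at h7
    simp only [Matrix.of_apply]
    rw [nil_sum (by omega), tw, tw, cf, h8, hf]
    simp only [derivative_neg, derivative_mul, derivative_C, derivative_sub, derivative_X,
      derivative_ofNat, map_mul, map_ofNat, Nat.cast_ofNat, Nat.cast_one]
    linear_combination (2 * C (famT f₀ l) * g) * h7 - (2 * C (t ^ (i : ℕ)) * g) * e1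
  · set φ : MvPolynomial σ K →ₐ[K] ℂ := MvPolynomial.aeval (Function.update p l z) with hφ
    have z0 : φ (famT f₀ l) = 0 := by simpa [map_ofNat] using hz
    have zt : φ t = z := by simp [hφ, ht]
    have ev : ∀ q : (MvPolynomial σ K)[X], φ (q.eval t) = aeval z (q.map (φ : _ →+* ℂ)) :=
      fun q => by
        rw [coe_aeval_eq_eval, ← zt]
        exact (eval_map_apply (φ : MvPolynomial σ K →+* ℂ) t).symm
    have gm : g.map (φ : _ →+* ℂ) =
        f₀.map (algebraMap K ℂ) * ∏ j ∈ univ.erase l, (X - C (p j)) := by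
      rw [hg, Polynomial.map_mul, Polynomial.map_prod, Polynomial.map_map]
      congr 1
      · congr 1
        ext a
        simp [hφ]
      · refine prod_congr rfl fun j hj => ?_
        simp [hφ, Function.update_of_ne (ne_of_mem_erase hj)]
    constructor
    · have h1 := (gm ▸ nil_sep hs l hp).aeval_derivative_ne_zero (x := z)
        (by rw [← ev, hτ, z0])
      rw [derivative_map, ← ev, ← e5] at h1
      simpa [z0, map_ofNat] using h1
    · refine ⟨2, ?_⟩
      ext i j
      have h1 : ∑ m : Fin n, φ ((derivative g - h).coeff m) * z ^ (m : ℕ) = 0 := by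
        have h2 := congrArg (fun q => φ (q.eval t)) (nil_sum (dψ i.pos))
        simpa [eval_finsetSum, zt, e4] using h2
      simp only [sq, Matrix.mul_apply, Matrix.map_apply, Matrix.of_apply, coeff_add, coeff_C_mul,
        Matrix.zero_apply]
      simp only [map_add, map_mul, map_pow, z0, zt, zero_mul, add_zero]
      calc _ = z ^ (i : ℕ) * φ ((derivative g - h).coeff j) *
            ∑ m : Fin n, φ ((derivative g - h).coeff m) * z ^ (m : ℕ) := by
            rw [mul_sum]
            exact sum_congr rfl fun m _ => by ring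
        _ = 0 := by rw [h1, mul_zero]

end

end Pool.Agent.Lib.MP_5591bc_ag.F
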