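import Pool.Agent.Lib.MP_5591bc_ag.F.Gal
import Pool.Agent.Lib.MP_5591bc_ag.F.Per
import Pool.Agent.Lib.MP_5591bc_ag.F.Conn
import Pool.Agent.Lib.MP_5591bc_ag.F.Nil
import Pool.Agent.Lib.MP_5591bc_ag.M.Main

/-! The exceptional points of the family `y ^ 2 = f₀(x) ∏ l, (x - t l)` lie on a hypersurface of
small degree. -/

namespace Pool.Agent.Lib.MP_5591bc_ag.F

open Polynomial Finset Filter Topology M

noncomputable section

variable {K : Type} [Field K] [NumberField K] [Algebra K ℂ] {σ : Type} [Fintype σ] [DecidableEq σ]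
  {f₀ : K[X]} {n : ℕ}

omit [NumberField K] in
theorem connM_fam (hs : f₀.Separable) (hn : f₀.natDegree + Fintype.card σ = n + 1)
    {U : Set (σ → ℂ)} (ho : IsOpen U) (hc : IsPreconnected U)
    {P : (σ → ℂ) → Matrix (Fin n) (Fin n) ℂ} (hP : IsPerM (ev (fam σ f₀)) U P) : ConnM U P := by
  have : CharZero K := (algebraMap K ℂ).charZero
  choose W h1 h2 using fun l : σ => fam_pf hs hn l
  exact connM_axes ho hc (T := fun l => 2 * famT f₀ l) (W := W)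
    (fun l => mul_ne_zero two_ne_zero (famT_ne hs.ne_zero l))
    (fun t ht i j => ⟨(per_ode hP ht i j).1, fun l => (per_ode hP ht i j).2 l _ _ (h1 l)⟩)
    fun p hp l => h2 l p hp

theorem hyp_fam (hs : Squarefree f₀) (hn : f₀.natDegree + Fintype.card σ = n + 1) :
    ∃ C : ℕ, ∀ (δ : ℕ) (U : Set (σ → ℂ)) (P : (σ → ℂ) → Matrix (Fin n) (Fin n) ℂ), IsOpen U →
      Convex ℝ U → IsPerM (fun t z => aeval z f₀ * ∏ l, (z - t l)) U P →
      ∀ (d : ℕ) (H : ℝ), 2 ≤ H → ∃ Q : MvPolynomial σ ℂ, Q ≠ 0 ∧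
        (Q.totalDegree : ℝ) ≤ (C * (δ + 1) * d * Real.log H) ^ (C * (δ + 1) ^ n ^ 2) ∧
        ∀ t ∈ U, (∀ j, ∃ q : ℤ[X], q ≠ 0 ∧ (∀ i, |(q.coeff i : ℝ)| ≤ H) ∧ aeval (t j) q = 0) →
          ∀ (E : IntermediateField K ℂ) (x : σ → E), (∀ j, (x j : ℂ) = t j) →
            FiniteDimensional ℚ E → Module.finrank ℚ E ≤ d → ¬ GoodV U P δ x →
              MvPolynomial.eval t Q = 0 := by
  have hs' := PerfectField.separable_iff_squarefree.2 hs
  have h0 := hs.ne_zero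
  obtain ⟨A, B, e, hΔ⟩ := fam_bez (σ := σ) hs'
  have D0 : (∏ l : σ, famT f₀ l) ≠ 0 := prod_ne_zero_iff.2 fun l _ => famT_ne h0 l
  obtain ⟨γ, e', γ0, hg⟩ := gal_fam (N := 2) ((fam_deg h0).1.trans hn) (pow_ne_zero e D0) hΔ
  obtain ⟨W, h1, h2⟩ := hg 1 one_pos one_lt_two
  have c0 : (γ : K) * f₀.leadingCoeff ^ e' ≠ 0 :=
    mul_ne_zero (Nat.cast_ne_zero.2 γ0.ne') (pow_ne_zero _ (leadingCoeff_ne_zero.2 h0))
  obtain ⟨c, r, ℓ, c1, hl, hf⟩ := fam_lin (σ := σ) h0 c0 (e * e')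
  have eT : (γ : MvPolynomial σ K) * ((fam σ f₀).leadingCoeff * (∏ l : σ, famT f₀ l) ^ e) ^ e' =
      MvPolynomial.C (γ * f₀.leadingCoeff ^ e') * (∏ l : σ, famT f₀ l) ^ (e * e') := by
    rw [(fam_deg h0).2, mul_pow, pow_mul, map_mul, map_pow, map_natCast, mul_assoc]
  rw [eT] at h1 h2
  obtain ⟨C, hC⟩ := hypU (mul_ne_zero (MvPolynomial.C_ne_zero.2 c0) (pow_ne_zero _ D0)) h1 hl hf
    one_pos
  refine ⟨C, fun δ U P ho hU hP d H H2 => ?_⟩
  replace hP : IsPerM (ev (fam σ f₀)) U P := by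
    convert hP using 3
    exact ev_fam _ _ _
  obtain ⟨Q, Q0, Q1, Q2⟩ := hC δ U P ho hU (per_fund hP h2)
    (connM_fam hs' hn ho hU.isPreconnected hP) d H H2
  exact ⟨Q, Q0, Q1, fun t ht => Q2 t ht fun z hz => absurd (by simpa using hz) c1⟩

end

end Pool.Agent.Lib.MP_5591bc_ag.F
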