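import Pool.Agent.Lib.MP_5591bc_ag.F.Mon
import Pool.Agent.Lib.MP_5591bc_ag.F.Main
import Pool.Agent.Lib.MP_5591bc_ag.E.Fin

/-! One hypersurface for all branches of the period matrix. -/

namespace Pool.Agent.Lib.MP_5591bc_ag.F

open Polynomial Finset Filter Topology M E

noncomputable section

variable {K : Type} [Field K] [NumberField K] [Algebra K ℂ] {σ : Type} [Fintype σ] [DecidableEq σ]
  {f₀ : K[X]} {n : ℕ}

theorem fam_fm (hs : f₀.Separable) (hn : f₀.natDegree + Fintype.card σ = n + 1) :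
    ∃ (T : MvPolynomial σ K) (W : σ → Matrix (Fin n) (Fin n) (MvPolynomial σ K))
      (D : MvPolynomial σ ℂ), Fm (fam σ f₀) T W D ∧ GalM T W ∧ ∀ t : σ → ℂ, Function.Injective t →
        (∀ l, aeval (t l) f₀ ≠ 0) → MvPolynomial.aeval t T ≠ 0 := by
  have h0 := hs.ne_zero
  obtain ⟨A, B, e, hΔ⟩ := fam_bez (σ := σ) hs
  have D0 : (∏ l : σ, famT f₀ l) ≠ 0 := prod_ne_zero_iff.2 fun l _ => famT_ne h0 l
  obtain ⟨γ, e', γ0, hg⟩ := gal_fam (N := 2) ((fam_deg h0).1.trans hn) (pow_ne_zero e D0) hΔ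
  obtain ⟨W, h1, h2⟩ := hg 1 one_pos one_lt_two
  rw [(fam_deg h0).2] at h1 h2
  have l0 := leadingCoeff_ne_zero.2 h0
  obtain ⟨D, hD⟩ := fm_of ((fam_deg h0).1.trans hn) (pow_ne_zero e D0) hΔ
    (mul_ne_zero (Nat.cast_ne_zero.2 γ0.ne') (pow_ne_zero _
      (mul_ne_zero (MvPolynomial.C_ne_zero.2 l0) (pow_ne_zero e D0)))) h2
  refine ⟨_, W, D, hD, h1, fun t t1 t2 => ?_⟩
  rw [map_mul, map_pow, map_mul, map_pow, map_prod, map_natCast, MvPolynomial.aeval_C]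
  refine mul_ne_zero (Nat.cast_ne_zero.2 γ0.ne') (pow_ne_zero _ (mul_ne_zero
    ((_root_.map_ne_zero _).2 l0) (pow_ne_zero _ (prod_ne_zero_iff.2 fun l _ => ?_))))
  rw [famT, map_mul, ← aeval_algHom_apply, MvPolynomial.aeval_X, map_prod]
  refine mul_ne_zero (t2 l) (prod_ne_zero_iff.2 fun j hj => ?_)
  rw [map_sub, MvPolynomial.aeval_X, MvPolynomial.aeval_X]
  exact sub_ne_zero.2 fun e => (mem_erase.1 hj).1 (t1 e).symm

omit [NumberField K] [DecidableEq σ] in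
theorem good_rat {U : Set (σ → ℂ)} (ho : IsOpen U) (hc : IsPreconnected U)
    {P : (σ → ℂ) → Matrix (Fin n) (Fin n) ℂ} (hP : ∀ t ∈ U, (P t).det ≠ 0 ∧
      ∀ i j, AnalyticAt ℂ (fun z => P z i j) t) {γ : Matrix (Fin n) (Fin n) ℚ} (γ0 : γ.det ≠ 0)
    {δ : ℕ} {x : σ → K} (hx : pc x ∈ U)
    (h : GoodV U (fun z => P z * γ.map (algebraMap ℚ ℂ)) δ x) : GoodV U P δ x := by
  classical
  have : CharZero K := (algebraMap K ℂ).charZero
  refine good_mul ho ho hc (fun i j t ht => (hP t ht).2 i j) hx hx ?_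
    (γ := γ⁻¹.map (algebraMap ℚ K)) (γ' := γ.map (algebraMap ℚ K)) (.of_forall fun z => ?_)
    (.of_forall fun z => by rw [mon_map]) h
  · rw [Matrix.det_mul, ← RingHom.mapMatrix_apply, ← RingHom.map_det]
    exact mul_ne_zero (hP _ hx).1 ((_root_.map_ne_zero _).2 γ0)
  · rw [mon_map, Matrix.mul_assoc, ← Matrix.map_mul, Matrix.mul_nonsing_inv _ γ0.isUnit,
      Matrix.map_one _ (map_zero _) (map_one _), Matrix.mul_one]

theorem hyp_fm {f : (MvPolynomial σ K)[X]} {T : MvPolynomial σ K} {D : MvPolynomial σ ℂ}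
    {W : σ → Matrix (Fin n) (Fin n) (MvPolynomial σ K)} (h : Fm f T W D) (hG : GalM T W)
    (hC : ∀ U (P : (σ → ℂ) → Matrix (Fin n) (Fin n) ℂ), IsOpen U → IsPreconnected U →
      IsPerM (ev f) U P → ConnM U P) :
    ∃ C : ℕ, ∀ (δ d : ℕ) (H : ℝ), 2 ≤ H → ∃ Q : MvPolynomial σ ℂ, Q ≠ 0 ∧
      (Q.totalDegree : ℝ) ≤ (C * (δ + 1) * d * Real.log H) ^ (C * (δ + 1) ^ n ^ 2) ∧
      ∀ (U : Set (σ → ℂ)) (P : (σ → ℂ) → Matrix (Fin n) (Fin n) ℂ), IsOpen U → IsPreconnected U →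
        IsPerM (ev f) U P → ∀ t ∈ U,
          (∀ j, ∃ q : ℤ[X], q ≠ 0 ∧ (∀ i, |(q.coeff i : ℝ)| ≤ H) ∧ aeval (t j) q = 0) →
          ∀ (E : IntermediateField K ℂ) (x : σ → E), (∀ j, (x j : ℂ) = t j) →
            FiniteDimensional ℚ E → Module.finrank ℚ E ≤ d → ¬ GoodV U P δ x →
              MvPolynomial.eval t Q = 0 := by
  obtain ⟨C, hE⟩ := hypE h.T0 hG
  obtain ⟨s, s0⟩ := (off_freq h.D0 0).exists
  obtain ⟨r, P₀, r0, h0⟩ := h.ex s0
  have o0 := Metric.isOpen_ball (x := s) (ε := r)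
  have c0 := (convex_ball s r).isPreconnected
  refine ⟨C, fun δ d H H2 => ?_⟩
  obtain ⟨Q, Q0, Q1, Q2⟩ := hE δ _ P₀ o0 c0 (per_fund h0 h.pf) (hC _ _ o0 c0 h0)
    (h.ratMon o0 c0 h0) d H H2
  refine ⟨Q, Q0, Q1, fun U P ho hc hP t ht b E x hx e1 e2 hb => ?_⟩
  obtain ⟨γ, γ0, k⟩ := h.reach o0 c0 h0 (Metric.mem_ball_self r0) ho hc hP ht
  refine Q2 _ _ k t ht b E x hx e1 e2 fun hg => hb (good_rat ho hc
    (fun z hz => ⟨(hP z hz).1, fun i j => (per_ode hP hz i j).1⟩) γ0 ?_ hg)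
  rwa [show pc x = t from funext hx]

theorem hyp_all (hs : Squarefree f₀) (hn : f₀.natDegree + Fintype.card σ = n + 1) :
    ∃ C : ℕ, ∀ (δ d : ℕ) (H : ℝ), 2 ≤ H → ∃ Q : MvPolynomial σ ℂ, Q ≠ 0 ∧
      (Q.totalDegree : ℝ) ≤ (C * (δ + 1) * d * Real.log H) ^ (C * (δ + 1) ^ n ^ 2) ∧
      ∀ (U : Set (σ → ℂ)) (P : (σ → ℂ) → Matrix (Fin n) (Fin n) ℂ), IsOpen U → IsPreconnected U →
        IsPerM (fun t z => aeval z f₀ * ∏ l, (z - t l)) U P → ∀ t ∈ U,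
          (∀ j, ∃ q : ℤ[X], q ≠ 0 ∧ (∀ i, |(q.coeff i : ℝ)| ≤ H) ∧ aeval (t j) q = 0) →
          ∀ (E : IntermediateField K ℂ) (x : σ → E), (∀ j, (x j : ℂ) = t j) →
            FiniteDimensional ℚ E → Module.finrank ℚ E ≤ d → ¬ GoodV U P δ x →
              MvPolynomial.eval t Q = 0 := by
  have hs' := PerfectField.separable_iff_squarefree.2 hs
  obtain ⟨T, W, D, h1, h2, -⟩ := fam_fm (σ := σ) hs' hn
  have e : ev (fam σ f₀) = fun t z => aeval z f₀ * ∏ l, (z - t l) :=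
    funext₂ fun t z => ev_fam f₀ t z
  exact e ▸ hyp_fm h1 h2 fun U P ho hc hP => connM_fam hs' hn ho hc hP

/-- period matrices exist near every smooth fibre -/
theorem per_fam (hs : Squarefree f₀) (hn : f₀.natDegree + Fintype.card σ = n + 1) {t : σ → ℂ}
    (t1 : Function.Injective t) (t2 : ∀ l, aeval (t l) f₀ ≠ 0) :
    ∃ (r : ℝ) (P : (σ → ℂ) → Matrix (Fin n) (Fin n) ℂ), 0 < r ∧
      IsPerM (fun t z => aeval z f₀ * ∏ l, (z - t l)) (Metric.ball t r) P := by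
  have hs' := PerfectField.separable_iff_squarefree.2 hs
  have e : ev (fam σ f₀) = fun t z => aeval z f₀ * ∏ l, (z - t l) :=
    funext₂ fun t z => ev_fam f₀ t z
  obtain ⟨M, M0, hM, -⟩ := lat_ex (p := f₀.map (algebraMap K ℂ) * ∏ l, (X - C (t l))) (n := n)
    (hs'.map.mul (separable_prod_X_sub_C_iff.2 t1) (IsCoprime.prod_right fun l _ =>
      ((irreducible_X_sub_C _).coprime_iff_not_dvd.2 (by
        rw [dvd_iff_isRoot, IsRoot, eval_map_algebraMap]; exact t2 l)).symm)) (by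
      rw [mul_comm, (monic_prod_of_monic _ _ fun _ _ => monic_X_sub_C _).natDegree_mul'
        (Polynomial.map_ne_zero hs.ne_zero), natDegree_map,
        natDegree_prod_of_monic _ _ fun _ _ => monic_X_sub_C _, ← hn, add_comm]
      simp)
  rw [← e]
  refine per_ex M0 fun j => ?_
  convert hM j using 2
  rw [e]
  simp [eval_prod, eval_map_algebraMap]

end

end Pool.Agent.Lib.MP_5591bc_ag.F
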