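import Pool.Agent.Lib.MP_5591bc_ag.F.Lp
import Pool.Agent.Lib.MP_5591bc_ag.GPer

/-! Integrals over arcs, transition constants, and periods of loops. -/

namespace Pool.Agent.Lib.MP_5591bc_ag.F

open Set Polynomial

variable {p : ℂ[X]} {n : ℕ}

theorem arc_int {x y : ℝ → ℂ} (hx : ContDiff ℝ 1 x) {a b : ℝ}
    (hy : ContinuousOn y (uIcc a b)) (h0 : ∀ u ∈ uIcc a b, y u ≠ 0) (k : ℕ) :
    IntervalIntegrable (fun u => x u ^ k * deriv x u / y u) MeasureTheory.volume a b :=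
  (((hx.continuous.pow k).mul (hx.continuous_deriv le_rfl)).continuousOn.div hy
    h0).intervalIntegrable

/-- `integral_eq_sub_of_hasDerivAt_of_le`, `G.hasDerivAt_sqrt` (compare `per_exact` in `F/Per`) -/
theorem prm_arc {S : Set ℂ} {h : ℂ → Fin n → ℂ} (hh : Prm p S h) {x y : ℝ → ℂ}
    (hx : ContDiff ℝ 1 x) {a b : ℝ} (hab : a ≤ b) (hy : ContinuousOn y (Icc a b))
    (hS : ∀ u ∈ Icc a b, x u ∈ S ∧ y u ≠ 0 ∧ y u ^ 2 = p.eval (x u)) (k : Fin n) :
    ∫ u in a..b, x u ^ (k : ℕ) * deriv x u / y u = y b * h (x b) k - y a * h (x a) k := by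
  refine intervalIntegral.integral_eq_sub_of_hasDerivAt_of_le hab
    (f := fun u => y u * h (x u) k) (f' := fun u => x u ^ (k : ℕ) * deriv x u / y u)
    (hy.mul fun u hu => ?_) (fun u hu => ?_)
    (arc_int hx (by rwa [uIcc_of_le hab]) (fun u hu => (hS u (by rwa [uIcc_of_le hab] at hu)).2.1) k)
  · obtain ⟨h', h1, -⟩ := hh (x u) (hS u hu).1 k
    exact (h1.continuousAt.comp hx.continuous.continuousAt).continuousWithinAt
  · have hI := Icc_mem_nhds hu.1 hu.2
    obtain ⟨s1, s2, s3⟩ := hS u (Ioo_subset_Icc_self hu)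
    have dx := (hx.differentiable one_ne_zero u).hasDerivAt
    obtain ⟨h', h1, h2⟩ := hh (x u) s1 k
    have dy := G.hasDerivAt_sqrt (y := y) (g := fun u => p.eval (x u)) (hy.continuousAt hI) s2
      (Filter.mem_of_superset hI fun u hu => (hS u hu).2.2) ((p.hasDerivAt (x u)).scomp u dx)
    refine (dy.fun_mul (h1.scomp u dx)).congr_deriv ?_
    rw [← h2, ← s3]
    simp only [smul_eq_mul, Function.comp]
    field_simp
    ring

theorem prm_arc' {S : Set ℂ} {h : ℂ → Fin n → ℂ} (hh : Prm p S h) {x y : ℝ → ℂ}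
    (hx : ContDiff ℝ 1 x) {a b : ℝ} (hy : ContinuousOn y (uIcc a b))
    (hS : ∀ u ∈ uIcc a b, x u ∈ S ∧ y u ≠ 0 ∧ y u ^ 2 = p.eval (x u)) (k : Fin n) :
    ∫ u in a..b, x u ^ (k : ℕ) * deriv x u / y u = y b * h (x b) k - y a * h (x a) k := by
  rcases le_total a b with hab | hab
  · rw [uIcc_of_le hab] at hy hS
    exact prm_arc hh hx hab hy hS k
  · rw [uIcc_of_ge hab] at hy hS
    rw [intervalIntegral.integral_symm, prm_arc hh hx hab hy hS k, neg_sub]

/-- `ρ (h - h')` has derivative zero on `O`, and `y = ± ρ z`, `η = ± ρ w` -/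
theorem prm_pm {O : Set ℂ} (ho : IsOpen O) (hc : IsPreconnected O) {h h' : ℂ → Fin n → ℂ}
    (h1 : Prm p O h) (h2 : Prm p O h') {ρ : ℂ → ℂ} (hρ : Rt p O ρ) {z w y η : ℂ} (hz : z ∈ O)
    (hw : w ∈ O) (hy : y ^ 2 = p.eval z) (hη : η ^ 2 = p.eval w) :
    y • (h z - h' z) = η • (h w - h' w) ∨ y • (h z - h' z) = -(η • (h w - h' w)) := by
  have key : ρ z • (h z - h' z) = ρ w • (h w - h' w) := by
    funext k
    have hd : ∀ t ∈ O, HasDerivAt (fun t => ρ t * (h t k - h' t k)) 0 t := by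
      intro t ht
      obtain ⟨r1, r2, r3⟩ := hρ t ht
      obtain ⟨a, a1, a2⟩ := h1 t ht k
      obtain ⟨b, b1, b2⟩ := h2 t ht k
      have dρ := G.hasDerivAt_sqrt (y := ρ) (g := fun u => p.eval u) r1.continuousAt r2
        (Filter.mem_of_superset (ho.mem_nhds ht) fun u hu => (hρ u hu).2.2) (p.hasDerivAt t)
      refine (dρ.fun_mul (a1.fun_sub b1)).congr_deriv ?_
      rw [← r3] at a2 b2
      field_simp
      linear_combination 2 * a2 - 2 * b2
    exact ho.is_const_of_deriv_eq_zero hc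
      (fun t ht => (hd t ht).differentiableAt.differentiableWithinAt)
      (fun t ht => (hd t ht).deriv) hz hw
  rw [← (hρ z hz).2.2, sq_eq_sq_iff_eq_or_eq_neg] at hy
  rw [← (hρ w hw).2.2, sq_eq_sq_iff_eq_or_eq_neg] at hη
  rcases hy with rfl | rfl <;> rcases hη with rfl | rfl
  · exact Or.inl key
  · exact Or.inr (by rw [neg_smul, neg_neg, key])
  · exact Or.inr (by rw [neg_smul, key])
  · exact Or.inl (by rw [neg_smul, neg_smul, key])

/-- Choose `i(z)`, put `D u = (∫ 0..u) - y u • h (i (x u)) (x u)` and use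
`isPreconnected_Icc.induction₂'` for the relation `D u - D v ∈ L`. -/
theorem lp_mem {ι : Type*} {S : ι → Set ℂ} (ho : ∀ i, IsOpen (S i)) (hS : ∀ z, ∃ i, z ∈ S i)
    {h : ι → ℂ → Fin n → ℂ} (hh : ∀ i, Prm p (S i) (h i)) (L : AddSubgroup (Fin n → ℂ))
    (hL : ∀ i j z y, z ∈ S i → z ∈ S j → y ≠ 0 → y ^ 2 = p.eval z → y • (h i z - h j z) ∈ L)
    {v : Fin n → ℂ} (hv : Lp p.eval v) : v ∈ L := by
  obtain ⟨x, y, hx, x01, hy, y01, hc, hv⟩ := hv
  choose i hi using hS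
  let D : ℝ → Fin n → ℂ := fun u =>
    (fun k : Fin n => ∫ t in (0 : ℝ)..u, x t ^ (k : ℕ) * deriv x t / y t) -
      y u • h (i (x u)) (x u)
  have sub : ∀ a ∈ Icc (0 : ℝ) 1, ∀ b ∈ Icc (0 : ℝ) 1, uIcc a b ⊆ Icc (0 : ℝ) 1 :=
    fun a ha b hb => uIcc_subset_Icc ha hb
  have z0 : (0 : ℝ) ∈ Icc (0 : ℝ) 1 := left_mem_Icc.2 zero_le_one
  have key : D 1 - D 0 ∈ L := by
    refine isPreconnected_Icc.induction₂ (fun a b => D b - D a ∈ L) (fun a ha => ?_)
      (fun a b c _ _ _ h1 h2 => by simpa using L.add_mem h2 h1)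
      (fun a b _ _ h1 => by simpa using L.neg_mem h1) z0 (right_mem_Icc.2 zero_le_one)
    obtain ⟨ε, hε, hb⟩ := Metric.mem_nhds_iff.1
      (hx.continuous.continuousAt.preimage_mem_nhds ((ho _).mem_nhds (hi (x a))))
    filter_upwards [self_mem_nhdsWithin, mem_nhdsWithin_of_mem_nhds (Metric.ball_mem_nhds a hε)]
      with b hb1 hb2
    have s1 : uIcc a b ⊆ Metric.ball a ε :=
      (convex_ball a ε).ordConnected.uIcc_subset (Metric.mem_ball_self hε) hb2
    have e : D b - D a = y b • (h (i (x a)) (x b) - h (i (x b)) (x b)) := by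
      funext k
      have e1 := prm_arc' (hh (i (x a))) hx (hy.mono (sub a ha b hb1))
        (fun u hu => ⟨hb (s1 hu), hc u (sub a ha b hb1 hu)⟩) k
      have e2 := intervalIntegral.integral_interval_sub_left
        (arc_int hx (hy.mono (sub 0 z0 b hb1)) (fun u hu => (hc u (sub 0 z0 b hb1 hu)).1) k)
        (arc_int hx (hy.mono (sub 0 z0 a ha)) (fun u hu => (hc u (sub 0 z0 a ha hu)).1) k)
      simp only [D, Pi.sub_apply, Pi.smul_apply, smul_eq_mul]
      linear_combination e1 + e2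
    rw [e]
    exact hL _ _ _ _ (hb hb2) (hi _) (hc b hb1).1 (hc b hb1).2
  have e : D 1 - D 0 = v := by
    funext k
    simp only [D, Pi.sub_apply, Pi.smul_apply, smul_eq_mul, intervalIntegral.integral_same]
    rw [hv k, x01, y01]
    ring
  exact e ▸ key

end Pool.Agent.Lib.MP_5591bc_ag.F
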