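import Mathlib

/-! Period matrices of families of curves `y ^ N = g(t, x)` over a base of any dimension. -/

namespace Pool.Agent.Lib.MP_5591bc_ag.F

open Set Topology

/-- `u ↦ (x u, y t u)`, `u ∈ [0, 1]`, is a loop on the curve `y ^ N = g(t, x)` avoiding `y = 0`,
for all `t ∈ V`, and depends continuously on `t`. -/
def IsLoopM {σ : Type*} (N : ℕ) (g : (σ → ℂ) → ℂ → ℂ) (V : Set (σ → ℂ)) (x : ℝ → ℂ)
    (y : (σ → ℂ) → ℝ → ℂ) : Prop :=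
  ContDiff ℝ 1 x ∧ x 0 = x 1 ∧ ContinuousOn (fun p : (σ → ℂ) × ℝ => y p.1 p.2) (V ×ˢ Icc 0 1) ∧
    ∀ t ∈ V, y t 0 = y t 1 ∧ ∀ u ∈ Icc (0 : ℝ) 1, y t u ≠ 0 ∧ y t u ^ N = g t (x u)

/-- `P` is a branch over `U` of the period matrix of `y ^ 2 = g(t, x)`: it is invertible and, near
every point of `U`, its `j`-th column consists of the integrals of `x ^ i dx / y` over one
continuous family of loops. -/
def IsPerM {σ : Type*} (g : (σ → ℂ) → ℂ → ℂ) {n : ℕ} (U : Set (σ → ℂ))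
    (P : (σ → ℂ) → Matrix (Fin n) (Fin n) ℂ) : Prop :=
  ∀ s ∈ U, (P s).det ≠ 0 ∧ ∀ j, ∃ V ∈ 𝓝 s, ∃ x y, IsLoopM 2 g V x y ∧
    ∀ t ∈ V, ∀ i : Fin n, P t i j = ∫ u in (0 : ℝ)..1, x u ^ (i : ℕ) * deriv x u / y t u

end Pool.Agent.Lib.MP_5591bc_ag.F
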