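import Pool.Agent.Lib.MP_5591bc_ag.F.Set

/-! Taylor expansion in the parameters, and divided derivatives of a power. -/

namespace Pool.Agent.Lib.MP_5591bc_ag.F

open Finset MvPowerSeries

noncomputable section

variable {σ O S : Type*} [CommRing O] [CommRing S] [Algebra O S]

/-- a derivation applied to the coefficients of a series -/
def derD (δ : Derivation O S S) (F : MvPowerSeries σ S) : MvPowerSeries σ S :=
  fun κ => δ (coeff κ F)

variable (δ : Derivation O S S)

theorem der_coeff (F : MvPowerSeries σ S) (κ : σ →₀ ℕ) : coeff κ (derD δ F) = δ (coeff κ F) := rfl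

theorem der_add (F G : MvPowerSeries σ S) : derD δ (F + G) = derD δ F + derD δ G := by
  ext κ
  simp only [der_coeff, map_add]

theorem der_mul (F G : MvPowerSeries σ S) : derD δ (F * G) = F * derD δ G + derD δ F * G := by
  classical
  ext κ
  simp only [der_coeff, map_add, coeff_mul, map_sum, ← sum_add_distrib, Derivation.leibniz,
    smul_eq_mul]
  exact sum_congr rfl fun p _ => by ring

theorem der_C (a : S) : derD δ (C a : MvPowerSeries σ S) = C (δ a) := by
  classical
  ext κ
  rw [der_coeff, coeff_C, coeff_C]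
  split_ifs <;> simp

theorem der_X (l : σ) : derD δ (X l : MvPowerSeries σ S) = 0 := by
  classical
  ext κ
  rw [der_coeff, coeff_X]
  split_ifs <;> simp

theorem der_pow (G : MvPowerSeries σ S) (j : ℕ) :
    derD δ (G ^ j) = j * G ^ (j - 1) * derD δ G := by
  induction j with
  | zero => simpa using der_C (σ := σ) δ 1
  | succ j ih =>
    rw [pow_succ, der_mul, ih]
    cases j with
    | zero => simp
    | succ j =>
      simp only [Nat.add_sub_cancel]
      push_cast
      ring

theorem der_upow (c : ℕ) (f : S) (n : ℕ) :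
    f * δ ((c * f) ^ n) = n * (c * f) ^ n * δ f := by
  rw [Derivation.leibniz_pow, Derivation.leibniz, Derivation.map_natCast]
  cases n with
  | zero => simp
  | succ n =>
    simp only [Nat.add_sub_cancel, smul_eq_mul, nsmul_eq_mul]
    ring

/-- the recursion from a Taylor series of `f` -/
theorem der_rec (δ : σ → Derivation O S S) {f : S} {F : MvPowerSeries σ S}
    (h0 : constantCoeff F = f) (hF : ∀ l, derD (δ l) F = pderiv S l F) (a N : ℕ) {b : ℕ → ℤ}
    (b0 : b 0 = 1) (hb : ∀ j : ℕ, b (j + 1) * (j + 1) = -(N * (a + N * j) * b j)) :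
    ∃ A : (σ →₀ ℕ) → S, A 0 = 1 ∧ ∀ κ l, N * tw (δ l) f N (a + N * κ.degree) (A κ) =
      (κ l + 1) * A (κ + Finsupp.single l 1) := by
  obtain ⟨G, hG⟩ : ∃ G, G = F + C (-f) := ⟨_, rfl⟩
  have g0 : constantCoeff G = 0 := by simp [hG, h0]
  have z : ∀ κ : σ →₀ ℕ, coeff κ (G ^ (κ.degree + 1)) = 0 := fun κ =>
    coeff_of_lt_order (lt_of_lt_of_le (by exact_mod_cast Nat.lt_succ_self _)
      (le_order_pow_of_constantCoeff_eq_zero _ g0))
  have e : ∀ l (j : ℕ) (κ : σ →₀ ℕ), δ l (coeff κ (G ^ j)) = (κ l + 1) * coeff (κ + Finsupp.single l 1) (G ^ j) -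
      j * δ l f * coeff κ (G ^ (j - 1)) := fun l j κ => by
    have : derD (δ l) (G ^ j) = pderiv S l (G ^ j) - C (j * δ l f) * G ^ (j - 1) := by
      rw [der_pow, pderiv_pow, hG, der_add, hF, der_C, map_add, pderiv_C]
      simp only [map_neg, map_mul, map_natCast]
      ring
    rw [← der_coeff, this, map_sub, coeff_pderiv, coeff_C_mul, mul_comm]
  refine ⟨fun κ => ∑ j ∈ range (κ.degree + 1),
    b j * ((N ^ 2 : ℕ) * f) ^ (κ.degree - j) * coeff κ (G ^ j), by simp [b0], fun κ l => ?_⟩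
  have hd : (κ + Finsupp.single l 1).degree = κ.degree + 1 := by simp
  have z1 := e l (κ.degree + 1) κ
  rw [z, map_zero, Nat.add_sub_cancel] at z1
  obtain ⟨T, hT⟩ : ∃ T : ℕ → S, T = fun j : ℕ => j * b j * ((N ^ 2 : ℕ) * f) ^ (κ.degree + 1 - j) *
    coeff κ (G ^ (j - 1)) * δ l f := ⟨_, rfl⟩
  have k : ∀ j ∈ range (κ.degree + 1), N * tw (δ l) f N (a + N * κ.degree)
      (b j * ((N ^ 2 : ℕ) * f) ^ (κ.degree - j) * coeff κ (G ^ j)) =
      (κ l + 1) * (b j * ((N ^ 2 : ℕ) * f) ^ (κ.degree + 1 - j) *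
        coeff (κ + Finsupp.single l 1) (G ^ j)) + (T (j + 1) - T j) := fun j hj => by
    obtain ⟨n, hn⟩ := Nat.exists_eq_add_of_le (Nat.lt_succ_iff.1 (mem_range.1 hj))
    have h1 : κ.degree - j = n := by omega
    have h2 : κ.degree + 1 - j = n + 1 := by omega
    have h3 : κ.degree + 1 - (j + 1) = n := by omega
    have h4 : ((b (j + 1) : S)) * (j + 1) = -(N * (a + N * j) * b j) := by
      simpa using congrArg (Int.cast : ℤ → S) (hb j)
    have h5 := der_upow (δ l) (N ^ 2) f n
    simp only [hT, tw, h1, h2, h3, Nat.add_sub_cancel, Derivation.leibniz, e,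
      Derivation.map_intCast, smul_eq_mul]
    rw [hn]
    push_cast at h5 ⊢
    linear_combination (N ^ 2 * b j * coeff κ (G ^ j)) * h5 -
      ((N ^ 2 * f) ^ n * coeff κ (G ^ j) * δ l f) * h4
  have s : ∀ (t : Finset ℕ) (g : ℕ → S) (c : ℕ), tw (δ l) f N c (∑ j ∈ t, g j) =
      ∑ j ∈ t, tw (δ l) f N c (g j) := fun t g c => by
    simp only [tw, map_sum, mul_sum, sum_mul, sum_sub_distrib]
  beta_reduce
  rw [s, mul_sum, sum_congr rfl k, sum_add_distrib, sum_range_sub, hd, sum_range_succ _ (_ + 1),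
    mul_add, mul_sum]
  simp only [hT, Nat.sub_self, Nat.add_sub_cancel]
  push_cast at z1 ⊢
  linear_combination (b (κ.degree + 1) : S) * z1

open Polynomial in
theorem der_tay (f : (MvPolynomial σ O)[X]) : ∃ F : MvPowerSeries σ (MvPolynomial σ O)[X],
    constantCoeff F = f ∧ ∀ l, derD (cd l) F = pderiv _ l F := by
  have ad : ∀ f g : (MvPolynomial σ O)[X], (∃ F : MvPowerSeries σ (MvPolynomial σ O)[X],
      constantCoeff F = f ∧ ∀ l, derD (cd l) F = pderiv _ l F) →
      (∃ F : MvPowerSeries σ (MvPolynomial σ O)[X],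
      constantCoeff F = g ∧ ∀ l, derD (cd l) F = pderiv _ l F) →
      (∃ F : MvPowerSeries σ (MvPolynomial σ O)[X],
      constantCoeff F = f + g ∧ ∀ l, derD (cd l) F = pderiv _ l F) ∧
      ∃ F : MvPowerSeries σ (MvPolynomial σ O)[X],
      constantCoeff F = f * g ∧ ∀ l, derD (cd l) F = pderiv _ l F :=
    fun f g ⟨F, F0, hF⟩ ⟨G, G0, hG⟩ => ⟨⟨F + G, by rw [map_add, F0, G0], fun l => by
      rw [der_add, hF, hG, map_add]⟩, F * G, by rw [map_mul, F0, G0], fun l => by
      rw [der_mul, hF, hG, Derivation.leibniz, smul_eq_mul, smul_eq_mul, mul_comm G]⟩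
  have hc : ∀ a : MvPolynomial σ O, ∃ F : MvPowerSeries σ (MvPolynomial σ O)[X],
      constantCoeff F = Polynomial.C a ∧ ∀ l, derD (cd l) F = pderiv _ l F := fun a => by
    induction a using MvPolynomial.induction_on with
    | C o => exact ⟨MvPowerSeries.C _, constantCoeff_C _, fun l => by simp [der_C, cd_C]⟩
    | add p q hp hq => rw [map_add]; exact (ad _ _ hp hq).1
    | mul_X p i hp =>
      rw [map_mul]
      refine (ad _ _ hp ⟨MvPowerSeries.C (Polynomial.C (MvPolynomial.X i)) + MvPowerSeries.X i,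
        by simp, fun l => ?_⟩).2
      rw [der_add, der_C, der_X, cd_C, map_add, pderiv_C, add_zero, zero_add]
      by_cases h : i = l
      · simp [h, pderiv_X_self]
      · simp [MvPolynomial.pderiv_X_of_ne h, pderiv_X_of_ne h]
  induction f using Polynomial.induction_on with
  | C a => exact hc a
  | add p q hp hq => exact (ad _ _ hp hq).1
  | monomial n a h =>
    rw [pow_succ, ← mul_assoc]
    exact (ad _ _ h ⟨MvPowerSeries.C _, constantCoeff_C _, fun l => by simp [der_C, cd_X]⟩).2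

open Polynomial in
theorem der_of [IsDomain O] [CharZero O] (f : (MvPolynomial σ O)[X]) (a N : ℕ) {b : ℕ → ℤ}
    (b0 : b 0 = 1) (hb : ∀ j : ℕ, b (j + 1) * (j + 1) = -(N * (a + N * j) * b j)) :
    ∃ A : (σ →₀ ℕ) → (MvPolynomial σ O)[X], A 0 = 1 ∧
      (∀ κ, (A κ).natDegree ≤ κ.degree * f.natDegree) ∧
      ∀ κ l, N * tw (cd l) f N (a + N * κ.degree) (A κ) =
        (κ l + 1) * A (κ + Finsupp.single l 1) := by
  obtain ⟨F, F0, hF⟩ := der_tay f
  obtain ⟨A, A0, hA⟩ := der_rec cd F0 hF a N b0 hb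
  refine ⟨A, A0, fun κ => ?_, hA⟩
  have c : ∀ (n : ℕ) (p : (MvPolynomial σ O)[X]), (n * p).natDegree ≤ p.natDegree := fun n p =>
    natDegree_mul_le.trans (by rw [natDegree_natCast, zero_add])
  obtain ⟨m, hm⟩ : ∃ m, κ.degree = m := ⟨_, rfl⟩
  induction m generalizing κ with
  | zero => simp [(Finsupp.degree_eq_zero_iff _).1 hm, A0]
  | succ m ih =>
    obtain ⟨l, hl⟩ := Finsupp.ne_iff.1 (show κ ≠ 0 by rintro rfl; simp at hm)
    obtain ⟨η, rfl⟩ : ∃ η, κ = η + Finsupp.single l 1 := ⟨κ - Finsupp.single l 1,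
      (tsub_add_cancel_of_le (Finsupp.single_le_iff.2 (Nat.one_le_iff_ne_zero.2 hl))).symm⟩
    have hd : (η + Finsupp.single l 1).degree = η.degree + 1 := by simp
    have i := ih η (by omega)
    have k := congrArg natDegree (hA η l)
    rw [← Nat.cast_succ, ← map_natCast Polynomial.C (η l).succ,
      natDegree_C_mul (Nat.cast_ne_zero.2 (Nat.succ_ne_zero _))] at k
    rw [← k, hd, add_mul, one_mul]
    refine (c _ _).trans ((natDegree_sub_le _ _).trans (max_le ?_ ?_))
    · exact natDegree_mul_le.trans (Nat.add_le_add_right ((c _ _).trans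
        ((natDegree_cd _ _).trans i)) _)
    · exact natDegree_mul_le.trans (Nat.add_le_add ((c _ _).trans i) (natDegree_cd _ _))

end

end Pool.Agent.Lib.MP_5591bc_ag.F
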