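import Pool.Agent.Lib.MP_5591bc_ag.F.Num
import Pool.Agent.Lib.MP_5591bc_ag.F.DerA

/-! Divided derivatives of a power of `f` in the parameters. -/

namespace Pool.Agent.Lib.MP_5591bc_ag.F

open Polynomial Finset Filter Topology M

noncomputable section

/-- `A κ = N ^ (2 |κ|) f ^ (a / N + |κ|) ∂ ^ κ f ^ (- a / N) / κ !` is a polynomial -/
theorem der_A {σ O : Type*} [CommRing O] [IsDomain O] [CharZero O] (f : (MvPolynomial σ O)[X])
    (a : ℕ) {N : ℕ} (N0 : 0 < N) : ∃ A : (σ →₀ ℕ) → (MvPolynomial σ O)[X], A 0 = 1 ∧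
      (∀ κ, (A κ).natDegree ≤ κ.degree * f.natDegree) ∧
      ∀ κ l, N * tw (cd l) f N (a + N * κ.degree) (A κ) =
        (κ l + 1) * A (κ + Finsupp.single l 1) :=
  let ⟨_, b0, hb⟩ := num_b a N0
  der_of f a N b0 hb

end

end Pool.Agent.Lib.MP_5591bc_ag.F
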