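import Mathlib

/-! An entire solution of `p H' + p' H / 2 = q` vanishes. -/

namespace Pool.Agent.Lib.MP_5591bc_ag.F

open Set Polynomial

theorem ent_deg {p : ℂ[X]} {n : ℕ} (hp : p.natDegree = n + 1) :
    (X * p.derivative - C ((n : ℂ) + 1) * p).degree < p.degree := by
  have p0 : p ≠ 0 := fun h => by simp [h] at hp
  rw [degree_eq_natDegree p0, hp, degree_lt_iff_coeff_zero]
  intro m hm
  obtain ⟨k, rfl⟩ := Nat.exists_eq_add_of_le' (le_trans (Nat.le_add_left 1 n) hm)
  rw [coeff_sub, coeff_X_mul, coeff_derivative, coeff_C_mul]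
  obtain rfl | h := eq_or_lt_of_le (Nat.le_of_succ_le_succ hm)
  · ring
  · rw [coeff_eq_zero_of_natDegree_lt (by omega)]
    ring

theorem ent_max {H : ℂ → ℂ} (hH : Differentiable ℂ H) {z : ℂ}
    (h : ∀ s ∈ Ioo (0 : ℝ) 1, ‖H (s * z)‖ ≤ ‖H z‖) : 0 ≤ inner ℝ (H z) (z * deriv H z) := by
  have d : HasDerivAt (fun s : ℝ => H (s * z)) (z * deriv H z) 1 := by
    have d1 : HasDerivAt H (deriv H z) ((1 : ℂ) * z) := by
      rw [one_mul]
      exact (hH z).hasDerivAt
    have := (d1.comp (1 : ℂ) ((hasDerivAt_id (1 : ℂ)).mul_const z)).comp_ofReal (z := 1)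
    rw [one_mul, mul_comm] at this
    exact this
  have t := (hasDerivAt_iff_tendsto_slope.1 d.norm_sq).mono_left (nhdsLT_le_nhdsNE 1)
  have : (0 : ℝ) ≤ 2 * inner ℝ (H z) (z * deriv H z) := by
    simp only [Complex.ofReal_one, one_mul] at t
    refine ge_of_tendsto t ?_
    filter_upwards [Ioo_mem_nhdsLT zero_lt_one] with s hs
    rw [slope_def_field]
    simp only [Complex.ofReal_one, one_mul]
    exact div_nonneg_of_nonpos (sub_nonpos.2 (pow_le_pow_left₀ (norm_nonneg _) (h s hs) 2))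
      (sub_nonpos.2 hs.2.le)
  linarith

/-- At a point `z` of a large circle where `‖H‖` is maximal on the disc
(`Complex.exists_mem_frontier_isMaxOn_norm`), `re (conj (H z) * z * H' z) ≥ 0` (derivative of
`s ↦ ‖H (s z)‖ ^ 2` from the left at `s = 1`), while `X p' - (n + 1) p` and `X q` are `o(p)`
(`Polynomial.isLittleO_cobounded_of_degree_lt`) and `‖H z‖ ≥ ‖H z₀‖ > 0`. -/
theorem ent_zero {p q : ℂ[X]} {n : ℕ} (hp : p.natDegree = n + 1) (hq : q.degree < n) {H : ℂ → ℂ}
    (hH : Differentiable ℂ H)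
    (e : ∀ z, p.eval z * deriv H z + p.derivative.eval z * H z / 2 = q.eval z) (z : ℂ) :
    H z = 0 := by
  by_contra h0
  have m0 : 0 < ‖H z‖ := norm_pos_iff.2 h0
  have p0 : p ≠ 0 := fun h => by simp [h] at hp
  have dp : p.degree = (n + 1 : ℕ) := by rw [degree_eq_natDegree p0, hp]
  have d1 : (X * q).degree < p.degree := by
    rw [dp, degree_mul, degree_X, add_comm, Nat.cast_succ]
    exact WithBot.add_lt_add_right WithBot.one_ne_bot hq
  have d2 : (1 : ℂ[X]).degree < p.degree := by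
    rw [dp, degree_one]
    exact_mod_cast n.succ_pos
  have ev := ((isLittleO_cobounded_of_degree_lt (ent_deg hp)).def one_half_pos).and
    (((isLittleO_cobounded_of_degree_lt d1).def (div_pos m0 (by norm_num : (0 : ℝ) < 8))).and
      ((isLittleO_cobounded_of_degree_lt d2).def one_pos))
  obtain ⟨R, -, hR⟩ := (Metric.hasBasis_cobounded_compl_closedBall (0 : ℂ)).eventually_iff.1 ev
  have R0 : 0 < |R| + ‖z‖ + 1 := by positivity
  obtain ⟨w, hw, hm⟩ := Complex.exists_mem_frontier_isMaxOn_norm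
    (Metric.isBounded_ball (x := (0 : ℂ)) (r := |R| + ‖z‖ + 1)) (Metric.nonempty_ball.2 R0)
    hH.diffContOnCl
  rw [frontier_ball _ R0.ne', mem_sphere_zero_iff_norm] at hw
  rw [closure_ball _ R0.ne'] at hm
  obtain ⟨h1, h2, h3⟩ := hR (show w ∈ (Metric.closedBall (0 : ℂ) R)ᶜ by
    rw [mem_compl_iff, mem_closedBall_zero_iff, hw, not_le]
    linarith [le_abs_self R, norm_nonneg z])
  have h4 : ‖H z‖ ≤ ‖H w‖ := hm (mem_closedBall_zero_iff.2 (by linarith [abs_nonneg R]))
  have h5 := ent_max hH (z := w) fun s hs => hm (mem_closedBall_zero_iff.2 (by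
    rw [norm_mul, Complex.norm_real, Real.norm_of_nonneg hs.1.le, ← hw]
    exact mul_le_of_le_one_left (norm_nonneg _) hs.2.le))
  rw [eval_one, norm_one, one_mul] at h3
  have pw : 0 < ‖p.eval w‖ := one_pos.trans_le h3
  have pw' : p.eval w ≠ 0 := norm_pos_iff.1 pw
  set r := (X * p.derivative - C ((n : ℂ) + 1) * p).eval w with hr
  have e1 : w * deriv H w = (-(((n : ℝ) + 1) / 2)) • H w +
      ((X * q).eval w - r * H w / 2) / p.eval w := by
    rw [hr, eval_mul, eval_X, ← e w, Complex.real_smul]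
    simp only [eval_sub, eval_mul, eval_X, eval_C]
    push_cast
    field_simp
    ring
  have e2 : ‖((X * q).eval w - r * H w / 2) / p.eval w‖ ≤ 3 / 8 * ‖H w‖ := by
    rw [norm_div, div_le_iff₀ pw]
    refine (norm_sub_le _ _).trans ?_
    rw [norm_div, norm_mul, Complex.norm_two]
    nlinarith [mul_le_mul_of_nonneg_right h1 (norm_nonneg (H w)),
      mul_le_mul_of_nonneg_right h4 pw.le]
  rw [e1, inner_add_right, real_inner_smul_right, real_inner_self_eq_norm_sq] at h5
  have h6 := (real_inner_le_norm (H w) _).trans (mul_le_mul_of_nonneg_left e2 (norm_nonneg _))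
  have h7 : 0 < ‖H w‖ ^ 2 := pow_pos (m0.trans_le h4) 2
  nlinarith [mul_nonneg (Nat.cast_nonneg (α := ℝ) n) h7.le]

end Pool.Agent.Lib.MP_5591bc_ag.F
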