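import Pool.Agent.Lib.MP_5591bc_ag.F.Set

/-! The family `y ^ 2 = f₀(x) ∏ l, (x - t l)`. -/

namespace Pool.Agent.Lib.MP_5591bc_ag.F

open Polynomial Finset Filter Topology M

noncomputable section

variable {σ K : Type*} [Fintype σ] [DecidableEq σ] [Field K]

/-- the polynomial `f₀(x) ∏ l, (x - t l)` -/
def fam (σ : Type*) [Fintype σ] (f₀ : K[X]) : (MvPolynomial σ K)[X] :=
  f₀.map MvPolynomial.C * ∏ l, (X - C (MvPolynomial.X l))

/-- `f₀(t l) ∏ j ≠ l, (t l - t j)` -/
def famT (f₀ : K[X]) (l : σ) : MvPolynomial σ K :=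
  aeval (MvPolynomial.X l) f₀ * ∏ j ∈ univ.erase l, (MvPolynomial.X l - MvPolynomial.X j)

omit [DecidableEq σ] in
theorem ev_fam [Algebra K ℂ] (f₀ : K[X]) (t : σ → ℂ) (z : ℂ) :
    ev (fam σ f₀) t z = aeval z f₀ * ∏ l, (z - t l) := by
  have h : ((MvPolynomial.aeval t : MvPolynomial σ K →ₐ[K] ℂ) : MvPolynomial σ K →+* ℂ).comp
      MvPolynomial.C = algebraMap K ℂ := by
    ext a; simp
  rw [ev, fam, eval₂_mul, eval₂_map, h, eval₂_finsetProd, aeval_def]
  simp

omit [DecidableEq σ] in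
theorem fam_monic : (∏ l : σ, (X - C (MvPolynomial.X l)) : (MvPolynomial σ K)[X]).Monic :=
  monic_prod_of_monic _ _ fun _ _ => monic_X_sub_C _

omit [DecidableEq σ] in
theorem fam_deg {f₀ : K[X]} (h0 : f₀ ≠ 0) :
    (fam σ f₀).natDegree = f₀.natDegree + Fintype.card σ ∧
      (fam σ f₀).leadingCoeff = MvPolynomial.C f₀.leadingCoeff := by
  have hi : Function.Injective (MvPolynomial.C : K →+* MvPolynomial σ K) :=
    MvPolynomial.C_injective σ K
  have h1 : f₀.map (MvPolynomial.C : K →+* MvPolynomial σ K) ≠ 0 :=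
    (Polynomial.map_ne_zero_iff hi).2 h0
  constructor
  · rw [fam, mul_comm, fam_monic.natDegree_mul' h1, natDegree_map_eq_of_injective hi,
      natDegree_prod_of_monic _ _ fun _ _ => monic_X_sub_C _]
    simp [add_comm]
  · rw [fam, leadingCoeff_mul_monic fam_monic, leadingCoeff_map_of_injective hi]

theorem famT_ne {f₀ : K[X]} (h0 : f₀ ≠ 0) (l : σ) : famT f₀ l ≠ 0 := by
  refine mul_ne_zero ?_ (prod_ne_zero_iff.2 fun j hj => sub_ne_zero.2 fun h =>
    (mem_erase.1 hj).1 (MvPolynomial.X_injective h).symm)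
  intro h
  apply h0
  have h2 := congrArg (MvPolynomial.aeval (R := K) fun _ : σ => (X : K[X])) h
  rw [← aeval_algHom_apply] at h2
  simpa using h2

/-- the discriminant divides a power of the product of the `famT` -/
theorem fam_bez {f₀ : K[X]} (hs : f₀.Separable) : ∃ (A B : (MvPolynomial σ K)[X]) (e : ℕ),
    A * fam σ f₀ + B * derivative (fam σ f₀) = C ((∏ l, famT f₀ l) ^ e) := by
  have key : (C (∏ l, famT f₀ l) : (MvPolynomial σ K)[X]) ∈
      (Ideal.span {fam σ f₀, derivative (fam σ f₀)}).radical := by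
    rw [Ideal.radical_eq_sInf, Submodule.mem_sInf]
    rintro P ⟨hI, hP⟩
    have hF : fam σ f₀ ∈ P := hI (Ideal.subset_span (by simp))
    have hF' : derivative (fam σ f₀) ∈ P := hI (Ideal.subset_span (by simp))
    have hPi : (∏ l : σ, (X - C (MvPolynomial.X l)) : (MvPolynomial σ K)[X]) ∈ P := by
      rcases hP.mem_or_mem hF with h | h
      · rw [fam, derivative_mul] at hF'
        have h2 := (P.add_mem_iff_left (Ideal.mul_mem_right _ P h)).1 hF'
        rcases hP.mem_or_mem h2 with h3 | h3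
        · obtain ⟨a, b, hab⟩ := hs.map (f := (MvPolynomial.C : K →+* MvPolynomial σ K))
          exact absurd ((Ideal.eq_top_iff_one _).2
            (hab ▸ P.add_mem (Ideal.mul_mem_left P _ h) (Ideal.mul_mem_left P _ h3))) hP.ne_top
        · exact h3
      · exact h
    obtain ⟨l, -, hl⟩ := Ideal.IsPrime.prod_mem_iff.1 hPi
    set G : (MvPolynomial σ K)[X] :=
      f₀.map MvPolynomial.C * ∏ j ∈ univ.erase l, (X - C (MvPolynomial.X j)) with hG
    have e1 : fam σ f₀ = (X - C (MvPolynomial.X l)) * G := by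
      rw [fam, hG, ← mul_prod_erase univ _ (mem_univ l)]; ring
    have hGP : G ∈ P := by
      rw [e1, derivative_mul, derivative_sub, derivative_X, derivative_C, sub_zero, one_mul] at hF'
      have h2 := P.sub_mem hF' (Ideal.mul_mem_right (derivative G) P hl)
      rwa [add_sub_cancel_right] at h2
    have e2 : G.eval (MvPolynomial.X l) = famT f₀ l := by
      rw [hG, famT, eval_mul, eval_map, eval_prod, aeval_def, MvPolynomial.algebraMap_eq]
      simp
    obtain ⟨q, hq⟩ := X_sub_C_dvd_sub_C_eval (a := MvPolynomial.X l) (p := G)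
    have h3 : (C (famT f₀ l) : (MvPolynomial σ K)[X]) ∈ P := by
      have : C (famT f₀ l) = G - (X - C (MvPolynomial.X l)) * q := by rw [← hq, e2]; ring
      rw [this]
      exact P.sub_mem hGP (Ideal.mul_mem_right _ P hl)
    rw [← mul_prod_erase univ _ (mem_univ l), C_mul]
    exact Ideal.mul_mem_right _ P h3
  obtain ⟨e, he⟩ := key
  obtain ⟨A, B, h⟩ := Ideal.mem_span_pair.1 he
  exact ⟨A, B, e, by rw [h, C_pow]⟩

/-- nonzero multiples of products of linear forms -/
def famL (σ : Type*) : Submonoid (MvPolynomial σ ℂ) where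
  carrier := {p | ∃ (γ : ℂ) (L : List (MvPolynomial σ ℂ)), γ ≠ 0 ∧ (∀ x ∈ L, x.totalDegree ≤ 1) ∧
    p = MvPolynomial.C γ * L.prod}
  one_mem' := ⟨1, [], one_ne_zero, by simp, by simp⟩
  mul_mem' := by
    rintro _ _ ⟨a, L, ha, hL, rfl⟩ ⟨b, M, hb, hM, rfl⟩
    refine ⟨a * b, L ++ M, mul_ne_zero ha hb, fun x hx => ?_, ?_⟩
    · exact (List.mem_append.1 hx).elim (hL x) (hM x)
    · rw [List.prod_append, map_mul]; ring

omit [Fintype σ] [DecidableEq σ] in
theorem famL_C {a : ℂ} (ha : a ≠ 0) : MvPolynomial.C a ∈ famL σ :=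
  ⟨a, [], ha, by simp, by simp⟩

omit [Fintype σ] [DecidableEq σ] in
theorem famL_sub {p q : MvPolynomial σ ℂ} (hp : p.totalDegree ≤ 1) (hq : q.totalDegree ≤ 1) :
    p - q ∈ famL σ :=
  ⟨1, [p - q], one_ne_zero, fun x hx => by
    rw [List.mem_singleton.1 hx]
    exact (MvPolynomial.totalDegree_sub p q).trans (max_le hp hq), by simp⟩

/-- over `ℂ` it is a product of linear forms -/
theorem fam_lin [Algebra K ℂ] {f₀ : K[X]} (h0 : f₀ ≠ 0) {c : K} (c0 : c ≠ 0) (e : ℕ) :
    ∃ (γ : ℂ) (r : ℕ) (ℓ : Fin r → MvPolynomial σ ℂ), γ ≠ 0 ∧ (∀ i, (ℓ i).totalDegree ≤ 1) ∧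
      MvPolynomial.map (algebraMap K ℂ) (MvPolynomial.C c * (∏ l : σ, famT f₀ l) ^ e) =
        MvPolynomial.C γ * ∏ i, ℓ i := by
  have hX : ∀ l : σ, (MvPolynomial.X l : MvPolynomial σ ℂ).totalDegree ≤ 1 := fun l =>
    (MvPolynomial.totalDegree_X l).le
  have key : MvPolynomial.map (algebraMap K ℂ) (MvPolynomial.C c * (∏ l : σ, famT f₀ l) ^ e) ∈
      famL σ := by
    rw [map_mul, map_pow, map_prod, MvPolynomial.map_C]
    refine mul_mem (famL_C ((_root_.map_ne_zero _).2 c0)) (pow_mem (prod_mem fun l _ => ?_) e)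
    rw [famT, map_mul, map_prod]
    refine mul_mem ?_ (prod_mem fun j _ => ?_)
    · have e1 : MvPolynomial.map (algebraMap K ℂ) (aeval (MvPolynomial.X l) f₀) =
          aeval (MvPolynomial.X l : MvPolynomial σ ℂ) (f₀.map (algebraMap K ℂ)) := by
        rw [aeval_def, hom_eval₂, aeval_def, eval₂_map, MvPolynomial.map_X]
        congr 1
        ext1 a
        simp
      have h1 : f₀.map (algebraMap K ℂ) ≠ 0 := Polynomial.map_ne_zero h0
      rw [e1, (IsAlgClosed.splits (f₀.map (algebraMap K ℂ))).eq_prod_roots, map_mul, aeval_C,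
        map_multiset_prod, Multiset.map_map]
      refine mul_mem (famL_C (leadingCoeff_ne_zero.2 h1)) (multiset_prod_mem _ fun x hx => ?_)
      obtain ⟨a, -, rfl⟩ := Multiset.mem_map.1 hx
      simp only [Function.comp_apply, map_sub, aeval_X, aeval_C]
      exact famL_sub (hX l) (by simp)
    · rw [map_sub, MvPolynomial.map_X, MvPolynomial.map_X]
      exact famL_sub (hX l) (hX j)
  obtain ⟨γ, L, h1, h2, h3⟩ := key
  exact ⟨γ, L.length, fun i => L[i], h1, fun i => h2 _ (List.getElem_mem _), by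
    rw [h3, ← Fin.prod_univ_getElem]; rfl⟩

end

end Pool.Agent.Lib.MP_5591bc_ag.F
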