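import Pool.Agent.Lib.MP_5591bc_ag.F.RedL
import Pool.Agent.Lib.MP_5591bc_ag.F.Der

/-! Galochkin's condition for the Picard-Fuchs system. -/

namespace Pool.Agent.Lib.MP_5591bc_ag.F

open Polynomial Finset Filter Topology M

noncomputable section

section ring
variable {σ O : Type*} [CommRing O] {f : (MvPolynomial σ O)[X]} {N a : ℕ}

theorem gal_pow (l : σ) (t : (MvPolynomial σ O)[X]) (m : ℕ) :
    t * cd l (t ^ m) = m * cd l t * t ^ m := by
  induction m with
  | zero => simp
  | succ m ih =>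
    rw [pow_succ, Derivation.leibniz, smul_eq_mul, smul_eq_mul]
    push_cast
    linear_combination t * ih

theorem gal_step (l : σ) (T : MvPolynomial σ O) (m : ℕ) {G h q q1 h1 : (MvPolynomial σ O)[X]}
    (e1 : f * (C T ^ m * G - N ^ m * f ^ m * h) = tw derivative f N (a + N * m) q)
    (e2 : C T * tw (cd l) f N a h = tw derivative f N a q1 + f * (N * h1)) :
    ∃ q', f * (C T ^ (m + 1) * tw (cd l) f N (a + N * m) G - N ^ (m + 1) * f ^ (m + 1) *
      (h1 - m * cd l (C T) * h)) = tw derivative f N (a + N * (m + 1)) q' := by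
  refine ⟨C T * tw (cd l) f N (a + N * m) q - N * m * cd l (C T) * f * q +
    N ^ m * f ^ (m + 1) * q1, ?_⟩
  have e3 := congrArg (cd l) e1
  have et := gal_pow l (C T) m
  have ef := gal_pow l f m
  have z1 : derivative (cd l (C T)) = 0 := by rw [cd_C, derivative_C]
  have z2 : cd l ((N : (MvPolynomial σ O)[X]) ^ m) = 0 := by
    rw [← Nat.cast_pow, Derivation.map_natCast]
  have z3 : derivative ((N : (MvPolynomial σ O)[X]) ^ m) = 0 := by
    rw [← Nat.cast_pow, derivative_natCast]
  simp only [tw, map_sub, Derivation.leibniz, smul_eq_mul, Derivation.map_natCast, cd_derivative,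
    z2] at e1 e2 e3
  simp only [tw, derivative_add, derivative_sub, derivative_mul, derivative_C, derivative_natCast,
    z1, z3, derivative_pow_succ, map_add C, map_natCast C, map_one C]
  push_cast at e1 e3 ⊢
  linear_combination N * f * C T * e3 -
    ((a + N * m + N) * cd l f * C T + N * m * cd l (C T) * f) * e1 + N ^ m * f ^ (m + 1) * e2 -
    N * f ^ 2 * G * et + N * f * C T * N ^ m * h * ef

/-- the numerators of the derivatives of `g / f ^ (a / N)` -/
def galG (f : (MvPolynomial σ O)[X]) (N a : ℕ) (g : (MvPolynomial σ O)[X]) :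
    List σ → (MvPolynomial σ O)[X]
  | [] => g
  | l :: w => tw (cd l) f N (a + N * w.length) (galG f N a g w)

theorem gal_cdX (l : σ) (j : ℕ) : cd l (X ^ j : (MvPolynomial σ O)[X]) = 0 := by
  simp [Derivation.leibniz_pow, cd_X]

theorem gal_iter {n : ℕ} {T : MvPolynomial σ O} {W : σ → Matrix (Fin n) (Fin n) (MvPolynomial σ O)}
    (h : ∀ l, PF f N a l T (W l)) (i : Fin n) (w : List σ) : ∃ q,
    f * (C T ^ w.length * galG f N a (X ^ (i : ℕ)) w - N ^ w.length * f ^ w.length *
      ∑ j, C (iterM T W w i j) * X ^ (j : ℕ)) = tw derivative f N (a + N * w.length) q := by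
  induction w with
  | nil => exact ⟨0, by simp [galG, iterM, tw, Matrix.one_apply, apply_ite C]⟩
  | cons l w ih =>
    obtain ⟨q, hq⟩ := ih
    choose p hp using h l
    obtain ⟨q', hq'⟩ := gal_step l T w.length hq (q1 := ∑ j, C (iterM T W w i j) * p j)
      (h1 := ∑ j, (C T * C (MvPolynomial.pderiv l (iterM T W w i j)) * X ^ (j : ℕ) +
        C (iterM T W w i j) * ∑ k, C (W l j k) * X ^ (k : ℕ))) (by
        simp only [tw, map_sum, mul_sum, sum_mul, ← sum_sub_distrib, ← sum_add_distrib] at hp ⊢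
        refine sum_congr rfl fun j _ => ?_
        have := hp j
        simp only [Derivation.leibniz, gal_cdX, cd_C, smul_eq_mul, derivative_mul, derivative_C,
          ← mul_sum] at this ⊢
        linear_combination C (iterM T W w i j) * this)
    refine ⟨q', ?_⟩
    rw [List.length_cons, ← hq', galG]
    congr 3
    simp only [iterM, Matrix.add_apply, Matrix.sub_apply, Matrix.smul_apply, Matrix.map_apply,
      Matrix.mul_apply, smul_eq_mul, map_add, map_sub, map_mul, map_sum, map_natCast, add_mul,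
      sub_mul, sum_mul, mul_sum, sum_add_distrib, sum_sub_distrib, cd_C, mul_assoc]
    rw [sum_comm]
    ring

theorem gal_A [Fintype σ] [DecidableEq σ] {A : (σ →₀ ℕ) → (MvPolynomial σ O)[X]} (A0 : A 0 = 1)
    (hA : ∀ κ l, N * tw (cd l) f N (a + N * κ.degree) (A κ) =
      (κ l + 1) * A (κ + Finsupp.single l 1)) (i : ℕ) (w : List σ) : ∃ κ : σ →₀ ℕ,
    κ.degree = w.length ∧ (∀ l, κ l = w.count l) ∧
      (N : (MvPolynomial σ O)[X]) ^ w.length * galG f N a (X ^ i) w =
        Nat.cast (∏ l, (w.count l).factorial) * (X ^ i * A κ) := by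
  induction w with
  | nil => exact ⟨0, by simp, by simp, by simp [galG, A0]⟩
  | cons l w ih =>
    obtain ⟨κ, k1, k2, k3⟩ := ih
    refine ⟨κ + Finsupp.single l 1, by simp [k1], fun j => ?_, ?_⟩
    · simp [k2, List.count_cons, Finsupp.single_apply]
    have e : ∏ j, ((l :: w).count j).factorial = (κ l + 1) * ∏ j, (w.count j).factorial := by
      rw [← mul_prod_erase _ _ (mem_univ l), ← mul_prod_erase _ _ (mem_univ l),
        List.count_cons_self, Nat.factorial_succ, k2, mul_assoc]
      congr 2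
      exact prod_congr rfl fun j hj => by rw [List.count_cons_of_ne (ne_of_mem_erase hj).symm]
    have e1 := congrArg (cd l) k3
    have e2 := hA κ l
    rw [← Nat.cast_pow] at e1
    simp only [Derivation.leibniz, Derivation.map_natCast, gal_cdX, smul_eq_mul] at e1
    rw [e, List.length_cons, galG, ← k1]
    rw [← k1] at k3 e1
    generalize ∏ j, (w.count j).factorial = c at *
    simp only [tw] at e2 ⊢
    push_cast at e1 e2 k3 ⊢
    linear_combination N * N * f * e1 - N * (a + N * κ.degree) * cd l f * k3 + c * X ^ i * e2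

theorem gal_map {O' : Type*} [CommRing O'] (φ : O →+* O') (l : σ) (b : ℕ)
    (g : (MvPolynomial σ O)[X]) : (tw (cd l) f N b g).map (MvPolynomial.map φ) =
      tw (cd l) (f.map (MvPolynomial.map φ)) N b (g.map (MvPolynomial.map φ)) := by
  simp [tw, map_cd]

end ring

theorem gal_map' {R S : Type*} [CommRing R] [CommRing S] (φ : R →+* S) (f g : R[X]) (N b : ℕ) :
    (tw derivative f N b g).map φ = tw derivative (f.map φ) N b (g.map φ) := by
  simp [tw]

theorem gal_den {σ K : Type*} [Field K] [NumberField K] (p : (MvPolynomial σ K)[X]) :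
    ∃ c : ℕ, 0 < c ∧ ∃ p0 : (MvPolynomial σ (NumberField.RingOfIntegers K))[X],
      p0.map (MvPolynomial.map (algebraMap _ K)) = c * p := by
  induction p using Polynomial.induction_on with
  | C a =>
    induction a using MvPolynomial.induction_on with
    | C a =>
      obtain ⟨c, c0, hc⟩ := exists_integral_multiples ℤ ℚ ({a} : Finset K)
      obtain ⟨y, hy⟩ : ∃ y : NumberField.RingOfIntegers K, algebraMap _ K y = c • a :=
        ⟨⟨_, hc a (mem_singleton_self a)⟩, rfl⟩
      refine ⟨c.natAbs ^ 2, by positivity, C (MvPolynomial.C (c * y)), ?_⟩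
      rw [map_C, MvPolynomial.map_C, ← map_natCast C, ← map_natCast MvPolynomial.C, ← C_mul,
        ← MvPolynomial.C_mul, Nat.cast_pow, ← Int.cast_natCast, ← Int.cast_pow, Int.natAbs_sq]
      congr 2
      rw [map_mul, map_intCast, sq, Int.cast_mul, mul_assoc, hy, zsmul_eq_mul]
    | add a b ha hb =>
      obtain ⟨c, c0, p, hp⟩ := ha
      obtain ⟨d, d0, q, hq⟩ := hb
      exact ⟨c * d, by positivity, d * p + c * q, by simp [hp, hq]; ring⟩
    | mul_X a l ha =>
      obtain ⟨c, c0, p, hp⟩ := ha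
      exact ⟨c, c0, p * C (MvPolynomial.X l), by simp [hp, mul_assoc]⟩
  | add a b ha hb =>
    obtain ⟨c, c0, p, hp⟩ := ha
    obtain ⟨d, d0, q, hq⟩ := hb
    exact ⟨c * d, by positivity, d * p + c * q, by simp [hp, hq]; ring⟩
  | monomial k a ha =>
    obtain ⟨c, c0, p, hp⟩ := ha
    exact ⟨c, c0, p * X, by simp [hp, mul_assoc, pow_succ]⟩

variable {σ K : Type*} [Fintype σ] [DecidableEq σ] [Field K] [NumberField K]

theorem gal_int {F A B : (MvPolynomial σ (NumberField.RingOfIntegers K))[X]}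
    {Δ : MvPolynomial σ (NumberField.RingOfIntegers K)} {n : ℕ} (hf : F.natDegree = n + 1)
    (Δ0 : Δ ≠ 0) (hΔ : A * F + B * derivative F = C Δ) {N : ℕ} : ∃ e : ℕ,
    ∀ a : ℕ, 0 < a → a < N → ∃ W : σ → Matrix (Fin n) (Fin n) (MvPolynomial σ K),
      GalM (MvPolynomial.map (algebraMap _ K) ((F.leadingCoeff * Δ) ^ e)) W ∧
        ∀ l, PF (F.map (MvPolynomial.map (algebraMap _ K))) N a l
          (MvPolynomial.map (algebraMap _ K) ((F.leadingCoeff * Δ) ^ e)) (W l) := by
  obtain ⟨e, he⟩ := red_lc hf Δ0 hΔ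
  refine ⟨e, fun a a0 aN => ?_⟩
  have N0 : 0 < N := a0.trans aN
  set ψ := MvPolynomial.map (σ := σ) (algebraMap (NumberField.RingOfIntegers K) K) with hψ
  have ψi : Function.Injective ψ :=
    MvPolynomial.map_injective _ NumberField.RingOfIntegers.coe_injective
  set f := F.map ψ with hF
  set T := ψ ((F.leadingCoeff * Δ) ^ e) with hT
  have red : ∀ (m : ℕ) (g : (MvPolynomial σ (NumberField.RingOfIntegers K))[X]) (i : Fin n),
      g.natDegree ≤ (m + 1) * (n + 1) → ∃ (q : (MvPolynomial σ K)[X])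
        (r : Fin n → MvPolynomial σ (NumberField.RingOfIntegers K)),
      ((Nat.lcmUpto (N * (m + 1)) * N : ℕ) : (MvPolynomial σ K)[X]) * C T ^ (m + 1) *
        (X ^ (i : ℕ) * g.map ψ) =
        tw derivative f N (a + N * m) q + f ^ (m + 1) * ∑ j, C (ψ (r j)) * X ^ (j : ℕ) := by
    intro m g i hg
    obtain ⟨q, r, hr, h⟩ := he a0 aN.le m (g := X ^ (i : ℕ) * g) (degree_le_natDegree.trans_lt
      (Nat.cast_lt.2 (natDegree_mul_le.trans_lt (by rw [natDegree_X_pow]; omega))))
    refine ⟨q.map ψ, fun j => r.coeff j, ?_⟩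
    have := congrArg (Polynomial.map ψ) h
    rw [← sum_fin (fun j b => C b * X ^ j) (by simp) hr |>.trans (sum_C_mul_X_pow_eq r)] at this
    simpa [gal_map', Polynomial.map_sum, pow_mul, hT] using this
  have pf : ∀ l, ∃ W, PF f N a l T W := fun l => by
    have k := fun i => red 0 (-(a * cd l F)) i (by
      rw [natDegree_neg, zero_add, one_mul, ← hf]
      exact natDegree_mul_le.trans (by simpa using natDegree_cd l F))
    choose q r hr using k
    obtain ⟨d, hd⟩ : ∃ d, d = Nat.lcmUpto (N * (0 + 1)) * N := ⟨_, rfl⟩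
    have d0 : (d : K) ≠ 0 :=
      Nat.cast_ne_zero.2 (hd ▸ (Nat.mul_pos (Nat.lcmUpto_pos _) N0).ne')
    have n0 : (N : K) ≠ 0 := Nat.cast_ne_zero.2 N0.ne'
    obtain ⟨u, hu⟩ : ∃ u : MvPolynomial σ K, u = MvPolynomial.C ((d : K) * N)⁻¹ := ⟨_, rfl⟩
    have e1 : (d : (MvPolynomial σ K)[X]) * N * C u = 1 := by
      rw [hu, ← map_natCast C, ← map_natCast C, ← C_mul, ← C_mul, ← map_natCast MvPolynomial.C,
        ← map_natCast MvPolynomial.C, ← map_mul, ← map_mul, mul_inv_cancel₀ (mul_ne_zero d0 n0),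
        map_one, map_one]
    refine ⟨fun i j => u * ψ (r i j), fun i => ⟨C u * N * q i, ?_⟩⟩
    have := hr i
    rw [← hd] at this
    simp only [tw, gal_cdX, derivative_mul, derivative_C, derivative_natCast, map_mul, mul_assoc,
      ← mul_sum, Polynomial.map_neg, Polynomial.map_mul, Polynomial.map_natCast, hψ, map_cd]
      at this ⊢
    rw [← hψ, ← hF] at this
    simp only [mul_zero, add_zero, zero_add, pow_one] at this
    linear_combination C u * N * this + C T * a * X ^ (i : ℕ) * cd l f * e1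
  choose W hW using pf
  refine ⟨W, ?_, hW⟩
  obtain ⟨A', A0, A1, A2⟩ := der_A F a N0
  obtain ⟨c, c1, hc⟩ := num_lcm N
  have n1 : (1 : ℝ) ≤ N := by exact_mod_cast N0
  refine ⟨c * N ^ 2, fun M => ⟨Nat.lcmUpto (N * M) * N * N ^ (2 * M),
    by have := Nat.lcmUpto_pos (N * M); positivity, ?_, fun w hw i j μ => ?_⟩⟩
  · push_cast
    rw [mul_pow, ← pow_mul, mul_assoc, ← pow_succ']
    exact mul_le_mul ((hc M).trans (pow_le_pow_right₀ c1 M.le_succ))
      (pow_le_pow_right₀ n1 (by omega)) (by positivity) (by positivity)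
  rcases w with _ | ⟨l, w⟩
  · simp only [iterM, Matrix.one_apply, List.count_nil, Nat.factorial_zero, Nat.cast_one,
      prod_const_one, div_one]
    refine (isIntegral_natCast _).mul ?_
    split_ifs
    · rw [MvPolynomial.coeff_one]; split_ifs; exacts [isIntegral_one, isIntegral_zero]
    · simpa using isIntegral_zero
  obtain ⟨κ, k1, -, k3⟩ := gal_A (f := f) (N := N) (a := a) (A := fun κ => (A' κ).map ψ)
    (by simp [A0]) (fun κ l => by
      simpa [hψ, hF, gal_map] using congrArg (Polynomial.map ψ) (A2 κ l)) i (l :: w)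
  obtain ⟨q1, h1⟩ := gal_iter hW i (l :: w)
  obtain ⟨q, r, h2⟩ := red w.length (A' κ) i (by simpa [k1, hf] using A1 κ)
  rw [List.length_cons] at hw k3 h1
  have s0 : ((∏ j, ((l :: w).count j).factorial : ℕ) : K) ≠ 0 :=
    Nat.cast_ne_zero.2 (prod_pos fun _ _ => Nat.factorial_pos _).ne'
  rw [← Nat.cast_prod]
  generalize iterM T W (l :: w) = H, ∏ j, ((l :: w).count j).factorial = s, w.length = m,
    galG f N a (X ^ (i : ℕ)) (l :: w) = G at *
  obtain ⟨u, hu⟩ : Nat.lcmUpto (N * (m + 1)) ∣ Nat.lcmUpto (N * M) :=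
    lcm_mono (Icc_subset_Icc_right (Nat.mul_le_mul_left _ hw))
  obtain ⟨v, rfl⟩ := Nat.exists_eq_add_of_le hw
  rw [hu]
  generalize Nat.lcmUpto (N * (m + 1)) = d at *
  have z := red_uniq (f := f) (A := A.map ψ) (B := B.map ψ) (Δ := ψ Δ)
    ((natDegree_map_eq_of_injective ψi F).trans hf) ((map_ne_zero_iff _ ψi).2 Δ0)
    (by rw [hF, derivative_map, ← Polynomial.map_mul, ← Polynomial.map_mul, ← Polynomial.map_add,
      hΔ, map_C]) a0 aN (m + 1)
    (q := (d * N * N ^ (m + 1) : ℕ) * q1 - s * (f * q))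
    (degree_sum_fin_lt fun j => s * ψ (r j) - (d * N * N ^ (2 * (m + 1)) : ℕ) * H i j) (by
      simp only [map_sub, map_mul C, map_natCast C, sub_mul, mul_assoc, sum_sub_distrib, ← mul_sum]
      generalize ∑ j : Fin n, C (ψ (r j)) * X ^ (j : ℕ) = ρ, ∑ j, C (H i j) * X ^ (j : ℕ) = h,
        X ^ (i : ℕ) * (A' κ).map ψ = Z, C T = t at h1 h2 k3 ⊢
      clear_value f
      simp only [tw, derivative_sub, derivative_mul, derivative_natCast]
        at h1 h2 ⊢
      push_cast at h1 h2 ⊢
      linear_combination -(d * N * N ^ (m + 1)) * h1 + d * N * f * t ^ (m + 1) * k3 + s * f * h2)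
  have z1 := congrArg (fun p => MvPolynomial.coeff μ (p.coeff j)) z
  simp only [finsetSum_coeff, coeff_C_mul_X_pow, Fin.val_inj, sum_ite_eq, mem_univ, if_true,
    coeff_zero, MvPolynomial.coeff_zero, MvPolynomial.coeff_sub, ← nsmul_eq_mul,
    MvPolynomial.coeff_smul, hψ, MvPolynomial.coeff_map] at z1
  rw [show ((d * u * N * N ^ (2 * (m + 1 + v)) : ℕ) : K) * MvPolynomial.coeff μ (H i j) / s =
    (u * N ^ (2 * v) : ℕ) * algebraMap _ K (MvPolynomial.coeff μ (r j)) by
      rw [div_eq_iff s0]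
      simp only [nsmul_eq_mul] at z1
      push_cast at z1 ⊢
      linear_combination -(u * N ^ (2 * v)) * z1]
  exact (isIntegral_natCast _).mul (NumberField.RingOfIntegers.isIntegral_coe _)

/-- `T` is a constant times a power of the leading coefficient times `Δ` -/
theorem gal_fam {σ K : Type*} [Fintype σ] [DecidableEq σ] [Field K] [NumberField K]
    {f A B : (MvPolynomial σ K)[X]} {Δ : MvPolynomial σ K} {n : ℕ} (hf : f.natDegree = n + 1)
    (Δ0 : Δ ≠ 0) (hΔ : A * f + B * derivative f = C Δ) {N : ℕ} : ∃ γ e : ℕ, 0 < γ ∧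
    ∀ a : ℕ, 0 < a → a < N → ∃ W : σ → Matrix (Fin n) (Fin n) (MvPolynomial σ K),
      GalM ((γ : MvPolynomial σ K) * (f.leadingCoeff * Δ) ^ e) W ∧
        ∀ l, PF f N a l ((γ : MvPolynomial σ K) * (f.leadingCoeff * Δ) ^ e) (W l) := by
  obtain ⟨c1, p1, F, hF⟩ := gal_den f
  obtain ⟨c2, p2, A0, hA⟩ := gal_den A
  obtain ⟨c3, p3, B0, hB⟩ := gal_den B
  set ψ := MvPolynomial.map (σ := σ) (algebraMap (NumberField.RingOfIntegers K) K) with hψ
  have ψi : Function.Injective ψ :=
    MvPolynomial.map_injective _ NumberField.RingOfIntegers.coe_injective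
  have nz : ∀ {c : ℕ}, 0 < c → (c : MvPolynomial σ K) ≠ 0 := fun h => Nat.cast_ne_zero.2 h.ne'
  obtain ⟨E, hE⟩ : ∃ E, E = c3 * A0 * F + c2 * B0 * derivative F := ⟨_, rfl⟩
  have e1 : E.map ψ = C ((c1 * c2 * c3 : ℕ) * Δ) := by
    rw [hE, map_mul C, map_natCast C, ← hΔ]
    simp only [Polynomial.map_add, Polynomial.map_mul, Polynomial.map_natCast, ← derivative_map,
      hF, hA, hB, derivative_natCast_mul]
    push_cast
    ring
  have e2 : ψ (E.coeff 0) = (c1 * c2 * c3 : ℕ) * Δ := by rw [← coeff_map, e1, coeff_C_zero]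
  have e3 : E = C (E.coeff 0) := map_injective ψ ψi (by rw [map_C, e1, e2])
  have e4 : F.natDegree = f.natDegree := by
    rw [← natDegree_map_eq_of_injective ψi F, hF, ← map_natCast C, natDegree_C_mul (nz p1)]
  have e5 : ψ F.leadingCoeff = c1 * f.leadingCoeff := by
    rw [leadingCoeff, ← coeff_map, hF, e4, coeff_natCast_mul, leadingCoeff]
  obtain ⟨e, he⟩ := gal_int (N := N) (e4.trans hf) (fun h => mul_ne_zero
    (nz (c := c1 * c2 * c3) (by positivity)) Δ0 (by rw [← e2, h, map_zero])) (hE.symm.trans e3)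
  refine ⟨(c1 * (c1 * c2 * c3)) ^ e, e, by positivity, fun a a0 aN => ?_⟩
  obtain ⟨W, h1, h2⟩ := he a a0 aN
  rw [← hψ, map_pow, map_mul, e2, e5, mul_mul_mul_comm, mul_pow, ← Nat.cast_mul,
    ← Nat.cast_pow] at h1 h2
  refine ⟨W, h1, fun l i => (h2 l i).imp fun q hq => ?_⟩
  refine mul_left_cancel₀ (Nat.cast_ne_zero.2 p1.ne' : (c1 : (MvPolynomial σ K)[X]) ≠ 0) ?_
  simp only [hF, tw, Derivation.leibniz, Derivation.map_natCast, derivative_natCast_mul,
    smul_eq_mul] at hq ⊢
  linear_combination hq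

end

end Pool.Agent.Lib.MP_5591bc_ag.F
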