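import Pool.Agent.Lib.MP_5591bc_ag.F.Set

/-! Divided powers of the derivation with respect to `f`. -/

namespace Pool.Agent.Lib.MP_5591bc_ag.F

open Polynomial Finset Filter Topology M

noncomputable section

/-- the inverse series of `Y + k(Y) Y ^ 2` -/
theorem inv_eta {S : Type*} [CommRing S] (k : S[X]) : ∃ η : PowerSeries S,
    PowerSeries.constantCoeff η = 0 ∧ η + aeval η k * η ^ 2 = PowerSeries.X := by
  have h0 : PowerSeries.constantCoeff ((X + k * X ^ 2 : S[X]) : PowerSeries S) = 0 := by
    simp
  have h1 : IsUnit (PowerSeries.coeff 1 ((X + k * X ^ 2 : S[X]) : PowerSeries S)) := by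
    rw [Polynomial.coeff_coe, coeff_add, coeff_X_one, coeff_mul_X_pow']
    simp
  refine ⟨PowerSeries.substInvOfIsUnit _ h1, PowerSeries.constantCoeff_substInvOfIsUnit _ h1, ?_⟩
  have := PowerSeries.subst_substInvOfIsUnit_right _ h0 h1
  rw [PowerSeries.subst_coe (PowerSeries.HasSubst.substInvOfIsUnit _ h1)] at this
  simpa using this

variable {R S : Type*} [CommRing R] [CommRing S] [Algebra R S]

/-- the solution `ξ = x + f'(x) η` of `f(ξ) = f(x) + f'(x) ^ 2 T` -/
theorem inv_xi (x : S) (f : R[X]) : ∃ η : PowerSeries S,
    PowerSeries.constantCoeff η = 0 ∧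
      aeval (PowerSeries.C x + PowerSeries.C (aeval x (derivative f)) * η) f =
        PowerSeries.C (aeval x f) + PowerSeries.C (aeval x (derivative f)) ^ 2 * PowerSeries.X := by
  obtain ⟨k, hk⟩ :=
    binomExpansion (f.map (algebraMap R S[X])) (C x) (C (aeval x (derivative f)) * X)
  obtain ⟨η, h0, hη⟩ := inv_eta k
  refine ⟨η, h0, ?_⟩
  have hC : ∀ p : R[X], aeval (C x : S[X]) p = C (aeval x p) := fun p => by
    rw [← algebraMap_eq, aeval_algebraMap_apply]
  rw [derivative_map, eval_map_algebraMap, eval_map_algebraMap, eval_map_algebraMap, hC,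
    hC] at hk
  have h2 := congrArg ((aeval η : S[X] →ₐ[S] PowerSeries S).restrictScalars R) hk
  rw [← aeval_algHom_apply] at h2
  simp only [AlgHom.coe_restrictScalars', map_add, map_mul, map_pow, aeval_C, aeval_X,
    PowerSeries.algebraMap_eq] at h2
  rw [h2, ← hη]
  ring

theorem inv_chain (ξ : PowerSeries S) (p : R[X]) :
    PowerSeries.derivative S (aeval ξ p) = aeval ξ (derivative p) * PowerSeries.derivative S ξ :=
  ((PowerSeries.derivative S).restrictScalars R).map_aeval p ξ

theorem inv_const (ξ : PowerSeries S) (p : R[X]) :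
    PowerSeries.constantCoeff (aeval ξ p) = aeval (PowerSeries.constantCoeff ξ) p := by
  induction p using Polynomial.induction_on' with
  | add p q hp hq => rw [map_add, map_add, hp, hq, map_add]
  | monomial n a =>
    rw [aeval_monomial, map_mul, map_pow, aeval_monomial]
    rfl

/-- `f' ^ (2 j + 1) θ ^ j (g / f')` -/
def invTh (f g : R[X]) : ℕ → R[X]
  | 0 => g
  | j + 1 => derivative (invTh f g j) * derivative f -
      (2 * j + 1) * invTh f g j * derivative (derivative f)

theorem inv_div [IsDomain S] (x : S) (f g : R[X]) (h : aeval x (derivative f) ≠ 0) :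
    ∃ c : ℕ → S, ∀ j : ℕ, (j.factorial : S) * c j = aeval x (invTh f g j) := by
  obtain ⟨η, h0, hη⟩ := inv_xi x f
  set ξ : PowerSeries S := PowerSeries.C x + PowerSeries.C (aeval x (derivative f)) * η with hξ
  set w := PowerSeries.derivative S η with hw
  have hc : PowerSeries.constantCoeff ξ = x := by simp [hξ, h0]
  have hne : (PowerSeries.C (aeval x (derivative f)) : PowerSeries S) ≠ 0 := fun e =>
    h (by simpa using congrArg PowerSeries.constantCoeff e)
  have hd : PowerSeries.derivative S ξ = PowerSeries.C (aeval x (derivative f)) * w := by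
    simp [hξ, hw, Derivation.leibniz, PowerSeries.derivative_C]
  have h1 : aeval ξ (derivative f) * w = PowerSeries.C (aeval x (derivative f)) := by
    have e := inv_chain ξ f
    rw [hη, hd] at e
    simp only [map_add, Derivation.leibniz, Derivation.leibniz_pow, PowerSeries.derivative_C,
      PowerSeries.derivative_X, smul_eq_mul, mul_one, zero_add] at e
    apply mul_left_cancel₀ hne
    linear_combination -e
  have hw1 : PowerSeries.constantCoeff w = 1 := by
    have e := congrArg PowerSeries.constantCoeff h1
    rw [map_mul, inv_const, hc, PowerSeries.constantCoeff_C] at e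
    exact mul_left_cancel₀ h (by rw [e, mul_one])
  have h2 : PowerSeries.derivative S w = -(aeval ξ (derivative (derivative f)) * w ^ 3) := by
    have e := congrArg (PowerSeries.derivative S) h1
    rw [Derivation.leibniz, inv_chain, hd, PowerSeries.derivative_C, smul_eq_mul,
      smul_eq_mul] at e
    apply mul_left_cancel₀ hne
    linear_combination w * e - PowerSeries.derivative S w * h1
  have h3 : ∀ j : ℕ, (PowerSeries.derivative S)^[j] (aeval ξ g * w) =
      aeval ξ (invTh f g j) * w ^ (2 * j + 1) := by
    intro j
    induction j with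
    | zero => simp [invTh]
    | succ j ih =>
      rw [Function.iterate_succ_apply', ih, Derivation.leibniz, Derivation.leibniz_pow, inv_chain,
        hd, h2, ← h1, invTh]
      simp only [map_sub, map_mul, map_add, map_natCast, map_ofNat, map_one, smul_eq_mul,
        nsmul_eq_mul, Nat.add_sub_cancel]
      push_cast
      ring
  refine ⟨fun j => PowerSeries.coeff j (aeval ξ g * w), fun j => ?_⟩
  rw [← PowerSeries.constantCoeff_iterate_derivative, h3, map_mul, map_pow, hw1, inv_const, hc,
    one_pow, mul_one]

/-- `c j = f' ^ (2 j + 1) θ ^ j (g / f') / j !` with `θ = d / d f` is a polynomial -/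
theorem inv_c {R : Type*} [CommRing R] [IsDomain R] [CharZero R] (f g : R[X])
    (h : derivative f ≠ 0) : ∃ c : ℕ → R[X], c 0 = g ∧ ∀ j : ℕ, derivative (c j) * derivative f -
      (2 * j + 1) * c j * derivative (derivative f) = (j + 1) * c (j + 1) := by
  obtain ⟨c, hc⟩ := inv_div (X : R[X]) f g (by rwa [aeval_X_left_apply])
  simp only [aeval_X_left_apply] at hc
  refine ⟨c, by simpa [invTh] using hc 0, fun j => ?_⟩
  have hj : (j.factorial : R[X]) ≠ 0 := Nat.cast_ne_zero.2 j.factorial_ne_zero
  have e := hc (j + 1)
  rw [invTh, ← hc j, derivative_natCast_mul, Nat.factorial_succ] at e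
  apply mul_left_cancel₀ hj
  push_cast at e
  linear_combination -e

end

end Pool.Agent.Lib.MP_5591bc_ag.F
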