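import Pool.Agent.Lib.MP_5591bc_ag.F.Arc

/-! A figure eight around two roots. -/

namespace Pool.Agent.Lib.MP_5591bc_ag.F

open Set Polynomial Filter Topology

/-- the parameter on the figure eight -/
noncomputable def jouW (ε u : ℝ) : ℂ :=
  (2 * Real.pi * u : ℝ) + Complex.I * (ε * Real.sin (2 * Real.pi * u) : ℝ)

theorem jou_cos {ε : ℝ} (hε : ε ≠ 0) (u : ℝ) : Complex.cos (jouW ε u) ≠ 0 := fun h => by
  obtain ⟨k, hk⟩ := Complex.cos_eq_zero_iff.1 h
  have h1 : (jouW ε u).im = 0 := by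
    rw [hk, show (2 * k + 1) * (Real.pi : ℂ) / 2 = ((2 * k + 1) * Real.pi / 2 : ℝ) by push_cast; rfl,
      Complex.ofReal_im]
  rw [jouW, Complex.add_im, Complex.ofReal_im, Complex.I_mul_im, Complex.ofReal_re, zero_add] at h1
  rw [jouW, h1, Complex.ofReal_zero, mul_zero, add_zero, ← Complex.ofReal_cos,
    Complex.ofReal_eq_zero] at h
  have := Real.sin_sq_add_cos_sq (2 * Real.pi * u)
  rw [h, (mul_eq_zero.1 h1).resolve_left hε] at this
  norm_num at this

theorem jou_near {S : Set ℂ} (ho : IsOpen S) (m R : ℂ) {c d : ℝ}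
    (h : ∀ u ∈ Icc c d, m + R * Real.sin (2 * Real.pi * u) ∈ S) :
    ∀ᶠ ε in 𝓝 (0 : ℝ), ∀ u ∈ Icc c d, m + R * Complex.sin (jouW ε u) ∈ S := by
  refine isCompact_Icc.eventually_forall_of_forall_eventually fun u hu => ?_
  have : Continuous fun z : ℝ × ℝ => m + R * Complex.sin (jouW z.1 z.2) := by
    unfold jouW
    fun_prop
  refine this.continuousAt.preimage_mem_nhds (ho.mem_nhds ?_)
  simpa [jouW] using h u hu

/-- `m = (a + b) / 2`, `R = (b - a) / 2`, `w u = 2 π u + I ε sin (2 π u)`, `x = m + R sin w`,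
`y = I R cos w * ρ x`. For small `ε > 0` (`IsCompact.eventually_forall_of_forall_eventually`)
`x` maps `[0, 1/2]` into `S'` and `[1/2, 1]` into `S`; `cos w ≠ 0`; `prm_arc` twice. The witness is
`I R ρ m`. -/
theorem lp_jou {r : ℂ[X]} {a b : ℂ} (hab : a ≠ b) {S S' : Set ℂ} (ho : IsOpen S) (ho' : IsOpen S')
    (hS : segment ℝ a ((a + b) / 2) ⊆ S) (hS' : segment ℝ ((a + b) / 2) b ⊆ S') {ρ : ℂ → ℂ}
    (hρ : Rt r (S ∪ S') ρ) {n : ℕ} {h h' : ℂ → Fin n → ℂ}
    (h1 : Prm ((X - C a) * (X - C b) * r) S h) (h2 : Prm ((X - C a) * (X - C b) * r) S' h') :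
    ∃ y : ℂ, y ≠ 0 ∧ y ^ 2 = ((X - C a) * (X - C b) * r).eval ((a + b) / 2) ∧
      Lp ((X - C a) * (X - C b) * r).eval ((2 * y) • (h ((a + b) / 2) - h' ((a + b) / 2))) := by
  obtain ⟨m, hm⟩ : ∃ m, m = (a + b) / 2 := ⟨_, rfl⟩
  obtain ⟨R, hR⟩ : ∃ R, R = (b - a) / 2 := ⟨_, rfl⟩
  have R0 : R ≠ 0 := hR ▸ div_ne_zero (sub_ne_zero.2 hab.symm) two_ne_zero
  rw [← hm] at hS hS' ⊢
  have ea : a = m - R := by rw [hm, hR]; ring
  have eb : b = m + R := by rw [hm, hR]; ring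
  have pi := Real.pi_pos
  have n1 := jou_near ho' m R (c := 0) (d := 1 / 2) fun u hu => hS' (by
    have s0 := Real.sin_nonneg_of_nonneg_of_le_pi (x := 2 * Real.pi * u)
      (by nlinarith [hu.1]) (by nlinarith [hu.2])
    refine ⟨1 - Real.sin (2 * Real.pi * u), _, sub_nonneg.2 (Real.sin_le_one _), s0, by ring, ?_⟩
    rw [eb, Complex.real_smul, Complex.real_smul, Complex.ofReal_sub, Complex.ofReal_one]
    ring)
  have n2 := jou_near ho m R (c := 1 / 2) (d := 1) fun u hu => hS (by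
    have s0 := Real.sin_nonneg_of_nonneg_of_le_pi (x := 2 * Real.pi * u - Real.pi)
      (by nlinarith [hu.1]) (by nlinarith [hu.2])
    rw [Real.sin_sub_pi] at s0
    refine ⟨_, 1 + Real.sin (2 * Real.pi * u), s0, by linarith [Real.neg_one_le_sin (2 * Real.pi * u)],
      by ring, ?_⟩
    rw [ea, Complex.real_smul, Complex.real_smul, Complex.ofReal_add, Complex.ofReal_one,
      Complex.ofReal_neg]
    ring)
  obtain ⟨ε, ⟨e1, e2⟩, e0⟩ := (((n1.and n2).filter_mono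
    (nhdsWithin_le_nhds (s := {0}ᶜ))).and self_mem_nhdsWithin).exists
  obtain ⟨x, hx⟩ : ∃ x : ℝ → ℂ, x = fun u => m + R * Complex.sin (jouW ε u) := ⟨_, rfl⟩
  obtain ⟨y, hy⟩ : ∃ y : ℝ → ℂ, y = fun u => Complex.I * R * Complex.cos (jouW ε u) * ρ (x u) :=
    ⟨_, rfl⟩
  have w0 : jouW ε 0 = 0 := by simp [jouW]
  have w1 : jouW ε (1 / 2) = Real.pi := by
    rw [jouW, show 2 * Real.pi * (1 / 2) = Real.pi by ring]; simp
  have w2 : jouW ε 1 = 2 * Real.pi := by simp [jouW]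
  have x0 : x 0 = m := by simp [hx, w0]
  have x1 : x (1 / 2) = m := by simp only [hx, w1]; simp
  have x2 : x 1 = m := by simp [hx, w2]
  have y0 : y 0 = Complex.I * R * ρ m := by simp [hy, w0, x0]
  have y1 : y (1 / 2) = -(Complex.I * R * ρ m) := by simp only [hy, w1, x1]; simp
  have y2 : y 1 = Complex.I * R * ρ m := by simp [hy, w2, x2]
  have cw : ContDiff ℝ 1 (jouW ε) := by
    have := Complex.ofRealCLM.contDiff (n := 1)
    exact (this.comp (f := fun u => 2 * Real.pi * u) (by fun_prop)).add (contDiff_const.mul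
      (this.comp (f := fun u => ε * Real.sin (2 * Real.pi * u)) (by fun_prop)))
  have cx : ContDiff ℝ 1 x := hx ▸ contDiff_const.add (contDiff_const.mul
    ((Complex.contDiff_sin.restrict_scalars ℝ).comp cw))
  have mem : ∀ u ∈ Icc (0 : ℝ) 1, x u ∈ S ∪ S' := fun u hu => (le_total u (1 / 2)).elim
    (fun k => Or.inr (hx ▸ e1 u ⟨hu.1, k⟩)) fun k => Or.inl (hx ▸ e2 u ⟨k, hu.2⟩)
  have cy : ContinuousOn y (Icc 0 1) := hy ▸ (continuousOn_const.mul
    (Complex.continuous_cos.comp cw.continuous).continuousOn).mul fun u hu =>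
      ((hρ _ (mem u hu)).1.continuousAt.comp cx.continuous.continuousAt).continuousWithinAt
  have sq : ∀ u ∈ Icc (0 : ℝ) 1, y u ≠ 0 ∧ y u ^ 2 = ((X - C a) * (X - C b) * r).eval (x u) :=
    fun u hu => by
      obtain ⟨-, k1, k2⟩ := hρ _ (mem u hu)
      refine ⟨hy ▸ mul_ne_zero (mul_ne_zero (mul_ne_zero Complex.I_ne_zero R0) (jou_cos e0 u)) k1, ?_⟩
      simp only [eval_mul, eval_sub, eval_X, eval_C, ← k2, hy, mul_pow, Complex.I_sq,
        Complex.cos_sq']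
      simp only [hx, ea, eb]
      ring
  have s1 : Icc (0 : ℝ) (1 / 2) ⊆ Icc 0 1 := Icc_subset_Icc_right (by norm_num)
  have s2 : Icc (1 / 2 : ℝ) 1 ⊆ Icc 0 1 := Icc_subset_Icc_left (by norm_num)
  have z := sq 0 (by simp)
  rw [x0, y0] at z
  refine ⟨_, z.1, z.2, x, y, cx, x0.trans x2.symm, cy, y0.trans y2.symm, sq, fun k => ?_⟩
  have ci : ContinuousOn (fun u => x u ^ (k : ℕ) * deriv x u / y u) (Icc 0 1) :=
    ((cx.continuous.pow _).mul (cx.continuous_deriv le_rfl)).continuousOn.div cy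
      fun u hu => (sq u hu).1
  rw [← intervalIntegral.integral_add_adjacent_intervals (b := 1 / 2)
    ((ci.mono s1).intervalIntegrable_of_Icc (by norm_num))
    ((ci.mono s2).intervalIntegrable_of_Icc (by norm_num)),
    prm_arc h2 cx (by norm_num) (cy.mono s1) (fun u hu => ⟨hx ▸ e1 u hu, sq u (s1 hu)⟩),
    prm_arc h1 cx (by norm_num) (cy.mono s2) (fun u hu => ⟨hx ▸ e2 u hu, sq u (s2 hu)⟩),
    x0, x1, x2, y0, y1, y2, Pi.smul_apply, Pi.sub_apply, smul_eq_mul]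
  ring

end Pool.Agent.Lib.MP_5591bc_ag.F
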