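import Mathlib

/-! Sorting the roots. -/

namespace Pool.Agent.Lib.MP_5591bc_ag.F

open Set Polynomial

/-- `ζ = 1 + I τ` with `τ` real outside a finite set; `Tuple.sort` -/
theorem srt_ex {p : ℂ[X]} {m : ℕ} (hs : p.Separable) (hm : p.natDegree = m) :
    ∃ (ζ : ℂ) (a : Fin m → ℂ), (StrictMono fun j => (ζ * a j).re) ∧
      p = C p.leadingCoeff * ∏ j, (X - C (a j)) := by
  classical
  have hc : p.roots.toFinset.card = m := by
    rw [Multiset.toFinset_card_of_nodup (nodup_roots hs), ← hm]
    exact IsAlgClosed.card_roots_eq_natDegree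
  let e := (Finset.equivFinOfCardEq hc).symm
  have hi : Function.Injective fun j => (e j : ℂ) := Subtype.val_injective.comp e.injective
  obtain ⟨τ, hτ⟩ := Infinite.exists_notMem_finset (Finset.univ.image fun x : Fin m × Fin m =>
    ((e x.1 : ℂ).re - (e x.2 : ℂ).re) / ((e x.1 : ℂ).im - (e x.2 : ℂ).im))
  let f : Fin m → ℝ := fun j => ((1 + Complex.I * τ) * (e j : ℂ)).re
  have hf : Function.Injective f := fun i j h => by
    have h1 : (e i : ℂ).re - (e j : ℂ).re = τ * ((e i : ℂ).im - (e j : ℂ).im) := by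
      simp [f] at h
      linarith
    by_cases h2 : (e i : ℂ).im - (e j : ℂ).im = 0
    · rw [h2, mul_zero] at h1
      exact hi (Complex.ext (sub_eq_zero.1 h1) (sub_eq_zero.1 h2))
    · exact absurd (Finset.mem_image.2 ⟨(i, j), Finset.mem_univ _, (div_eq_iff h2).2 h1⟩) hτ
  refine ⟨1 + Complex.I * τ, fun j => e (Tuple.sort f j),
    (Tuple.monotone_sort f).strictMono_of_injective (hf.comp (Tuple.sort f).injective), ?_⟩
  rw [Equiv.prod_comp (Tuple.sort f) fun j => X - C (e j : ℂ),
    Equiv.prod_comp e fun z => X - C (z : ℂ), Finset.prod_coe_sort _ fun z : ℂ => X - C z,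
    Finset.prod_eq_multiset_prod, Multiset.toFinset_val, (nodup_roots hs).dedup]
  exact (C_leadingCoeff_mul_prod_multiset_X_sub_C IsAlgClosed.card_roots_eq_natDegree).symm

end Pool.Agent.Lib.MP_5591bc_ag.F
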