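import Pool.Agent.Lib.MP_5591bc_ag.F.Sq
import Pool.Agent.Lib.MP_5591bc_ag.F.Jou
import Pool.Agent.Lib.MP_5591bc_ag.F.Ent
import Pool.Agent.Lib.MP_5591bc_ag.F.Srt

/-! The lattice of periods. -/

namespace Pool.Agent.Lib.MP_5591bc_ag.F

open Set Polynomial Filter Topology

/-- the points to the right of `a j`, `j < i`, and to the left of `a j`, `k < j` -/
def strip {m : ℕ} (ζ : ℂ) (a : Fin m → ℂ) (i k : Fin m) : Set ℂ :=
  {z | ∀ j, (j < i → (ζ * a j).re < (ζ * z).re) ∧ (k < j → (ζ * z).re < (ζ * a j).re)}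

variable {m : ℕ} {ζ : ℂ} {a : Fin m → ℂ}

theorem strip_open (i k : Fin m) : IsOpen (strip ζ a i k) := by
  refine isOpen_iff_mem_nhds.2 fun z hz => eventually_all.2 fun j => Eventually.and ?_ ?_
  · exact eventually_imp_distrib_left.2 fun h =>
      (isOpen_lt continuous_const (by fun_prop)).mem_nhds ((hz j).1 h)
  · exact eventually_imp_distrib_left.2 fun h =>
      (isOpen_lt (by fun_prop) continuous_const).mem_nhds ((hz j).2 h)

theorem strip_cvx (i k : Fin m) : Convex ℝ (strip ζ a i k) := by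
  intro x hx y hy s t s0 t0 e j
  have e1 : (ζ * (s • x + t • y)).re = s * (ζ * x).re + t * (ζ * y).re := by
    simp; ring
  rw [e1]
  exact ⟨fun h => (convex_Ioi (𝕜 := ℝ) (ζ * a j).re) ((hx j).1 h) ((hy j).1 h) s0 t0 e,
    fun h => (convex_Iio (𝕜 := ℝ) (ζ * a j).re) ((hx j).2 h) ((hy j).2 h) s0 t0 e⟩

theorem strip_rt {c : ℂ} (c0 : c ≠ 0) {i k : Fin m} {J : Finset (Fin m)}
    (hJ : ∀ j ∈ J, j < i ∨ k < j) {S : Set ℂ} (hS : S ⊆ strip ζ a i k) :
    ∃ ρ, Rt (C c * ∏ j ∈ J, (X - C (a j))) S ρ :=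
  sq_half J a c0 fun j hj => (hJ j hj).elim
    (fun h => ⟨ζ, fun z hz => by
      have := (hS hz j).1 h
      rw [mul_sub, Complex.sub_re]; linarith⟩)
    fun h => ⟨-ζ, fun z hz => by
      have := (hS hz j).2 h
      rw [neg_mul, mul_sub, Complex.neg_re, Complex.sub_re]; linarith⟩

theorem strip_cov (a : Fin (m + 1) → ℂ) (ha : StrictMono fun j => (ζ * a j).re) (z : ℂ) :
    ∃ i, z ∈ strip ζ a i i := by
  classical
  rcases (Finset.univ.filter fun j => (ζ * a j).re ≤ (ζ * z).re).eq_empty_or_nonempty with h | h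
  · exact ⟨0, fun j => ⟨fun e => absurd e (Fin.not_lt_zero j), fun _ =>
      not_le.1 (Finset.filter_eq_empty_iff.1 h (Finset.mem_univ j))⟩⟩
  · obtain ⟨i, h1, h2⟩ := Finset.exists_max_image _ id h
    exact ⟨i, fun j => ⟨fun e => (ha e).trans_le (Finset.mem_filter.1 h1).2, fun e =>
      not_le.1 fun e' => not_le.2 e (h2 j (Finset.mem_filter.2 ⟨Finset.mem_univ j, e'⟩))⟩⟩

theorem lat_srt {n : ℕ} (ζ : ℂ) (a : Fin (n + 1) → ℂ) (ha : StrictMono fun j => (ζ * a j).re)
    {c : ℂ} (c0 : c ≠ 0) :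
    ∃ M : Matrix (Fin n) (Fin n) ℂ, Lat (C c * ∏ j, (X - C (a j))).eval M := by
  classical
  obtain ⟨p, hp⟩ : ∃ p, p = C c * ∏ j, (X - C (a j)) := ⟨_, rfl⟩
  rw [← hp]
  have hm : ∀ i, a i ∈ strip ζ a i i := fun i j => ⟨fun e => ha e, fun e => ha e⟩
  have e1 : ∀ i, p = (X - C (a i)) * (C c * ∏ j ∈ Finset.univ.erase i, (X - C (a j))) := fun i => by
    rw [hp, ← Finset.mul_prod_erase _ _ (Finset.mem_univ i), mul_left_comm]
  have k1 : ∀ i, ∃ h : ℂ → Fin n → ℂ, Prm p (strip ζ a i i) h := fun i => by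
    obtain ⟨ρ, hρ⟩ := strip_rt (ζ := ζ) (a := a) c0 (J := Finset.univ.erase i)
      (fun j hj => lt_or_gt_of_ne (Finset.mem_erase.1 hj).1) subset_rfl
    rw [e1 i]
    exact prm_ex (strip_open i i) (strip_cvx i i) (hm i) hρ n
  choose h hh using k1
  have lt : ∀ i : Fin n, i.castSucc < i.succ := fun i => Fin.castSucc_lt_succ
  have mid : ∀ i : Fin n, (a i.castSucc + a i.succ) / 2 ∈ strip ζ a i.castSucc i.castSucc ∧
      (a i.castSucc + a i.succ) / 2 ∈ strip ζ a i.succ i.succ := fun i => by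
    have e : (ζ * ((a i.castSucc + a i.succ) / 2)).re =
        ((ζ * a i.castSucc).re + (ζ * a i.succ).re) / 2 := by
      rw [← mul_div_assoc, mul_add, Complex.div_ofNat_re, Complex.add_re]
    have l := ha (lt i)
    refine ⟨fun j => ⟨fun e' => ?_, fun e' => ?_⟩, fun j => ⟨fun e' => ?_, fun e' => ?_⟩⟩ <;> rw [e]
    · linarith [ha e']
    · linarith [ha.monotone (Fin.castSucc_lt_iff_succ_le.1 e')]
    · linarith [ha.monotone (Fin.le_castSucc_iff.2 e')]
    · linarith [ha e']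
  have k2 : ∀ i : Fin n, ∃ y : ℂ, y ≠ 0 ∧ y ^ 2 = p.eval ((a i.castSucc + a i.succ) / 2) ∧
      Lp p.eval ((2 * y) • (h i.castSucc ((a i.castSucc + a i.succ) / 2) -
        h i.succ ((a i.castSucc + a i.succ) / 2))) := fun i => by
    have e : p = (X - C (a i.castSucc)) * (X - C (a i.succ)) *
        (C c * ∏ j ∈ (Finset.univ.erase i.castSucc).erase i.succ, (X - C (a j))) := by
      rw [e1 i.castSucc, ← Finset.mul_prod_erase _ _ (Finset.mem_erase.2
        ⟨(lt i).ne', Finset.mem_univ i.succ⟩)]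
      ring
    obtain ⟨ρ, hρ⟩ := strip_rt (ζ := ζ) (a := a) c0 (i := i.castSucc) (k := i.succ)
      (J := (Finset.univ.erase i.castSucc).erase i.succ)
      (S := strip ζ a i.castSucc i.castSucc ∪ strip ζ a i.succ i.succ) (fun j hj => by
        have h1 := Fin.val_ne_of_ne (Finset.mem_erase.1 hj).1
        have h2 := Fin.val_ne_of_ne (Finset.mem_erase.1 (Finset.mem_erase.1 hj).2).1
        simp only [Fin.lt_def, Fin.val_succ, Fin.val_castSucc] at h1 h2 ⊢
        omega) (by
        rintro z (hz | hz) j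
        · exact ⟨(hz j).1, fun e' => (hz j).2 ((lt i).trans e')⟩
        · exact ⟨fun e' => (hz j).1 (e'.trans (lt i)), (hz j).2⟩)
    have h1 := hh i.castSucc
    have h2 := hh i.succ
    rw [e] at h1 h2 ⊢
    exact lp_jou (fun e' => (ha (lt i)).ne (by simp only [e'])) (strip_open _ _) (strip_open _ _)
      ((strip_cvx _ _).segment_subset (hm _) (mid i).1)
      ((strip_cvx _ _).segment_subset (mid i).2 (hm _)) hρ h1 h2
  choose y y0 y1 y2 using k2
  obtain ⟨w, hw⟩ : ∃ w : Fin n → Fin n → ℂ, ∀ i, w i = y i • (h i.castSucc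
    ((a i.castSucc + a i.succ) / 2) - h i.succ ((a i.castSucc + a i.succ) / 2)) := ⟨_, fun _ => rfl⟩
  have k3 : ∀ L : AddSubgroup (Fin n → ℂ), (∀ i, w i ∈ L) → ∀ i j z η, z ∈ strip ζ a i i →
      z ∈ strip ζ a j j → η ^ 2 = p.eval z → η • (h i z - h j z) ∈ L := fun L hL => by
    have k : ∀ i j z η, i < j → z ∈ strip ζ a i i → z ∈ strip ζ a j j → η ^ 2 = p.eval z →
        η • (h i z - h j z) ∈ L := fun i j z η l zi zj e => by
      obtain ⟨i, rfl⟩ := Fin.exists_castSucc_eq.2 (Fin.ne_last_of_lt l)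
      obtain rfl : i.succ = j := (Fin.castSucc_lt_iff_succ_le.1 l).eq_of_not_lt fun l' =>
        lt_asymm ((zi _).2 (lt i)) ((zj _).1 l')
      obtain ⟨ρ, hρ⟩ := strip_rt (ζ := ζ) (a := a) c0 (i := i.succ) (k := i.castSucc)
        (J := Finset.univ) (S := strip ζ a i.castSucc i.castSucc ∩ strip ζ a i.succ i.succ)
        (fun j _ => (le_or_gt j i.castSucc).imp_left Fin.le_castSucc_iff.1)
        fun z hz j => ⟨(hz.2 j).1, (hz.1 j).2⟩
      rcases prm_pm ((strip_open _ _).inter (strip_open _ _))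
        ((strip_cvx _ _).inter (strip_cvx _ _)).isPreconnected
        (fun z hz => hh i.castSucc z hz.1) (fun z hz => hh i.succ z hz.2) (hp ▸ hρ) ⟨zi, zj⟩
        (mid i) e (y1 i) with e' | e' <;> rw [e', ← hw]
      · exact hL i
      · exact L.neg_mem (hL i)
    intro i j z η zi zj e
    rcases lt_trichotomy i j with l | rfl | l
    · exact k i j z η l zi zj e
    · rw [sub_self, smul_zero]; exact L.zero_mem
    · rw [← neg_sub, smul_neg]; exact L.neg_mem (k j i z η l zj zi e)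
  refine ⟨.of fun k i => 2 * w i k, fun e => ?_, fun i => ?_, fun v hv => ?_⟩
  · obtain ⟨q, q0, hq⟩ := Matrix.exists_vecMul_eq_zero_iff.2 e
    choose ι hι using strip_cov a ha
    have k4 : ∀ i j z, z ∈ strip ζ a i i → z ∈ strip ζ a j j → q ⬝ᵥ h i z = q ⬝ᵥ h j z := by
      have k : ∀ i j z, i < j → z ∈ strip ζ a i i → z ∈ strip ζ a j j →
          q ⬝ᵥ h i z = q ⬝ᵥ h j z := fun i j z l zi zj => by
        obtain ⟨η, e⟩ := IsAlgClosed.exists_pow_nat_eq (p.eval z) two_pos
        have η0 : η ≠ 0 := by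
          rintro rfl
          rw [hp, eval_mul, eval_C, eval_prod, zero_pow two_ne_zero] at e
          refine mul_ne_zero c0 (Finset.prod_ne_zero_iff.2 fun k _ => ?_) e.symm
          rw [eval_sub, eval_X, eval_C, sub_ne_zero]
          rintro rfl
          exact (lt_or_ge k j).elim (fun l' => ((zj k).1 l').false)
            fun l' => ((zi k).2 (l.trans_le l')).false
        have := k3 (dotProductBilin ℂ ℂ q).toAddMonoidHom.ker (fun i => by
          have := congrFun hq i
          simp only [Matrix.vecMul, dotProduct, Matrix.of_apply, mul_left_comm _ (2 : ℂ),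
            ← Finset.mul_sum, Pi.zero_apply] at this
          exact (mul_eq_zero.1 this).resolve_left two_ne_zero) i j z η zi zj e
        simpa [η0, sub_eq_zero] using this
      intro i j z zi zj
      rcases lt_trichotomy i j with l | rfl | l
      exacts [k i j z l zi zj, rfl, (k j i z l zj zi).symm]
    have k5 : ∀ z, ∃ H', HasDerivAt (fun z => q ⬝ᵥ h (ι z) z) H' z ∧ p.eval z * H' +
        p.derivative.eval z * (q ⬝ᵥ h (ι z) z) / 2 = (∑ k : Fin n, C (q k) * X ^ (k : ℕ)).eval z :=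
      fun z => by
        choose g g1 g2 using hh (ι z) z (hι z)
        refine ⟨∑ k, q k * g k, (HasDerivAt.fun_sum fun k _ =>
          (g1 k).const_mul (q k)).congr_of_eventuallyEq (mem_of_superset
            ((strip_open _ _).mem_nhds (hι z)) fun x hx => k4 _ _ x (hι x) hx), ?_⟩
        simp only [eval_finsetSum, eval_mul, eval_C, eval_pow, eval_X, ← g2, dotProduct,
          Finset.mul_sum, Finset.sum_div, ← Finset.sum_add_distrib]
        exact Finset.sum_congr rfl fun k _ => by ring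
    choose g g1 g2 using k5
    have k6 := ent_zero (p := p) (n := n) (by
      rw [hp, natDegree_C_mul c0, natDegree_prod_of_monic _ _ fun _ _ => monic_X_sub_C _]
      simp) (degree_sum_fin_lt q) (fun z => (g1 z).differentiableAt)
      fun z => by rw [(g1 z).deriv, g2]
    have k7 : ∑ k : Fin n, C (q k) * X ^ (k : ℕ) = 0 := Polynomial.funext fun z => by
      have := (g1 z).unique ((funext k6 : _ = fun _ => (0 : ℂ)) ▸ hasDerivAt_const z 0)
      rw [← g2, this, k6]
      simp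
    refine q0 (funext fun k => ?_)
    have := congrArg (coeff · (k : ℕ)) k7
    simpa [Fin.val_inj] using this
  · convert y2 i using 1
    funext k
    rw [Matrix.of_apply, hw, mul_smul]
    rfl
  · obtain ⟨γ, hγ⟩ := (Submodule.mem_span_range_iff_exists_fun ℚ).1
      (lp_mem (fun i => strip_open i i) (strip_cov a ha) hh
        (Submodule.span ℚ (range w)).toAddSubgroup (fun i j z η zi zj _ =>
          k3 _ (fun i => Submodule.subset_span (mem_range_self i)) i j z η zi zj) hv)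
    refine ⟨fun j => γ j / 2, funext fun k => ?_⟩
    rw [← hγ, Finset.sum_apply]
    refine Finset.sum_congr rfl fun j _ => ?_
    simp only [Pi.smul_apply, Rat.smul_def, Matrix.of_apply]
    push_cast
    ring

theorem lat_ex {p : ℂ[X]} {n : ℕ} (hs : p.Separable) (hn : p.natDegree = n + 1) :
    ∃ M : Matrix (Fin n) (Fin n) ℂ, Lat p.eval M := by
  obtain ⟨ζ, a, h1, h2⟩ := srt_ex hs hn
  rw [h2]
  exact lat_srt ζ a h1 (leadingCoeff_ne_zero.2 hs.ne_zero)

/-- two matrices of periods differ by a rational matrix -/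
theorem lat_rat {p : ℂ[X]} {n : ℕ} (hs : p.Separable) (hn : p.natDegree = n + 1)
    {M N : Matrix (Fin n) (Fin n) ℂ} (M0 : M.det ≠ 0) (hM : ∀ j, Lp p.eval fun i => M i j)
    (hN : ∀ j, Lp p.eval fun i => N i j) :
    ∃ γ : Matrix (Fin n) (Fin n) ℚ, N = M * γ.map (algebraMap ℚ ℂ) := by
  obtain ⟨A, -, -, hA⟩ := lat_ex hs hn
  have k : ∀ {N : Matrix (Fin n) (Fin n) ℂ}, (∀ j, Lp p.eval fun i => N i j) →
      ∃ γ : Matrix (Fin n) (Fin n) ℚ, N = A * γ.map (algebraMap ℚ ℂ) := fun hN => by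
    choose γ hγ using fun j => hA _ (hN j)
    exact ⟨.of fun i j => γ j i, Matrix.ext fun i j => congrFun (hγ j) i⟩
  obtain ⟨γ, rfl⟩ := k hM
  obtain ⟨δ, rfl⟩ := k hN
  have γ0 : γ.det ≠ 0 := fun e => M0 (by
    rw [Matrix.det_mul, ← RingHom.mapMatrix_apply, ← RingHom.map_det, e, map_zero, mul_zero])
  refine ⟨γ⁻¹ * δ, ?_⟩
  rw [Matrix.mul_assoc, ← Matrix.map_mul, ← Matrix.mul_assoc, Matrix.mul_nonsing_inv _ γ0.isUnit,
    Matrix.one_mul]

end Pool.Agent.Lib.MP_5591bc_ag.F
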