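import Pool.Agent.Lib.MP_5591bc_ag.V.Uni
import Pool.Agent.Lib.MP_5591bc_ag.M.Irr
import Pool.Agent.Lib.MP_5591bc_ag.M.TayB
import Pool.Agent.Lib.MP_5591bc_ag.M.Good

/-! Connectedness of the Galois group from generic lines. -/

namespace Pool.Agent.Lib.MP_5591bc_ag.F

open Matrix Finset Filter Topology G R V M

noncomputable section

theorem line_hom {S : Type*} [CommRing S] (d : ℕ) (a : ℕ → S) (c u v : S) :
    uniHom d a (c * u) (c * v) = c ^ d * uniHom d a u v := by
  rw [uniHom, uniHom, mul_add, mul_pow, mul_sum]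
  refine congrArg _ (sum_congr rfl fun i hi => ?_)
  obtain ⟨l, rfl⟩ := Nat.exists_eq_add_of_le (mem_range.1 hi).le
  rw [Nat.add_sub_cancel_left]
  ring

/-- an integral rational function is a polynomial of bounded degree -/
theorem line_poly {d D : ℕ} (d0 : 0 < d) {a : ℕ → Polynomial ℂ}
    (ha : ∀ i < d, (a i).natDegree ≤ D) {α β : Polynomial ℂ} (hβ : β ≠ 0)
    (h : uniHom d a α β = 0) : ∃ γ, α = β * γ ∧ γ.natDegree ≤ D := by
  obtain ⟨α', β', c, h1, rfl, rfl⟩ := UniqueFactorizationMonoid.exists_reduced_factors' α β hβ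
  rw [line_hom, mul_eq_zero, or_iff_right (pow_ne_zero _ (left_ne_zero_of_mul hβ))] at h
  have h2 : β' ∣ α' ^ d := by
    rw [eq_neg_of_add_eq_zero_left h, dvd_neg]
    exact dvd_sum fun i hi => (dvd_pow_self _ (Nat.sub_pos_of_lt (mem_range.1 hi)).ne').mul_left _
  obtain ⟨γ, rfl⟩ := (h1.pow_left.symm.isUnit_of_dvd h2).dvd (a := α')
  refine ⟨γ, (mul_assoc _ _ _).symm, ?_⟩
  have h3 := line_hom d a β' γ 1
  rw [mul_one, h, eq_comm, mul_eq_zero,
    or_iff_right (pow_ne_zero _ (right_ne_zero_of_mul hβ))] at h3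
  have h4 := congrArg Polynomial.natDegree (eq_neg_of_add_eq_zero_left h3)
  rw [Polynomial.natDegree_pow, Polynomial.natDegree_neg] at h4
  obtain ⟨e, rfl⟩ := Nat.exists_eq_add_one_of_ne_zero d0.ne'
  have h5 : (e + 1) * γ.natDegree ≤ D + e * γ.natDegree := by
    rw [h4]
    refine Polynomial.natDegree_sum_le_of_forall_le _ _ fun i hi => ?_
    rw [one_pow, mul_one]
    exact Polynomial.natDegree_mul_le.trans (add_le_add (ha i (mem_range.1 hi))
      (Polynomial.natDegree_pow_le.trans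
        (Nat.mul_le_mul_right _ (Nat.lt_succ_iff.1 (mem_range.1 hi)))))
  nlinarith

variable {σ : Type*}

/-- restriction of a polynomial to a line -/
def lnP (s w : σ → ℂ) : MvPolynomial σ ℂ →ₐ[ℂ] Polynomial ℂ :=
  MvPolynomial.aeval fun l => Polynomial.C (s l) + Polynomial.C (w l) * Polynomial.X

theorem lnP_eval (s w : σ → ℂ) (p : MvPolynomial σ ℂ) (a : ℂ) :
    (lnP s w p).eval a = MvPolynomial.eval (s + a • w) p := by
  induction p using MvPolynomial.induction_on with
  | C c => simp [lnP]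
  | add p q hp hq => simp only [map_add, Polynomial.eval_add, hp, hq]
  | mul_X p l hp =>
    simp only [map_mul, Polynomial.eval_mul, hp]
    simp [lnP, mul_comm a]

theorem lnP_deg (s w : σ → ℂ) (p : MvPolynomial σ ℂ) : (lnP s w p).natDegree ≤ p.totalDegree := by
  rw [lnP, MvPolynomial.aeval_def, MvPolynomial.eval₂_eq]
  refine Polynomial.natDegree_sum_le_of_forall_le _ _ fun d hd =>
    Polynomial.natDegree_mul_le.trans ?_
  rw [Polynomial.algebraMap_eq, Polynomial.natDegree_C, zero_add]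
  refine ((Polynomial.natDegree_prod_le _ _).trans (sum_le_sum fun i _ => ?_)).trans
    (MvPolynomial.le_totalDegree hd)
  refine Polynomial.natDegree_pow_le.trans ((Nat.mul_le_mul_left _ ?_).trans (mul_one _).le)
  rw [add_comm]
  exact Polynomial.natDegree_linear_le

variable [Fintype σ] [DecidableEq σ]

theorem lnP_der (s w : σ → ℂ) (p : MvPolynomial σ ℂ) : (lnP s w p).derivative =
    ∑ l, Polynomial.C (w l) * lnP s w (MvPolynomial.pderiv l p) := by
  induction p using MvPolynomial.induction_on with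
  | C c => simp [lnP]
  | add p q hp hq => simp only [map_add, hp, hq, mul_add, sum_add_distrib]
  | mul_X p l hp =>
    simp only [map_mul, Polynomial.derivative_mul, hp, Derivation.leibniz, smul_eq_mul, map_add,
      mul_add, sum_add_distrib, sum_mul, MvPolynomial.pderiv_X, Pi.single_apply]
    rw [add_comm]
    refine congrArg₂ (· + ·) ?_ ?_
    · simp only [apply_ite (lnP s w), map_one, map_zero, mul_ite, mul_one, mul_zero, sum_ite_eq,
        mem_univ, if_true]
      simp [lnP, mul_comm (Polynomial.C (w l)) (MvPolynomial.aeval _ p)]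
    · exact sum_congr rfl fun _ _ => by ring

theorem lnP_dir (s w : σ → ℂ) (p : MvPolynomial σ ℂ) : dir w (τm s p) = τc 0 (lnP s w p) := by
  rw [← tayM_eval, dir_tayM (irr_an p s), ← tay_eval]
  simp only [lnP_eval]

variable {ν : Type*}

theorem lnP_ev (s w : σ → ℂ) (G : Matrix ν ν (MvPowerSeries σ ℂ))
    (q : MvPolynomial (ν × ν) (MvPolynomial σ ℂ)) :
    evG 0 (G.map (dir w)) (MvPolynomial.map (lnP s w).toRingHom q) = dir w (evGM s G q) := by
  induction q using MvPolynomial.induction_on with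
  | C c => simp [evG, evGM, lnP_dir]
  | add p q hp hq => simp only [map_add, hp, hq]
  | mul_X p l hp =>
    simp only [map_mul, hp]
    simp [evG, evGM]

/-- an integral quotient is a polynomial of bounded degree on a line -/
theorem line_key {s w : σ → ℂ} {G : Matrix ν ν (MvPowerSeries σ ℂ)}
    (h : ConnS 0 (Set.range (evG 0 (G.map (dir w)))))
    {u v : MvPolynomial (ν × ν) (MvPolynomial σ ℂ)}
    (hv : MvPowerSeries.constantCoeff (evGM s G v) ≠ 0) {d D : ℕ} (d0 : 0 < d)
    {a : ℕ → MvPolynomial σ ℂ} (hD : ∀ i < d, (a i).totalDegree ≤ D)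
    (k : uniHom d (fun i => τm s (a i)) (evGM s G u) (evGM s G v) = 0) {g : MvPowerSeries σ ℂ}
    (hg : evGM s G u = evGM s G v * g) {m : ℕ} (hm : D < m) :
    PowerSeries.coeff m (dir w g) = 0 := by
  have a1 : dir w (evGM s G v) ≠ 0 := fun c => hv (by
    rw [← MvPowerSeries.coeff_zero_eq_constantCoeff_apply, ← coeff_zero_dir w, c, map_zero])
  have a2 := congrArg (dir w) k
  rw [uni_map, map_zero] at a2
  simp only [lnP_dir] at a2
  obtain ⟨α, β, β0, r⟩ := h _ ⟨_, lnP_ev s w G u⟩ _
    ⟨_, lnP_ev s w G v⟩ d (fun i => if i < d then lnP s w (a i) else 1) a1 ⟨d, le_rfl, by simp⟩ (by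
      rw [← a2, uniHom, sum_range_succ, add_comm]
      refine congrArg₂ (· + ·) (by simp) (sum_congr rfl fun i hi => ?_)
      rw [if_pos (mem_range.1 hi)])
  rw [hg, map_mul, mul_left_comm, mul_comm (τc 0 α)] at r
  replace r := mul_left_cancel₀ a1 r
  rw [hg, map_mul] at a2
  have a3 := line_hom d (fun i => τc 0 (lnP s w (a i))) (dir w (evGM s G v)) (dir w g) 1
  rw [mul_one, a2, eq_comm, mul_eq_zero, or_iff_right (pow_ne_zero _ a1)] at a3
  have a4 := line_hom d (fun i => τc 0 (lnP s w (a i))) (τc 0 β) (dir w g) 1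
  rw [a3, mul_zero, mul_one, r, ← uni_map, ← map_zero (τc 0)] at a4
  obtain ⟨γ, rfl, c2⟩ := line_poly d0 (fun i hi => (lnP_deg s w _).trans (hD i hi)) β0
    (τc_inj 0 a4)
  rw [map_mul] at r
  rw [mul_left_cancel₀ ((map_ne_zero_iff _ (τc_inj 0)).2 β0) r]
  simpa [τc] using Polynomial.coeff_eq_zero_of_natDegree_lt (c2.trans_lt hm)

omit [Fintype σ] [DecidableEq σ] in
theorem line_shift (s : σ → ℂ) (q : MvPolynomial σ ℂ) : τm s (MvPolynomial.aeval
    (fun l => MvPolynomial.X l - MvPolynomial.C (s l)) q) = q := by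
  induction q using MvPolynomial.induction_on with
  | C c => simp [τm]
  | add p q hp hq => simp only [map_add, hp, hq, MvPolynomial.coe_add]
  | mul_X p l hp =>
    simp only [map_mul, hp, MvPolynomial.coe_mul]
    simp [τm]

/-- the formal statement, for denominators that do not vanish at the centre -/
theorem line_core {s : σ → ℂ} {G : Matrix ν ν (MvPowerSeries σ ℂ)} {Q : MvPolynomial σ ℂ}
    (Q0 : Q ≠ 0) (h : ∀ w, MvPolynomial.eval w Q ≠ 0 →
      ConnS 0 (Set.range (evG 0 (G.map (dir w))))) {u v : MvPolynomial (ν × ν) (MvPolynomial σ ℂ)}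
    (hv : MvPowerSeries.constantCoeff (evGM s G v) ≠ 0) {n : ℕ} {p : ℕ → MvPolynomial σ ℂ}
    (hp : ∃ j ≤ n, p j ≠ 0)
    (e : ∑ j ∈ range (n + 1), τm s (p j) * evGM s G u ^ j * evGM s G v ^ (n - j) = 0) :
    ∃ a b : MvPolynomial σ ℂ, b ≠ 0 ∧ τm s b * evGM s G u = τm s a * evGM s G v := by
  have : IsDomain (MvPowerSeries σ ℂ) := NoZeroDivisors.to_isDomain _
  have v0 : evGM s G v ≠ 0 := fun c => hv (by rw [c, map_zero])
  obtain ⟨d, a, b, d0, b0, k⟩ := uni_monic (frT_inj s) v0 n hp e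
  obtain ⟨g, hg⟩ : ∃ g, τm s b * evGM s G u = evGM s G v * g :=
    (MvPowerSeries.isUnit_iff_constantCoeff.2 hv.isUnit).dvd
  obtain ⟨D, hD⟩ : ∃ D, ∀ i < d, (a i).totalDegree ≤ D :=
    ⟨_, fun i hi => le_sup (f := fun i => (a i).totalDegree) (mem_range.2 hi)⟩
  have eb : evGM s G (MvPolynomial.C b * u) = τm s b * evGM s G u := by simp [evGM]
  have key : ∀ w, MvPolynomial.eval w Q ≠ 0 → ∀ m, D < m → PowerSeries.coeff m (dir w g) = 0 :=
    fun w hw m hm => line_key (h w hw) hv d0 hD (eb ▸ k) (eb.trans hg) hm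
  have hom : ∀ m, D < m → homP m g = 0 := fun m hm => by
    refine (mul_eq_zero.1 (MvPolynomial.funext fun w => ?_)).resolve_left Q0
    rw [map_mul, map_zero, ← coeff_dir]
    by_cases hw : MvPolynomial.eval w Q = 0
    · rw [hw, zero_mul]
    · rw [key w hw m hm, mul_zero]
  refine ⟨MvPolynomial.aeval (fun l => MvPolynomial.X l - MvPolynomial.C (s l))
    (∑ m ∈ range (D + 1), homP m g), b, b0, hg.trans ((mul_comm _ _).trans (congrArg (· * _) ?_))⟩
  rw [line_shift]
  ext κ
  rw [MvPolynomial.coeff_coe, MvPolynomial.coeff_sum]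
  simp only [coeff_homP, sum_ite_eq, mem_range]
  split_ifs with c
  · rfl
  · simpa [coeff_homP] using congrArg (MvPolynomial.coeff κ) (hom (∑ l, κ l) (by omega))

omit [DecidableEq σ] in
theorem line_open {V : Set (σ → ℂ)} (ho : IsOpen V) {s : σ → ℂ} (hs : s ∈ V)
    {T : MvPolynomial σ ℂ} (T0 : T ≠ 0) : ∃ t ∈ V, MvPolynomial.eval t T ≠ 0 := by
  by_contra hn
  push Not at hn
  refine T0 (MvPolynomial.funext fun y => ?_)
  rw [map_zero]
  exact goodV_id isPreconnected_univ (fun t _ => irr_an T t) (Set.mem_univ s)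
    (mem_of_superset (ho.mem_nhds hs) hn) y trivial

/-- unipotent local monodromy on generic lines gives a connected Galois group -/
theorem connM_uni [Fintype ν] [DecidableEq ν] {K : Type*} [Field K] [Algebra K ℂ]
    {T : MvPolynomial σ K} {B : σ → Matrix ν ν (MvPolynomial σ K)} (T0 : T ≠ 0)
    (h : ∀ s : σ → ℂ, MvPolynomial.aeval s T ≠ 0 → ∃ Q : MvPolynomial σ ℂ, Q ≠ 0 ∧
      ∀ w, MvPolynomial.eval w Q ≠ 0 → ∀ a : ℂ, MvPolynomial.aeval (s + a • w) T = 0 →
        ∑ l, w l * MvPolynomial.aeval (s + a • w) (MvPolynomial.pderiv l T) ≠ 0 ∧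
        IsNilpotent (∑ l, w l • (B l).map (MvPolynomial.aeval (s + a • w))))
    {U : Set (σ → ℂ)} (ho : IsOpen U) (hc : IsPreconnected U) {P : (σ → ℂ) → Matrix ν ν ℂ}
    (hP : FundM T B U P) : ConnM U P := by
  rintro u v n p ⟨t, ht, hv⟩ hp e
  have an : ∀ t ∈ U, ∀ i j, AnalyticAt ℂ (P · i j) t := fun t ht i j => ((hP t ht).2 i j).1
  have ev : ∀ (y : σ → ℂ) (q : MvPolynomial σ K), MvPolynomial.eval y (TM ℂ q) =
      MvPolynomial.aeval y q := fun y q => by rw [MvPolynomial.eval_map, MvPolynomial.aeval_def]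
  obtain ⟨V, V1, V2, V3⟩ := eventually_nhds_iff.1 ((ho.eventually_mem ht).and
    ((irr_val (an t ht) v).1.continuousAt.eventually_ne hv))
  obtain ⟨s, s1, s2⟩ := line_open V2 V3 (T := TM ℂ T) fun c =>
    T0 (MvPolynomial.map_injective _ (algebraMap K ℂ).injective (c.trans (map_zero _).symm))
  obtain ⟨hs, vs⟩ := V1 s s1
  obtain ⟨Q, Q0, hQ⟩ := h s (ev s T ▸ s2)
  have K : ∀ q, (∀ t ∈ U, valM P q t = 0) ↔ evGM s (tayX P s) q = 0 := fun q => by
    rw [← (irr_val (an s hs) q).2]
    exact identM ho hc (fun t ht => (irr_val (an t ht) q).1) hs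
  obtain ⟨a, b, b0, r⟩ := line_core (s := s) (G := tayX P s) Q0 (fun w hw => uni
    (T := lnP s w (TM ℂ T)) (B := ∑ l, Polynomial.C (w l) • (BM ℂ B l).map (lnP s w))
    (fun a ha => by
      rw [lnP_eval, ev] at ha
      obtain ⟨c1, c2⟩ := hQ w hw a ha
      constructor
      · simpa only [lnP_der, Polynomial.eval_finsetSum, Polynomial.eval_mul, Polynomial.eval_C,
          lnP_eval, MvPolynomial.pderiv_map, ev] using c1
      · convert c2 using 1
        ext i j
        simp only [map_apply, Matrix.sum_apply, Matrix.smul_apply, smul_eq_mul,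
          Polynomial.eval_finsetSum, Polynomial.eval_mul, Polynomial.eval_C, lnP_eval, ev])
    (by simpa [lnP_eval] using s2) (by
      ext1 i j
      have := fun l => congrArg (dir w) (congrFun₂ (hP.ode ho hs l) i j)
      simp only [Matrix.smul_apply, map_apply, smul_eq_mul, mul_apply, map_mul, map_sum,
        lnP_dir] at this
      simp only [Matrix.smul_apply, map_apply, smul_eq_mul, mul_apply, dir_deriv, mul_sum,
        mul_left_comm (τc 0 _), this, Matrix.sum_apply, map_sum, map_mul, τc_C, sum_mul, mul_assoc]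
      exact sum_comm)) (u := u) (v := v) (by
      rwa [← (irr_val (an s hs) v).2, constantCoeff_tayM (irr_val (an s hs) v).1]) hp (by
      have := K (∑ j ∈ range (n + 1), MvPolynomial.C (p j) * u ^ j * v ^ (n - j))
      simp only [map_sum, map_mul, map_pow] at this
      simpa [evGM] using this.1 (by simpa [valM, MvPolynomial.eval₂_sum] using e))
  refine ⟨a, b, b0, ?_⟩
  have := K (MvPolynomial.C b * u - MvPolynomial.C a * v)
  simp only [map_sub, map_mul] at this
  simpa [valM, sub_eq_zero] using this.2 (by simpa [evGM, sub_eq_zero] using r)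

end

end Pool.Agent.Lib.MP_5591bc_ag.F
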