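import Pool.Agent.Lib.MP_5591bc_ag.F.Defs

/-! Period vectors of one curve `y ^ 2 = p(x)` and local primitives. -/

namespace Pool.Agent.Lib.MP_5591bc_ag.F

open Set Polynomial

/-- `v` is the vector of the periods of `x ^ i dx / y` over a loop on `y ^ 2 = p(x)` -/
def Lp (p : ℂ → ℂ) {n : ℕ} (v : Fin n → ℂ) : Prop :=
  ∃ x y : ℝ → ℂ, ContDiff ℝ 1 x ∧ x 0 = x 1 ∧ ContinuousOn y (Icc 0 1) ∧ y 0 = y 1 ∧
    (∀ u ∈ Icc (0 : ℝ) 1, y u ≠ 0 ∧ y u ^ 2 = p (x u)) ∧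
    ∀ i : Fin n, v i = ∫ u in (0 : ℝ)..1, x u ^ (i : ℕ) * deriv x u / y u

/-- `y * h(x) k` is a primitive of `x ^ k dx / y` over `S` -/
def Prm (p : ℂ[X]) (S : Set ℂ) {n : ℕ} (h : ℂ → Fin n → ℂ) : Prop :=
  ∀ z ∈ S, ∀ k : Fin n, ∃ h', HasDerivAt (h · k) h' z ∧
    p.eval z * h' + p.derivative.eval z * h z k / 2 = z ^ (k : ℕ)

/-- `ρ` is a holomorphic square root of `r` on `S` without zeros -/
def Rt (r : ℂ[X]) (S : Set ℂ) (ρ : ℂ → ℂ) : Prop :=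
  ∀ z ∈ S, DifferentiableAt ℂ ρ z ∧ ρ z ≠ 0 ∧ ρ z ^ 2 = r.eval z

/-- the columns of `M` are periods of loops, are independent over `ℂ`, and span all periods of
loops over `ℚ` -/
def Lat (p : ℂ → ℂ) {n : ℕ} (M : Matrix (Fin n) (Fin n) ℂ) : Prop :=
  M.det ≠ 0 ∧ (∀ j, Lp p fun i => M i j) ∧
    ∀ v, Lp p v → ∃ γ : Fin n → ℚ, v = M.mulVec fun j => (γ j : ℂ)

end Pool.Agent.Lib.MP_5591bc_ag.F
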