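import Pool.Agent.Lib.MP_5591bc_ag.F.RbD

/-! Explicit square roots. -/

namespace Pool.Agent.Lib.MP_5591bc_ag.F

open Set Polynomial Complex Matrix

variable {N : ℕ} {κ : ℂ} {a : Fin N → ℂ} {m : ℕ} {z : ℂ}

theorem rt_sq (κ : ℂ) (a : Fin N → ℂ) (m : ℕ) (z : ℂ) :
    rt κ a m z ^ 2 = (C (κ ^ 2) * ∏ j, (X - C (a j))).eval z := by
  rw [rt, mul_pow, ← Finset.prod_pow, eval_mul, eval_C, eval_prod]
  congr 1
  refine Finset.prod_congr rfl fun j _ => ?_
  rw [eval_sub, eval_X, eval_C]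
  split_ifs
  · exact cpow_ofNat_inv_pow _ 2
  · rw [mul_pow, I_sq, cpow_ofNat_inv_pow _ 2]
    ring

/-- every factor is a power of a point of `slitPlane` -/
theorem rt_diff (κ0 : κ ≠ 0) (h : ∀ j : Fin N, z.im ≠ (a j).im ∨
    (((j : ℕ) < m → (a j).re < z.re) ∧ (m ≤ (j : ℕ) → z.re < (a j).re))) :
    DifferentiableAt ℂ (rt κ a m) z ∧ rt κ a m z ≠ 0 := by
  have h1 : ∀ j : Fin N, (j : ℕ) < m → z - a j ∈ slitPlane := by
    intro j hj
    rw [mem_slitPlane_iff, sub_re, sub_im]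
    rcases h j with h' | h'
    · exact Or.inr (sub_ne_zero.2 h')
    · exact Or.inl (sub_pos.2 (h'.1 hj))
  have h2 : ∀ j : Fin N, ¬ (j : ℕ) < m → a j - z ∈ slitPlane := by
    intro j hj
    rw [mem_slitPlane_iff, sub_re, sub_im]
    rcases h j with h' | h'
    · exact Or.inr (sub_ne_zero.2 h'.symm)
    · exact Or.inl (sub_pos.2 (h'.2 (not_lt.1 hj)))
  constructor
  · unfold rt
    refine DifferentiableAt.const_mul ?_ κ
    refine DifferentiableAt.fun_finsetProd fun j _ => ?_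
    by_cases hj : (j : ℕ) < m
    · simp only [if_pos hj]
      exact (differentiableAt_id.sub_const _).cpow_const (h1 j hj)
    · simp only [if_neg hj]
      exact ((differentiableAt_id.const_sub _).cpow_const (h2 j hj)).const_mul _
  · refine mul_ne_zero κ0 (Finset.prod_ne_zero_iff.2 fun j _ => ?_)
    by_cases hj : (j : ℕ) < m
    · rw [if_pos hj]
      exact cpow_ne_zero_iff.2 (Or.inl (slitPlane_ne_zero (h1 j hj)))
    · rw [if_neg hj]
      exact mul_ne_zero I_ne_zero (cpow_ne_zero_iff.2 (Or.inl (slitPlane_ne_zero (h2 j hj))))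

theorem half_up {w : ℂ} (hw : 0 < w.im) : I * (-w) ^ (2⁻¹ : ℂ) = w ^ (2⁻¹ : ℂ) := by
  have w0 : w ≠ 0 := by
    rintro rfl
    simp at hw
  have hl : log (-w) = log w - Real.pi * I := by
    rw [Complex.log, Complex.log, arg_neg_eq_arg_sub_pi_of_im_pos hw, norm_neg]
    push_cast
    ring
  rw [cpow_def_of_ne_zero w0, cpow_def_of_ne_zero (neg_ne_zero.2 w0), hl]
  conv_lhs => rw [← exp_pi_div_two_mul_I]
  rw [exp_pi_div_two_mul_I, ← exp_pi_div_two_mul_I, ← Complex.exp_add, exp_pi_div_two_mul_I]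
  congr 1
  ring

theorem half_down {w : ℂ} (hw : w.im < 0) : w ^ (2⁻¹ : ℂ) = -(I * (-w) ^ (2⁻¹ : ℂ)) := by
  have h := half_up (w := -w) (by simpa using hw)
  rw [neg_neg] at h
  rw [← h, ← mul_assoc, I_mul_I]
  ring

/-- `I * (-w) ^ (1/2) = w ^ (1/2)` for `0 < w.im` -/
theorem rt_top (h : ∀ j, (a j).im < z.im) : rt κ a m z = rt κ a 0 z := by
  unfold rt
  congr 1
  refine Finset.prod_congr rfl fun j _ => ?_
  rw [if_neg (Nat.not_lt_zero _)]
  split_ifs
  · rw [← half_up (w := z - a j) (by rw [sub_im]; exact sub_pos.2 (h j)), neg_sub]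
  · rfl

/-- `I * (-w) ^ (1/2) = -w ^ (1/2)` for `w.im < 0` -/
theorem rt_bot (h : ∀ j, z.im < (a j).im) (hm : m ≤ N) : rt κ a m z = (-1) ^ m * rt κ a 0 z := by
  have hc : ∏ j : Fin N, (if (j : ℕ) < m then (-1 : ℂ) else 1) = (-1) ^ m := by
    rw [Finset.prod_ite, Finset.prod_const, Finset.prod_const_one, mul_one,
      Fin.card_filter_val_lt, min_eq_right hm]
  unfold rt
  rw [mul_left_comm, ← hc, ← Finset.prod_mul_distrib]
  congr 1
  refine Finset.prod_congr rfl fun j _ => ?_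
  rw [if_neg (Nat.not_lt_zero _)]
  split_ifs
  · rw [half_down (w := z - a j) (by rw [sub_im]; exact sub_neg.2 (h j)), neg_sub]
    ring
  · ring

theorem J0_anti (n : ℕ) : (J0 n)ᵀ = -J0 n := by
  ext i j
  simp only [J0, transpose_apply, neg_apply, of_apply, Fin.lt_def, Nat.odd_iff, Nat.even_iff]
  split_ifs <;> first | rfl | omega

end Pool.Agent.Lib.MP_5591bc_ag.F
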