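import Pool.Agent.Lib.MP_5591bc_ag.F.Lp
import Pool.Agent.Lib.MP_5591bc_ag.GPer

/-! Square roots on sets inside half planes, and primitives near one root. -/

namespace Pool.Agent.Lib.MP_5591bc_ag.F

open Set Polynomial

/-- `ρ z = (c / ∏ e j) ^ (1/2) * ∏ (e j (z - a j)) ^ (1/2)`; or induction on `J`. For empty `S`
take any `ρ`. -/
theorem sq_half {ι : Type*} (J : Finset ι) (a : ι → ℂ) {c : ℂ} (c0 : c ≠ 0) {S : Set ℂ}
    (h : ∀ j ∈ J, ∃ e : ℂ, ∀ z ∈ S, 0 < (e * (z - a j)).re) :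
    ∃ ρ, Rt (C c * ∏ j ∈ J, (X - C (a j))) S ρ := by
  classical
  induction J using Finset.induction_on with
  | empty =>
    obtain ⟨t, ht⟩ := IsAlgClosed.exists_pow_nat_eq c two_pos
    exact ⟨fun _ => t, fun z _ => ⟨differentiableAt_const _,
      fun e => c0 (by rw [← ht, show t = 0 from e]; simp), by simpa using ht⟩⟩
  | insert j J hj ih =>
    obtain ⟨ρ, hρ⟩ := ih fun i hi => h i (Finset.mem_insert_of_mem hi)
    obtain ⟨e, he⟩ := h j (Finset.mem_insert_self j J)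
    obtain ⟨t, ht⟩ := IsAlgClosed.exists_pow_nat_eq e two_pos
    refine ⟨fun z => ρ z * (e * (z - a j)) ^ ((2 : ℕ) : ℂ)⁻¹ / t, fun z hz => ?_⟩
    obtain ⟨h1, h2, h3⟩ := hρ z hz
    have n : e * (z - a j) ≠ 0 := fun k => by simpa [k] using he z hz
    have e0 : e ≠ 0 := left_ne_zero_of_mul n
    have t0 : t ≠ 0 := fun k => e0 (by rw [← ht, k]; simp)
    refine ⟨(h1.mul (DifferentiableAt.cpow_const (by fun_prop) (.inl (he z hz)))).div_const t,
      div_ne_zero (mul_ne_zero h2 (Complex.cpow_ne_zero_iff.2 (.inl n))) t0, ?_⟩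
    rw [div_pow, mul_pow, Complex.cpow_nat_inv_pow _ two_ne_zero, ht, h3, Finset.prod_insert hj]
    simp only [eval_mul, eval_sub, eval_X, eval_C]
    field_simp

/-- `g z = 2 ∫ s in 0..1, φ (a + s ^ 2 (z - a))`; `G.hasDerivAt_int` with `V = S`, then the
fundamental theorem of calculus for `s * φ (a + s ^ 2 (z - a))`. -/
theorem prim_one {S : Set ℂ} (ho : IsOpen S) (hc : Convex ℝ S) {a : ℂ} (ha : a ∈ S) {φ : ℂ → ℂ}
    (hφ : DifferentiableOn ℂ φ S) :
    ∃ g : ℂ → ℂ, ∀ z ∈ S, ∃ g', HasDerivAt g g' z ∧ (z - a) * g' + g z / 2 = φ z := by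
  have m : ∀ t ∈ S, ∀ u ∈ Icc (0 : ℝ) 1, a + (u : ℂ) ^ 2 * (t - a) ∈ S := fun t ht u hu => by
    simpa using hc.add_smul_sub_mem ha ht (t := u ^ 2) ⟨sq_nonneg u, pow_le_one₀ hu.1 hu.2⟩
  have c1 : ContinuousOn (fun p : ℂ × ℝ => φ (a + (p.2 : ℂ) ^ 2 * (p.1 - a))) (S ×ˢ Icc 0 1) :=
    hφ.continuousOn.comp (by fun_prop) fun p hp => m _ hp.1 _ hp.2
  have c2 : ContinuousOn (fun p : ℂ × ℝ => (p.2 : ℂ) ^ 2 * deriv φ (a + (p.2 : ℂ) ^ 2 * (p.1 - a)))
      (S ×ˢ Icc 0 1) := ContinuousOn.mul (by fun_prop)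
    ((hφ.deriv ho).continuousOn.comp (by fun_prop) fun p hp => m _ hp.1 _ hp.2)
  have d : ∀ t ∈ S, ∀ u ∈ Icc (0 : ℝ) 1, HasDerivAt φ (deriv φ (a + (u : ℂ) ^ 2 * (t - a)))
      (a + (u : ℂ) ^ 2 * (t - a)) := fun t ht u hu =>
    (hφ.differentiableAt (ho.mem_nhds (m t ht u hu))).hasDerivAt
  refine ⟨fun z => 2 * ∫ u in (0 : ℝ)..1, φ (a + (u : ℂ) ^ 2 * (z - a)), fun z hz =>
    ⟨_, (G.hasDerivAt_int (F := fun t u => φ (a + (u : ℂ) ^ 2 * (t - a)))
      (F' := fun t u => (u : ℂ) ^ 2 * deriv φ (a + (u : ℂ) ^ 2 * (t - a)))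
      (ho.mem_nhds hz) c1 c2 fun t ht u hu => ?_).const_mul 2, ?_⟩⟩
  · have l : HasDerivAt (fun t : ℂ => a + (u : ℂ) ^ 2 * (t - a)) ((u : ℂ) ^ 2) t := by
      simpa using (((hasDerivAt_id t).sub_const a).const_mul ((u : ℂ) ^ 2)).const_add a
    exact ((d t (interior_subset ht) u hu).comp t l).congr_deriv (mul_comm _ _)
  · have i1 := (c1.comp (f := fun u : ℝ => (z, u)) (by fun_prop)
      fun u hu => ⟨hz, hu⟩).intervalIntegrable_of_Icc (μ := MeasureTheory.volume) zero_le_one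
    have i2 := (c2.comp (f := fun u : ℝ => (z, u)) (by fun_prop)
      fun u hu => ⟨hz, hu⟩).intervalIntegrable_of_Icc (μ := MeasureTheory.volume) zero_le_one
    simp only [Function.comp_def] at i1 i2
    have k := intervalIntegral.integral_eq_sub_of_hasDerivAt (a := 0) (b := 1)
      (f := fun u : ℝ => (u : ℂ) * φ (a + (u : ℂ) ^ 2 * (z - a)))
      (f' := fun u : ℝ => 2 * (z - a) * ((u : ℂ) ^ 2 * deriv φ (a + (u : ℂ) ^ 2 * (z - a))) +
        φ (a + (u : ℂ) ^ 2 * (z - a))) (fun u hu => by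
        rw [uIcc_of_le zero_le_one] at hu
        have l : HasDerivAt (fun s : ℂ => a + s ^ 2 * (z - a)) (2 * u * (z - a)) u := by
          simpa using ((hasDerivAt_pow 2 (u : ℂ)).mul_const (z - a)).const_add a
        refine (((hasDerivAt_id (u : ℂ)).mul ((d z hz u hu).comp (u : ℂ) l)).comp_ofReal).congr_deriv ?_
        simp only [id, Function.comp]
        ring) ((i2.const_mul _).add i1)
    rw [intervalIntegral.integral_add (i2.const_mul _) i1, intervalIntegral.integral_const_mul] at k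
    simp only [Complex.ofReal_one, Complex.ofReal_zero, one_pow, one_mul, zero_mul,
      sub_zero, add_sub_cancel] at k
    linear_combination k

/-- `h z k = g z / ρ z` with `g` from `prim_one` for `φ = z ^ k / ρ`; `2 ρ ρ' = r'` -/
theorem prm_ex {S : Set ℂ} (ho : IsOpen S) (hc : Convex ℝ S) {a : ℂ} (ha : a ∈ S) {r : ℂ[X]}
    {ρ : ℂ → ℂ} (hρ : Rt r S ρ) (n : ℕ) : ∃ h : ℂ → Fin n → ℂ, Prm ((X - C a) * r) S h := by
  choose g hg using fun k : Fin n => prim_one ho hc ha (φ := fun z => z ^ (k : ℕ) / ρ z)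
    fun z hz => (DifferentiableAt.div (by fun_prop) (hρ z hz).1 (hρ z hz).2.1).differentiableWithinAt
  refine ⟨fun z k => g k z / ρ z, fun z hz k => ?_⟩
  obtain ⟨g', h1, h2⟩ := hg k z hz
  obtain ⟨h3, h4, h5⟩ := hρ z hz
  have e := (r.hasDerivAt z).unique ((h3.hasDerivAt.fun_pow 2).congr_of_eventuallyEq
    (Filter.mem_of_superset (ho.mem_nhds hz) fun w hw => (hρ w hw).2.2.symm))
  refine ⟨_, h1.fun_div h3.hasDerivAt h4, ?_⟩
  rw [eq_div_iff h4] at h2
  simp only [derivative_mul, derivative_sub, derivative_X, derivative_C, eval_add, eval_mul,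
    eval_sub, eval_X, eval_C, eval_one, eval_zero, e, ← h5, ← h2]
  push_cast
  field_simp
  ring

end Pool.Agent.Lib.MP_5591bc_ag.F
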