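import Pool.Agent.Lib.MP_5591bc_ag.F.RbD
import Pool.Agent.Lib.MP_5591bc_ag.F.Sq

/-! The primitive at infinity. -/

namespace Pool.Agent.Lib.MP_5591bc_ag.F

open Set Polynomial Complex Matrix

theorem rbB_half (μ : ℤ) : (μ : ℂ) + 2⁻¹ ≠ 0 := fun h => by
  have e : ((2 * μ + 1 : ℤ) : ℂ) = 0 := by
    push_cast
    linear_combination 2 * h
  have := Int.cast_eq_zero.1 e
  omega

theorem rbB_dslope (f : ℂ → ℂ) (z : ℂ) : f z = f 0 + z * dslope f 0 z := by
  have := sub_smul_dslope f 0 z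
  rw [sub_zero, smul_eq_mul] at this
  linear_combination -this

theorem rbB_deriv {r : ℝ} {g : ℂ → ℂ} (hg : DifferentiableOn ℂ g (Metric.ball 0 r)) (c : ℂ) {z : ℂ}
    (hz : z ∈ Metric.ball (0 : ℂ) r) : deriv (fun w => c + w * g w) z = g z + z * deriv g z := by
  have := (((hasDerivAt_id z).mul (hg.differentiableAt
    (Metric.isOpen_ball.mem_nhds hz)).hasDerivAt).const_add c).deriv
  simpa using this

/-- `μ = 0` is `prim_one`. From `μ + 1` to `μ`: `φ = φ 0 + z ψ` (`dslope`),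
`g = φ 0 / (μ + 1/2) + z g₁`. From `μ` to `μ + 1`: solve for `z φ`, then `g 0 = 0`, take
`dslope g 0`. -/
theorem prim_half (μ : ℤ) {r : ℝ} {φ : ℂ → ℂ} (hφ : DifferentiableOn ℂ φ (Metric.ball 0 r)) :
    ∃ g : ℂ → ℂ, DifferentiableOn ℂ g (Metric.ball 0 r) ∧
      ∀ z ∈ Metric.ball (0 : ℂ) r, z * deriv g z + (μ + 2⁻¹) * g z = φ z := by
  rcases le_or_gt r 0 with hr | hr
  · exact ⟨φ, hφ, fun z hz => by simp [Metric.ball_eq_empty.2 hr] at hz⟩
  have h0 : (0 : ℂ) ∈ Metric.ball (0 : ℂ) r := Metric.mem_ball_self hr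
  have hn := Metric.isOpen_ball.mem_nhds h0
  induction μ using Int.induction_on generalizing φ with
  | zero =>
    obtain ⟨g, hg⟩ := prim_one Metric.isOpen_ball (convex_ball _ _) h0 hφ
    refine ⟨g, fun z hz => (hg z hz).choose_spec.1.differentiableAt.differentiableWithinAt,
      fun z hz => ?_⟩
    obtain ⟨g', h1, h2⟩ := hg z hz
    rw [h1.deriv]
    push_cast
    linear_combination h2
  | succ m ih =>
    obtain ⟨g, hg, h⟩ := ih (φ := fun z => z * φ z) (differentiableOn_id.mul hφ)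
    have g0 : g 0 = 0 := by
      have := h 0 h0
      rw [zero_mul, zero_mul, zero_add] at this
      exact (mul_eq_zero.1 this).resolve_left (rbB_half m)
    have d := (Complex.differentiableOn_dslope hn).2 hg
    have e : g = fun w => g 0 + w * dslope g 0 w := funext (rbB_dslope g)
    have k : ∀ z ∈ Metric.ball (0 : ℂ) r, 0 + z * (z * deriv (dslope g 0) z +
        (((m : ℤ) + 1 : ℤ) + 2⁻¹) * dslope g 0 z - φ z) = 0 := fun z hz => by
      have h1 := h z hz
      have h2 := rbB_deriv d (g 0) hz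
      rw [← e] at h2
      have h3 := rbB_dslope g z
      rw [h2, h3, g0] at h1
      push_cast at h1 ⊢
      linear_combination h1
    refine ⟨dslope g 0, d, fun z hz => ?_⟩
    rcases eq_or_ne z 0 with rfl | z0
    · have h1 := rbB_deriv (g := fun z => z * deriv (dslope g 0) z +
        (((m : ℤ) + 1 : ℤ) + 2⁻¹) * dslope g 0 z - φ z)
        (((differentiableOn_id.mul (d.deriv Metric.isOpen_ball)).add (d.const_mul _)).sub hφ) 0 h0
      rw [(Filter.eventuallyEq_of_mem hn k).deriv_eq, deriv_const] at h1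
      linear_combination -h1
    · have := (mul_eq_zero.1 ((zero_add _).symm.trans (k z hz))).resolve_left z0
      linear_combination this
  | pred m ih =>
    obtain ⟨g, hg, h⟩ := ih ((Complex.differentiableOn_dslope hn).2 hφ)
    have n0 := rbB_half (-(m : ℤ) - 1)
    refine ⟨fun w => φ 0 / (((-(m : ℤ) - 1 : ℤ) : ℂ) + 2⁻¹) + w * g w,
      (differentiableOn_id.mul hg).const_add _, fun z hz => ?_⟩
    have h1 := h z hz
    rw [rbB_deriv hg _ hz, mul_add (_ + 2⁻¹), mul_div_cancel₀ _ n0]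
    push_cast at h1 ⊢
    linear_combination z * h1 - rbB_dslope φ z

theorem rbB_sqrt {q : ℂ[X]} (h : q.eval 0 ≠ 0) :
    ∃ r : ℝ, 0 < r ∧ ∃ σ, Rt q (Metric.ball 0 r) σ := by
  have c : Continuous fun v : ℂ => q.eval v / q.eval 0 := q.continuous.div_const _
  obtain ⟨r, hr, hs⟩ := Metric.isOpen_iff.1 (isOpen_slitPlane.preimage c) 0
    (by simp [div_self h])
  obtain ⟨t, ht⟩ := IsAlgClosed.exists_pow_nat_eq (q.eval 0) two_pos
  have t0 : t ≠ 0 := fun k => h (by rw [← ht, k]; simp)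
  refine ⟨r, hr, fun v => t * (q.eval v / q.eval 0) ^ ((2 : ℕ) : ℂ)⁻¹, fun v hv => ⟨?_, ?_, ?_⟩⟩
  · exact (DifferentiableAt.cpow_const (q.differentiableAt.div_const _) (hs hv)).const_mul t
  · exact mul_ne_zero t0 (Complex.cpow_ne_zero_iff.2 (.inl (slitPlane_ne_zero (hs hv))))
  · rw [mul_pow, Complex.cpow_nat_inv_pow _ two_ne_zero, ht, mul_div_cancel₀ _ h]

theorem rbB_rev (p : ℂ[X]) {z : ℂ} (hz : z ≠ 0) :
    p.eval z = z ^ p.natDegree * p.reverse.eval z⁻¹ := by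
  let _ := invertibleOfNonzero hz
  have := eval₂_reverse_mul_pow (RingHom.id ℂ) z p
  rw [invOf_eq_inv] at this
  exact this.symm.trans (mul_comm _ _)

/-- With `v = 1 / z`, `σ v ^ 2 = p.reverse.eval v` on a small ball (`p(z) = z ^ (n + 1) σ ^ 2`):
`h z k = v ^ (n - k) * g v / σ v` where `v g' + (n / 2 - k - 1 + 1/2) g = -1 / σ`. For `ex` take a
primitive on the ball of `v ^ (n - k - j - 2) * g v / σ v`; for `bnd` shrink the ball. -/
theorem inf_ex {p : ℂ[X]} {n : ℕ} (hp : p.natDegree = n + 1) (hn : Even n) :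
    ∃ (R : ℝ) (h : ℂ → Fin n → ℂ), Inf p R h := by
  have p0 : p ≠ 0 := fun e => by simp [e] at hp
  obtain ⟨r, hr, σ, hσ⟩ := rbB_sqrt (q := p.reverse) (by
    rw [← coeff_zero_eq_eval_zero, coeff_zero_reverse]
    exact leadingCoeff_ne_zero.2 p0)
  obtain ⟨m, hm⟩ := hn
  have sd : DifferentiableOn ℂ σ (Metric.ball 0 r) := fun v hv => (hσ v hv).1.differentiableWithinAt
  choose g hg hg' using fun k : Fin n => prim_half ((m : ℤ) - (k : ℕ) - 1) (r := r)
    (φ := fun v => -(σ v)⁻¹) (sd.inv fun v hv => (hσ v hv).2.1).neg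
  have Gd : ∀ k, DifferentiableOn ℂ (fun v => g k v / σ v) (Metric.ball 0 r) := fun k =>
    (hg k).div sd fun v hv => (hσ v hv).2.1
  have R0 : 0 < 2 / r := by positivity
  have z0 : ∀ z : ℂ, 2 / r < ‖z‖ → z ≠ 0 := fun z hz => norm_pos_iff.1 (R0.trans hz)
  have zc : ∀ z : ℂ, 2 / r < ‖z‖ → z⁻¹ ∈ Metric.closedBall (0 : ℂ) (r / 2) := fun z hz => by
    rw [mem_closedBall_zero_iff, norm_inv, ← inv_div]
    exact inv_anti₀ R0 hz.le
  have cb : Metric.closedBall (0 : ℂ) (r / 2) ⊆ Metric.ball 0 r :=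
    Metric.closedBall_subset_ball (half_lt_self hr)
  refine ⟨2 / r, fun z k => z ^ (((k : ℕ) : ℤ) - n) * (g k z⁻¹ / σ z⁻¹), R0, fun z hz k => ?_,
    fun k j hj => ?_, ?_⟩
  · have hz0 := z0 z hz
    have hv := cb (zc z hz)
    obtain ⟨s1, s2, -⟩ := hσ _ hv
    have d1 := s1.hasDerivAt.comp z (hasDerivAt_inv hz0)
    have d2 := ((hg k).differentiableAt (Metric.isOpen_ball.mem_nhds hv)).hasDerivAt.comp z
      (hasDerivAt_inv hz0)
    have e : ∀ w : ℂ, 2 / r < ‖w‖ → p.eval w = w ^ (n + 1) * σ w⁻¹ ^ 2 := fun w hw => by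
      rw [rbB_rev p (z0 w hw), hp, (hσ _ (cb (zc w hw))).2.2]
    have e' := (p.hasDerivAt z).unique (((hasDerivAt_pow (n + 1) z).mul (d1.fun_pow 2)).congr_of_eventuallyEq
      (Filter.mem_of_superset ((isOpen_lt continuous_const continuous_norm).mem_nhds hz) e))
    refine ⟨_, (hasDerivAt_zpow _ z (.inl hz0)).mul (d2.fun_div d1 s2), ?_⟩
    have h1 := hg' k _ hv
    have h2 : (n : ℂ) = m + m := by exact_mod_cast hm
    rw [e', e z hz, zpow_sub_one₀ hz0, zpow_sub₀ hz0, zpow_natCast, zpow_natCast]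
    simp only [Function.comp, Nat.add_sub_cancel, pow_succ z n]
    push_cast at h1 ⊢
    rw [h2]
    have zn : z ^ n ≠ 0 := pow_ne_zero _ hz0
    generalize z ^ n = Z at zn ⊢
    generalize σ z⁻¹ = s at s2 h1 ⊢
    have h3 : deriv (g k) z⁻¹ = z * (-s⁻¹ - (m - (k : ℕ) - 1 + 2⁻¹) * g k z⁻¹) := by
      rw [← h1]
      field_simp
      ring
    rw [h3]
    field_simp
    ring
  · obtain ⟨e, he⟩ := Int.eq_ofNat_of_zero_le (a := n - (k : ℕ) - j - 2) (by omega)
    obtain ⟨Φ, hΦ⟩ := (((differentiableOn_id (𝕜 := ℂ)).pow e).mul (Gd k)).isExactOn_ball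
    refine ⟨fun z => -Φ z⁻¹, fun z hz => ?_⟩
    have hz0 := z0 z hz
    refine ((hΦ _ (cb (zc z hz))).comp z (hasDerivAt_inv hz0)).neg.congr_deriv ?_
    have h1 : z ^ (((k : ℕ) : ℤ) - n) * z ^ j = (z ^ e * z ^ 2)⁻¹ := by
      rw [← zpow_add₀ hz0, ← pow_add, ← zpow_natCast, ← _root_.zpow_neg]
      congr 1
      push_cast
      omega
    rw [mul_right_comm, h1]
    simp only [Pi.mul_apply, Pi.pow_apply, id, inv_pow, _root_.mul_inv_rev]
    ring
  · choose C hC using fun k => (isCompact_closedBall (0 : ℂ) (r / 2)).exists_bound_of_continuousOn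
      ((Gd k).continuousOn.mono cb)
    obtain ⟨M, hM⟩ := Finite.exists_le C
    refine ⟨M, fun k z hz => ?_⟩
    have hz0 := norm_ne_zero_iff.2 (z0 z hz)
    rw [norm_mul, norm_zpow, zpow_sub₀ hz0, zpow_natCast, zpow_natCast, mul_right_comm,
      div_mul_cancel₀ _ (pow_ne_zero _ hz0), mul_comm]
    exact mul_le_mul_of_nonneg_right ((hC k _ (zc z hz)).trans (hM k)) (by positivity)

end Pool.Agent.Lib.MP_5591bc_ag.F
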