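import Pool.Agent.Lib.MP_5591bc_ag.F.RbN
import Pool.Agent.Lib.MP_5591bc_ag.F.Arc

/-! The sum of the boundary integrals. -/

namespace Pool.Agent.Lib.MP_5591bc_ag.F

open Set Polynomial Complex Matrix

variable {p : ℂ[X]} {n : ℕ}

/-- one edge `u ↦ z₀ + u * v`: `prm_arc` for `h`, `h'` gives the first part, for `h''` the last -/
theorem bk_edge (bar : ℂ →+* ℂ) (hb : Continuous bar) (q q' : Fin n → ℂ) {D D' D'' : Set ℂ}
    {h h' h'' : ℂ → Fin n → ℂ} (h1 : Prm p D h) (h2 : Prm p D' h') (h3 : Prm p D'' h'')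
    {Φ Φ' : ℂ → ℂ} (hΦ : ∀ z y, y ≠ 0 → y ^ 2 = p.eval z →
      Φ z = bar (y * (q ⬝ᵥ h z)) * (∑ l : Fin n, q' l * z ^ (l : ℕ)) / y ∧
      Φ' z = bar (y * (q ⬝ᵥ h' z)) * (∑ l : Fin n, q' l * z ^ (l : ℕ)) / y)
    (z₀ v : ℂ) {a b : ℝ} (hab : a ≤ b) {ρ : ℂ → ℂ} (hρ : ∀ u ∈ Icc a b, z₀ + u * v ∈ D ∧
      z₀ + u * v ∈ D' ∧ z₀ + u * v ∈ D'' ∧ ContinuousAt ρ (z₀ + u * v) ∧ ρ (z₀ + u * v) ≠ 0 ∧
      ρ (z₀ + u * v) ^ 2 = p.eval (z₀ + u * v)) :
    ∃ W : Fin n → ℂ, (∀ u ∈ Icc a b, ρ (z₀ + u * v) • (h (z₀ + u * v) - h' (z₀ + u * v)) = W) ∧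
      IntervalIntegrable (fun u : ℝ => Φ' (z₀ + u * v)) MeasureTheory.volume a b ∧
      v * ((∫ u : ℝ in a..b, Φ (z₀ + u * v)) - ∫ u : ℝ in a..b, Φ' (z₀ + u * v)) =
        bar (q ⬝ᵥ W) * (ρ (z₀ + b * v) * (q' ⬝ᵥ h'' (z₀ + b * v)) -
          ρ (z₀ + a * v) * (q' ⬝ᵥ h'' (z₀ + a * v))) := by
  have hx : ContDiff ℝ 1 fun u : ℝ => z₀ + u * v :=
    contDiff_const.add (Complex.ofRealCLM.contDiff.mul contDiff_const)
  have dx : ∀ u : ℝ, deriv (fun u : ℝ => z₀ + u * v) u = v := fun u => by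
    simpa using (((hasDerivAt_id u).ofReal_comp.mul_const v).const_add z₀).deriv
  have hy : ContinuousOn (fun u : ℝ => ρ (z₀ + u * v)) (Icc a b) := fun u hu =>
    (ContinuousAt.comp (f := fun u : ℝ => z₀ + u * v) (hρ u hu).2.2.2.1
      hx.continuous.continuousAt).continuousWithinAt
  have hW : ∀ u ∈ Icc a b, ρ (z₀ + u * v) • (h (z₀ + u * v) - h' (z₀ + u * v)) =
      ρ (z₀ + a * v) • (h (z₀ + a * v) - h' (z₀ + a * v)) := fun u hu => by
    funext k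
    have s : Icc a u ⊆ Icc a b := Icc_subset_Icc_right hu.2
    have e1 := prm_arc h1 hx hu.1 (hy.mono s) (fun t ht => ⟨(hρ t (s ht)).1, (hρ t (s ht)).2.2.2.2⟩) k
    have e2 := prm_arc h2 hx hu.1 (hy.mono s)
      (fun t ht => ⟨(hρ t (s ht)).2.1, (hρ t (s ht)).2.2.2.2⟩) k
    simp only [Pi.sub_apply, Pi.smul_apply, smul_eq_mul]
    linear_combination e2 - e1
  have ci : ∀ {S : Set ℂ} {g : ℂ → Fin n → ℂ} {F : ℂ → ℂ}, Prm p S g →
      (∀ u ∈ Icc a b, z₀ + u * v ∈ S) → (∀ z y, y ≠ 0 → y ^ 2 = p.eval z →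
        F z = bar (y * (q ⬝ᵥ g z)) * (∑ l : Fin n, q' l * z ^ (l : ℕ)) / y) →
      IntervalIntegrable (fun u : ℝ => F (z₀ + u * v)) MeasureTheory.volume a b := by
    intro S g F hg hS hF
    refine ContinuousOn.intervalIntegrable_of_Icc hab (ContinuousOn.congr ?_ fun u hu =>
      hF _ _ (hρ u hu).2.2.2.2.1 (hρ u hu).2.2.2.2.2)
    refine ((hb.comp_continuousOn (hy.mul ?_)).mul ?_).div hy fun u hu => (hρ u hu).2.2.2.2.1
    · refine continuousOn_finsetSum _ fun k _ => continuousOn_const.mul fun u hu => ?_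
      obtain ⟨g', g1, -⟩ := hg _ (hS u hu) k
      exact (ContinuousAt.comp (f := fun u : ℝ => z₀ + u * v) g1.continuousAt
        hx.continuous.continuousAt).continuousWithinAt
    · exact Continuous.continuousOn (by fun_prop)
  have i1 := ci h1 (fun u hu => (hρ u hu).1) fun z y y0 y1 => (hΦ z y y0 y1).1
  have i2 := ci h2 (fun u hu => (hρ u hu).2.1) fun z y y0 y1 => (hΦ z y y0 y1).2
  refine ⟨_, hW, i2, ?_⟩
  generalize ρ (z₀ + a * v) • (h (z₀ + a * v) - h' (z₀ + a * v)) = W at hW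
  have i3 := fun k : Fin n => arc_int hx (a := a) (b := b) (by rwa [uIcc_of_le hab])
    (fun u hu => (hρ u (by rwa [uIcc_of_le hab] at hu)).2.2.2.2.1) k
  rw [← intervalIntegral.integral_sub i1 i2, ← intervalIntegral.integral_const_mul,
    intervalIntegral.integral_congr (g := fun u : ℝ => ∑ l : Fin n, bar (q ⬝ᵥ W) * q' l *
      ((z₀ + u * v) ^ (l : ℕ) * deriv (fun u : ℝ => z₀ + u * v) u / ρ (z₀ + u * v))),
    intervalIntegral.integral_finsetSum fun l _ => (i3 l).const_mul _]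
  · generalize bar (q ⬝ᵥ W) = c
    simp only [dotProduct, Finset.mul_sum, ← Finset.sum_sub_distrib]
    refine Finset.sum_congr rfl fun l _ => ?_
    rw [intervalIntegral.integral_const_mul,
      prm_arc h3 hx hab hy (fun t ht => ⟨(hρ t ht).2.2.1, (hρ t ht).2.2.2.2⟩) l]
    ring
  · intro u hu
    rw [uIcc_of_le hab] at hu
    obtain ⟨e1, e2⟩ := hΦ _ _ (hρ u hu).2.2.2.2.1 (hρ u hu).2.2.2.2.2
    simp only
    rw [e1, e2, ← hW u hu, dotProduct_smul, dotProduct_sub, smul_eq_mul, mul_sub (ρ _), map_sub,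
      ← sub_div, ← sub_mul, dx, Finset.mul_sum, Finset.sum_div, Finset.mul_sum]
    exact Finset.sum_congr rfl fun l _ => by ring

/-- `bk_edge` on the vertical edges (`h = h'' = H m`, `h' = H (m + 1)`, constants `W m`) and on the
horizontal ones (`h = H (i + 1)`, `h' = h'' = H 0`, constants `α (i + 1)` on top, `β (i + 1)` at the
bottom, `α 0 = β 0 = α (n + 2) = β (n + 2) = 0`); `sum_integral_adjacent_intervals`; `bk_num` with
`U m = bar (q ⬝ᵥ W m)`, `V m = q' ⬝ᵥ W m`, `A m = bar (q ⬝ᵥ α m)`, `A' m = q' ⬝ᵥ α m`,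
`GT m = ρ 0 z * (q' ⬝ᵥ H 0 z)` at `z = s m + R I`. -/
theorem Geo.bil {R : ℝ} {s : ℕ → ℝ} {D : ℕ → Set ℂ} {H : ℕ → ℂ → Fin n → ℂ} {ρ : ℕ → ℂ → ℂ}
    (G : Geo p R s D H ρ) (hn : Even n) (bar : ℂ →+* ℂ) (hb : Continuous bar) (q q' : Fin n → ℂ)
    {Φ : ℕ → ℂ → ℂ} (hΦ : ∀ m z y, y ≠ 0 → y ^ 2 = p.eval z →
      Φ m z = bar (y * (q ⬝ᵥ H m z)) * (∑ l : Fin n, q' l * z ^ (l : ℕ)) / y)
    {w : Fin n → Fin n → ℂ} (hw : ∀ i : Fin n, ∃ y ∈ Icc (-R) R, w i =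
      ρ (i + 1) (s (i + 1) + y * I) • (H (i + 1) (s (i + 1) + y * I) - H (i + 2) (s (i + 1) + y * I))) :
    ∑ i ∈ Finset.range (n + 1), bd (Φ (i + 1)) (s i) (s (i + 1)) R - bd (Φ 0) (s 0) (s (n + 1)) R =
      -2 * ∑ i : Fin n, ∑ j : Fin n, bar (q ⬝ᵥ w i) * (J0 n i j : ℂ) * (q' ⬝ᵥ w j) := by
  let T : ℕ → ℂ := fun m => s m + R * I
  let B : ℕ → ℂ := fun m => s m + (-R : ℝ) * I
  let W : ℕ → Fin n → ℂ := fun m => ρ m (T m) • (H m (T m) - H (m + 1) (T m))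
  let al : (ℕ → ℂ) → ℕ → Fin n → ℂ := fun P m => ρ 0 (P m) • (H m (P m) - H 0 (P m))
  let g : (ℕ → ℂ) → ℕ → ℂ := fun P m => ρ 0 (P m) * (q' ⬝ᵥ H 0 (P m))
  have RR : -R ≤ R := by linarith [G.R0]
  have ver : ∀ m ≤ n + 1, (∀ y ∈ Icc (-R) R,
      ρ m (s m + y * I) • (H m (s m + y * I) - H (m + 1) (s m + y * I)) = W m) ∧
      I * ((∫ y : ℝ in (-R)..R, Φ m (s m + y * I)) - ∫ y : ℝ in (-R)..R, Φ (m + 1) (s m + y * I)) =
        bar (q ⬝ᵥ W m) * (g T m + q' ⬝ᵥ al T m - (-1) ^ m * (g B m + q' ⬝ᵥ al B m)) := by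
    intro m hm
    obtain ⟨V, v1, -, v3⟩ := bk_edge bar hb q q' (G.prm m (by omega)) (G.prm (m + 1) (by omega))
      (G.prm m (by omega)) (fun z y y0 y1 => ⟨hΦ m z y y0 y1, hΦ (m + 1) z y y0 y1⟩) (s m) I RR
      (ρ := ρ m) fun u hu => ⟨(G.ver m hm u hu).1, (G.ver m hm u hu).2.1, (G.ver m hm u hu).1,
        (G.ver m hm u hu).2.2.1, (G.ver m hm u hu).2.2.2, G.sq _ _⟩
    obtain rfl : W m = V := v1 R (right_mem_Icc.2 RR)
    refine ⟨v1, v3.trans ?_⟩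
    rw [G.top m hm, G.bot m hm]
    simp only [g, al, T, B, dotProduct_smul, dotProduct_sub, smul_eq_mul]
    ring
  have hor : ∀ y : ℝ, y = R ∨ y = -R → ∀ P : ℕ → ℂ, (∀ m, P m = s m + y * I) → ∀ i ≤ n,
      ρ 0 (P i) • (H (i + 1) (P i) - H 0 (P i)) = al P (i + 1) ∧
      IntervalIntegrable (fun x : ℝ => Φ 0 (x + y * I)) MeasureTheory.volume (s i) (s (i + 1)) ∧
      (∫ x : ℝ in s i..s (i + 1), Φ (i + 1) (x + y * I)) - ∫ x : ℝ in s i..s (i + 1),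
        Φ 0 (x + y * I) = bar (q ⬝ᵥ al P (i + 1)) * (g P (i + 1) - g P i) := by
    intro y hy P hP i hi
    have e : ∀ x : ℝ, (y * I + x * 1 : ℂ) = x + y * I := fun x => by ring
    obtain ⟨V, v1, v2, v3⟩ := bk_edge bar hb q q' (G.prm (i + 1) (by omega)) (G.prm 0 (by omega))
      (G.prm 0 (by omega)) (fun z y y0 y1 => ⟨hΦ (i + 1) z y y0 y1, hΦ 0 z y y0 y1⟩) (y * I) 1
      (G.mono i hi) (ρ := ρ 0) fun u hu => by
        rw [e]
        obtain ⟨a1, a2, a3, a4⟩ := G.hor i hi u hu y hy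
        exact ⟨a1, a2, a2, a3, a4, G.sq _ _⟩
    simp only [e, one_mul] at v1 v2 v3
    have a : al P (i + 1) = V := by
      simp only [al, hP]
      exact v1 _ (right_mem_Icc.2 (G.mono i hi))
    rw [a]
    simp only [g, hP]
    exact ⟨v1 _ (left_mem_Icc.2 (G.mono i hi)), v2, v3⟩
  have hT := hor R (.inl rfl) T fun _ => rfl
  have hB := hor (-R) (.inr rfl) B fun _ => rfl
  have a0 : ∀ P, al P 0 = 0 := fun P => by simp [al]
  have a1 : ∀ P, al P (n + 2) = 0 := fun P => by simp [al, G.last]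
  have st : ∀ P : ℕ → ℂ, (∀ i ≤ n, ρ 0 (P i) • (H (i + 1) (P i) - H 0 (P i)) = al P (i + 1)) →
      ∀ m ≤ n + 1, al P m - al P (m + 1) = ρ 0 (P m) • (H m (P m) - H (m + 1) (P m)) := by
    intro P hP m hm
    have : al P (m + 1) = ρ 0 (P m) • (H (m + 1) (P m) - H 0 (P m)) := by
      rcases hm.eq_or_lt with rfl | c
      · rw [a1, G.last]; simp
      · exact (hP m (by omega)).symm
    rw [this]
    simp only [al, ← smul_sub, sub_sub_sub_cancel_right]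
  have sT : ∀ m ≤ n + 1, al T m - al T (m + 1) = W m := fun m hm => by
    rw [st T (fun i hi => (hT i hi).1) m hm, ← G.top m hm]
  have sB : ∀ m ≤ n + 1, al B m - al B (m + 1) = ((-1 : ℂ) ^ m) • W m := fun m hm => by
    rw [st B (fun i hi => (hB i hi).1) m hm, ← (ver m hm).1 _ (left_mem_Icc.2 RR), G.bot m hm,
      smul_smul, ← mul_assoc, ← mul_pow, neg_mul_neg, one_mul, one_pow, one_mul]
  have key := bk_num hn (fun m => bar (q ⬝ᵥ W m)) (fun m => q' ⬝ᵥ W m)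
    (fun m => bar (q ⬝ᵥ al T m)) (fun m => bar (q ⬝ᵥ al B m)) (fun m => q' ⬝ᵥ al T m)
    (fun m => q' ⬝ᵥ al B m) (g T) (g B)
    (fun m hm => by rw [← map_sub, ← dotProduct_sub, sT m hm]) (by simp [a0]) (by simp [a1])
    (fun m hm => by
      rw [← map_sub, ← dotProduct_sub, sB m hm, dotProduct_smul, smul_eq_mul, map_mul, map_pow,
        map_neg, map_one]) (by simp [a0]) (by simp [a1])
    (fun m hm => by rw [← dotProduct_sub, sT m hm]) (by simp [a0]) (by simp [a1])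
    (fun m hm => by rw [← dotProduct_sub, sB m hm, dotProduct_smul, smul_eq_mul])
    (by simp [a0]) (by simp [a1])
  have ww : ∀ i : Fin n, w i = W (i + 1) := fun i => by
    obtain ⟨y, y1, y2⟩ := hw i
    rw [y2]
    exact (ver (i + 1) (by omega)).1 y y1
  have lst : ∫ y : ℝ in (-R)..R, Φ (n + 1 + 1) (s (n + 1) + y * I) =
      ∫ y : ℝ in (-R)..R, Φ 0 (s (n + 1) + y * I) := intervalIntegral.integral_congr fun y hy => by
    rw [uIcc_of_le RR] at hy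
    have := (G.ver (n + 1) le_rfl y hy).2.2.2
    rw [hΦ _ _ _ this (G.sq _ _), hΦ 0 _ _ this (G.sq _ _), G.last]
  have s1 := intervalIntegral.sum_integral_adjacent_intervals (n := n + 1)
    fun i hi => (hT i (by omega)).2.1
  have s2 := intervalIntegral.sum_integral_adjacent_intervals (n := n + 1)
    fun i hi => (hB i (by omega)).2.1
  have s3 := Finset.sum_congr rfl fun m (hm : m ∈ Finset.range (n + 2)) =>
    (ver m (by have := Finset.mem_range.1 hm; omega)).2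
  have s4 := Finset.sum_congr rfl fun i (hi : i ∈ Finset.range (n + 1)) =>
    (hT i (by have := Finset.mem_range.1 hi; omega)).2.2
  have s5 := Finset.sum_congr rfl fun i (hi : i ∈ Finset.range (n + 1)) =>
    (hB i (by have := Finset.mem_range.1 hi; omega)).2.2
  simp only [ww]
  rw [← key, ← s3]
  simp only [mul_sub, Finset.sum_sub_distrib] at s4 s5
  simp only [bd, mul_sub, Finset.sum_add_distrib, Finset.sum_sub_distrib]
  rw [Finset.sum_range_succ' (fun m => I * ∫ y : ℝ in (-R)..R, Φ m (s m + y * I)),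
    Finset.sum_range_succ (fun m => I * ∫ y : ℝ in (-R)..R, Φ (m + 1) (s m + y * I)) (n + 1), lst]
  linear_combination s5 - s4 - s1 + s2

end Pool.Agent.Lib.MP_5591bc_ag.F
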