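import Pool.Agent.Lib.MP_5591bc_ag.F.Lp

/-! Riemann's bilinear relations for `y ^ 2 = p(x)`: definitions. -/

namespace Pool.Agent.Lib.MP_5591bc_ag.F

open Set Polynomial Complex Matrix

noncomputable section

/-- the inverse intersection matrix of the chain of cycles -/
def J0 (n : ℕ) : Matrix (Fin n) (Fin n) ℤ := .of fun i j =>
  if Odd (i : ℕ) ∧ Even (j : ℕ) ∧ j < i then 1
  else if Even (i : ℕ) ∧ Odd (j : ℕ) ∧ i < j then -1 else 0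

/-- the recurrence for the residues at infinity -/
def Rec (p : ℂ[X]) {n : ℕ} (Λ : Matrix (Fin n) (Fin n) ℂ) : Prop :=
  ∃ m : Fin n → ℤ → ℂ, (∀ (k : Fin n) (j : ℤ), j + (k : ℕ) + 1 < n → m k j = 0) ∧
    (∀ (k : Fin n) (j : ℤ), ∑ r ∈ Finset.range (n + 2), p.coeff r * (r + 2 * j) * m k (r + j - 1) =
      if j + (k : ℕ) + 1 = 0 then -(8 * Real.pi * I) else 0) ∧ ∀ k l, Λ k l = m k (l : ℕ)

/-- `M` is the matrix of periods over a basis of the lattice of periods, with Riemann's relations -/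
structure RB (p : ℂ[X]) {n : ℕ} (M : Matrix (Fin n) (Fin n) ℂ) : Prop where
  det : M.det ≠ 0
  col : ∀ j, Lp p.eval fun i => M i j
  int : ∀ v, Lp p.eval v → ∃ γ : Fin n → ℤ, v = M *ᵥ fun j => (γ j : ℂ)
  rc : Rec p (M * (J0 n).map (Int.cast : ℤ → ℂ) * Mᵀ)
  pos : ∀ q : Fin n → ℂ, q ≠ 0 → (∀ k : Fin n, n ≤ 2 * (k : ℕ) → q k = 0) →
    0 < (-I * (q ᵥ* M ⬝ᵥ (J0 n).map (Int.cast : ℤ → ℂ) *ᵥ star (q ᵥ* M))).re

/-- the integral over the boundary of `[s, t] × [-R, R]` -/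
def bd (F : ℂ → ℂ) (s t R : ℝ) : ℂ :=
  (∫ x : ℝ in s..t, F (x + (-R : ℝ) * I)) - (∫ x : ℝ in s..t, F (x + R * I)) +
    I * (∫ y : ℝ in (-R)..R, F (t + y * I)) - I * ∫ y : ℝ in (-R)..R, F (s + y * I)

/-- the boundary of `[s, t] × [-R, R]` -/
def fr (s t R : ℝ) : Set ℂ :=
  {z | z.re ∈ Icc s t ∧ z.im ∈ Icc (-R) R ∧ (z.re = s ∨ z.re = t ∨ z.im = -R ∨ z.im = R)}

/-- the square root with `m` cuts to the left and the others to the right -/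
def rt {N : ℕ} (κ : ℂ) (a : Fin N → ℂ) (m : ℕ) (z : ℂ) : ℂ :=
  κ * ∏ j : Fin N, if (j : ℕ) < m then (z - a j) ^ (2⁻¹ : ℂ) else I * (a j - z) ^ (2⁻¹ : ℂ)

/-- Rectangles `[s i, s (i + 1)] × [-R, R]`, `i ≤ n`, primitives `H (i + 1)` near them, the
primitive `H 0 = H (n + 2)` near the outer boundary, and square roots on the edges. -/
structure Geo (p : ℂ[X]) {n : ℕ} (R : ℝ) (s : ℕ → ℝ) (D : ℕ → Set ℂ) (H : ℕ → ℂ → Fin n → ℂ)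
    (ρ : ℕ → ℂ → ℂ) : Prop where
  R0 : 0 ≤ R
  mono : ∀ i ≤ n, s i ≤ s (i + 1)
  prm : ∀ m ≤ n + 2, Prm p (D m) (H m)
  last : H (n + 2) = H 0
  sq : ∀ m z, ρ m z ^ 2 = p.eval z
  ver : ∀ m ≤ n + 1, ∀ y ∈ Icc (-R) R, (s m + y * I : ℂ) ∈ D m ∧ (s m + y * I : ℂ) ∈ D (m + 1) ∧
    ContinuousAt (ρ m) (s m + y * I) ∧ ρ m (s m + y * I) ≠ 0
  hor : ∀ i ≤ n, ∀ x ∈ Icc (s i) (s (i + 1)), ∀ y : ℝ, y = R ∨ y = -R →
    (x + y * I : ℂ) ∈ D (i + 1) ∧ (x + y * I : ℂ) ∈ D 0 ∧ ContinuousAt (ρ 0) (x + y * I) ∧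
      ρ 0 (x + y * I) ≠ 0
  top : ∀ m ≤ n + 1, ρ m (s m + R * I) = ρ 0 (s m + R * I)
  bot : ∀ m ≤ n + 1, ρ m (s m + (-R : ℝ) * I) = (-1) ^ m * ρ 0 (s m + (-R : ℝ) * I)

/-- the primitive at infinity -/
structure Inf (p : ℂ[X]) {n : ℕ} (R : ℝ) (h : ℂ → Fin n → ℂ) : Prop where
  pos : 0 < R
  prm : Prm p {z | R < ‖z‖} h
  ex : ∀ (k : Fin n) (j : ℤ), j + (k : ℕ) + 1 < n →
    ∃ Ψ : ℂ → ℂ, ∀ z, R < ‖z‖ → HasDerivAt Ψ (h z k * z ^ j) z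
  bnd : ∃ C : ℝ, ∀ (k : Fin n) z, R < ‖z‖ → ‖h z k‖ * ‖z‖ ^ n ≤ C * ‖z‖ ^ (k : ℕ)

end

end Pool.Agent.Lib.MP_5591bc_ag.F
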