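import Pool.Agent.Lib.MP_5591bc_ag.F.RbD

/-! Residues at infinity. -/

namespace Pool.Agent.Lib.MP_5591bc_ag.F

open Set Polynomial Complex Matrix

theorem rbE_h {s t R x y : ℝ} (hs : s ≤ t) (hR : 0 ≤ R) (hx : x ∈ uIcc s t) (hy : y = -R ∨ y = R) :
    (x + y * I : ℂ) ∈ fr s t R := by
  rw [uIcc_of_le hs] at hx
  refine ⟨by simpa using hx, ?_, ?_⟩
  · rcases hy with rfl | rfl <;> simp <;> linarith
  · rcases hy with rfl | rfl <;> simp

theorem rbE_v {s t R x y : ℝ} (hs : s ≤ t) (hR : 0 ≤ R) (hy : y ∈ uIcc (-R) R) (hx : x = s ∨ x = t) :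
    (x + y * I : ℂ) ∈ fr s t R := by
  rw [uIcc_of_le (by linarith)] at hy
  refine ⟨?_, by simpa using hy, ?_⟩
  · rcases hx with rfl | rfl <;> simp [hs]
  · rcases hx with rfl | rfl <;> simp

theorem rbE_ih {F : ℂ → ℂ} {s t R y : ℝ} (hs : s ≤ t) (hR : 0 ≤ R) (hF : ContinuousOn F (fr s t R))
    (hy : y = -R ∨ y = R) :
    IntervalIntegrable (fun x : ℝ => F (x + y * I)) MeasureTheory.volume s t :=
  (hF.comp (by fun_prop) fun _ hx => rbE_h hs hR hx hy).intervalIntegrable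

theorem rbE_iv {F : ℂ → ℂ} {s t R x : ℝ} (hs : s ≤ t) (hR : 0 ≤ R) (hF : ContinuousOn F (fr s t R))
    (hx : x = s ∨ x = t) :
    IntervalIntegrable (fun y : ℝ => F (x + y * I)) MeasureTheory.volume (-R) R :=
  (hF.comp (by fun_prop) fun _ hy => rbE_v hs hR hy hx).intervalIntegrable

/-- a horizontal edge -/
theorem rbE_fh {F Ψ : ℂ → ℂ} {s t y : ℝ}
    (hF : IntervalIntegrable (fun x : ℝ => F (x + y * I)) MeasureTheory.volume s t)
    (h : ∀ x ∈ uIcc s t, HasDerivAt Ψ (F (x + y * I)) (x + y * I)) :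
    ∫ x : ℝ in s..t, F (x + y * I) = Ψ (t + y * I) - Ψ (s + y * I) :=
  intervalIntegral.integral_eq_sub_of_hasDerivAt (f := fun x : ℝ => Ψ (x + y * I))
    (fun x hx => ((h x hx).comp_add_const (x : ℂ) (y * I)).comp_ofReal) hF

/-- a vertical edge -/
theorem rbE_fv {F Ψ : ℂ → ℂ} {a b x : ℝ}
    (hF : IntervalIntegrable (fun y : ℝ => F (x + y * I)) MeasureTheory.volume a b)
    (h : ∀ y ∈ uIcc a b, HasDerivAt Ψ (F (x + y * I)) (x + y * I)) :
    I * ∫ y : ℝ in a..b, F (x + y * I) = Ψ (x + b * I) - Ψ (x + a * I) := by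
  rw [← intervalIntegral.integral_const_mul]
  refine intervalIntegral.integral_eq_sub_of_hasDerivAt (f := fun y : ℝ => Ψ (x + y * I))
    (fun y hy => ?_) (hF.const_mul I)
  have h1 : HasDerivAt (fun w : ℂ => (x : ℂ) + w * I) (1 * I) y :=
    ((hasDerivAt_id (y : ℂ)).mul_const I).const_add _
  exact (((h y hy).comp (y : ℂ) h1).comp_ofReal).congr_deriv (by ring)

theorem bd_der {F Ψ : ℂ → ℂ} {s t R : ℝ} (hs : s ≤ t) (hR : 0 ≤ R) (hF : ContinuousOn F (fr s t R))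
    (h : ∀ z ∈ fr s t R, HasDerivAt Ψ (F z) z) : bd F s t R = 0 := by
  rw [bd, rbE_fh (rbE_ih hs hR hF (.inl rfl)) fun x hx => h _ (rbE_h hs hR hx (.inl rfl)),
    rbE_fh (rbE_ih hs hR hF (.inr rfl)) fun x hx => h _ (rbE_h hs hR hx (.inr rfl)),
    rbE_fv (rbE_iv hs hR hF (.inr rfl)) fun y hy => h _ (rbE_v hs hR hy (.inr rfl)),
    rbE_fv (rbE_iv hs hR hF (.inl rfl)) fun y hy => h _ (rbE_v hs hR hy (.inl rfl))]
  ring

theorem rbE_norm {R : ℝ} {z : ℂ} (hz : z ∈ fr (-R) R R) : R ≤ ‖z‖ := by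
  have h1 := abs_le.1 (abs_re_le_norm z)
  have h2 := abs_le.1 (abs_im_le_norm z)
  rcases hz.2.2 with h | h | h | h <;> linarith [h1.1, h1.2, h2.1, h2.2]

theorem rbE_ne {R : ℝ} (hR : 0 < R) {z : ℂ} (hz : z ∈ fr (-R) R R) : z ≠ 0 :=
  norm_pos_iff.1 (hR.trans_le (rbE_norm hz))

theorem rbE_log {w : ℂ} (h : 0 < w.im) : log w - log (-w) = Real.pi * I := by
  rw [log, log, arg_neg_eq_arg_sub_pi_of_im_pos h, norm_neg]
  push_cast
  ring

/-- four integrals of `R / (x ^ 2 + R ^ 2)`, or two branches of the logarithm -/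
theorem bd_inv {R : ℝ} (hR : 0 < R) : bd (fun z => z⁻¹) (-R) R R = 2 * Real.pi * I := by
  have hs : -R ≤ R := by linarith
  have hF : ContinuousOn (fun z : ℂ => z⁻¹) (fr (-R) R R) :=
    continuousOn_id.inv₀ fun z hz => rbE_ne hR hz
  have e1 := rbE_fh (Ψ := log) (rbE_ih hs hR.le hF (.inl rfl)) fun x _ =>
    hasDerivAt_log (.inr (by simp [hR.ne']))
  have e2 := rbE_fh (Ψ := log) (rbE_ih hs hR.le hF (.inr rfl)) fun x _ =>
    hasDerivAt_log (.inr (by simp [hR.ne']))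
  have e3 := rbE_fv (Ψ := log) (rbE_iv hs hR.le hF (.inr rfl)) fun x _ =>
    hasDerivAt_log (.inl (by simp [hR]))
  have e4 := rbE_fv (Ψ := fun z => log (-z)) (rbE_iv hs hR.le hF (.inl rfl)) fun y _ => by
    have h1 : HasDerivAt log (-(((-R : ℝ) : ℂ) + y * I))⁻¹ (-(((-R : ℝ) : ℂ) + y * I)) :=
      hasDerivAt_log (.inl (by simp [hR]))
    exact (h1.comp _ (hasDerivAt_neg' _)).congr_deriv (by rw [inv_neg]; ring)
  have l1 := rbE_log (w := R + R * I) (by simp [hR])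
  have l2 := rbE_log (w := -R + R * I) (by simp [hR])
  rw [bd, e1, e2, e3, e4]
  push_cast
  rw [show (-R + -R * I : ℂ) = -(R + R * I) by ring, show (R + -R * I : ℂ) = -(-R + R * I) by ring,
    neg_neg]
  linear_combination l1 + l2

/-- `Complex.integral_boundary_rect_eq_zero_of_differentiableOn` -/
theorem bd_hol {F : ℂ → ℂ} {s t R : ℝ} (hs : s ≤ t) (hR : 0 ≤ R)
    (h : ∀ z : ℂ, z.re ∈ Icc s t → z.im ∈ Icc (-R) R → DifferentiableAt ℂ F z) :
    bd F s t R = 0 :=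
  integral_boundary_rect_eq_zero_of_differentiableOn F ⟨s, -R⟩ ⟨t, R⟩ fun z hz =>
    (h z (uIcc_of_le hs ▸ hz.1) (uIcc_of_le (show -R ≤ R by linarith) ▸ hz.2)).differentiableWithinAt

theorem bd_le {F : ℂ → ℂ} {R c : ℝ} (hR : 0 ≤ R) (h : ∀ z ∈ fr (-R) R R, ‖F z‖ ≤ c) :
    ‖bd F (-R) R R‖ ≤ 8 * R * c := by
  have hs : -R ≤ R := by linarith
  have e : |R - -R| = 2 * R := by rw [abs_of_nonneg (by linarith)]; ring
  have a1 := fun (y : ℝ) (hy : y = -R ∨ y = R) =>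
    intervalIntegral.norm_integral_le_of_norm_le_const (a := -R) (b := R) (C := c)
      (f := fun x : ℝ => F (x + y * I)) fun x hx => h _ (rbE_h hs hR (uIoc_subset_uIcc hx) hy)
  have a2 := fun (x : ℝ) (hx : x = -R ∨ x = R) =>
    intervalIntegral.norm_integral_le_of_norm_le_const (a := -R) (b := R) (C := c)
      (f := fun y : ℝ => F (x + y * I)) fun y hy => h _ (rbE_v hs hR (uIoc_subset_uIcc hy) hx)
  simp only [e] at a1 a2
  refine (norm_sub_le _ _).trans ((add_le_add ((norm_add_le _ _).trans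
    (add_le_add (norm_sub_le _ _) le_rfl)) le_rfl).trans ?_)
  rw [norm_mul, norm_mul, norm_I]
  linarith [a1 _ (.inl rfl), a1 _ (.inr rfl), a2 _ (.inl rfl), a2 _ (.inr rfl)]

theorem rbE_congr {F G : ℂ → ℂ} {s t R : ℝ} (hs : s ≤ t) (hR : 0 ≤ R)
    (h : ∀ z ∈ fr s t R, F z = G z) : bd F s t R = bd G s t R := by
  rw [bd, bd,
    intervalIntegral.integral_congr (g := fun x : ℝ => G (x + (-R : ℝ) * I))
      fun x hx => h _ (rbE_h hs hR hx (.inl rfl)),
    intervalIntegral.integral_congr (f := fun x : ℝ => F (x + R * I))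
      (g := fun x : ℝ => G (x + R * I)) fun x hx => h _ (rbE_h hs hR hx (.inr rfl)),
    intervalIntegral.integral_congr (f := fun y : ℝ => F (t + y * I))
      (g := fun y : ℝ => G (t + y * I)) fun y hy => h _ (rbE_v hs hR hy (.inr rfl)),
    intervalIntegral.integral_congr (f := fun y : ℝ => F (s + y * I))
      (g := fun y : ℝ => G (s + y * I)) fun y hy => h _ (rbE_v hs hR hy (.inl rfl))]

theorem rbE_mul (c : ℂ) (F : ℂ → ℂ) (s t R : ℝ) :
    bd (fun z => c * F z) s t R = c * bd F s t R := by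
  simp only [bd, intervalIntegral.integral_const_mul]
  ring

theorem rbE_add {F G : ℂ → ℂ} {s t R : ℝ} (hs : s ≤ t) (hR : 0 ≤ R)
    (hF : ContinuousOn F (fr s t R)) (hG : ContinuousOn G (fr s t R)) :
    bd (fun z => F z + G z) s t R = bd F s t R + bd G s t R := by
  rw [bd, bd, bd,
    intervalIntegral.integral_add (rbE_ih hs hR hF (.inl rfl)) (rbE_ih hs hR hG (.inl rfl)),
    intervalIntegral.integral_add (rbE_ih hs hR hF (.inr rfl)) (rbE_ih hs hR hG (.inr rfl)),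
    intervalIntegral.integral_add (rbE_iv hs hR hF (.inr rfl)) (rbE_iv hs hR hG (.inr rfl)),
    intervalIntegral.integral_add (rbE_iv hs hR hF (.inl rfl)) (rbE_iv hs hR hG (.inl rfl))]
  ring

theorem rbE_sum {ι : Type} {F : ι → ℂ → ℂ} {s t R : ℝ} (hs : s ≤ t) (hR : 0 ≤ R) (S : Finset ι)
    (hF : ∀ i, ContinuousOn (F i) (fr s t R)) :
    bd (fun z => ∑ i ∈ S, F i z) s t R = ∑ i ∈ S, bd (F i) s t R := by
  classical
  induction S using Finset.induction_on with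
  | empty => simp [bd]
  | insert a S ha ih =>
    simp only [Finset.sum_insert ha]
    rw [rbE_add hs hR (hF a) (continuousOn_finsetSum _ fun i _ => hF i), ih]

theorem rbE_zpow {R : ℝ} (hR : 0 < R) (m : ℤ) :
    bd (fun z => z ^ m) (-R) R R = if m + 1 = 0 then 2 * Real.pi * I else 0 := by
  split_ifs with h
  · rw [show m = -1 by omega, ← bd_inv hR]
    simp only [_root_.zpow_neg_one]
  · have h' : ((m + 1 : ℤ) : ℂ) ≠ 0 := by exact_mod_cast h
    refine bd_der (Ψ := fun z => z ^ (m + 1) / ((m + 1 : ℤ) : ℂ)) (by linarith) hR.le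
      (continuousOn_id.zpow₀ m fun z hz => .inl (rbE_ne hR hz)) fun z hz => ?_
    refine ((hasDerivAt_zpow (m + 1) z (.inl (rbE_ne hR hz))).div_const _).congr_deriv ?_
    rw [add_sub_cancel_right, mul_div_cancel_left₀ _ h']

theorem rbE_poly {p : ℂ[X]} {n : ℕ} (hp : p.natDegree = n + 1) {z : ℂ} (hz : z ≠ 0) (j : ℤ) :
    ∑ r ∈ Finset.range (n + 2), p.coeff r * (r + 2 * j) * z ^ ((r : ℤ) + j - 1) =
      p.derivative.eval z * z ^ j + 2 * j * p.eval z * z ^ (j - 1) := by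
  rw [derivative_eval, sum_over_range' p (by simp) (n + 2) (by omega), eval_eq_sum_range, hp,
    Finset.mul_sum, Finset.sum_mul, Finset.sum_mul, ← Finset.sum_add_distrib]
  refine Finset.sum_congr rfl fun r _ => ?_
  have e1 : z ^ ((r : ℤ) + j - 1) = z ^ r * z ^ (j - 1) := by
    rw [add_sub_assoc, zpow_add₀ hz, zpow_natCast]
  have e2 : z ^ j = z * z ^ (j - 1) := by rw [zpow_sub_one₀ hz]; field_simp
  rw [e1, e2]
  rcases r with _ | r
  · simp only [Nat.cast_zero, pow_zero]; ring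
  · simp only [Nat.add_sub_cancel, pow_succ]; ring

/-- `m k j = 2 * bd (h z k * z ^ j)`; `bd_der` for `Ψ = p * z ^ j * h`, whose derivative is
`z ^ (k + j) + h * (p' z ^ j / 2 + j p z ^ (j - 1))` -/
theorem Inf.rc {p : ℂ[X]} {n : ℕ} (hp : p.natDegree = n + 1) {R₀ R : ℝ} {h : ℂ → Fin n → ℂ}
    (H : Inf p R₀ h) (hR : R₀ < R) :
    Rec p (.of fun k l : Fin n => 2 * bd (fun z => h z k * z ^ (l : ℕ)) (-R) R R) := by
  have R0 : 0 < R := H.pos.trans hR
  have hs : -R ≤ R := by linarith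
  have m : ∀ z ∈ fr (-R) R R, R₀ < ‖z‖ := fun z hz => hR.trans_le (rbE_norm hz)
  have cz : ∀ j : ℤ, ContinuousOn (fun z : ℂ => z ^ j) (fr (-R) R R) := fun j =>
    continuousOn_id.zpow₀ j fun z hz => .inl (rbE_ne R0 hz)
  have c : ∀ (k : Fin n) (j : ℤ), ContinuousOn (fun z => h z k * z ^ j) (fr (-R) R R) :=
    fun k j => ContinuousOn.mul (fun z hz => by
      obtain ⟨h', d, -⟩ := H.prm z (m z hz) k
      exact d.continuousAt.continuousWithinAt) (cz j)
  refine ⟨fun k j => 2 * bd (fun z => h z k * z ^ j) (-R) R R, fun k j hj => ?_, fun k j => ?_,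
    fun k l => by simp only [of_apply, zpow_natCast]⟩
  · obtain ⟨Ψ, hΨ⟩ := H.ex k j hj
    simp only [bd_der hs R0.le (c k j) fun z hz => hΨ z (m z hz), mul_zero]
  · have cs : ContinuousOn (fun z => ∑ r ∈ Finset.range (n + 2),
        p.coeff r * (r + 2 * j) * (h z k * z ^ ((r : ℤ) + j - 1))) (fr (-R) R R) :=
      continuousOn_finsetSum _ fun r _ => continuousOn_const.mul (c k _)
    have c2 : ContinuousOn (fun z : ℂ => 2 * z ^ (j + (k : ℕ))) (fr (-R) R R) :=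
      continuousOn_const.mul (cz _)
    have e := bd_der (F := fun z => (∑ r ∈ Finset.range (n + 2),
        p.coeff r * (r + 2 * j) * (h z k * z ^ ((r : ℤ) + j - 1))) + 2 * z ^ (j + (k : ℕ)))
      (Ψ := fun z => 2 * (p.eval z * z ^ j * h z k)) hs R0.le (cs.add c2) fun z hz => by
        obtain ⟨h', d, e⟩ := H.prm z (m z hz) k
        have z0 := rbE_ne R0 hz
        refine ((((p.hasDerivAt z).fun_mul (hasDerivAt_zpow j z (.inl z0))).fun_mul d).const_mul
          2).congr_deriv ?_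
        have e1 := rbE_poly hp z0 j
        have e2 : ∑ r ∈ Finset.range (n + 2),
            p.coeff r * (r + 2 * j) * (h z k * z ^ ((r : ℤ) + j - 1)) = h z k *
            ∑ r ∈ Finset.range (n + 2), p.coeff r * (r + 2 * j) * z ^ ((r : ℤ) + j - 1) := by
          rw [Finset.mul_sum]; exact Finset.sum_congr rfl fun r _ => by ring
        rw [e2, e1, zpow_add₀ z0, zpow_natCast, ← e]
        ring
    have e3 := rbE_add hs R0.le cs c2
    have e6 := rbE_sum (F := fun (r : ℕ) z => p.coeff r * (r + 2 * j) * (h z k * z ^ ((r : ℤ) + j - 1)))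
      hs R0.le (Finset.range (n + 2)) fun r => continuousOn_const.mul (c k _)
    rw [e6, rbE_mul, rbE_zpow R0] at e3
    simp only [rbE_mul] at e3
    have e4 := e3.symm.trans e
    have e5 : ∑ r ∈ Finset.range (n + 2), p.coeff r * (r + 2 * j) *
        (2 * bd (fun z => h z k * z ^ ((r : ℤ) + j - 1)) (-R) R R) = 2 *
        ∑ r ∈ Finset.range (n + 2), p.coeff r * (r + 2 * j) *
          bd (fun z => h z k * z ^ ((r : ℤ) + j - 1)) (-R) R R := by
      rw [Finset.mul_sum]; exact Finset.sum_congr rfl fun r _ => by ring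
    rw [e5]
    split_ifs at e4 ⊢
    · linear_combination 2 * e4
    · linear_combination 2 * e4

/-- `‖p z‖` cancels; `k + l + 2 ≤ n` on the support -/
theorem Inf.out {p : ℂ[X]} {n : ℕ} (hn : Even n) {R₀ : ℝ} {h : ℂ → Fin n → ℂ} (H : Inf p R₀ h)
    {q : Fin n → ℂ} (hq : ∀ k : Fin n, n ≤ 2 * (k : ℕ) → q k = 0) :
    ∃ C : ℝ, ∀ R, R₀ < R → 1 ≤ R → ‖bd (fun z => (starRingEnd ℂ) ((q ⬝ᵥ h z) * p.eval z) *
      (∑ l : Fin n, q l * z ^ (l : ℕ)) / (‖p.eval z‖ : ℝ)) (-R) R R‖ ≤ C / R := by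
  obtain ⟨C, hC⟩ := H.bnd
  obtain ⟨g, hg⟩ := hn
  set S := ∑ k, ‖q k‖ with hS
  have S0 : 0 ≤ S := Finset.sum_nonneg fun _ _ => norm_nonneg _
  refine ⟨8 * (S * |C| * S), fun R h0 h1 => (bd_le (c := S * |C| * S / R ^ 2) (by linarith)
    fun z hz => ?_).trans (le_of_eq (by field_simp))⟩
  have hz1 := rbE_norm hz
  have N1 : 1 ≤ ‖z‖ := h1.trans hz1
  have N0 : 0 < ‖z‖ := by linarith
  have a1 : ‖q ⬝ᵥ h z‖ * ‖z‖ ^ (g + 1) ≤ S * |C| := by
    rw [hS, Finset.sum_mul]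
    refine (mul_le_mul_of_nonneg_right (norm_sum_le _ _) (by positivity)).trans ?_
    rw [Finset.sum_mul]
    refine Finset.sum_le_sum fun k _ => ?_
    by_cases hk : n ≤ 2 * (k : ℕ)
    · simp [hq k hk]
    rw [norm_mul, mul_assoc]
    refine mul_le_mul_of_nonneg_left (le_of_mul_le_mul_right ?_ (pow_pos N0 n)) (norm_nonneg _)
    calc _ = ‖h z k‖ * ‖z‖ ^ n * ‖z‖ ^ (g + 1) := by ring
      _ ≤ |C| * ‖z‖ ^ (k : ℕ) * ‖z‖ ^ (g + 1) :=
        mul_le_mul_of_nonneg_right ((hC k z (h0.trans_le hz1)).trans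
          (mul_le_mul_of_nonneg_right (le_abs_self C) (by positivity))) (by positivity)
      _ ≤ _ := by
        rw [mul_assoc, ← pow_add]
        exact mul_le_mul_of_nonneg_left (pow_le_pow_right₀ N1 (by omega)) (abs_nonneg C)
  have a2 : ‖∑ l : Fin n, q l * z ^ (l : ℕ)‖ * ‖z‖ ≤ S * ‖z‖ ^ g := by
    rw [hS, Finset.sum_mul]
    refine (mul_le_mul_of_nonneg_right (norm_sum_le _ _) N0.le).trans ?_
    rw [Finset.sum_mul]
    refine Finset.sum_le_sum fun k _ => ?_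
    by_cases hk : n ≤ 2 * (k : ℕ)
    · simp [hq k hk]
    rw [norm_mul, mul_assoc, norm_pow, ← pow_succ]
    exact mul_le_mul_of_nonneg_left (pow_le_pow_right₀ N1 (by omega)) (norm_nonneg _)
  have a3 := mul_le_mul a1 a2 (by positivity) (by positivity)
  generalize ∑ l : Fin n, q l * z ^ (l : ℕ) = B at a2 a3 ⊢
  generalize q ⬝ᵥ h z = A at a1 a3 ⊢
  have a4 : ‖A‖ * ‖B‖ * ‖z‖ ^ 2 ≤ S * |C| * S :=
    le_of_mul_le_mul_right (by calc _ = ‖A‖ * ‖z‖ ^ (g + 1) * (‖B‖ * ‖z‖) := by ring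
      _ ≤ _ := a3.trans (le_of_eq (by ring))) (pow_pos N0 g)
  have a5 : ‖A‖ * ‖B‖ ≤ S * |C| * S / R ^ 2 := by
    rw [le_div_iff₀ (by positivity)]
    exact (mul_le_mul_of_nonneg_left (pow_le_pow_left₀ (by linarith) hz1 2) (by positivity)).trans a4
  refine le_trans ?_ a5
  rw [norm_div, norm_mul, RCLike.norm_conj, norm_mul, norm_real, norm_norm]
  exact div_le_of_le_mul₀ (norm_nonneg _) (by positivity) (le_of_eq (by ring))

end Pool.Agent.Lib.MP_5591bc_ag.F
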