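import Pool.Agent.Lib.MP_5591bc_ag.F.RbD

/-! Green's formula on a rectangle. -/

namespace Pool.Agent.Lib.MP_5591bc_ag.F

open Set Polynomial Complex Matrix Filter Topology

/-- `F` is real differentiable at `z` and `b` is its derivative in the conjugate variable -/
def DBar (F : ℂ → ℂ) (b z : ℂ) : Prop :=
  ∃ f' : ℂ →L[ℝ] ℂ, HasFDerivAt F f' z ∧ I * f' 1 - f' I = 2 * I * b

theorem DBar.hol {g : ℂ → ℂ} {g' z : ℂ} (h : HasDerivAt g g' z) : DBar g 0 z := by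
  refine ⟨_, h.hasFDerivAt.restrictScalars ℝ, ?_⟩
  simp [mul_comm]

theorem DBar.cj {g : ℂ → ℂ} {g' z : ℂ} (h : HasDerivAt g g' z) :
    DBar (fun w => (starRingEnd ℂ) (g w)) ((starRingEnd ℂ) g') z := by
  refine ⟨_, (conjCLE.toContinuousLinearMap.hasFDerivAt).comp z
    (h.hasFDerivAt.restrictScalars ℝ), ?_⟩
  simp
  ring

theorem DBar.mul {F G : ℂ → ℂ} {a b z : ℂ} (hF : DBar F a z) (hG : DBar G b z) :
    DBar (fun w => F w * G w) (F z * b + G z * a) z := by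
  obtain ⟨f, hf, ef⟩ := hF
  obtain ⟨g, hg, eg⟩ := hG
  refine ⟨_, hf.mul hg, ?_⟩
  simp only [_root_.add_apply, _root_.smul_apply, smul_eq_mul]
  linear_combination F z * eg + G z * ef

theorem DBar.addc {F : ℂ → ℂ} {a z : ℂ} (hF : DBar F a z) (c : ℂ) :
    DBar (fun w => F w + c) a z := by
  obtain ⟨f, hf, ef⟩ := hF
  exact ⟨f, hf.add_const c, ef⟩

theorem DBar.cmp {F φ : ℂ → ℂ} {a φ' z : ℂ} (hφ : HasDerivAt φ φ' (F z)) (hF : DBar F a z) :
    DBar (fun w => φ (F w)) (φ' * a) z := by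
  obtain ⟨f, hf, ef⟩ := hF
  refine ⟨_, hφ.comp_hasFDerivAt z hf, ?_⟩
  simp only [_root_.smul_apply, smul_eq_mul]
  linear_combination φ' * ef

theorem DBar.cont {F : ℂ → ℂ} {a z : ℂ} (hF : DBar F a z) : ContinuousAt F z := by
  obtain ⟨f, hf, _⟩ := hF
  exact hf.continuousAt

theorem rbF_par {X E : Type*} [TopologicalSpace X] [NormedAddCommGroup E] [NormedSpace ℝ E]
    {A : Set X} {F : X → ℝ → E} {a b : ℝ} (hab : a ≤ b)
    (hF : ContinuousOn (fun q : X × ℝ => F q.1 q.2) (A ×ˢ Icc a b)) :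
    ContinuousOn (fun e => ∫ x in a..b, F e x) A := by
  rw [continuousOn_iff_continuous_domRestrict]
  have h1 : Continuous fun q : A × ℝ => F q.1 (projIcc a b hab q.2) :=
    hF.comp_continuous (f := fun q : A × ℝ => ((q.1 : X), (projIcc a b hab q.2 : ℝ)))
      ((continuous_subtype_val.comp continuous_fst).prodMk
        (continuous_subtype_val.comp (continuous_projIcc.comp continuous_snd)))
      fun q => ⟨q.1.2, (projIcc a b hab q.2).2⟩
  have h2 := intervalIntegral.continuous_parametric_intervalIntegral_of_continuous'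
    (μ := MeasureTheory.volume) (f := fun (e : A) (x : ℝ) => F e (projIcc a b hab x)) h1 a b
  refine h2.congr fun e => intervalIntegral.integral_congr fun x hx => ?_
  rw [uIcc_of_le hab] at hx
  simp [projIcc_of_mem hab hx]

/-- the closed rectangle -/
def rbFK (s t R : ℝ) : Set ℂ := {z | z.re ∈ Icc s t ∧ z.im ∈ Icc (-R) R}

theorem rbF_eq {s t R : ℝ} : rbFK s t R = Icc s t ×ℂ Icc (-R) R := rfl

theorem rbF_cpt {s t R : ℝ} : IsCompact (rbFK s t R) := by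
  rw [rbF_eq]
  exact isCompact_Icc.reProdIm isCompact_Icc

theorem rbF_unc {E : Type*} [TopologicalSpace E] {s t R : ℝ} {G : ℂ → E}
    (hG : ContinuousOn G (rbFK s t R)) :
    ContinuousOn (fun q : ℝ × ℝ => G (q.1 + q.2 * I)) (Icc s t ×ˢ Icc (-R) R) :=
  hG.comp (by fun_prop) fun q hq => ⟨by simpa using hq.1, by simpa using hq.2⟩

theorem rbF_in {E : Type*} [NormedAddCommGroup E] {s t R : ℝ} (hR : 0 ≤ R) {G : ℂ → E}
    (hG : ContinuousOn G (rbFK s t R)) {x : ℝ} (hx : x ∈ Icc s t) :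
    IntervalIntegrable (fun y : ℝ => G (x + y * I)) MeasureTheory.volume (-R) R :=
  ContinuousOn.intervalIntegrable_of_Icc (by linarith)
    (hG.comp (by fun_prop) fun y hy => ⟨by simpa using hx, by simpa using hy⟩)

theorem rbF_out {E : Type*} [NormedAddCommGroup E] [NormedSpace ℝ E] {s t R : ℝ} (hs : s ≤ t)
    (hR : 0 ≤ R) {G : ℂ → E} (hG : ContinuousOn G (rbFK s t R)) :
    IntervalIntegrable (fun x : ℝ => ∫ y : ℝ in (-R)..R, G (x + y * I)) MeasureTheory.volume s t :=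
  ContinuousOn.intervalIntegrable_of_Icc hs
    (rbF_par (F := fun x y : ℝ => G (x + y * I)) (by linarith) (rbF_unc hG))

/-- Green's formula -/
theorem rbF_green {F b : ℂ → ℂ} {s t R : ℝ} (hs : s ≤ t) (hR : 0 ≤ R)
    (hF : ∀ z ∈ rbFK s t R, DBar F (b z) z) (hb : ContinuousOn b (rbFK s t R)) :
    bd F s t R = ∫ x : ℝ in s..t, ∫ y : ℝ in (-R)..R, 2 * I * b (x + y * I) := by
  have hR' : -R ≤ R := by linarith
  have e : ∀ z ∈ rbFK s t R, I • fderiv ℝ F z 1 - fderiv ℝ F z I = 2 * I * b z := fun z hz => by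
    obtain ⟨f, hf, ef⟩ := hF z hz
    rw [hf.fderiv, smul_eq_mul, ef]
  have hm : MeasurableSet (rbFK s t R) := rbF_cpt.isClosed.measurableSet
  have key := integral_boundary_rect_of_differentiableOn_real F ⟨s, -R⟩ ⟨t, R⟩
    (by
      simp only [uIcc_of_le hs, uIcc_of_le hR']
      intro z hz
      obtain ⟨f, hf, _⟩ := hF z hz
      exact hf.differentiableAt.differentiableWithinAt)
    (by
      simp only [uIcc_of_le hs, uIcc_of_le hR']
      exact (MeasureTheory.integrableOn_congr_fun e hm).2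
        ((continuousOn_const.mul hb).integrableOn_compact rbF_cpt))
  simp only [smul_eq_mul] at key e
  refine key.trans (intervalIntegral.integral_congr fun x hx =>
    intervalIntegral.integral_congr fun y hy => ?_)
  rw [uIcc_of_le hs] at hx
  rw [uIcc_of_le hR'] at hy
  exact e _ ⟨by simpa using hx, by simpa using hy⟩

theorem rbF_le {F b : ℂ → ℂ} {u : ℂ → ℝ} {s t R c : ℝ} (hs : s ≤ t) (hR : 0 ≤ R)
    (hF : ∀ z ∈ rbFK s t R, DBar F (b z) z) (hb : ContinuousOn b (rbFK s t R))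
    (hu : ContinuousOn u (rbFK s t R)) (h : ∀ z ∈ rbFK s t R, u z - c ≤ (b z).re) :
    2 * (∫ x : ℝ in s..t, ∫ y : ℝ in (-R)..R, u (x + y * I)) - c * (4 * R * (t - s)) ≤
      (bd F s t R).im := by
  have hR' : -R ≤ R := by linarith
  have hb2 : ContinuousOn (fun z => 2 * I * b z) (rbFK s t R) := continuousOn_const.mul hb
  rw [rbF_green hs hR hF hb]
  have e1 := imCLM.intervalIntegral_comp_comm (rbF_out hs hR hb2)
  simp only [imCLM_apply] at e1
  rw [← e1]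
  have e2 : 2 * (∫ x : ℝ in s..t, ∫ y : ℝ in (-R)..R, u (x + y * I)) - c * (4 * R * (t - s)) =
      ∫ x : ℝ in s..t, (2 * (∫ y : ℝ in (-R)..R, u (x + y * I)) - c * (4 * R)) := by
    rw [intervalIntegral.integral_sub ((rbF_out hs hR hu).const_mul 2) (by simp),
      intervalIntegral.integral_const_mul, intervalIntegral.integral_const, smul_eq_mul]
    ring
  rw [e2]
  refine intervalIntegral.integral_mono_on hs (((rbF_out hs hR hu).const_mul 2).sub (by simp))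
    (ContinuousOn.intervalIntegrable_of_Icc hs (continuous_im.comp_continuousOn
      (rbF_par (F := fun x y : ℝ => 2 * I * b (x + y * I)) hR' (rbF_unc hb2)))) fun x hx => ?_
  have e3 := imCLM.intervalIntegral_comp_comm (rbF_in hR hb2 hx)
  simp only [imCLM_apply] at e3
  rw [← e3]
  have e4 : 2 * (∫ y : ℝ in (-R)..R, u (x + y * I)) - c * (4 * R) =
      ∫ y : ℝ in (-R)..R, (2 * u (x + y * I) - 2 * c) := by
    rw [intervalIntegral.integral_sub ((rbF_in hR hu hx).const_mul 2) (by simp),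
      intervalIntegral.integral_const_mul, intervalIntegral.integral_const, smul_eq_mul]
    ring
  rw [e4]
  refine intervalIntegral.integral_mono_on hR' (((rbF_in hR hu hx).const_mul 2).sub (by simp))
    (rbF_in hR (continuous_im.comp_continuousOn hb2) hx) fun y hy => ?_
  have := h (x + y * I) ⟨by simpa using hx, by simpa using hy⟩
  simp only [mul_im, mul_re, re_ofNat, im_ofNat, I_re, I_im]
  linarith

theorem rbF_cont {Φ : ℝ → ℂ → ℂ} {s t R : ℝ} (hs : s ≤ t) (hR : 0 ≤ R)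
    (h : ContinuousOn (fun q : ℝ × ℂ => Φ q.1 q.2) (univ ×ˢ fr s t R)) :
    Continuous fun e => bd (Φ e) s t R := by
  have hR' : -R ≤ R := by linarith
  have hor : ∀ y : ℝ, y = -R ∨ y = R → Continuous fun e => ∫ x : ℝ in s..t, Φ e (x + y * I) := by
    intro y hy
    rw [← continuousOn_univ]
    refine rbF_par (F := fun e (x : ℝ) => Φ e (x + y * I)) hs
      (h.comp (f := fun q : ℝ × ℝ => (q.1, (q.2 + y * I : ℂ))) (by fun_prop) fun q hq =>
        ⟨trivial, by simpa using hq.2, ?_, Or.inr (Or.inr (by simpa using hy))⟩)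
    rcases hy with rfl | rfl <;> simp [hR]
  have ver : ∀ x : ℝ, x = s ∨ x = t →
      Continuous fun e => ∫ y : ℝ in (-R)..R, Φ e (x + y * I) := by
    intro x hx
    rw [← continuousOn_univ]
    refine rbF_par (F := fun e (y : ℝ) => Φ e (x + y * I)) hR'
      (h.comp (f := fun q : ℝ × ℝ => (q.1, (x + q.2 * I : ℂ))) (by fun_prop) fun q hq =>
        ⟨trivial, ?_, by simpa using hq.2, ?_⟩)
    · rcases hx with rfl | rfl <;> simp [hs]
    · rcases hx with rfl | rfl <;> simp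
  exact (((hor _ (Or.inl rfl)).sub (hor _ (Or.inr rfl))).add
    (continuous_const.mul (ver _ (Or.inr rfl)))).sub (continuous_const.mul (ver _ (Or.inl rfl)))

theorem rbF_half {N : ℝ} (hN : 0 < N) : (((N : ℂ) ^ 2) ^ (-2⁻¹ : ℂ) = (N : ℂ)⁻¹) := by
  rw [cpow_neg]
  congr 1
  have := pow_cpow_nat_inv (x := (N : ℂ)) (n := 2) two_ne_zero
    (by rw [arg_ofReal_of_nonneg hN.le]; have := Real.pi_pos; push_cast; linarith)
    (by rw [arg_ofReal_of_nonneg hN.le]; have := Real.pi_pos; push_cast; linarith)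
  simpa using this

theorem rbF_inv {p : ℂ[X]} {ε : ℝ} (hε : 0 < ε) (z : ℂ) :
    DBar (fun w => ((√(‖p.eval w‖ ^ 2 + ε ^ 2) : ℝ) : ℂ)⁻¹)
      (-(p.eval z * (starRingEnd ℂ) (p.derivative.eval z)) /
        (2 * ((√(‖p.eval z‖ ^ 2 + ε ^ 2) : ℝ) : ℂ) ^ 3)) z := by
  have h0 : ∀ w, 0 < √(‖p.eval w‖ ^ 2 + ε ^ 2) := fun w => Real.sqrt_pos.2 (by positivity)
  have h1 : ∀ w, p.eval w * (starRingEnd ℂ) (p.eval w) + (ε : ℂ) ^ 2 =
      ((√(‖p.eval w‖ ^ 2 + ε ^ 2) : ℝ) : ℂ) ^ 2 := fun w => by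
    rw [← ofReal_pow (√_), Real.sq_sqrt (by positivity), mul_conj, normSq_eq_norm_sq]
    push_cast
    ring
  have h2 := ((DBar.hol (p.hasDerivAt z)).mul (DBar.cj (p.hasDerivAt z))).addc ((ε : ℂ) ^ 2)
  have h3 : p.eval z * (starRingEnd ℂ) (p.eval z) + (ε : ℂ) ^ 2 ∈ slitPlane := by
    rw [h1, ← ofReal_pow]
    exact ofReal_mem_slitPlane.2 (pow_pos (h0 z) 2)
  have h4 := DBar.cmp (F := fun w => p.eval w * (starRingEnd ℂ) (p.eval w) + (ε : ℂ) ^ 2)
    (hasStrictDerivAt_cpow_const (c := -2⁻¹) h3).hasDerivAt h2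
  have hz : ((√(‖p.eval z‖ ^ 2 + ε ^ 2) : ℝ) : ℂ) ≠ 0 := ofReal_ne_zero.2 (h0 z).ne'
  simp only [h1] at h4
  rw [cpow_sub _ _ (pow_ne_zero 2 hz), cpow_one] at h4
  simp only [rbF_half (h0 _)] at h4
  convert h4 using 1
  field_simp
  ring

theorem rbF_low {P Q d : ℂ} {ε N C : ℝ} (hε : 0 < ε) (h1 : ε ≤ 1) (hN : 0 < N)
    (hN2 : N ^ 2 = ‖P‖ ^ 2 + ε ^ 2) (hd : ‖d‖ ≤ C) :
    ‖Q‖ ^ 2 / √(‖P‖ ^ 2 + 1) - ε * C ^ 2 ≤
      (Q * ((starRingEnd ℂ) Q / N +
        (ε : ℂ) ^ 2 * (starRingEnd ℂ) (Q - P * d) / (N : ℂ) ^ 3)).re := by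
  have e : Q * ((starRingEnd ℂ) Q / N + (ε : ℂ) ^ 2 * (starRingEnd ℂ) (Q - P * d) / (N : ℂ) ^ 3) =
      ((‖Q‖ ^ 2 / N + ε ^ 2 / N ^ 3 * ‖Q‖ ^ 2 : ℝ) : ℂ) -
        ((ε ^ 2 / N ^ 3 : ℝ) : ℂ) * (Q * (starRingEnd ℂ) (P * d)) := by
    have := mul_conj Q
    rw [normSq_eq_norm_sq] at this
    push_cast at this ⊢
    rw [← this, map_sub]
    ring
  rw [e, sub_re, ofReal_re, re_ofReal_mul]
  have a1 : (Q * (starRingEnd ℂ) (P * d)).re ≤ ‖Q‖ * (‖P‖ * C) := by
    refine (re_le_norm _).trans ?_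
    rw [norm_mul, RCLike.norm_conj, norm_mul]
    gcongr
  have a2 : ‖Q‖ ^ 2 / √(‖P‖ ^ 2 + 1) ≤ ‖Q‖ ^ 2 / N := by
    refine div_le_div_of_nonneg_left (by positivity) hN (Real.le_sqrt_of_sq_le ?_)
    nlinarith
  have a3 : ε ≤ N := by
    refine abs_le_of_sq_le_sq' ?_ hN.le |>.2
    nlinarith [sq_nonneg ‖P‖]
  have a4 : ε ^ 2 / N ^ 3 * ‖P‖ ^ 2 ≤ ε := by
    rw [div_mul_eq_mul_div, div_le_iff₀ (by positivity)]
    have : ε * ‖P‖ ^ 2 ≤ N * N ^ 2 :=
      mul_le_mul a3 (by nlinarith [sq_nonneg ε]) (by positivity) hN.le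
    nlinarith
  have a5 : 0 ≤ ε ^ 2 / N ^ 3 := by positivity
  have a6 : ‖Q‖ * (‖P‖ * C) ≤ ‖Q‖ ^ 2 + ‖P‖ ^ 2 * C ^ 2 := by
    nlinarith [sq_nonneg (‖Q‖ - ‖P‖ * C), sq_nonneg ‖Q‖, sq_nonneg (‖P‖ * C)]
  have a7 := mul_le_mul_of_nonneg_left (a1.trans a6) a5
  have a8 := mul_le_mul_of_nonneg_right a4 (sq_nonneg C)
  nlinarith

/-- `Φ ε = conj (h p) * Q / N`, `N = sqrt (‖p‖ ^ 2 + ε ^ 2)`, is real differentiable on `D`; the
real part of its derivative in the conjugate variable is at least `‖Q‖^2 / N - ε ‖h'‖^2`.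
Let `ε → 0`: `p ≠ 0` on the boundary. -/
theorem gr_pos {p Q : ℂ[X]} {D : Set ℂ} (ho : IsOpen D) {h : ℂ → ℂ}
    (hh : ∀ z ∈ D, ∃ h', HasDerivAt h h' z ∧
      p.eval z * h' + p.derivative.eval z * h z / 2 = Q.eval z)
    {s t R : ℝ} (hs : s ≤ t) (hR : 0 ≤ R)
    (hD : ∀ z : ℂ, z.re ∈ Icc s t → z.im ∈ Icc (-R) R → z ∈ D)
    (hp : ∀ z ∈ fr s t R, p.eval z ≠ 0) :
    2 * ∫ x : ℝ in s..t, ∫ y : ℝ in (-R)..R,
        ‖Q.eval (x + y * I)‖ ^ 2 / √(‖p.eval (x + y * I)‖ ^ 2 + 1) ≤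
      (bd (fun z => (starRingEnd ℂ) (h z * p.eval z) * Q.eval z / (‖p.eval z‖ : ℝ)) s t R).im := by
  have hK : rbFK s t R ⊆ D := fun z hz => hD z hz.1 hz.2
  have hd : DifferentiableOn ℂ h D := fun z hz =>
    (hh z hz).choose_spec.1.differentiableAt.differentiableWithinAt
  have hc : ContinuousOn (deriv h) (rbFK s t R) := ((hd.deriv ho).continuousOn).mono hK
  obtain ⟨C, hC⟩ := rbF_cpt.exists_bound_of_continuousOn hc
  have cp := p.continuous
  have cQ := Q.continuous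
  set Φ : ℝ → ℂ → ℂ := fun ε z => (starRingEnd ℂ) (h z * p.eval z) * Q.eval z *
    ((√(‖p.eval z‖ ^ 2 + ε ^ 2) : ℝ) : ℂ)⁻¹ with hΦ
  set T := 2 * ∫ x : ℝ in s..t, ∫ y : ℝ in (-R)..R,
    ‖Q.eval (x + y * I)‖ ^ 2 / √(‖p.eval (x + y * I)‖ ^ 2 + 1) with hT
  have key : ∀ ε ∈ Ioc (0 : ℝ) 1, T - ε * C ^ 2 * (4 * R * (t - s)) ≤ (bd (Φ ε) s t R).im := by
    intro ε hε
    have h0 : ∀ w, 0 < √(‖p.eval w‖ ^ 2 + ε ^ 2) := fun w =>
      Real.sqrt_pos.2 (by have := hε.1; positivity)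
    have h2 : ∀ w, √(‖p.eval w‖ ^ 2 + ε ^ 2) ^ 2 = ‖p.eval w‖ ^ 2 + ε ^ 2 := fun w =>
      Real.sq_sqrt (by positivity)
    have cN : Continuous fun w => ((√(‖p.eval w‖ ^ 2 + ε ^ 2) : ℝ) : ℂ) := by fun_prop
    have nN : ∀ w, ((√(‖p.eval w‖ ^ 2 + ε ^ 2) : ℝ) : ℂ) ≠ 0 := fun w =>
      ofReal_ne_zero.2 (h0 w).ne'
    refine rbF_le (u := fun z => ‖Q.eval z‖ ^ 2 / √(‖p.eval z‖ ^ 2 + 1))
      (b := fun z => Q.eval z * ((starRingEnd ℂ) (Q.eval z) / (√(‖p.eval z‖ ^ 2 + ε ^ 2) : ℝ) +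
        (ε : ℂ) ^ 2 * (starRingEnd ℂ) (Q.eval z - p.eval z * deriv h z) /
          ((√(‖p.eval z‖ ^ 2 + ε ^ 2) : ℝ) : ℂ) ^ 3)) hs hR (fun z hz => ?_) ?_ ?_
      fun z hz => rbF_low hε.1 hε.2 (h0 z) (h2 z) (hC z hz)
    · obtain ⟨h', d1, d2⟩ := hh z (hK hz)
      have d3 := ((DBar.cj (d1.fun_mul (p.hasDerivAt z))).mul (DBar.hol (Q.hasDerivAt z))).mul
        (rbF_inv (p := p) hε.1 z)
      convert d3 using 1
      have d4 : ((√(‖p.eval z‖ ^ 2 + ε ^ 2) : ℝ) : ℂ) ^ 2 =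
          p.eval z * (starRingEnd ℂ) (p.eval z) + (ε : ℂ) ^ 2 := by
        rw [← ofReal_pow (√_), h2, mul_conj, normSq_eq_norm_sq]
        push_cast
        ring
      have d5 := congrArg (starRingEnd ℂ) d2
      have d6 := nN z
      rw [d1.deriv]
      simp only [map_add, map_mul, map_sub, map_div₀, map_ofNat] at d5 ⊢
      rw [← d5]
      generalize ((√(‖p.eval z‖ ^ 2 + ε ^ 2) : ℝ) : ℂ) = N at d4 d6 ⊢
      field_simp
      linear_combination
        (-(Q.eval z * (starRingEnd ℂ) (h z) * (starRingEnd ℂ) (p.derivative.eval z))) * d4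
    · refine cQ.continuousOn.mul (((continuous_conj.comp cQ).div cN nN).continuousOn.add
        ((continuousOn_const.mul (continuous_conj.comp_continuousOn
          (cQ.continuousOn.sub (cp.continuousOn.mul hc)))).div (cN.pow 3).continuousOn
          fun w _ => pow_ne_zero 3 (nN w)))
    · exact Continuous.continuousOn (Continuous.div (by fun_prop) (by fun_prop) fun w =>
        (Real.sqrt_pos.2 (by positivity)).ne')
  have c1 : Continuous fun e => bd (Φ e) s t R := by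
    refine rbF_cont hs hR (ContinuousOn.mul (ContinuousOn.mul (continuous_conj.comp_continuousOn
      (ContinuousOn.mul (hd.continuousOn.comp continuousOn_snd fun q hq => hD _ hq.2.1 hq.2.2.1)
        (cp.comp continuous_snd).continuousOn)) (cQ.comp continuous_snd).continuousOn)
      (ContinuousOn.inv₀ (by fun_prop) fun q hq => ofReal_ne_zero.2 (Real.sqrt_pos.2 ?_).ne'))
    have := norm_pos_iff.2 (hp _ hq.2)
    positivity
  have c2 : Continuous fun ε : ℝ => T - ε * C ^ 2 * (4 * R * (t - s)) := by fun_prop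
  have l := le_of_tendsto_of_tendsto ((c2.tendsto 0).mono_left (nhdsWithin_le_nhds (s := Ioi 0)))
    (((continuous_im.comp c1).tendsto 0).mono_left nhdsWithin_le_nhds)
    (mem_of_superset (Ioc_mem_nhdsGT one_pos) key)
  simpa [hΦ, div_eq_mul_inv] using l

end Pool.Agent.Lib.MP_5591bc_ag.F
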