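import Pool.Agent.Lib.MP_5591bc_ag.F.RbD

/-! Positive area integrals, and the residues as polynomials. -/

namespace Pool.Agent.Lib.MP_5591bc_ag.F

open Set Polynomial Complex Matrix

theorem ar_nn (p Q : ℂ[X]) {s t R : ℝ} (hs : s ≤ t) (hR : 0 ≤ R) :
    0 ≤ ∫ x : ℝ in s..t, ∫ y : ℝ in (-R)..R,
      ‖Q.eval (x + y * I)‖ ^ 2 / √(‖p.eval (x + y * I)‖ ^ 2 + 1) :=
  intervalIntegral.integral_nonneg hs fun _ _ =>
    intervalIntegral.integral_nonneg (by linarith) fun _ _ => by positivity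

theorem rbg_cont (p Q : ℂ[X]) : Continuous (Function.uncurry fun x y : ℝ =>
    ‖Q.eval (x + y * I)‖ ^ 2 / √(‖p.eval (x + y * I)‖ ^ 2 + 1)) := by
  have h : Continuous fun z : ℝ × ℝ => (z.1 + z.2 * I : ℂ) := by fun_prop
  refine Continuous.div ((Q.continuous.comp h).norm.pow 2)
    (((p.continuous.comp h).norm.pow 2).add continuous_const).sqrt fun z => ?_
  positivity

theorem rbg_ex {Q : ℂ[X]} (Q0 : Q ≠ 0) (x : ℝ) :
    ∃ y ∈ Icc (-1 : ℝ) 1, Q.eval (x + y * I) ≠ 0 := by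
  by_contra h
  push Not at h
  have h1 : ((fun y : ℝ => (x + y * I : ℂ)) '' Icc (-1 : ℝ) 1).Infinite := by
    refine (Set.Icc_infinite (by norm_num)).image fun a _ b _ e => ?_
    simpa using congrArg Complex.im e
  refine Q0 (Polynomial.eq_zero_of_infinite_isRoot _ (h1.mono ?_))
  rintro _ ⟨y, hy, rfl⟩
  exact h y hy

/-- `μ` is the value at `R = 1` -/
theorem ar_pos (p : ℂ[X]) {Q : ℂ[X]} (Q0 : Q ≠ 0) {s t : ℝ} (hs : s < t) :
    ∃ μ : ℝ, 0 < μ ∧ ∀ R : ℝ, 1 ≤ R → μ ≤ ∫ x : ℝ in s..t, ∫ y : ℝ in (-R)..R,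
      ‖Q.eval (x + y * I)‖ ^ 2 / √(‖p.eval (x + y * I)‖ ^ 2 + 1) := by
  have hc := rbg_cont p Q
  have h1 : ∀ x : ℝ, Continuous fun y : ℝ =>
      ‖Q.eval (x + y * I)‖ ^ 2 / √(‖p.eval (x + y * I)‖ ^ 2 + 1) := fun x =>
    hc.comp (Continuous.prodMk_right x)
  have h2 := fun R : ℝ =>
    intervalIntegral.continuous_parametric_intervalIntegral_of_continuous'
      (μ := MeasureTheory.volume) hc (-R) R
  refine ⟨_, intervalIntegral.intervalIntegral_pos_of_pos_on ((h2 1).intervalIntegrable s t)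
    (fun x _ => ?_) hs, fun R hR => intervalIntegral.integral_mono_on hs.le
      ((h2 1).intervalIntegrable s t) ((h2 R).intervalIntegrable s t) fun x _ => ?_⟩
  · obtain ⟨y, hy, h0⟩ := rbg_ex Q0 x
    refine intervalIntegral.integral_pos (by norm_num) (h1 x).continuousOn
      (fun _ _ => by positivity) ⟨y, hy, ?_⟩
    have := norm_pos_iff.2 h0
    positivity
  · exact intervalIntegral.integral_mono_interval (by linarith) (by norm_num) hR
      (Filter.Eventually.of_forall fun _ => by positivity) ((h1 x).intervalIntegrable _ _)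

theorem rbg_step {A : Type*} [CommRing A] [Algebra ℂ A] (f : A[X]) {n : ℕ} (hn : Even n) (L : ℕ) :
    ∃ a : Fin n → ℤ → A, ∀ (φ : A →ₐ[ℂ] ℂ) (m : Fin n → ℤ → ℂ),
      (∀ (k : Fin n) (j : ℤ), j + (k : ℕ) + 1 < n → m k j = 0) →
      (∀ (k : Fin n) (j : ℤ), ∑ r ∈ Finset.range (n + 2), φ (f.coeff r) * (r + 2 * j) *
        m k (r + j - 1) = if j + (k : ℕ) + 1 = 0 then -(8 * Real.pi * I) else 0) →
      ∀ k (j : ℤ), j < L → φ (f.coeff (n + 1)) ^ L * m k j = φ (a k j) := by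
  induction L with
  | zero =>
    refine ⟨0, fun φ m h0 _ k j hj => ?_⟩
    have := k.2
    rw [h0 k j (by omega)]
    simp
  | succ L ih =>
    obtain ⟨a, ha⟩ := ih
    refine ⟨fun k j => if j < L then f.coeff (n + 1) * a k j else
      algebraMap ℂ A (((n + 1 : ℕ) + 2 * ((L - n : ℤ) : ℂ))⁻¹) *
        (f.coeff (n + 1) ^ L * algebraMap ℂ A (if (L - n : ℤ) + (k : ℕ) + 1 = 0 then
          -(8 * Real.pi * I) else 0) - ∑ r ∈ Finset.range (n + 1),
            f.coeff r * algebraMap ℂ A (r + 2 * ((L - n : ℤ) : ℂ)) * a k (r + (L - n) - 1)),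
      fun φ m h0 h1 k j hj => ?_⟩
    have hb := ha φ m h0 h1 k
    by_cases h : j < L
    · simp only [if_pos h, map_mul]
      rw [← hb j h]
      ring
    · obtain rfl : j = (L : ℤ) := by omega
      have h2 : ((n + 1 : ℕ) : ℂ) + 2 * ((L - n : ℤ) : ℂ) ≠ 0 := by
        obtain ⟨c, hc⟩ := hn
        have h3 : ((n + 1 : ℕ) : ℤ) + 2 * (L - n : ℤ) ≠ 0 := by omega
        exact_mod_cast h3
      have h4 := h1 k (L - n)
      rw [Finset.sum_range_succ, show ((n + 1 : ℕ) : ℤ) + (L - n) - 1 = L by omega] at h4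
      simp only [if_neg h, map_mul, map_sub, map_pow, map_sum, AlgHom.commutes,
        Algebra.algebraMap_self, RingHom.id_apply]
      rw [← h4, eq_inv_mul_iff_mul_eq₀ h2, mul_add, Finset.mul_sum, add_sub_right_comm,
        ← Finset.sum_sub_distrib, Finset.sum_eq_zero, zero_add]
      · ring
      · intro r hr
        have := Finset.mem_range.1 hr
        rw [← hb _ (by omega)]
        ring

/-- The term `r = n + 1` has the coefficient `lc * (n + 1 + 2 j) ≠ 0` (`n` is even) and gives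
`m k (n + j)`; induction on `l`. -/
theorem rec_poly {A : Type*} [CommRing A] [Algebra ℂ A] (f : A[X]) {n : ℕ} (hn : Even n) :
    ∃ (N : ℕ) (L : Matrix (Fin n) (Fin n) A), ∀ (φ : A →ₐ[ℂ] ℂ) (Λ : Matrix (Fin n) (Fin n) ℂ),
      Rec (f.map (φ : A →+* ℂ)) Λ → φ (f.coeff (n + 1)) ^ N • Λ = L.map φ := by
  obtain ⟨a, ha⟩ := rbg_step f hn n
  refine ⟨n, .of fun k l => a k (l : ℕ), fun φ Λ ⟨m, h0, h1, h2⟩ => ?_⟩
  ext k l
  have := l.2
  rw [Matrix.smul_apply, smul_eq_mul, h2, Matrix.map_apply, Matrix.of_apply]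
  exact ha φ m h0 (fun k j => by simpa only [coeff_map, RingHom.coe_coe] using h1 k j) k _
    (by omega)

end Pool.Agent.Lib.MP_5591bc_ag.F
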