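import Pool.Agent.Lib.MP_5591bc_ag.F.Lat
import Pool.Agent.Lib.MP_5591bc_ag.F.RbD

/-! Integrality, and change of the variable. -/

namespace Pool.Agent.Lib.MP_5591bc_ag.F

open Set Polynomial Complex Matrix

variable {p : ℂ[X]} {n : ℕ}

theorem Lp.neg {g : ℂ → ℂ} {v : Fin n → ℂ} (h : Lp g v) : Lp g (-v) := by
  obtain ⟨x, y, hx, x01, hy, y01, hc, hv⟩ := h
  refine ⟨x, fun u => -y u, hx, x01, hy.neg, congrArg Neg.neg y01, fun u hu =>
    ⟨neg_ne_zero.2 (hc u hu).1, by rw [neg_sq, (hc u hu).2]⟩, fun i => ?_⟩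
  simp only [Pi.neg_apply, hv i, div_neg, intervalIntegral.integral_neg]

/-- as `lp_mem`, with `D u = (∫ 0..u) - y u • h i (x u) + o i` -/
theorem lp_mem2 {ι : Type*} {S : ι → Set ℂ} (ho : ∀ i, IsOpen (S i)) (hS : ∀ z, ∃ i, z ∈ S i)
    {h : ι → ℂ → Fin n → ℂ} (hh : ∀ i, Prm p (S i) (h i)) (L : AddSubgroup (Fin n → ℂ))
    (o : ι → Fin n → ℂ) (hL : ∀ i j z y, z ∈ S i → z ∈ S j → y ≠ 0 → y ^ 2 = p.eval z →
      y • (h i z - h j z) - (o i - o j) ∈ L) {v : Fin n → ℂ} (hv : Lp p.eval v) : v ∈ L := by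
  obtain ⟨x, y, hx, x01, hy, y01, hc, hv⟩ := hv
  choose i hi using hS
  let D : ℝ → Fin n → ℂ := fun u =>
    (fun k : Fin n => ∫ t in (0 : ℝ)..u, x t ^ (k : ℕ) * deriv x t / y t) -
      y u • h (i (x u)) (x u) + o (i (x u))
  have sub : ∀ a ∈ Icc (0 : ℝ) 1, ∀ b ∈ Icc (0 : ℝ) 1, uIcc a b ⊆ Icc (0 : ℝ) 1 :=
    fun a ha b hb => uIcc_subset_Icc ha hb
  have z0 : (0 : ℝ) ∈ Icc (0 : ℝ) 1 := left_mem_Icc.2 zero_le_one
  have key : D 1 - D 0 ∈ L := by
    refine isPreconnected_Icc.induction₂ (fun a b => D b - D a ∈ L) (fun a ha => ?_)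
      (fun a b c _ _ _ h1 h2 => by simpa using L.add_mem h2 h1)
      (fun a b _ _ h1 => by simpa using L.neg_mem h1) z0 (right_mem_Icc.2 zero_le_one)
    obtain ⟨ε, hε, hb⟩ := Metric.mem_nhds_iff.1
      (hx.continuous.continuousAt.preimage_mem_nhds ((ho _).mem_nhds (hi (x a))))
    filter_upwards [self_mem_nhdsWithin, mem_nhdsWithin_of_mem_nhds (Metric.ball_mem_nhds a hε)]
      with b hb1 hb2
    have s1 : uIcc a b ⊆ Metric.ball a ε :=
      (convex_ball a ε).ordConnected.uIcc_subset (Metric.mem_ball_self hε) hb2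
    have e : D b - D a = y b • (h (i (x a)) (x b) - h (i (x b)) (x b)) -
        (o (i (x a)) - o (i (x b))) := by
      funext k
      have e1 := prm_arc' (hh (i (x a))) hx (hy.mono (sub a ha b hb1))
        (fun u hu => ⟨hb (s1 hu), hc u (sub a ha b hb1 hu)⟩) k
      have e2 := intervalIntegral.integral_interval_sub_left
        (arc_int hx (hy.mono (sub 0 z0 b hb1)) (fun u hu => (hc u (sub 0 z0 b hb1 hu)).1) k)
        (arc_int hx (hy.mono (sub 0 z0 a ha)) (fun u hu => (hc u (sub 0 z0 a ha hu)).1) k)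
      simp only [D, Pi.add_apply, Pi.sub_apply, Pi.smul_apply, smul_eq_mul]
      linear_combination e1 + e2
    rw [e]
    exact hL _ _ _ _ (hb hb2) (hi _) (hc b hb1).1 (hc b hb1).2
  have e : D 1 - D 0 = v := by
    funext k
    simp only [D, Pi.add_apply, Pi.sub_apply, Pi.smul_apply, smul_eq_mul,
      intervalIntegral.integral_same]
    rw [hv k, x01, y01]
    ring
  exact e ▸ key

theorem rbi_scale {g g' : ℂ → ℂ} (κ : ℂ) (e : ∀ z, g' (κ * z) = g z) {v : Fin n → ℂ}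
    (h : Lp g v) : Lp g' fun i : Fin n => κ ^ ((i : ℕ) + 1) * v i := by
  obtain ⟨x, y, hx, x01, hy, y01, hc, hv⟩ := h
  refine ⟨fun u => κ * x u, y, contDiff_const.mul hx, congrArg (κ * ·) x01, hy, y01, fun u hu =>
    ⟨(hc u hu).1, by rw [e, (hc u hu).2]⟩, fun i => ?_⟩
  beta_reduce
  rw [hv i, ← intervalIntegral.integral_const_mul]
  refine intervalIntegral.integral_congr fun u _ => ?_
  simp only [deriv_const_mul_field']
  ring

/-- `x = κ z`: a loop `(z, y)` for `p.comp (C κ * X)` gives the loop `(κ z, y)` for `p`; in `Rec`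
take `κ ^ (k + j + 2) * m k j` -/
theorem RB.scale {κ : ℂ} (κ0 : κ ≠ 0) {M : Matrix (Fin n) (Fin n) ℂ}
    (h : RB (p.comp (C κ * X)) M) : RB p (diagonal (fun k : Fin n => κ ^ ((k : ℕ) + 1)) * M) := by
  have ev : ∀ z, p.eval (κ * z) = (p.comp (C κ * X)).eval z := fun z => by
    rw [eval_comp, eval_mul, eval_C, eval_X]
  refine ⟨?_, fun j => ?_, fun v hv => ?_, ?_, fun q q0 hq => ?_⟩
  · rw [det_mul, det_diagonal]
    exact mul_ne_zero (Finset.prod_ne_zero_iff.2 fun k _ => pow_ne_zero _ κ0) h.det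
  · simp only [diagonal_mul]
    exact rbi_scale κ ev (h.col j)
  · obtain ⟨γ, hγ⟩ := h.int _ (rbi_scale (g' := (p.comp (C κ * X)).eval) κ⁻¹
      (fun z => by rw [← ev, mul_inv_cancel_left₀ κ0]) hv)
    refine ⟨γ, funext fun k => ?_⟩
    rw [← mulVec_mulVec, ← hγ, mulVec_diagonal, ← mul_assoc, ← mul_pow, mul_inv_cancel₀ κ0,
      one_pow, one_mul]
  · obtain ⟨m, h1, h2, h3⟩ := h.rc
    refine ⟨fun k j => κ ^ (j + (k : ℕ) + 2) * m k j, fun k j l =>
      mul_eq_zero_of_right _ (h1 k j l),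
      fun k j => ?_, fun k l => ?_⟩ <;> beta_reduce
    · have e : ∑ r ∈ Finset.range (n + 2), p.coeff r * (r + 2 * j) *
          (κ ^ ((r + j - 1 : ℤ) + (k : ℕ) + 2) * m k (r + j - 1)) = κ ^ (j + (k : ℕ) + 1) *
          ∑ r ∈ Finset.range (n + 2), (p.comp (C κ * X)).coeff r * (r + 2 * j) *
            m k (r + j - 1) := by
        rw [Finset.mul_sum]
        refine Finset.sum_congr rfl fun r _ => ?_
        rw [comp_C_mul_X_coeff, show (r + j - 1 : ℤ) + (k : ℕ) + 2 = (j + (k : ℕ) + 1) + (r : ℕ) by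
          ring, zpow_add₀ κ0, zpow_natCast]
        ring
      rw [e, h2]
      split_ifs with c
      · rw [c, zpow_zero, one_mul]
      · rw [mul_zero]
    · rw [transpose_mul, diagonal_transpose, Matrix.mul_assoc, Matrix.mul_assoc, diagonal_mul,
        ← Matrix.mul_assoc, ← Matrix.mul_assoc, mul_diagonal, h3,
        show ((l : ℕ) : ℤ) + (k : ℕ) + 2 = (((k : ℕ) + 1 + ((l : ℕ) + 1) : ℕ) : ℤ) by
          push_cast; ring, zpow_natCast]
      ring
  · rw [← vecMul_vecMul]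
    refine h.pos _ (fun e => q0 (funext fun k => ?_)) fun k l => by
      rw [vecMul_diagonal, hq k l, zero_mul]
    have := congrFun e k
    rw [vecMul_diagonal] at this
    exact (mul_eq_zero.1 this).resolve_right (pow_ne_zero _ κ0)

end Pool.Agent.Lib.MP_5591bc_ag.F
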