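import Pool.Agent.Lib.MP_5591bc_ag.F.RbI

/-! The chain of cycles is a basis of the lattice of periods. -/

namespace Pool.Agent.Lib.MP_5591bc_ag.F

open Set Polynomial Filter Topology Matrix

variable {n : ℕ} {ζ c : ℂ} {a : Fin (n + 1) → ℂ} {p : ℂ[X]}

theorem strip_mem (ha : StrictMono fun j => (ζ * a j).re) (i : Fin (n + 1)) :
    a i ∈ strip ζ a i i := fun _ => ⟨fun e => ha e, fun e => ha e⟩

theorem strip_mid (ha : StrictMono fun j => (ζ * a j).re) (i : Fin n) :
    (a i.castSucc + a i.succ) / 2 ∈ strip ζ a i.castSucc i.castSucc ∧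
      (a i.castSucc + a i.succ) / 2 ∈ strip ζ a i.succ i.succ := by
  have e : (ζ * ((a i.castSucc + a i.succ) / 2)).re =
      ((ζ * a i.castSucc).re + (ζ * a i.succ).re) / 2 := by
    rw [← mul_div_assoc, mul_add, Complex.div_ofNat_re, Complex.add_re]
  have l := ha (Fin.castSucc_lt_succ (i := i))
  refine ⟨fun j => ⟨fun e' => ?_, fun e' => ?_⟩, fun j => ⟨fun e' => ?_, fun e' => ?_⟩⟩ <;> rw [e]
  · linarith [ha e']
  · linarith [ha.monotone (Fin.castSucc_lt_iff_succ_le.1 e')]
  · linarith [ha.monotone (Fin.le_castSucc_iff.2 e')]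
  · linarith [ha e']

theorem strip_prm (ha : StrictMono fun j => (ζ * a j).re) (c0 : c ≠ 0)
    (hp : p = C c * ∏ j, (X - C (a j))) (i : Fin (n + 1)) :
    ∃ h : ℂ → Fin n → ℂ, Prm p (strip ζ a i i) h := by
  classical
  obtain ⟨ρ, hρ⟩ := strip_rt (ζ := ζ) (a := a) c0 (J := Finset.univ.erase i)
    (fun j hj => lt_or_gt_of_ne (Finset.mem_erase.1 hj).1) subset_rfl
  rw [hp, ← Finset.mul_prod_erase _ _ (Finset.mem_univ i), mul_left_comm]
  exact prm_ex (strip_open i i) (strip_cvx i i) (strip_mem ha i) hρ n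

theorem Prm.dot {S : Set ℂ} {h : ℂ → Fin n → ℂ} (hh : Prm p S h) (q : Fin n → ℂ) {z : ℂ}
    (hz : z ∈ S) : ∃ H', HasDerivAt (fun z => q ⬝ᵥ h z) H' z ∧ p.eval z * H' +
      p.derivative.eval z * (q ⬝ᵥ h z) / 2 = (∑ k : Fin n, C (q k) * X ^ (k : ℕ)).eval z := by
  choose g g1 g2 using hh z hz
  refine ⟨∑ k, q k * g k, HasDerivAt.fun_sum fun k _ => (g1 k).const_mul (q k), ?_⟩
  simp only [eval_finsetSum, eval_mul, eval_C, eval_pow, eval_X, ← g2, dotProduct,
    Finset.mul_sum, Finset.sum_div, ← Finset.sum_add_distrib]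
  exact Finset.sum_congr rfl fun k _ => by ring

theorem sum_ne {q : Fin n → ℂ} (q0 : q ≠ 0) : ∑ k : Fin n, C (q k) * X ^ (k : ℕ) ≠ 0 := fun e => by
  refine q0 (funext fun k => ?_)
  have := congrArg (coeff · (k : ℕ)) e
  simpa [Fin.val_inj] using this

theorem lat_w (ha : StrictMono fun j => (ζ * a j).re) (c0 : c ≠ 0)
    (hp : p = C c * ∏ j, (X - C (a j))) {h : Fin (n + 1) → ℂ → Fin n → ℂ}
    (hh : ∀ i, Prm p (strip ζ a i i) (h i)) {η : Fin n → ℂ}
    (y1 : ∀ i, η i ^ 2 = p.eval ((a i.castSucc + a i.succ) / 2)) {w : Fin n → Fin n → ℂ}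
    (hw : ∀ i, w i = η i • (h i.castSucc ((a i.castSucc + a i.succ) / 2) -
      h i.succ ((a i.castSucc + a i.succ) / 2))) :
    (of fun k i => 2 * w i k).det ≠ 0 ∧ (∀ j, Lp p.eval fun k => 2 * w j k) ∧
      ∀ v, Lp p.eval v → ∃ γ : Fin n → ℤ, v = (of fun k i => 2 * w i k) *ᵥ fun j => (γ j : ℂ) := by
  classical
  have lt : ∀ i : Fin n, i.castSucc < i.succ := fun i => Fin.castSucc_lt_succ
  have mid := strip_mid ha
  have k : ∀ i j z, i < j → z ∈ strip ζ a i i → z ∈ strip ζ a j j → p.eval z ≠ 0 ∧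
      ∃ l : Fin n, i = l.castSucc ∧ j = l.succ ∧ ∀ y, y ^ 2 = p.eval z →
        y • (h i z - h j z) = w l ∨ y • (h i z - h j z) = -w l := fun i j z l zi zj => by
    obtain ⟨i, rfl⟩ := Fin.exists_castSucc_eq.2 (Fin.ne_last_of_lt l)
    obtain rfl : i.succ = j := (Fin.castSucc_lt_iff_succ_le.1 l).eq_of_not_lt fun l' =>
      lt_asymm ((zi _).2 (lt i)) ((zj _).1 l')
    obtain ⟨ρ, hρ⟩ := strip_rt (ζ := ζ) (a := a) c0 (i := i.succ) (k := i.castSucc)
      (J := Finset.univ) (S := strip ζ a i.castSucc i.castSucc ∩ strip ζ a i.succ i.succ)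
      (fun j _ => (le_or_gt j i.castSucc).imp_left Fin.le_castSucc_iff.1)
      fun z hz j => ⟨(hz.2 j).1, (hz.1 j).2⟩
    rw [← hp] at hρ
    refine ⟨(hρ z ⟨zi, zj⟩).2.2 ▸ pow_ne_zero 2 (hρ z ⟨zi, zj⟩).2.1, i, rfl, rfl, fun y e => ?_⟩
    rw [hw]
    exact prm_pm ((strip_open _ _).inter (strip_open _ _))
      ((strip_cvx _ _).inter (strip_cvx _ _)).isPreconnected
      (fun z hz => hh i.castSucc z hz.1) (fun z hz => hh i.succ z hz.2) hρ ⟨zi, zj⟩ (mid i) e (y1 i)
  refine ⟨fun e => ?_, fun i => ?_, fun v hv => ?_⟩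
  · obtain ⟨q, q0, hq⟩ := Matrix.exists_vecMul_eq_zero_iff.2 e
    choose ι hι using strip_cov a ha
    have k4 : ∀ i j z, z ∈ strip ζ a i i → z ∈ strip ζ a j j → q ⬝ᵥ h i z = q ⬝ᵥ h j z := by
      have k' : ∀ i j z, i < j → z ∈ strip ζ a i i → z ∈ strip ζ a j j →
          q ⬝ᵥ h i z = q ⬝ᵥ h j z := fun i j z l zi zj => by
        obtain ⟨y, e⟩ := IsAlgClosed.exists_pow_nat_eq (p.eval z) two_pos
        obtain ⟨p0, l, -, -, hl⟩ := k i j z l zi zj
        have y0 : y ≠ 0 := by
          rintro rfl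
          exact p0 (by rw [← e, zero_pow two_ne_zero])
        have e0 : q ⬝ᵥ w l = 0 := by
          have := congrFun hq l
          simp only [Matrix.vecMul, dotProduct, Matrix.of_apply, mul_left_comm _ (2 : ℂ),
            ← Finset.mul_sum, Pi.zero_apply] at this
          exact (mul_eq_zero.1 this).resolve_left two_ne_zero
        rcases hl y e with e' | e' <;>
          simpa [y0, sub_eq_zero, e0] using congrArg (q ⬝ᵥ ·) e'
      intro i j z zi zj
      rcases lt_trichotomy i j with l | rfl | l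
      exacts [k' i j z l zi zj, rfl, (k' j i z l zj zi).symm]
    have k5 : ∀ z, ∃ H', HasDerivAt (fun z => q ⬝ᵥ h (ι z) z) H' z ∧ p.eval z * H' +
        p.derivative.eval z * (q ⬝ᵥ h (ι z) z) / 2 = (∑ k : Fin n, C (q k) * X ^ (k : ℕ)).eval z :=
      fun z => by
        obtain ⟨g, g1, g2⟩ := (hh (ι z)).dot q (hι z)
        exact ⟨g, g1.congr_of_eventuallyEq (mem_of_superset
          ((strip_open _ _).mem_nhds (hι z)) fun x hx => k4 _ _ x (hι x) hx), g2⟩
    choose g g1 g2 using k5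
    have k6 := ent_zero (p := p) (n := n) (by
      rw [hp, natDegree_C_mul c0, natDegree_prod_of_monic _ _ fun _ _ => monic_X_sub_C _]
      simp) (degree_sum_fin_lt q) (fun z => (g1 z).differentiableAt)
      fun z => by rw [(g1 z).deriv, g2]
    refine sum_ne q0 (Polynomial.funext fun z => ?_)
    have := (g1 z).unique ((funext k6 : _ = fun _ => (0 : ℂ)) ▸ hasDerivAt_const z 0)
    rw [← g2, this, k6]
    simp
  · have e : p = (X - C (a i.castSucc)) * (X - C (a i.succ)) *
        (C c * ∏ j ∈ (Finset.univ.erase i.castSucc).erase i.succ, (X - C (a j))) := by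
      rw [hp, ← Finset.mul_prod_erase _ _ (Finset.mem_univ i.castSucc), ← Finset.mul_prod_erase _ _
        (Finset.mem_erase.2 ⟨(lt i).ne', Finset.mem_univ i.succ⟩)]
      ring
    obtain ⟨ρ, hρ⟩ := strip_rt (ζ := ζ) (a := a) c0 (i := i.castSucc) (k := i.succ)
      (J := (Finset.univ.erase i.castSucc).erase i.succ)
      (S := strip ζ a i.castSucc i.castSucc ∪ strip ζ a i.succ i.succ) (fun j hj => by
        have h1 := Fin.val_ne_of_ne (Finset.mem_erase.1 hj).1
        have h2 := Fin.val_ne_of_ne (Finset.mem_erase.1 (Finset.mem_erase.1 hj).2).1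
        simp only [Fin.lt_def, Fin.val_succ, Fin.val_castSucc] at h1 h2 ⊢
        omega) (by
        rintro z (hz | hz) j
        · exact ⟨(hz j).1, fun e' => (hz j).2 ((lt i).trans e')⟩
        · exact ⟨fun e' => (hz j).1 (e'.trans (lt i)), (hz j).2⟩)
    obtain ⟨y, -, y2, y3⟩ := lp_jou (fun e' => (ha (lt i)).ne (by simp only [e']))
      (strip_open _ _) (strip_open _ _)
      ((strip_cvx _ _).segment_subset (strip_mem ha _) (mid i).1)
      ((strip_cvx _ _).segment_subset (mid i).2 (strip_mem ha _)) hρ (e ▸ hh i.castSucc)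
      (e ▸ hh i.succ)
    rw [← e] at y2 y3
    rcases sq_eq_sq_iff_eq_or_eq_neg.1 (y2.trans (y1 i).symm) with rfl | rfl
    · convert y3 using 1
      funext k
      rw [hw, mul_smul]
      rfl
    · convert y3.neg using 1
      funext k
      simp [hw, mul_assoc]
  · obtain ⟨o, ho⟩ : ∃ o : Fin (n + 1) → Fin n → ℂ, ∀ i,
        o i = -∑ l : Fin n, if l.1 < i.1 then w l else 0 := ⟨_, fun _ => rfl⟩
    have k3 : ∀ i j z y, i < j → z ∈ strip ζ a i i → z ∈ strip ζ a j j → y ^ 2 = p.eval z →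
        y • (h i z - h j z) - (o i - o j) ∈
          Submodule.span ℤ (range fun l => (2 : ℂ) • w l) := fun i j z y l zi zj e => by
      obtain ⟨-, m, rfl, rfl, hl⟩ := k i j z l zi zj
      have e1 : o m.castSucc - o m.succ = w m := by
        rw [ho, ho, neg_sub_neg, ← Finset.sum_sub_distrib, Finset.sum_eq_single m (fun b _ hb => by
          have := Fin.val_ne_of_ne hb
          rw [sub_eq_zero]
          exact if_congr (by simp only [Fin.val_succ, Fin.val_castSucc]; omega) rfl rfl) (by simp)]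
        simp
      rw [e1]
      rcases hl y e with e' | e' <;> rw [e']
      · rw [sub_self]; exact Submodule.zero_mem _
      · rw [← neg_add', ← two_smul ℂ]
        exact Submodule.neg_mem _ (Submodule.subset_span (mem_range_self m))
    obtain ⟨γ, hγ⟩ := (Submodule.mem_span_range_iff_exists_fun ℤ).1
      (lp_mem2 (fun i => strip_open i i) (strip_cov a ha) hh
        (Submodule.span ℤ (range fun l => (2 : ℂ) • w l)).toAddSubgroup o
        (fun i j z y zi zj _ e => by
          rcases lt_trichotomy i j with l | rfl | l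
          · exact k3 i j z y l zi zj e
          · simp
          · rw [← neg_sub (h j z), smul_neg, ← neg_sub (o j), ← neg_sub']
            exact Submodule.neg_mem _ (k3 j i z y l zj zi e)) hv)
    refine ⟨γ, funext fun k => ?_⟩
    rw [← hγ, Finset.sum_apply]
    refine Finset.sum_congr rfl fun j _ => ?_
    simp [mul_comm]

end Pool.Agent.Lib.MP_5591bc_ag.F
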