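import Pool.Agent.Lib.MP_5591bc_ag.F.RbL
import Pool.Agent.Lib.MP_5591bc_ag.F.RbA
import Pool.Agent.Lib.MP_5591bc_ag.F.RbB
import Pool.Agent.Lib.MP_5591bc_ag.F.RbC
import Pool.Agent.Lib.MP_5591bc_ag.F.RbE
import Pool.Agent.Lib.MP_5591bc_ag.F.RbF
import Pool.Agent.Lib.MP_5591bc_ag.F.RbG

/-! Riemann's bilinear relations for `y ^ 2 = p(x)`. -/

namespace Pool.Agent.Lib.MP_5591bc_ag.F

open Set Polynomial Complex Matrix Filter Topology

noncomputable section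

/-- `x₀, x 0, ..., x n, x₀, x₀, ...` -/
def pad {α : Type*} {n : ℕ} (x₀ : α) (x : Fin n → α) (m : ℕ) : α :=
  if h : m ≠ 0 ∧ m - 1 < n then x ⟨m - 1, h.2⟩ else x₀

theorem pad_succ {α : Type*} {n : ℕ} (x₀ : α) (x : Fin n → α) {m : ℕ} (h : m < n) :
    pad x₀ x (m + 1) = x ⟨m, h⟩ := dif_pos ⟨m.succ_ne_zero, h⟩

theorem pad_zero {α : Type*} {n : ℕ} (x₀ : α) (x : Fin n → α) : pad x₀ x 0 = x₀ :=
  dif_neg fun h => h.1 rfl

theorem pad_last {α : Type*} {n : ℕ} (x₀ : α) (x : Fin n → α) : pad x₀ x (n + 1) = x₀ :=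
  dif_neg fun h => lt_irrefl n h.2

variable {n : ℕ} {p : ℂ[X]} {a : Fin (n + 1) → ℂ} {κ : ℂ} {R₀ R : ℝ} {s : ℕ → ℝ}

theorem strip_rect (K : ∀ m ≤ n + 1, ∀ j : Fin (n + 1),
      ((j : ℕ) < m → (a j).re < s m) ∧ (m ≤ (j : ℕ) → s m < (a j).re))
    (i : Fin (n + 1)) {z : ℂ} (hz : z.re ∈ Icc (s i) (s (i + 1))) : z ∈ strip 1 a i i := fun j => by
  simp only [one_mul]
  exact ⟨fun h => ((K i i.2.le j).1 h).trans_le hz.1, fun h => hz.2.trans_lt ((K _ i.2 j).2 h)⟩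

theorem geo_mk (κ0 : κ ≠ 0) (hp : p = C (κ ^ 2) * ∏ j, (X - C (a j)))
    {h : Fin (n + 1) → ℂ → Fin n → ℂ} (hh : ∀ i, Prm p (strip 1 a i i) (h i))
    {h₀ : ℂ → Fin n → ℂ} (h0 : Inf p R₀ h₀) (hR : R₀ < R) (ha : ∀ j, |(a j).im| < R)
    (s0 : s 0 = -R) (s1 : s (n + 1) = R) (K : ∀ m ≤ n + 1, ∀ j : Fin (n + 1),
      ((j : ℕ) < m → (a j).re < s m) ∧ (m ≤ (j : ℕ) → s m < (a j).re)) :
    Geo p R s (pad {z | R₀ < ‖z‖} fun i => strip 1 a i i) (pad h₀ h) (rt κ a) := by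
  have R0 := (h0.pos.trans hR).le
  have mono : ∀ i ≤ n, s i ≤ s (i + 1) := fun i hi =>
    (((K i (by omega) ⟨i, by omega⟩).2 le_rfl).trans
      ((K (i + 1) (by omega) ⟨i, by omega⟩).1 i.lt_succ_self)).le
  have e1 : ∀ {z : ℂ}, |z.re| = R → R₀ < ‖z‖ := fun e => hR.trans_le (e ▸ abs_re_le_norm _)
  refine ⟨R0, mono, fun m hm => ?_, (pad_last _ _).trans (pad_zero _ _).symm,
    fun m z => hp ▸ rt_sq κ a m z, fun m hm y _ => ⟨?_, ?_, ?_⟩, fun i hi x hx y hy => ⟨?_, ?_, ?_⟩,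
    fun m _ => rt_top fun j => by simpa using (abs_lt.1 (ha j)).2,
    fun m hm => rt_bot (fun j => by simpa using (abs_lt.1 (ha j)).1) hm⟩
  · unfold pad
    split_ifs
    exacts [hh _, h0.prm]
  · rcases m with _ | m
    · rw [pad_zero]
      exact e1 (by simp [s0, abs_of_nonneg R0])
    · rw [pad_succ _ _ hm]
      exact strip_rect K _ (by simpa using mono m (by omega))
  · rcases hm.eq_or_lt with rfl | hm
    · rw [pad_last]
      exact e1 (by simp [s1, abs_of_nonneg R0])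
    · rw [pad_succ _ _ hm]
      exact strip_rect K _ (by simpa using mono m (by omega))
  · exact (rt_diff κ0 fun j => .inr (by simpa using K m hm j)).imp_left (·.continuousAt)
  · rw [pad_succ _ _ (Nat.lt_succ_of_le hi)]
    exact strip_rect K _ (by simpa using hx)
  · rw [pad_zero]
    refine hR.trans_le (le_trans ?_ (abs_im_le_norm _))
    rcases hy with rfl | rfl <;> simp [abs_of_nonneg R0]
  · refine (rt_diff κ0 fun j => .inl ?_).imp_left (·.continuousAt)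
    have := abs_lt.1 (ha j)
    rcases hy with rfl | rfl <;> simp <;> linarith

theorem Geo.fr {D : ℕ → Set ℂ} {H : ℕ → ℂ → Fin n → ℂ} {ρ : ℕ → ℂ → ℂ} (G : Geo p R s D H ρ)
    {i : ℕ} (hi : i ≤ n) {z : ℂ} (hz : z ∈ fr (s i) (s (i + 1)) R) : p.eval z ≠ 0 := by
  obtain ⟨h1, h2, h3⟩ := hz
  rw [← re_add_im z]
  rcases h3 with e | e | e | e
  · rw [e, ← G.sq i]
    exact pow_ne_zero _ (G.ver i (by omega) _ h2).2.2.2
  · rw [e, ← G.sq (i + 1)]
    exact pow_ne_zero _ (G.ver _ (by omega) _ h2).2.2.2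
  · rw [← G.sq 0]
    exact pow_ne_zero _ (G.hor i hi _ h1 _ (.inr e)).2.2.2
  · rw [← G.sq 0]
    exact pow_ne_zero _ (G.hor i hi _ h1 _ (.inl e)).2.2.2

theorem rb_srt (hn : Even n) (ha : StrictMono fun j => (1 * a j).re) (κ0 : κ ≠ 0)
    (hp : p = C (κ ^ 2) * ∏ j, (X - C (a j))) : ∃ M : Matrix (Fin n) (Fin n) ℂ, RB p M := by
  have c0 := pow_ne_zero 2 κ0
  have hd : p.natDegree = n + 1 := by
    rw [hp, natDegree_C_mul c0, natDegree_prod_of_monic _ _ fun _ _ => monic_X_sub_C _]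
    simp
  choose h hh using strip_prm ha c0 hp
  obtain ⟨R₀, h₀, h0⟩ := inf_ex hd hn
  obtain ⟨μ, hμ⟩ : ∃ μ : Fin n → ℂ, ∀ i, μ i = (a i.castSucc + a i.succ) / 2 := ⟨_, fun _ => rfl⟩
  obtain ⟨w, hw⟩ : ∃ w : Fin n → Fin n → ℂ, ∀ i, w i =
    rt κ a (i + 1) (μ i) • (h i.castSucc (μ i) - h i.succ (μ i)) := ⟨_, fun _ => rfl⟩
  obtain ⟨l1, l2, l3⟩ := lat_w ha c0 hp hh (η := fun i => rt κ a (i + 1) (μ i))
    (fun i => by rw [rt_sq, hμ, hp]) (w := w) fun i => by rw [hw, hμ]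
  obtain ⟨s, hs⟩ : ∃ s : ℝ → ℕ → ℝ, ∀ R m, s R m =
    if m = n + 1 then R else pad (-R) (fun i => (μ i).re) m := ⟨_, fun _ _ => rfl⟩
  have s0 : ∀ R, s R 0 = -R := fun R => by rw [hs, if_neg (by omega), pad_zero]
  have s1 : ∀ R, s R (n + 1) = R := fun R => by rw [hs, if_pos rfl]
  have s2 : ∀ R (i : Fin n), s R (i + 1) = (μ i).re := fun R i => by
    rw [hs, if_neg (by omega), pad_succ _ _ i.2]
  have key : ∀ᶠ R in atTop, (R₀ < R ∧ 1 ≤ R) ∧
      Geo p R (s R) (pad {z | R₀ < ‖z‖} fun i => strip 1 a i i) (pad h₀ h) (rt κ a) ∧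
      (∀ (i : Fin (n + 1)) (z : ℂ), z.re ∈ Icc (s R i) (s R (i + 1)) → z ∈ strip 1 a i i) ∧
      ∀ i : Fin n, ∃ y ∈ Icc (-R) R, w i = rt κ a (i + 1) (s R (i + 1) + y * I) •
        (pad h₀ h (i + 1) (s R (i + 1) + y * I) - pad h₀ h (i + 2) (s R (i + 1) + y * I)) := by
    filter_upwards [eventually_gt_atTop R₀, eventually_ge_atTop 1,
      eventually_all.2 fun j => eventually_gt_atTop ‖a j‖,
      eventually_all.2 fun j => eventually_ge_atTop |(μ j).im|] with R r0 r1 r2 r3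
    have K : ∀ m ≤ n + 1, ∀ j : Fin (n + 1),
        ((j : ℕ) < m → (a j).re < s R m) ∧ (m ≤ (j : ℕ) → s R m < (a j).re) := fun m hm j => by
      have b := abs_lt.1 ((abs_re_le_norm _).trans_lt (r2 j))
      rcases hm.eq_or_lt with rfl | hm
      · exact ⟨fun _ => b.2.trans_eq (s1 R).symm, fun e => absurd j.2 (not_lt.2 e)⟩
      rcases m with _ | m
      · exact ⟨fun e => absurd e (Nat.not_lt_zero _), fun _ => s0 R ▸ b.1⟩
      · have e := strip_mid ha ⟨m, by omega⟩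
        rw [s2 R ⟨m, by omega⟩, hμ]
        exact ⟨fun l => by simpa only [one_mul] using (e.2 j).1 l,
          fun l => by simpa only [one_mul] using (e.1 j).2 l⟩
    refine ⟨⟨r0, r1⟩, geo_mk κ0 hp hh h0 r0 (fun j => (abs_im_le_norm _).trans_lt (r2 j)) (s0 R)
      (s1 R) K, fun i z hz => strip_rect K i hz, fun i => ⟨_, abs_le.1 (r3 i), ?_⟩⟩
    rw [s2, re_add_im, pad_succ _ _ (i.2.trans n.lt_succ_self), pad_succ _ _ (Nat.succ_lt_succ i.2)]
    exact hw i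
  refine ⟨_, l1, l2, l3, ?_, fun q q0 hq => ?_⟩
  · obtain ⟨R, ⟨r0, r1⟩, G, g1, g2⟩ := key.exists
    convert h0.rc hd r0 using 1
    ext k l
    have e := G.bil hn (RingHom.id ℂ) continuous_id (Pi.single k 1) (Pi.single l 1)
      (Φ := fun m z => pad h₀ h m z k * z ^ (l : ℕ)) (fun m z y y0 _ => by
        simp [Pi.single_apply]
        field_simp) g2
    rw [Finset.sum_eq_zero fun i hi => bd_hol (G.mono i (Finset.mem_range_succ_iff.1 hi)) G.R0
      fun z z1 _ => by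
        rw [pad_succ _ _ (Finset.mem_range.1 hi)]
        obtain ⟨_, k1, -⟩ := hh ⟨i, Finset.mem_range.1 hi⟩ z (g1 _ z z1) k
        exact k1.differentiableAt.mul (differentiableAt_pow _), s0, s1, pad_zero, zero_sub,
      neg_mul, neg_inj] at e
    simp only [of_apply, e, mul_apply, transpose_apply, map_apply, single_one_dotProduct,
      RingHom.id_apply, Finset.sum_mul, Finset.mul_sum]
    rw [Finset.sum_comm]
    exact Finset.sum_congr rfl fun i _ => Finset.sum_congr rfl fun j _ => by ring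
  · obtain ⟨k, -⟩ := Function.ne_iff.1 q0
    have n2 : 1 < n := by
      obtain ⟨g, rfl⟩ := hn
      have := k.2
      omega
    obtain ⟨m, m0, hm⟩ := ar_pos p (sum_ne q0) (s := (μ ⟨0, by omega⟩).re) (t := (μ ⟨1, n2⟩).re) (by
      have b1 := ((strip_mid ha ⟨0, by omega⟩).1 ⟨1, by omega⟩).2 (Fin.mk_lt_mk.2 one_pos)
      have b2 := ((strip_mid ha ⟨1, n2⟩).2 ⟨1, by omega⟩).1 (Fin.mk_lt_mk.2 one_lt_two)
      simpa only [one_mul, hμ] using b1.trans b2)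
    obtain ⟨C', hC⟩ := h0.out hn hq
    obtain ⟨R, ⟨⟨r0, r1⟩, G, g1, g2⟩, r2⟩ := (key.and (((tendsto_const_nhds (x := C')).div_atTop
      tendsto_id).eventually (gt_mem_nhds m0 : ∀ᶠ x in 𝓝 (0 : ℝ), x < m))).exists
    have ev : ∀ z : ℂ, (∑ k : Fin n, C (q k) * X ^ (k : ℕ)).eval z = ∑ l, q l * z ^ (l : ℕ) :=
      fun z => by simp [eval_finsetSum]
    have e := congrArg im (G.bil hn (starRingEnd ℂ) continuous_conj q q
      (Φ := fun m z => (starRingEnd ℂ) ((q ⬝ᵥ pad h₀ h m z) * p.eval z) *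
        (∑ l : Fin n, q l * z ^ (l : ℕ)) / (‖p.eval z‖ : ℝ)) (fun m z y y0 e => by
        have y1 : (starRingEnd ℂ) y ≠ 0 := (_root_.map_ne_zero _).2 y0
        rw [← e, norm_pow, ofReal_pow, ← mul_conj', map_mul, map_mul, map_pow]
        field_simp) g2)
    have b : ∀ i (hi : i < n + 1), 2 * ∫ x : ℝ in s R i..s R (i + 1), ∫ y : ℝ in (-R)..R,
        ‖(∑ k : Fin n, C (q k) * X ^ (k : ℕ)).eval (x + y * I)‖ ^ 2 /
          √(‖p.eval (x + y * I)‖ ^ 2 + 1) ≤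
        (bd (fun z => (starRingEnd ℂ) ((q ⬝ᵥ pad h₀ h (i + 1) z) * p.eval z) *
          (∑ l : Fin n, q l * z ^ (l : ℕ)) / (‖p.eval z‖ : ℝ)) (s R i) (s R (i + 1)) R).im :=
      fun i hi => by
        rw [pad_succ _ _ hi]
        simpa only [ev] using gr_pos (strip_open _ _) (fun z hz => (hh ⟨i, hi⟩).dot q hz)
          (G.mono i (by omega)) G.R0 (fun z z1 _ => g1 ⟨i, hi⟩ z z1) fun z hz => G.fr (by omega) hz
    have b1 := Finset.single_le_sum (s := Finset.range (n + 1)) (a := 1)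
      (fun i hi => (mul_nonneg zero_le_two (ar_nn _ _ (G.mono i (Finset.mem_range_succ_iff.1 hi))
        G.R0)).trans (b i (Finset.mem_range.1 hi))) (Finset.mem_range.2 (by omega))
    have b2 := b 1 (by omega)
    have b3 := hm R r1
    rw [← s2 R ⟨0, by omega⟩, ← s2 R ⟨1, n2⟩] at b3
    have b4 := abs_le.1 ((abs_im_le_norm _).trans (hC R r0 r1))
    rw [sub_im, im_sum, s0, s1, pad_zero] at e
    have e2 : q ᵥ* (of fun k i => 2 * w i k) ⬝ᵥ (J0 n).map (Int.cast : ℤ → ℂ) *ᵥ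
        star (q ᵥ* (of fun k i => 2 * w i k)) = 4 * (starRingEnd ℂ) (∑ i : Fin n, ∑ j : Fin n,
          (starRingEnd ℂ) (q ⬝ᵥ w i) * (J0 n i j : ℂ) * (q ⬝ᵥ w j)) := by
      have e3 : q ᵥ* (of fun k i => 2 * w i k) = fun i => 2 * (q ⬝ᵥ w i) := funext fun i => by
        simp [vecMul, dotProduct, Finset.mul_sum, mul_left_comm]
      rw [e3, dotProduct, map_sum, Finset.mul_sum]
      refine Finset.sum_congr rfl fun i _ => ?_
      generalize q ⬝ᵥ w i = u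
      rw [mulVec, dotProduct, map_sum, Finset.mul_sum, Finset.mul_sum]
      refine Finset.sum_congr rfl fun j _ => ?_
      simp only [map_apply, Pi.star_apply, star_def, map_mul, conj_conj, map_intCast, map_ofNat]
      ring
    rw [e2]
    generalize ∑ i : Fin n, ∑ j : Fin n,
      (starRingEnd ℂ) (q ⬝ᵥ w i) * (J0 n i j : ℂ) * (q ⬝ᵥ w j) = β at e ⊢
    have e4 : (-2 * β).im = -2 * β.im := by simp
    have e5 : (-I * (4 * (starRingEnd ℂ) β)).re = -4 * β.im := by simp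
    simp only [id, zero_add] at r2 b3
    rw [e5]
    linarith [b4.1]

theorem rb_ex (hs : p.Separable) (hd : p.natDegree = n + 1) (hn : Even n) :
    ∃ M : Matrix (Fin n) (Fin n) ℂ, RB p M := by
  obtain ⟨ζ', a, h', h2⟩ := srt_ex hs hd
  have l0 := leadingCoeff_ne_zero.2 hs.ne_zero
  obtain ⟨ζ, ζ0, h1⟩ : ∃ ζ : ℂ, ζ ≠ 0 ∧ StrictMono fun j => (ζ * a j).re := by
    rcases eq_or_ne ζ' 0 with rfl | h
    · exact ⟨1, one_ne_zero, fun i j l => absurd (h' l) (by simp)⟩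
    · exact ⟨_, h, h'⟩
  generalize p.leadingCoeff = c at l0 h2
  obtain ⟨κ, hκ⟩ := IsAlgClosed.exists_pow_nat_eq (c * ζ⁻¹ ^ (n + 1)) two_pos
  obtain ⟨M, hM⟩ := rb_srt (p := p.comp (C ζ⁻¹ * X)) (a := fun j => ζ * a j) (κ := κ) hn
    (by simpa only [one_mul] using h1) (by
      rintro rfl
      exact mul_ne_zero l0 (pow_ne_zero _ (inv_ne_zero ζ0)) (hκ ▸ zero_pow two_ne_zero)) (by
      refine Polynomial.funext fun z => ?_
      rw [h2, hκ]
      simp only [eval_comp, eval_mul, eval_C, eval_X, eval_prod, eval_sub, mul_assoc]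
      rw [← Fin.prod_const, ← Finset.prod_mul_distrib]
      exact congrArg _ (Finset.prod_congr rfl fun j _ => by field_simp))
  exact ⟨_, hM.scale (inv_ne_zero ζ0)⟩

end

end Pool.Agent.Lib.MP_5591bc_ag.F
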