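import Pool.Agent.Lib.MP_5591bc_ag.F.RbD

/-! The numerical identity behind the bilinear relations. -/

namespace Pool.Agent.Lib.MP_5591bc_ag.F

open Set Polynomial Complex Matrix

theorem bk_tele {n : ℕ} (U A : ℕ → ℂ) (hA : ∀ m ≤ n + 1, A m - A (m + 1) = U m) (A0 : A 0 = 0)
    (m : ℕ) (hm : m ≤ n + 2) :
    A m = -∑ l ∈ Finset.range (n + 2), if l < m then U l else 0 := by
  have h1 : A m = -∑ l ∈ Finset.range m, U l := by
    induction m with
    | zero => simp [A0]
    | succ k ih =>
      rw [Finset.sum_range_succ, ← hA k (by omega), neg_add, ← ih (by omega)]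
      ring
  rw [h1, ← Finset.sum_filter]
  congr 2
  ext l
  simp only [Finset.mem_range, Finset.mem_filter]
  omega

theorem bk_parts (n : ℕ) (A G : ℕ → ℂ) :
    ∑ m ∈ Finset.range (n + 1), (A m - A (m + 1)) * G m +
      ∑ i ∈ Finset.range n, A (i + 1) * (G i - G (i + 1)) = A 0 * G 0 - A (n + 1) * G n := by
  induction n with
  | zero => simp [sub_mul]
  | succ k ih =>
    rw [Finset.sum_range_succ _ (k + 1),
      Finset.sum_range_succ (fun i => A (i + 1) * (G i - G (i + 1))) k]
    linear_combination ih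

theorem bk_row {n : ℕ} (hn : Even n) (V A' B' : ℕ → ℂ)
    (hA' : ∀ m ≤ n + 1, A' m - A' (m + 1) = V m) (A0' : A' 0 = 0) (A1' : A' (n + 2) = 0)
    (hB' : ∀ m ≤ n + 1, B' m - B' (m + 1) = (-1) ^ m * V m) (B0' : B' 0 = 0)
    (B1' : B' (n + 2) = 0) (i : Fin n) :
    A' (i + 1) - (-1) ^ ((i : ℕ) + 1) * B' (i + 1) =
      -2 * ∑ j : Fin n, (J0 n i j : ℂ) * V (j + 1) := by
  have hi := i.2
  have a1 := bk_tele V A' hA' A0' (i + 1) (by omega)
  have b1 := bk_tele (fun m => (-1) ^ m * V m) B' hB' B0' (i + 1) (by omega)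
  have a2 := bk_tele V A' hA' A0' (n + 2) le_rfl
  have b2 := bk_tele (fun m => (-1) ^ m * V m) B' hB' B0' (n + 2) le_rfl
  rw [Finset.sum_range_succ, Finset.sum_range_succ', Finset.sum_range] at a1 b1 a2 b2
  rw [if_pos (by omega), if_neg (by omega)] at a1 b1
  rw [if_pos (by omega), if_pos (by omega)] at a2 b2
  rw [A1'] at a2
  rw [B1', hn.add_one.neg_one_pow] at b2
  rw [Finset.mul_sum]
  rcases Nat.even_or_odd (i : ℕ) with h | h
  · have key : ∑ j : Fin n, -2 * ((J0 n i j : ℂ) * V (j + 1)) =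
        ∑ j : Fin n, ((if (j : ℕ) + 1 < n + 2 then V (j + 1) else 0) +
          (if (j : ℕ) + 1 < n + 2 then (-1) ^ ((j : ℕ) + 1) * V (j + 1) else 0) -
          (if (j : ℕ) + 1 < i + 1 then V (j + 1) else 0) -
          (if (j : ℕ) + 1 < i + 1 then (-1) ^ ((j : ℕ) + 1) * V (j + 1) else 0)) := by
      refine Finset.sum_congr rfl fun j _ => ?_
      have hj := j.2
      have h' := Nat.not_odd_iff_even.2 h
      rw [if_pos (by omega : (j : ℕ) + 1 < n + 2), if_pos (by omega : (j : ℕ) + 1 < n + 2)]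
      rcases Nat.even_or_odd (j : ℕ) with g | g
      · have g' := Nat.not_odd_iff_even.2 g
        simp only [J0, of_apply, h', g', false_and, and_false, if_false, g.add_one.neg_one_pow]
        split_ifs <;> simp
      · have ne : (i : ℕ) ≠ j := fun e => h' (e ▸ g)
        simp only [J0, of_apply, h', h, g, false_and, true_and, if_false, g.add_one.neg_one_pow,
          Fin.lt_def]
        split_ifs
        · omega
        · push_cast; ring
        · simp
        · omega
    rw [key, h.add_one.neg_one_pow]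
    simp only [Finset.sum_sub_distrib, Finset.sum_add_distrib]
    linear_combination a1 + b1 - a2 - b2
  · have key : ∑ j : Fin n, -2 * ((J0 n i j : ℂ) * V (j + 1)) =
        ∑ j : Fin n, ((if (j : ℕ) + 1 < i + 1 then (-1) ^ ((j : ℕ) + 1) * V (j + 1) else 0) -
          (if (j : ℕ) + 1 < i + 1 then V (j + 1) else 0)) := by
      refine Finset.sum_congr rfl fun j _ => ?_
      have h' := Nat.not_even_iff_odd.2 h
      rcases Nat.even_or_odd (j : ℕ) with g | g
      · simp only [J0, of_apply, h', h, g, false_and, true_and, if_false, g.add_one.neg_one_pow,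
          Fin.lt_def]
        split_ifs
        · push_cast; ring
        · omega
        · omega
        · simp
      · have g' := Nat.not_even_iff_odd.2 g
        simp only [J0, of_apply, h', g', false_and, and_false, if_false, g.add_one.neg_one_pow]
        split_ifs <;> simp
    rw [key, h.add_one.neg_one_pow]
    simp only [Finset.sum_sub_distrib]
    linear_combination a1 - b1

/-- `A m = - ∑ j < m, U j`, `B m = - ∑ j < m, (-1) ^ j U j`; the terms with `GT`, `GB` cancel and
`-2 ∑ (j < m, j + m odd), U m * V j` is left; the sums of `U` and of `V` over the even and over the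
odd indices vanish. (Checked numerically.) -/
theorem bk_num {n : ℕ} (hn : Even n) (U V A B A' B' GT GB : ℕ → ℂ)
    (hA : ∀ m ≤ n + 1, A m - A (m + 1) = U m) (A0 : A 0 = 0) (A1 : A (n + 2) = 0)
    (hB : ∀ m ≤ n + 1, B m - B (m + 1) = (-1) ^ m * U m) (B0 : B 0 = 0) (B1 : B (n + 2) = 0)
    (hA' : ∀ m ≤ n + 1, A' m - A' (m + 1) = V m) (A0' : A' 0 = 0) (A1' : A' (n + 2) = 0)
    (hB' : ∀ m ≤ n + 1, B' m - B' (m + 1) = (-1) ^ m * V m) (B0' : B' 0 = 0)
    (B1' : B' (n + 2) = 0) :
    ∑ m ∈ Finset.range (n + 2), U m * (GT m + A' m - (-1) ^ m * (GB m + B' m)) +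
      ∑ i ∈ Finset.range (n + 1),
        (A (i + 1) * (GT i - GT (i + 1)) + B (i + 1) * (GB (i + 1) - GB i)) =
      -2 * ∑ i : Fin n, ∑ j : Fin n, U (i + 1) * (J0 n i j : ℂ) * V (j + 1) := by
  have p1 := bk_parts (n + 1) A GT
  have p2 := bk_parts (n + 1) B GB
  rw [A0, A1] at p1
  rw [B0, B1] at p2
  have e1 : ∑ m ∈ Finset.range (n + 2), U m * (GT m + A' m - (-1) ^ m * (GB m + B' m)) =
      ∑ m ∈ Finset.range (n + 1 + 1), (A m - A (m + 1)) * GT m -
        ∑ m ∈ Finset.range (n + 1 + 1), (B m - B (m + 1)) * GB m +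
        ∑ m ∈ Finset.range (n + 2), U m * (A' m - (-1) ^ m * B' m) := by
    rw [← Finset.sum_sub_distrib, ← Finset.sum_add_distrib]
    refine Finset.sum_congr rfl fun m hm => ?_
    have hm' : m ≤ n + 1 := by
      have := Finset.mem_range.1 hm
      omega
    rw [hA m hm', hB m hm']
    ring
  have e2 : ∑ i ∈ Finset.range (n + 1),
        (A (i + 1) * (GT i - GT (i + 1)) + B (i + 1) * (GB (i + 1) - GB i)) =
      ∑ i ∈ Finset.range (n + 1), A (i + 1) * (GT i - GT (i + 1)) -
        ∑ i ∈ Finset.range (n + 1), B (i + 1) * (GB i - GB (i + 1)) := by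
    rw [← Finset.sum_sub_distrib]
    exact Finset.sum_congr rfl fun i _ => by ring
  have e3 : ∑ m ∈ Finset.range (n + 2), U m * (A' m - (-1) ^ m * B' m) =
      -2 * ∑ i : Fin n, ∑ j : Fin n, U (i + 1) * (J0 n i j : ℂ) * V (j + 1) := by
    have l1 := hA' (n + 1) le_rfl
    have l2 := hB' (n + 1) le_rfl
    rw [A1', sub_zero] at l1
    rw [B1', sub_zero, hn.add_one.neg_one_pow] at l2
    rw [Finset.sum_range_succ, Finset.sum_range_succ', Finset.sum_range, A0', B0', l1, l2,
      hn.add_one.neg_one_pow, Finset.mul_sum]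
    have : ∑ i : Fin n, U (i + 1) * (A' (i + 1) - (-1) ^ ((i : ℕ) + 1) * B' (i + 1)) =
        ∑ i : Fin n, -2 * ∑ j : Fin n, U (i + 1) * (J0 n i j : ℂ) * V (j + 1) := by
      refine Finset.sum_congr rfl fun i _ => ?_
      rw [bk_row hn V A' B' hA' A0' A1' hB' B0' B1' i, mul_left_comm, Finset.mul_sum]
      congr 1
      exact Finset.sum_congr rfl fun j _ => (mul_assoc _ _ _).symm
    rw [this]
    ring
  rw [e1, e2, e3]
  linear_combination p1 - p2

end Pool.Agent.Lib.MP_5591bc_ag.F
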