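import Pool.Agent.Lib.MP_5591bc_ag.F.Inv
import Pool.Agent.Lib.MP_5591bc_ag.F.Num

/-! Reduction of the order of the pole with small denominators. -/

namespace Pool.Agent.Lib.MP_5591bc_ag.F

open Polynomial Finset Filter Topology M

noncomputable section

variable {R : Type*} [CommRing R] [IsDomain R] [CharZero R]

omit [IsDomain R] [CharZero R] in
theorem red_bez {f g A B D : R[X]} (h : A * f + B * g = D) (i j : ℕ) :
    ∃ A' B', D ^ (i + j) = f ^ i * A' + g ^ j * B' := by
  have := Ideal.add_pow_mem_of_pow_mem_of_le (I := Ideal.span {f ^ i, g ^ j}) (a := A * f)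
    (b := B * g) (m := i) (n := j) (k := i + j)
    (by rw [mul_pow]; exact Ideal.mul_mem_left _ _ (Ideal.subset_span (by simp)))
    (by rw [mul_pow]; exact Ideal.mul_mem_left _ _ (Ideal.subset_span (by simp))) (Nat.le_succ _)
  obtain ⟨A', B', e⟩ := Ideal.mem_span_pair.1 this
  exact ⟨A', B', by rw [← h, ← e]; ring⟩

omit [CharZero R] in
theorem red_cancel {f p : R[X]} (hm : f.Monic) {c : R} (c0 : c ≠ 0) (h : f ∣ C c * p) : f ∣ p := by
  rw [← modByMonic_eq_zero_iff_dvd hm] at h ⊢
  rwa [← smul_eq_C_mul, smul_modByMonic, smul_eq_zero_iff_right c0] at h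

omit [IsDomain R] [CharZero R] in
theorem red_pow (f P : R[X]) (N b k : ℕ) : f ^ k ∣ tw derivative f N b (f ^ k * P) := by
  cases k with
  | zero => simp
  | succ k =>
    refine ⟨N * ((k + 1) * derivative f * P + f * derivative P) - b * P * derivative f, ?_⟩
    simp only [tw, derivative_mul, derivative_pow_succ, map_add, map_natCast, map_one]
    ring

omit [IsDomain R] [CharZero R] in
/-- integration by parts -/
theorem red_parts {f g : R[X]} {c : ℕ → R[X]} (c0 : c 0 = g)
    (hc : ∀ j : ℕ, derivative (c j) * derivative f -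
      (2 * j + 1) * c j * derivative (derivative f) = (j + 1) * c (j + 1)) {a N m d : ℕ}
    {z : ℕ → ℤ} (z0 : z 0 * (a + N * m : ℕ) = (d : ℕ))
    (hz : ∀ j < m, z (j + 1) * (a + N * (m - (j + 1)) : ℕ) = z j * N * (j + 1)) :
    ∃ Q : R[X], f ^ (m + 1) ∣ derivative f * tw derivative f N (a + N * m) Q -
      N * (2 * m + 1) * f * derivative (derivative f) * Q - d * derivative f ^ (2 * m + 2) * g := by
  have key : ∀ i r, i + r = m → ∃ Q : R[X], derivative f * tw derivative f N (a + N * m) Q -
      N * (2 * m + 1) * f * derivative (derivative f) * Q - d * derivative f ^ (2 * m + 2) * g =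
      -(z i * N * (i + 1) * derivative f ^ (2 * r) * f ^ (i + 1) * c (i + 1)) := by
    have one : ∀ i r, i + r = m → ∀ Q, Q = c i * derivative f ^ (2 * r) * f ^ i →
        derivative f * tw derivative f N (a + N * m) Q -
          N * (2 * m + 1) * f * derivative (derivative f) * Q =
        N * (i + 1) * derivative f ^ (2 * r) * f ^ (i + 1) * c (i + 1) -
          (a + N * r : ℕ) * derivative f ^ (2 * r + 2) * f ^ i * c i := by
      rintro i r rfl _ rfl
      have e1 : derivative f * derivative (derivative f ^ (2 * r)) =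
          2 * r * derivative (derivative f) * derivative f ^ (2 * r) := by
        cases r with
        | zero => simp
        | succ r =>
          rw [show 2 * (r + 1) = 2 * r + 1 + 1 by ring, derivative_pow_succ]
          simp only [map_add, map_natCast, map_one, map_mul, map_ofNat, Nat.cast_add, Nat.cast_mul,
            Nat.cast_ofNat, Nat.cast_one]
          ring
      have e2 : f * derivative (f ^ i) = i * derivative f * f ^ i := by
        cases i with
        | zero => simp
        | succ i =>
          rw [derivative_pow_succ]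
          simp only [map_add, map_natCast, map_one, Nat.cast_add, Nat.cast_one]
          ring
      simp only [tw, derivative_mul]
      push_cast
      linear_combination N * derivative f ^ (2 * r) * f ^ (i + 1) * hc i +
        N * c i * f ^ (i + 1) * e1 + N * c i * derivative f ^ (2 * r + 1) * e2
    intro i
    induction i with
    | zero =>
      intro r hr
      obtain rfl : r = m := by omega
      refine ⟨-(z 0 * (c 0 * derivative f ^ (2 * r) * f ^ 0)), ?_⟩
      have e := one 0 r hr _ rfl
      have e' := congrArg (Int.cast : ℤ → R[X]) z0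
      generalize c 0 * derivative f ^ (2 * r) * f ^ 0 = Q at e ⊢
      simp only [tw, derivative_neg, derivative_intCast_mul, c0] at e ⊢
      push_cast at e e' ⊢
      linear_combination -(z 0 : R[X]) * e + derivative f ^ (2 * r + 2) * g * e'
    | succ i ih =>
      intro r hr
      obtain ⟨Q, hQ⟩ := ih (r + 1) (by omega)
      refine ⟨Q - z (i + 1) * (c (i + 1) * derivative f ^ (2 * r) * f ^ (i + 1)), ?_⟩
      have e := one (i + 1) r hr _ rfl
      have e' := congrArg (Int.cast : ℤ → R[X]) (hz i (by omega))
      rw [show m - (i + 1) = r by omega] at e'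
      generalize c (i + 1) * derivative f ^ (2 * r) * f ^ (i + 1) = Q' at e ⊢
      simp only [tw, derivative_sub, derivative_intCast_mul] at e hQ ⊢
      push_cast at e e' hQ ⊢
      linear_combination hQ - (z (i + 1) : R[X]) * e +
        derivative f ^ (2 * r + 2) * f ^ (i + 1) * c (i + 1) * e'
  obtain ⟨Q, hQ⟩ := key m 0 rfl
  exact ⟨Q, hQ ▸ ((dvd_mul_left _ _).mul_right _).neg_right⟩

omit [IsDomain R] [CharZero R] in
theorem red_deg {f q : R[X]} {n k : ℕ} (hf : f.natDegree = n + 1) (hq : q.degree < k) (N b : ℕ) :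
    (tw derivative f N b q).degree < (k + n : ℕ) := by
  rcases eq_or_ne q 0 with rfl | q0
  · simp [tw]
  have q1 := (natDegree_lt_iff_degree_lt q0).2 hq
  have h1 : (derivative f).natDegree ≤ n := (natDegree_derivative_le f).trans (by omega)
  refine (degree_sub_le _ _).trans_lt (max_lt ?_ (degree_le_natDegree.trans_lt
    (Nat.cast_lt.2 (natDegree_mul_le.trans_lt ?_))))
  · rcases Nat.eq_zero_or_pos q.natDegree with h | h
    · rw [derivative_of_natDegree_zero h]; simp
    · refine degree_le_natDegree.trans_lt (Nat.cast_lt.2 (natDegree_mul_le.trans_lt ?_))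
      have := natDegree_mul_le (p := (N : R[X])) (q := derivative q)
      have := natDegree_derivative_le q
      have := natDegree_natCast (R := R) N
      omega
  · have := natDegree_mul_le (p := (b : R[X])) (q := q)
    have := natDegree_natCast (R := R) b
    omega

/-- the monic case -/
theorem red_monic {f A B : R[X]} {Δ : R} (hm : f.Monic) {n : ℕ} (hf : f.natDegree = n + 1)
    (Δ0 : Δ ≠ 0) (hΔ : A * f + B * derivative f = C Δ) {a N : ℕ} (a0 : 0 < a) (aN : a ≤ N) (m : ℕ)
    {g : R[X]} (hg : g.degree < ((m + 1) * (n + 1) + n : ℕ)) : ∃ q r : R[X], r.degree < n ∧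
      C ((Nat.lcmUpto (N * (m + 1)) * N : ℕ) * Δ ^ (3 * (m + 1))) * g =
        tw derivative f N (a + N * m) q + f ^ (m + 1) * r := by
  have f1 : derivative f ≠ 0 := fun h => by
    have := derivative_eq_zero.1 h
    omega
  obtain ⟨c, c0, hc⟩ := inv_c f g f1
  obtain ⟨z, z0, hz⟩ := num_z a0 aN m
  obtain ⟨Q, hQ⟩ := red_parts c0 hc z0 hz
  obtain ⟨A', B', e⟩ := red_bez hΔ (m + 1) (2 * m + 2)
  rw [show m + 1 + (2 * m + 2) = 3 * (m + 1) by ring] at e
  generalize Nat.lcmUpto (N * (m + 1)) * N = d at hQ ⊢
  have hM := hm.pow (m + 1)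
  obtain ⟨D, hD⟩ : ∃ D, D = C Δ ^ (3 * (m + 1)) := ⟨_, rfl⟩
  have dD : derivative D = 0 := by rw [hD, ← C_pow, derivative_C]
  rw [← hD] at e
  obtain ⟨q, hq⟩ : ∃ q, q = derivative f * B' * Q := ⟨_, rfl⟩
  have k1 : f ^ (m + 1) ∣ derivative f ^ (2 * m + 2) *
      (tw derivative f N (a + N * m) q - d * D * g) := by
    have e1 : derivative f ^ (2 * m + 1) * q = D * Q - f ^ (m + 1) * (A' * Q) := by
      rw [hq, e]; ring
    have e2 := congrArg derivative e1
    obtain ⟨u, hu⟩ := hQ
    obtain ⟨v, hv⟩ := red_pow f (A' * Q) N (a + N * m) (m + 1)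
    refine ⟨D * u - derivative f * v + N * (2 * m + 1) * f * derivative (derivative f) * (A' * Q),
      ?_⟩
    have e3 : derivative f * derivative (derivative f ^ (2 * m + 1)) =
        (2 * m + 1) * derivative (derivative f) * derivative f ^ (2 * m + 1) := by
      rw [derivative_pow_succ]
      simp only [map_add, map_natCast, map_one, map_mul, map_ofNat, Nat.cast_mul, Nat.cast_ofNat]
      ring
    rw [derivative_mul, derivative_sub, derivative_mul, dD] at e2
    simp only [tw] at hu hv ⊢
    linear_combination D * hu - derivative f * hv + N * f * derivative f * e2 - N * f * q * e3 -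
      ((a + N * m : ℕ) * derivative f ^ 2 + N * (2 * m + 1) * f * derivative (derivative f)) * e1
  have k2 : f ^ (m + 1) ∣ tw derivative f N (a + N * m) q - d * D * g := by
    refine red_cancel hM (pow_ne_zero (3 * (m + 1)) Δ0) ?_
    rw [C_pow, ← hD]
    generalize tw derivative f N (a + N * m) q - d * D * g = Y at k1 ⊢
    obtain ⟨u, hu⟩ := k1
    exact ⟨A' * Y + B' * u, by linear_combination Y * e + B' * hu⟩
  have k3 : f ^ (m + 1) ∣ d * D * g - tw derivative f N (a + N * m) (q %ₘ f ^ (m + 1)) := by
    have := (red_pow f (q /ₘ f ^ (m + 1)) N (a + N * m) (m + 1)).sub k2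
    have e1 := modByMonic_add_div q (f ^ (m + 1))
    generalize q %ₘ f ^ (m + 1) = q0, f ^ (m + 1) * (q /ₘ f ^ (m + 1)) = Z at e1 this ⊢
    rw [← e1] at this
    refine this.trans (dvd_of_eq ?_)
    simp only [tw, derivative_add]
    ring
  obtain ⟨r, hr⟩ := k3
  refine ⟨q %ₘ f ^ (m + 1), r, ?_, by rw [← hr, map_mul, map_pow, map_natCast, ← hD]; ring⟩
  have d1 : (f ^ (m + 1)).degree = ((m + 1) * (n + 1) : ℕ) := by
    rw [degree_eq_natDegree hM.ne_zero, hm.natDegree_pow, hf]
  have d2 := red_deg hf (d1 ▸ degree_modByMonic_lt q hM) N (a + N * m)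
  have d3 : (d * D * g).degree < ((m + 1) * (n + 1) + n : ℕ) := by
    rw [hD, ← C_pow, ← map_natCast C, ← C_mul, ← smul_eq_C_mul]
    exact (degree_smul_le _ _).trans_lt hg
  have d4 := (degree_sub_le _ _).trans_lt (max_lt d3 d2)
  rw [hr, degree_mul, d1, Nat.cast_add] at d4
  exact lt_of_add_lt_add_left d4

end

end Pool.Agent.Lib.MP_5591bc_ag.F
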