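import Pool.Agent.Lib.MP_5591bc_ag.F.Red

/-! The reduction for any leading coefficient; independence of the forms. -/

namespace Pool.Agent.Lib.MP_5591bc_ag.F

open Polynomial Finset Filter Topology M

noncomputable section

variable {R : Type*} [CommRing R] [IsDomain R] [CharZero R]

omit [IsDomain R] [CharZero R] in
theorem redL_scale (c : R) (p : R[X]) :
    (p.scaleRoots c).comp (C c * X) = C (c ^ p.natDegree) * p := by
  ext i
  rw [comp_C_mul_X_coeff, coeff_scaleRoots, coeff_C_mul]
  rcases le_or_gt i p.natDegree with h | h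
  · rw [mul_assoc, ← pow_add, Nat.sub_add_cancel h, mul_comm]
  · rw [coeff_eq_zero_of_natDegree_lt h, zero_mul, zero_mul, mul_zero]

omit [IsDomain R] [CharZero R] in
theorem redL_deg (c : R) {p : R[X]} {k : ℕ} (h : p.degree < k) :
    (p.comp (C c * X)).degree < k := by
  rw [degree_lt_iff_coeff_zero] at h ⊢
  intro i hi
  rw [comp_C_mul_X_coeff, h i hi, zero_mul]

omit [IsDomain R] [CharZero R] in
theorem redL_degC (c : R) {p : R[X]} {k : ℕ} (h : p.degree < k) : (C c * p).degree < k := by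
  rw [degree_lt_iff_coeff_zero] at h ⊢
  intro i hi
  rw [coeff_C_mul, h i hi, mul_zero]

omit [IsDomain R] [CharZero R] in
theorem redL_ex (c : R) {p : R[X]} {D : ℕ} (h : p.natDegree ≤ D) :
    ∃ p' : R[X], (∀ k : ℕ, p.degree < k → p'.degree < k) ∧
      p'.comp (C c * X) = C (c ^ D) * p := by
  refine ⟨C (c ^ (D - p.natDegree)) * p.scaleRoots c, fun k hk => redL_degC _ ?_, ?_⟩
  · rwa [degree_scaleRoots]
  · rw [mul_comp, C_comp, redL_scale, ← mul_assoc, ← C_mul, ← pow_add, Nat.sub_add_cancel h]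

omit [CharZero R] in
theorem redL_inj {c : R} (c0 : c ≠ 0) {p p' : R[X]} (h : p.comp (C c * X) = p'.comp (C c * X)) :
    p = p' := by
  ext i
  have := congrArg (coeff · i) h
  simp only [comp_C_mul_X_coeff] at this
  exact mul_right_cancel₀ (pow_ne_zero i c0) this

omit [IsDomain R] [CharZero R] in
theorem redL_der (c : R) (p : R[X]) :
    derivative (p.comp (C c * X)) = C c * (derivative p).comp (C c * X) := by
  rw [derivative_comp]
  simp

theorem red_lc {f A B : R[X]} {Δ : R} {n : ℕ} (hf : f.natDegree = n + 1)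
    (Δ0 : Δ ≠ 0) (hΔ : A * f + B * derivative f = C Δ) : ∃ e : ℕ, ∀ {a N : ℕ}, 0 < a → a ≤ N →
    ∀ (m : ℕ) {g : R[X]}, g.degree < ((m + 1) * (n + 1) + n : ℕ) → ∃ q r : R[X], r.degree < n ∧
      C ((Nat.lcmUpto (N * (m + 1)) * N : ℕ) * (f.leadingCoeff * Δ) ^ (e * (m + 1))) * g =
        tw derivative f N (a + N * m) q + f ^ (m + 1) * r := by
  have f0 : f ≠ 0 := fun h => by simp [h] at hf
  have c0 : f.leadingCoeff ≠ 0 := leadingCoeff_ne_zero.2 f0
  have h1 : f.integralNormalization.comp (C f.leadingCoeff * X) =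
      C (f.leadingCoeff ^ n) * f := by
    have h := redL_scale f.leadingCoeff f
    rw [← integralNormalization_mul_C_leadingCoeff, mul_comp, C_comp, hf] at h
    refine mul_right_cancel₀ (C_ne_zero.2 c0) (h.trans ?_)
    rw [pow_succ, C_mul]
    ring
  have hm := monic_integralNormalization f0
  have hd : f.integralNormalization.natDegree = n + 1 := by
    rw [natDegree_integralNormalization, hf]
  generalize f.integralNormalization = F at h1 hm hd
  generalize f.leadingCoeff = c at c0 h1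
  have h2 : C c * (derivative F).comp (C c * X) = C (c ^ n) * derivative f := by
    rw [← redL_der, h1, derivative_C_mul]
  obtain ⟨A', -, hA⟩ := redL_ex c (le_max_left A.natDegree B.natDegree)
  obtain ⟨B', -, hB⟩ := redL_ex c (le_max_right A.natDegree B.natDegree)
  generalize max A.natDegree B.natDegree = D at hA hB
  have h3 : A' * F + C c * B' * derivative F = C (c ^ (D + n) * Δ) := by
    refine redL_inj c0 ?_
    rw [add_comp, mul_comp, mul_comp, mul_comp, C_comp, C_comp, hA, hB, h1, C_mul, ← hΔ, pow_add,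
      C_mul]
    linear_combination (C (c ^ D) * B) * h2
  refine ⟨3 * (D + n) + 2 * (n + 1) + 3, fun {a N} a0 aN m g hg => ?_⟩
  obtain ⟨g', hg1, hg2⟩ := redL_ex c (D := (m + 1) * (n + 1) + n) (p := g)
    (natDegree_le_iff_degree_le.2 hg.le)
  obtain ⟨q, r, hr, h4⟩ := red_monic hm hd (mul_ne_zero (pow_ne_zero _ c0) Δ0) h3 a0 aN m
    (hg1 _ hg)
  have h5 := congrArg (comp · (C c * X)) h4
  simp only [tw, add_comp, sub_comp, mul_comp, pow_comp, C_comp, natCast_comp, hg2, h1] at h5
  obtain ⟨k, hk⟩ : ∃ k : R, (c * Δ) ^ ((3 * (D + n) + 2 * (n + 1) + 3) * (m + 1)) =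
      k * c * ((c ^ (D + n) * Δ) ^ (3 * (m + 1)) * c ^ ((m + 1) * (n + 1) + n)) :=
    ⟨c ^ (m * (n + 1) + 3 * (m + 1)) * Δ ^ ((3 * (D + n) + 2 * (n + 1)) * (m + 1)), by ring⟩
  refine ⟨C (k * c ^ n) * q.comp (C c * X), C (k * c * (c ^ n) ^ (m + 1)) * r.comp (C c * X),
    redL_degC _ (redL_deg c hr), ?_⟩
  rw [hk, tw, derivative_C_mul, redL_der]
  generalize ((Nat.lcmUpto (N * (m + 1)) * N : ℕ) : R) = L at h5 ⊢
  generalize (c ^ (D + n) * Δ) ^ (3 * (m + 1)) = E at h5 ⊢
  generalize c ^ ((m + 1) * (n + 1) + n) = G at h5 ⊢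
  generalize c ^ n = H at h5 h2 ⊢
  simp only [C_mul, C_pow, mul_pow] at h5 ⊢
  linear_combination (C k * C c) * h5 - (C k * ((a + N * m : ℕ) : R[X]) * q.comp (C c * X)) * h2

omit [IsDomain R] [CharZero R] in
theorem redL_X (p : R[X]) (i : ℕ) : (X * derivative p).coeff i = i * p.coeff i := by
  cases i with
  | zero => simp
  | succ i => rw [coeff_X_mul, coeff_derivative, mul_comm, Nat.cast_succ]

omit [IsDomain R] [CharZero R] in
theorem redL_Xd (p : R[X]) : (X * derivative p).natDegree ≤ p.natDegree :=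
  natDegree_le_iff_coeff_eq_zero.2 fun i hi => by
    rw [redL_X, coeff_eq_zero_of_natDegree_lt hi, mul_zero]

theorem redL_base {f : R[X]} {n : ℕ} (hf : f.natDegree = n + 1) {N b : ℕ} (b0 : 0 < b)
    {q r : R[X]} (hr : r.degree < n)
    (h : N * derivative q * f + b * q * derivative f = r) : r = 0 := by
  have f0 : f ≠ 0 := fun h => by simp [h] at hf
  have h1 : X * r = C (N : R) * (X * derivative q * f) + C (b : R) * (q * (X * derivative f)) := by
    rw [← h, map_natCast, map_natCast]
    ring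
  have h2 := congrArg (coeff · (q.natDegree + f.natDegree)) h1
  simp only [coeff_add, coeff_C_mul] at h2
  rw [coeff_mul_add_eq_of_natDegree_le (redL_Xd q) le_rfl,
    coeff_mul_add_eq_of_natDegree_le le_rfl (redL_Xd f), redL_X, redL_X, coeff_natDegree,
    coeff_natDegree, hf, ← add_assoc, coeff_X_mul,
    (degree_lt_iff_coeff_zero _ _).1 hr _ (Nat.le_add_left _ _)] at h2
  have h3 : ((N * q.natDegree + b * (n + 1) : ℕ) : R) * (q.leadingCoeff * f.leadingCoeff) = 0 := by
    push_cast at h2 ⊢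
    linear_combination -h2
  have h4 : q = 0 := by
    have := (mul_eq_zero.1 h3).resolve_left (Nat.cast_ne_zero.2 (by positivity))
    exact leadingCoeff_eq_zero.1
      ((mul_eq_zero.1 this).resolve_right (leadingCoeff_ne_zero.2 f0))
  rw [← h, h4]
  simp

theorem redL_ind {f A B : R[X]} {Δ : R} {n : ℕ} (hf : f.natDegree = n + 1)
    (Δ0 : Δ ≠ 0) (hΔ : A * f + B * derivative f = C Δ) {a b : ℕ} (a0 : 0 < a) (b0 : 0 < b)
    (m : ℕ) : ∀ q r : R[X], r.degree < n → ((a + b : ℕ) : R[X]) * derivative q * f +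
      (b - (a + b) * m) * q * derivative f = f ^ m * r → r = 0 := by
  have f0 : f ≠ 0 := fun h => by simp [h] at hf
  induction m with
  | zero =>
    intro q r hr h
    exact redL_base hf (N := a + b) b0 (q := q) hr (by simpa using h)
  | succ m ih =>
    intro q r hr h
    have k0 : ((a + (a + b) * m : ℕ) : R) * Δ ≠ 0 :=
      mul_ne_zero (Nat.cast_ne_zero.2 (by positivity)) Δ0
    have hC : C (((a + (a + b) * m : ℕ) : R) * Δ) =
        (a + (a + b) * m) * (A * f + B * derivative f) := by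
      rw [C_mul, map_natCast, hΔ]
      push_cast
      rfl
    obtain ⟨q1, h1⟩ : ∃ q1, C (((a + (a + b) * m : ℕ) : R) * Δ) * q = f * q1 :=
      ⟨(a + (a + b) * m) * A * q + B * ((a + b) * derivative q - f ^ m * r), by
        rw [hC]
        push_cast at h
        linear_combination (-B) * h⟩
    have h2 := congrArg derivative h1
    rw [derivative_C_mul, derivative_mul] at h2
    generalize ((a + (a + b) * m : ℕ) : R) * Δ = k at k0 h1 h2
    have h3 := ih q1 (C k * r) (redL_degC k hr) (mul_left_cancel₀ f0 (by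
      push_cast at h ⊢
      linear_combination C k * h - ((a + b) * f) * h2 +
        ((a + (a + b) * m) * derivative f) * h1))
    exact (mul_eq_zero.1 h3).resolve_left (C_ne_zero.2 k0)

/-- the forms `x ^ i dx / f ^ (a / N)`, `i < n`, are independent modulo exact forms -/
theorem red_uniq {f A B : R[X]} {Δ : R} {n : ℕ} (hf : f.natDegree = n + 1)
    (Δ0 : Δ ≠ 0) (hΔ : A * f + B * derivative f = C Δ) {a N : ℕ} (a0 : 0 < a) (aN : a < N) (m : ℕ)
    {q r : R[X]} (hr : r.degree < n) (h : tw derivative f N (a + N * m) q = f ^ (m + 1) * r) :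
    r = 0 := by
  obtain ⟨b, rfl⟩ := Nat.exists_eq_add_of_le aN.le
  refine redL_ind hf Δ0 hΔ a0 (b := b) (by omega) (m + 1) q r hr ?_
  rw [← h, tw]
  push_cast
  ring

end

end Pool.Agent.Lib.MP_5591bc_ag.F
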